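import Pool.Agent.Lib.MP_d61fbb_ag.SQ.TD

/-! Tate coordinates from a tower of division points. -/

set_option autoImplicit false

noncomputable section

namespace Pool.Agent.Lib.MP_d61fbb_ag.SQ

open Matrix Equiv IsLocalRing Polynomial

variable {l : ℕ} [Fact l.Prime] {ι A : Type} [Fintype ι] [DecidableEq ι] [AddCommGroup A]

/-- `m / l ^ k` represents `v` modulo the integers. -/
def t0Rel (v : ℚ_[l]) (k : ℕ) (m : ℤ) : Prop := ‖v - m * ((l : ℚ_[l]) ^ k)⁻¹‖ ≤ 1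

theorem t0_ne : (l : ℚ_[l]) ≠ 0 := Nat.cast_ne_zero.2 (Fact.out : l.Prime).ne_zero

theorem t0_up {v : ℚ_[l]} {k : ℕ} {m : ℤ} (h : t0Rel v k m) (j : ℕ) :
    t0Rel v (k + j) (m * (l : ℤ) ^ j) := by
  have e : ((m * (l : ℤ) ^ j : ℤ) : ℚ_[l]) * ((l : ℚ_[l]) ^ (k + j))⁻¹ =
      m * ((l : ℚ_[l]) ^ k)⁻¹ := by
    have := t0_ne (l := l)
    push_cast
    field_simp
    ring
  unfold t0Rel
  rw [e]
  exact h

theorem t0_exists (v : ℚ_[l]) : ∃ k m, t0Rel v k m := by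
  have hl : (1 : ℝ) < l := by exact_mod_cast (Fact.out : l.Prime).one_lt
  obtain ⟨k, hk⟩ := pow_unbounded_of_one_lt ‖v‖ hl
  have hw : ‖(l : ℚ_[l]) ^ k * v‖ ≤ 1 := by
    rw [norm_mul, norm_pow, Padic.norm_p, inv_pow, inv_mul_le_iff₀ (by positivity), mul_one]
    exact hk.le
  obtain ⟨u, hu⟩ := Ideal.mem_span_singleton'.1 (PadicInt.appr_spec k (⟨_, hw⟩ : ℤ_[l]))
  have h1 := congrArg (fun z : ℤ_[l] => (z : ℚ_[l])) hu
  simp only [PadicInt.coe_mul, PadicInt.coe_pow, PadicInt.coe_natCast, PadicInt.coe_sub] at h1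
  generalize PadicInt.appr (⟨_, hw⟩ : ℤ_[l]) k = a at h1
  refine ⟨k, (a : ℕ), ?_⟩
  have h2 : v - ((a : ℕ) : ℤ) * ((l : ℚ_[l]) ^ k)⁻¹ = u := by
    have := pow_ne_zero k (t0_ne (l := l))
    push_cast
    field_simp
    linear_combination -h1
  unfold t0Rel
  rw [h2]
  exact u.2

theorem t0_sub {v w : ℚ_[l]} (hv : ‖v‖ ≤ 1) (hw : ‖w‖ ≤ 1) : ‖v - w‖ ≤ 1 :=
  (PadicInt.subring l).sub_mem hv hw

theorem t0_add {v w : ℚ_[l]} (hv : ‖v‖ ≤ 1) (hw : ‖w‖ ≤ 1) : ‖v + w‖ ≤ 1 :=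
  (PadicInt.subring l).add_mem hv hw

theorem t0_dvd {v : ℚ_[l]} {k : ℕ} {m m' : ℤ} (h : t0Rel v k m) (h' : t0Rel v k m') :
    (l : ℤ) ^ k ∣ m - m' := by
  have hl : (0 : ℝ) < l := by exact_mod_cast (Fact.out : l.Prime).pos
  have h1 := t0_sub h' h
  have e : v - m' * ((l : ℚ_[l]) ^ k)⁻¹ - (v - m * ((l : ℚ_[l]) ^ k)⁻¹) =
      ((m - m' : ℤ) : ℚ_[l]) * ((l : ℚ_[l]) ^ k)⁻¹ := by
    push_cast
    ring
  rw [e, norm_mul, norm_inv, norm_pow, Padic.norm_p, inv_pow, inv_inv,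
    ← le_div_iff₀ (by positivity), one_div] at h1
  rw [← Padic.norm_int_le_pow_iff_dvd, _root_.zpow_neg, _root_.zpow_natCast]
  exact h1

omit [DecidableEq ι] in
theorem t0_common (v : ι → ℚ_[l]) : ∃ (k : ℕ) (m : ι → ℤ), ∀ i, t0Rel (v i) k (m i) := by
  choose k m h using fun i => t0_exists (v i)
  refine ⟨∑ i, k i, fun i => m i * (l : ℤ) ^ (∑ i, k i - k i), fun i => ?_⟩
  have hi : k i ≤ ∑ i, k i :=
    Finset.single_le_sum (f := k) (fun _ _ => Nat.zero_le _) (Finset.mem_univ i)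
  have := t0_up (h i) (∑ i, k i - k i)
  rwa [Nat.add_sub_cancel' hi] at this

omit [Fact l.Prime] in
theorem t0_tower {t : ℕ → A} (h1 : ∀ k, l • t (k + 1) = t k) (k j : ℕ) :
    (l : ℤ) ^ j • t (k + j) = t k := by
  induction j with
  | zero => simp
  | succ j ih => rw [pow_succ, mul_smul, ← add_assoc, natCast_zsmul, h1, ih]

theorem t0_wd {t : ℕ → A} (h0 : t 0 = 0) (h1 : ∀ k, l • t (k + 1) = t k) {v : ℚ_[l]} {k k' : ℕ}
    {m m' : ℤ} (h : t0Rel v k m) (h' : t0Rel v k' m') : m • t k = m' • t k' := by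
  have a := t0_up h k'
  have b := t0_up h' k
  rw [add_comm k' k] at b
  obtain ⟨c, hc⟩ := t0_dvd a b
  have z : (l : ℤ) ^ (k + k') • t (k + k') = 0 := by
    have := t0_tower h1 0 (k + k')
    rwa [zero_add, h0] at this
  have e' := t0_tower h1 k' k
  rw [add_comm k' k] at e'
  rw [← t0_tower h1 k k', ← e', ← mul_smul, ← mul_smul, ← sub_eq_zero, ← sub_smul, hc, mul_comm,
    mul_smul, z, smul_zero]

theorem t0_one {t : ℕ → A} (h0 : t 0 = 0) (h1 : ∀ k, l • t (k + 1) = t k) :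
    ∃ φ : ℚ_[l] →+ A, ∀ v k m, t0Rel v k m → φ v = m • t k := by
  choose k m h using t0_exists (l := l)
  have key : ∀ v k' m', t0Rel v k' m' → m v • t (k v) = m' • t k' := fun v _ _ h' =>
    t0_wd h0 h1 (h v) h'
  refine ⟨AddMonoidHom.mk' (fun v => m v • t (k v)) fun v w => ?_, key⟩
  have a := t0_up (h v) (k w)
  have b := t0_up (h w) (k v)
  rw [add_comm (k w) (k v)] at b
  have c : t0Rel (v + w) (k v + k w) (m v * (l : ℤ) ^ k w + m w * (l : ℤ) ^ k v) := by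
    have := t0_add a b
    unfold t0Rel
    rw [Int.cast_add, add_mul, add_sub_add_comm]
    exact this
  rw [key _ _ _ c, key _ _ _ a, key _ _ _ b, add_smul]

omit [Fact l.Prime] [DecidableEq ι] in
theorem t0_indep {s : ι → ℕ → A} (h1 : ∀ i k, l • s i (k + 1) = s i k)
    (hi : ∀ c : ι → ℤ, ∑ i, c i • s i 1 = 0 → ∀ i, (l : ℤ) ∣ c i) (k : ℕ) :
    ∀ m : ι → ℤ, ∑ i, m i • s i k = 0 → ∀ i, (l : ℤ) ^ k ∣ m i := by
  induction k with
  | zero => intro m _ i; simp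
  | succ k ih =>
    intro m hm
    have a : ∑ i, m i • s i 1 = 0 := by
      have := congrArg (fun x => (l : ℤ) ^ k • x) hm
      simp only [Finset.smul_sum, smul_zero] at this
      rw [← this]
      refine Finset.sum_congr rfl fun i _ => ?_
      rw [smul_comm, add_comm k 1, t0_tower (h1 i) 1 k]
    choose c hc using hi m a
    have b : ∑ i, c i • s i k = 0 := by
      rw [← hm]
      refine Finset.sum_congr rfl fun i _ => ?_
      rw [hc, mul_comm, mul_smul, natCast_zsmul, h1]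
    intro i
    rw [hc, pow_succ']
    exact mul_dvd_mul_left _ (ih c b i)

omit [Fact l.Prime] [DecidableEq ι] in
theorem t0_span {s : ι → ℕ → A} (h1 : ∀ i k, l • s i (k + 1) = s i k)
    (hs : ∀ x : A, l • x = 0 → ∃ c : ι → ℤ, x = ∑ i, c i • s i 1) (k : ℕ) :
    ∀ x : A, l ^ k • x = 0 → ∃ m : ι → ℤ, x = ∑ i, m i • s i k := by
  induction k with
  | zero => intro x hx; exact ⟨0, by simpa using hx⟩
  | succ k ih =>
    intro x hx
    obtain ⟨m, hm⟩ := ih (l • x) (by rw [← mul_smul, ← pow_succ, hx])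
    obtain ⟨c, hc⟩ := hs (x - ∑ i, m i • s i (k + 1)) (by
      rw [smul_sub, hm, Finset.smul_sum, sub_eq_zero]
      exact Finset.sum_congr rfl fun i _ => by rw [smul_comm, h1])
    refine ⟨fun i => m i + c i * (l : ℤ) ^ k, ?_⟩
    rw [sub_eq_iff_eq_add'] at hc
    rw [hc, ← Finset.sum_add_distrib]
    refine Finset.sum_congr rfl fun i _ => ?_
    rw [add_smul, mul_smul, add_comm k 1, t0_tower (h1 i) 1 k]

theorem tate_of_tower (s : ι → ℕ → A) (h0 : ∀ i, s i 0 = 0) (h1 : ∀ i k, l • s i (k + 1) = s i k)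
    (hi : ∀ c : ι → ℤ, ∑ i, c i • s i 1 = 0 → ∀ i, (l : ℤ) ∣ c i)
    (hs : ∀ x : A, l • x = 0 → ∃ c : ι → ℤ, x = ∑ i, c i • s i 1) :
    ∃ e : (ι → ℚ_[l]) →+ A, IsTate e ∧ ∀ i k, e (Pi.single i ((l : ℚ_[l]) ^ k)⁻¹) = s i k := by
  choose φ hφ using fun i => t0_one (h0 i) (h1 i)
  let e : (ι → ℚ_[l]) →+ A := AddMonoidHom.mk' (fun v => ∑ i, φ i (v i)) fun v w => by
    simp only [Pi.add_apply, map_add, Finset.sum_add_distrib]
  have he : ∀ v k (m : ι → ℤ), (∀ i, t0Rel (v i) k (m i)) → e v = ∑ i, m i • s i k :=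
    fun v k m h => Finset.sum_congr rfl fun i _ => hφ i _ _ _ (h i)
  refine ⟨e, ⟨fun v => ⟨fun hv i => ?_, fun hv => ?_⟩, fun x => ⟨?_, ?_⟩⟩, fun i k => ?_⟩
  · obtain ⟨k, m, h⟩ := t0_common v
    obtain ⟨c, hc⟩ := t0_indep h1 hi k m ((he v k m h).symm.trans hv) i
    have a := t0_add (h i) (Padic.norm_int_le_one (p := l) c)
    have b : v i - m i * ((l : ℚ_[l]) ^ k)⁻¹ + c = v i := by
      have := pow_ne_zero k (t0_ne (l := l))
      rw [hc]
      push_cast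
      field_simp
      ring
    rwa [b] at a
  · rw [he v 0 0 fun i => by simpa [t0Rel] using hv i]
    simp
  · rintro ⟨v, rfl⟩
    obtain ⟨k, m, h⟩ := t0_common v
    refine ⟨k, ?_⟩
    rw [he v k m h, Finset.smul_sum]
    refine Finset.sum_eq_zero fun i _ => ?_
    have := t0_tower (h1 i) 0 k
    rw [zero_add, h0] at this
    rw [smul_comm, ← natCast_zsmul, Nat.cast_pow, this, smul_zero]
  · rintro ⟨k, hk⟩
    obtain ⟨m, hm⟩ := t0_span h1 hs k x hk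
    refine ⟨fun i => m i * ((l : ℚ_[l]) ^ k)⁻¹, ?_⟩
    rw [hm]
    exact he _ k m fun i => by simp [t0Rel]
  · rw [he _ k (Pi.single i 1) fun j => by
      by_cases hj : j = i
      · subst hj
        simp [t0Rel]
      · simp [t0Rel, hj]]
    simp [Pi.single_apply]

end Pool.Agent.Lib.MP_d61fbb_ag.SQ
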