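import Pool.Agent.Lib.MP_d61fbb_ag.SQ.TD

/-! The matrix of an endomorphism in Tate coordinates. -/

set_option autoImplicit false

noncomputable section

namespace Pool.Agent.Lib.MP_d61fbb_ag.SQ

open Matrix Equiv IsLocalRing Polynomial

variable {l : ℕ} [Fact l.Prime] {ι A : Type} [Fintype ι] [DecidableEq ι] [AddCommGroup A]

variable {e : (ι → ℚ_[l]) →+ A} {θ θ' : AddMonoid.End A} {M M' : Matrix ι ι ℚ_[l]}

theorem rep_one : Rep e 1 1 := fun v => by rw [one_mulVec, AddMonoid.End.one_apply]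

theorem Rep.mul (h : Rep e θ M) (h' : Rep e θ' M') : Rep e (θ * θ') (M * M') := fun v => by
  rw [← mulVec_mulVec, h, h']
  rfl

theorem Rep.t2_add (h : Rep e θ M) (h' : Rep e θ' M') : Rep e (θ + θ') (M + M') := fun v => by
  rw [add_mulVec, map_add, h, h']
  rfl

theorem Rep.t2_zsmul (h : Rep e θ M) (a : ℤ) : Rep e (a • θ) (a • M) := fun v => by
  rw [smul_mulVec, map_zsmul, h]
  rfl

theorem Rep.sub (h : Rep e θ M) (h' : Rep e θ' M') : Rep e (θ - θ') (M - M') := fun v => by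
  rw [sub_mulVec, map_sub, h, h']
  rfl

theorem Rep.pow (h : Rep e θ M) (n : ℕ) : Rep e (θ ^ n) (M ^ n) := by
  induction n with
  | zero => rw [pow_zero, pow_zero]; exact rep_one
  | succ n ih => rw [pow_succ, pow_succ]; exact ih.mul h

theorem Rep.aeval (h : Rep e θ M) (q : ℤ[X]) : Rep e (aeval θ q) (aeval M q) := by
  induction q using Polynomial.induction_on' with
  | add p q hp hq => rw [map_add, map_add]; exact hp.t2_add hq
  | monomial n a =>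
    rw [aeval_monomial, aeval_monomial, eq_intCast, eq_intCast, ← zsmul_eq_mul, ← zsmul_eq_mul]
    exact (h.pow n).t2_zsmul a

theorem Rep.sum {J : Type} (s : Finset J) {θ : J → AddMonoid.End A} {M : J → Matrix ι ι ℚ_[l]}
    (h : ∀ j ∈ s, Rep e (θ j) (M j)) : Rep e (∑ j ∈ s, θ j) (∑ j ∈ s, M j) := by
  classical
  induction s using Finset.induction_on with
  | empty =>
    intro v
    rw [Finset.sum_empty, Finset.sum_empty, zero_mulVec, map_zero]
    rfl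
  | insert j s hj ih =>
    rw [Finset.sum_insert hj, Finset.sum_insert hj]
    exact (h j (Finset.mem_insert_self _ _)).t2_add
      (ih fun k hk => h k (Finset.mem_insert_of_mem hk))

theorem t2_col (M : Matrix ι ι ℚ_[l]) (i j : ι) (c : ℚ_[l]) :
    (M *ᵥ Pi.single j c) i = M i j * c := by
  rw [mulVec_single]
  rfl

omit [Fintype ι] in
theorem t2_single (he : IsTate e) (j : ι) {c : ℚ_[l]} (hc : ‖c‖ ≤ 1) : e (Pi.single j c) = 0 :=
  (he.1 _).2 fun i => by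
    by_cases hi : i = j
    · rwa [hi, Pi.single_eq_same]
    · rw [Pi.single_eq_of_ne hi, norm_zero]; exact zero_le_one

theorem t2_ne : (l : ℚ_[l]) ≠ 0 := Nat.cast_ne_zero.2 (Fact.out : l.Prime).ne_zero

theorem t2_norm (k : ℕ) : ‖((l : ℚ_[l]) ^ k)⁻¹‖ = (l : ℝ) ^ k := by
  rw [norm_inv, norm_pow, Padic.norm_p, inv_pow, inv_inv]

theorem t2_appr (x : ℚ_[l]) : ∃ k m : ℕ, ‖x - m • ((l : ℚ_[l]) ^ k)⁻¹‖ ≤ 1 := by
  have h1 : (1 : ℝ) < l := by exact_mod_cast (Fact.out : l.Prime).one_lt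
  obtain ⟨k, hk⟩ := pow_unbounded_of_one_lt ‖x‖ h1
  have h2 : ‖(l : ℚ_[l]) ^ k * x‖ ≤ 1 := by
    rw [norm_mul, norm_pow, Padic.norm_p, inv_pow, inv_mul_le_iff₀ (by positivity), mul_one]
    exact hk.le
  obtain ⟨y, hy⟩ := Ideal.mem_span_singleton.1 (PadicInt.appr_spec k ⟨_, h2⟩)
  generalize PadicInt.appr ⟨_, h2⟩ k = m at hy
  refine ⟨k, m, ?_⟩
  have h3 : (l : ℚ_[l]) ^ k * x - m = (l : ℚ_[l]) ^ k * y := by
    simpa using congrArg (fun z : ℤ_[l] => (z : ℚ_[l])) hy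
  have h4 : (l : ℚ_[l]) ^ k ≠ 0 := pow_ne_zero _ t2_ne
  have h5 : x - m • ((l : ℚ_[l]) ^ k)⁻¹ = y := by
    rw [nsmul_eq_mul]
    field_simp
    linear_combination h3
  rw [h5]
  exact y.2

theorem Rep.int (he : IsTate e) (h : Rep e θ M) (i j : ι) : ‖M i j‖ ≤ 1 := by
  have h1 := h (Pi.single j 1)
  rw [t2_single he j norm_one.le, map_zero] at h1
  simpa only [t2_col, mul_one] using (he.1 _).1 h1 i

theorem Rep.eq_zero (he : IsTate e) (h : Rep e θ M)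
    (h0 : ∀ (x : A) (N : ℕ), l ^ N • x = 0 → θ x = 0) : M = 0 := by
  ext i j
  by_contra hn
  have hn' : M i j ≠ 0 := hn
  obtain ⟨N, hN⟩ := (he.2 _).1 ⟨Pi.single j ((M i j)⁻¹ * ((l : ℚ_[l]) ^ 1)⁻¹), rfl⟩
  have h1 := (he.1 _).1 ((h _).trans (h0 _ N hN)) i
  rw [t2_col, mul_inv_cancel_left₀ hn', t2_norm, pow_one] at h1
  exact absurd (Fact.out : l.Prime).one_lt (not_lt.2 (by exact_mod_cast h1))

theorem Rep.unique (he : IsTate e) (h : Rep e θ M) (h' : Rep e θ M') : M = M' :=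
  sub_eq_zero.1 ((h.sub h').eq_zero he fun x _ _ => by rw [sub_self]; rfl)

theorem rep_of_gen (he : IsTate e) (hM : ∀ i j, ‖M i j‖ ≤ 1)
    (h : ∀ (i : ι) (k : ℕ), e (M *ᵥ Pi.single i ((l : ℚ_[l]) ^ k)⁻¹) =
      θ (e (Pi.single i ((l : ℚ_[l]) ^ k)⁻¹))) : Rep e θ M := by
  intro v
  rw [← Finset.univ_sum_single v, mulVec_sum, map_sum, map_sum, map_sum]
  refine Finset.sum_congr rfl fun j _ => ?_
  obtain ⟨k, m, hk⟩ := t2_appr (v j)
  have h1 : (Pi.single j (v j) : ι → ℚ_[l]) = Pi.single j (v j - m • ((l : ℚ_[l]) ^ k)⁻¹) +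
      m • (Pi.single j ((l : ℚ_[l]) ^ k)⁻¹ : ι → ℚ_[l]) := by
    rw [← Pi.single_smul, ← Pi.single_add, sub_add_cancel]
  have h2 : e (M *ᵥ Pi.single j (v j - m • ((l : ℚ_[l]) ^ k)⁻¹)) = 0 := (he.1 _).2 fun i => by
    rw [t2_col, norm_mul]
    exact mul_le_one₀ (hM i j) (norm_nonneg _) hk
  rw [h1, mulVec_add, mulVec_smul, map_add, map_add, h2, t2_single he j hk, map_add, map_zero,
    map_nsmul, map_nsmul, map_nsmul, h]

theorem t2_column (he : IsTate e) (y : ℕ → A) (h0 : y 0 = 0) (h1 : ∀ k, l • y (k + 1) = y k) :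
    ∃ w : ι → ℚ_[l], ∀ k : ℕ, e (((l : ℚ_[l]) ^ k)⁻¹ • w) = y k := by
  have ht : ∀ k, l ^ k • y k = 0 := fun k => by
    induction k with
    | zero => rw [h0, nsmul_zero]
    | succ k ih => rw [pow_succ, mul_smul, h1, ih]
  choose u hu using fun k => (he.2 (y k)).2 ⟨k, ht k⟩
  have hc : ∀ k : ℕ, IsClosed {w : ι → ℚ_[l] | e (((l : ℚ_[l]) ^ k)⁻¹ • w) = y k} := fun k => by
    have : {w : ι → ℚ_[l] | e (((l : ℚ_[l]) ^ k)⁻¹ • w) = y k} =
        ⋂ i, {w | ‖(((l : ℚ_[l]) ^ k)⁻¹ • w - u k) i‖ ≤ 1} := by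
      ext w
      simp only [Set.mem_iInter, Set.mem_ofPred_eq]
      rw [← he.1, map_sub, hu, sub_eq_zero]
    rw [this]
    exact isClosed_iInter fun i => isClosed_le (by fun_prop) continuous_const
  refine Exists.imp (fun w hw => Set.mem_iInter.1 hw)
    (IsCompact.nonempty_iInter_of_sequence_nonempty_isCompact_isClosed
      (fun k : ℕ => {w : ι → ℚ_[l] | e (((l : ℚ_[l]) ^ k)⁻¹ • w) = y k}) (fun k w hw => ?_)
      (fun k => ⟨(l : ℚ_[l]) ^ k • u k, ?_⟩) ?_ hc)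
  · have hw' : e (((l : ℚ_[l]) ^ (k + 1))⁻¹ • w) = y (k + 1) := hw
    change e _ = _
    rw [← h1, ← hw', ← map_nsmul, ← Nat.cast_smul_eq_nsmul ℚ_[l], smul_smul, pow_succ, mul_inv,
      mul_left_comm, mul_inv_cancel₀ t2_ne, mul_one]
  · change e _ = _
    rw [inv_smul_smul₀ (pow_ne_zero _ t2_ne), hu]
  · refine (isCompact_closedBall (0 : ι → ℚ_[l]) 1).of_isClosed_subset (hc 0) fun w hw => ?_
    have hw' : e (((l : ℚ_[l]) ^ 0)⁻¹ • w) = y 0 := hw
    rw [pow_zero, inv_one, one_smul, h0] at hw'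
    exact mem_closedBall_zero_iff.2 ((pi_norm_le_iff_of_nonneg zero_le_one).2 ((he.1 w).1 hw'))

theorem rep_exists (he : IsTate e) (θ : AddMonoid.End A) : ∃ M, Rep e θ M := by
  have h0 : ∀ j : ι, θ (e (Pi.single j ((l : ℚ_[l]) ^ 0)⁻¹)) = 0 := fun j => by
    rw [pow_zero, inv_one, t2_single he j norm_one.le, map_zero]
  choose w hw using fun j : ι => t2_column he (fun k => θ (e (Pi.single j ((l : ℚ_[l]) ^ k)⁻¹)))
    (h0 j) fun k => by
      rw [← map_nsmul, ← map_nsmul, ← Pi.single_smul, nsmul_eq_mul, pow_succ, mul_inv,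
        mul_left_comm, mul_inv_cancel₀ t2_ne, mul_one]
  refine ⟨Matrix.of fun i j => w j i, rep_of_gen he (fun i j => ?_) fun j k => ?_⟩
  · have h1 := (hw j 0).trans (h0 j)
    rw [pow_zero, inv_one, one_smul] at h1
    exact (he.1 _).1 h1 i
  · rw [← hw j k]
    congr 1
    funext i
    rw [t2_col, mul_comm]
    rfl

theorem rep_small (he : IsTate e) (k : ℕ) : ∃ F : Finset A, ∀ θ M, Rep e θ M → (∀ x ∈ F, θ x = x) →
    ∀ i j, ‖(M - 1) i j‖ ≤ ((l : ℝ) ^ k)⁻¹ := by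
  classical
  refine ⟨Finset.univ.image fun j : ι => e (Pi.single j ((l : ℚ_[l]) ^ k)⁻¹), fun θ M h hF i j => ?_⟩
  have h1 := (h.sub rep_one) (Pi.single j ((l : ℚ_[l]) ^ k)⁻¹)
  have h2 := (he.1 _).1 (h1.trans (sub_eq_zero.2
    (hF _ (Finset.mem_image_of_mem _ (Finset.mem_univ j))))) i
  have h3 : (0 : ℝ) < (l : ℝ) ^ k := pow_pos (Nat.cast_pos.2 (Fact.out : l.Prime).pos) k
  rw [t2_col, norm_mul, t2_norm] at h2
  rw [inv_eq_one_div, le_div_iff₀ h3]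
  exact h2

end Pool.Agent.Lib.MP_d61fbb_ag.SQ
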