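import Pool.Agent.Lib.MP_d61fbb_ag.SQ.T0
import Pool.Agent.Lib.MP_d61fbb_ag.SQ.T1
import Pool.Agent.Lib.MP_d61fbb_ag.SQ.T2
import Pool.Agent.Lib.MP_d61fbb_ag.SQ.T3

/-! Existence of adapted Tate coordinates. -/

set_option autoImplicit false

noncomputable section

namespace Pool.Agent.Lib.MP_d61fbb_ag.SQ

open Matrix Equiv IsLocalRing Polynomial

variable {l q d : ℕ} [Fact l.Prime] [NeZero q] {Γ A : Type} [Group Γ] [AddCommGroup A] {zt : AddMonoid.End A}
  {P : Fin (d + 1) → A} {act : Γ →* AddMonoid.End A} {pm : Γ →* Perm (Fin (d + 1))}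
  {nu : Γ →* ℤ_[l]ˣ}

theorem mem_OO {x : PadicAlgCl l} : x ∈ OO l ↔ ‖x‖ ≤ 1 := by
  rw [OO, Valuation.mem_valuationSubring_iff, PadicAlgCl.valuation_def, ← NNReal.coe_le_coe]
  rfl

theorem residue_OO {x : OO l} : residue (OO l) x = 0 ↔ ‖(x : PadicAlgCl l)‖ < 1 := by
  rw [residue_eq_zero_iff]
  refine (Valuation.mem_maximalIdeal_iff (v := (Valued.v : Valuation (PadicAlgCl l) NNReal))).trans ?_
  rw [PadicAlgCl.valuation_def, ← NNReal.coe_lt_coe]
  rfl

theorem lift_blk {r : ℕ} (hq : q = l ^ r) {ζ : PadicAlgCl l} (hζ : IsPrimitiveRoot ζ q)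
    {M : Matrix (Ix q d) (Ix q d) ℚ_[l]}
    (hM : ∀ x y, ‖M x y‖ ≤ 1) {π : Perm (Fin (d + 1))}
    (h : ∀ i i', ‖∑ j, M (i, j) (i', i0 q) - Hm ℚ_[l] π i i'‖ < 1) (a : (ZMod q)ˣ) :
    Lift (OO l) (blk ζ a (M.map (algebraMap _ _))) (Hm _ π) := by
  have hl := (Fact.out : l.Prime)
  have hn : ∀ x : ℚ_[l], ‖algebraMap ℚ_[l] (PadicAlgCl l) x‖ = ‖x‖ := PadicAlgCl.norm_extends l
  have hz : ‖ζ‖ ≤ 1 := by
    have h1 := congrArg norm hζ.pow_eq_one
    rw [norm_pow, norm_one] at h1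
    exact ((pow_eq_one_iff_of_nonneg (norm_nonneg _) (NeZero.ne q)).1 h1).le
  let z : OO l := ⟨ζ, mem_OO.2 hz⟩
  let m : Ix q d → Ix q d → OO l := fun x y =>
    ⟨algebraMap _ _ (M x y), mem_OO.2 ((hn _).trans_le (hM x y))⟩
  have h0 : ((l : ℕ) : ResidueField (OO l)) = 0 := by
    rw [← map_natCast (residue (OO l)), residue_OO]
    have : (((l : ℕ) : OO l) : PadicAlgCl l) = algebraMap ℚ_[l] _ (l : ℚ_[l]) := by simp
    rw [this, hn]
    exact Padic.norm_p_lt_one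
  have hc : CharP (ResidueField (OO l)) l := (CharP.charP_iff_prime_eq_zero hl).2 h0
  have hr : residue (OO l) z = 1 := by
    have h1 : z ^ q = 1 := Subtype.ext hζ.pow_eq_one
    have h2 := sub_pow_char_pow (p := l) (residue (OO l) z) 1 r
    rw [← hq, ← map_pow, h1, map_one, one_pow, sub_self] at h2
    exact sub_eq_zero.1 (pow_eq_zero_iff (NeZero.ne q) |>.1 h2)
  refine ⟨Matrix.of fun i i' => ∑ j, m (i, j) (i', i0 q) * z ^ ((a : ZMod q).val * j), ?_, ?_⟩
  · ext i i'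
    simp [blk_apply, m, z]
  · ext i i'
    rw [← Hm_map (OO l) (residue (OO l)) π]
    simp only [Matrix.map_apply, Matrix.of_apply, map_sum, map_mul, map_pow, hr, one_pow, mul_one]
    rw [← map_sum, ← sub_eq_zero, ← map_sub, residue_OO]
    have h3 : ((Hm (OO l) π i i' : OO l) : PadicAlgCl l) =
        algebraMap ℚ_[l] _ (Hm ℚ_[l] π i i') := by
      have e1 := congrFun (congrFun (Hm_map (OO l) (OO l).subtype π) i) i'
      have e2 := congrFun (congrFun (Hm_map ℚ_[l] (algebraMap ℚ_[l] (PadicAlgCl l)) π) i) i'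
      exact e1.trans e2.symm
    have h4 : ((∑ j, m (i, j) (i', i0 q) - Hm (OO l) π i i' : OO l) : PadicAlgCl l) =
        algebraMap ℚ_[l] _ (∑ j, M (i, j) (i', i0 q) - Hm ℚ_[l] π i i') := by
      rw [map_sub, ← h3]
      simp [m]
    rw [h4, hn]
    exact h i i'

theorem t4_zm (hn : aeval zt (cyclotomic q ℤ) = 0) (u : Fin d → A) (y : Ix q d) :
    ∑ x : Ix q d, Zm ℤ q d x y • (zt ^ (x.2 : ℕ)) (u x.1) = zt ((zt ^ (y.2 : ℕ)) (u y.1)) := by
  have e0 : zt ((zt ^ (y.2 : ℕ)) (u y.1)) = (zt ^ ((y.2 : ℕ) + 1)) (u y.1) := by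
    rw [pow_succ']
    rfl
  rw [e0, Fintype.sum_prod_type, Finset.sum_eq_single y.1]
  · by_cases c : (y.2 : ℕ) + 1 < q.totient
    · rw [Finset.sum_eq_single (⟨y.2 + 1, c⟩ : Fin q.totient)]
      · simp [Zm, c]
      · intro j _ hj
        have : (j : ℕ) ≠ y.2 + 1 := fun e => hj (Fin.ext e)
        simp [Zm, c, this]
      · simp
    · have h1 : (y.2 : ℕ) + 1 = q.totient := by have := y.2.2; omega
      have h3 := DFunLike.congr_fun (t3_cyc hn) (u y.1)
      rw [h1]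
      simp only [Zm, c, if_true, if_false, neg_smul, Int.cast_id, Finset.sum_neg_distrib]
      rw [neg_eq_iff_add_eq_zero]
      have h4 := AddMonoidHom.finsetSum_apply (fun j : Fin q.totient =>
        ((cyclotomic q ℤ).coeff j • zt ^ (j : ℕ) : A →+ A)) Finset.univ (u y.1)
      exact (congrArg (· + (zt ^ q.totient) (u y.1)) h4.symm).trans h3
  · intro i _ hi
    simp [Zm, hi]
  · simp

theorem t4_int {ι : Type} [Fintype ι] [DecidableEq ι] (e : (ι → ℚ_[l]) →+ A) (c : ι → ℤ)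
    (r : ℚ_[l]) : e (fun x => (c x : ℚ_[l]) * r) = ∑ x, c x • e (Pi.single x r) := by
  simp only [← map_zsmul]
  rw [← map_sum]
  congr 1
  ext x
  simp [Finset.sum_apply, Pi.single_apply]

theorem t4_red (x : ℚ_[l]) (hx : ‖x‖ ≤ 1) : ∃ (n : ℤ) (y : ℤ_[l]), x = n + l * y := by
  obtain ⟨n, -, hn⟩ := PadicInt.exists_mem_range (p := l) ⟨x, hx⟩
  rw [PadicInt.maximalIdeal_eq_span_p, Ideal.mem_span_singleton] at hn
  obtain ⟨y, hy⟩ := hn
  refine ⟨n, y, ?_⟩
  have := congrArg (fun w : ℤ_[l] => (w : ℚ_[l])) hy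
  simp only [PadicInt.coe_sub, PadicInt.coe_mul, PadicInt.coe_natCast] at this
  rw [Int.cast_natCast]
  linear_combination this

theorem JNew.tate (h : JNew l q d zt P) : ∃ e : (Ix q d → ℚ_[l]) →+ A, IsTate e ∧
    Rep e zt (Zm _ q d) ∧ ∀ (θ : AddMonoid.End A) (M : Matrix (Ix q d) (Ix q d) ℚ_[l])
      (π : Perm (Fin (d + 1))), θ * zt = zt * θ → Rep e θ M → (∀ i, θ (P i) = P (π i)) →
      ∀ i i', ‖∑ j, M (i, j) (i', i0 q) - Hm ℚ_[l] π i i'‖ < 1 := by
  have hl := (Fact.out : l.Prime)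
  have hl0 : (l : ℚ_[l]) ≠ 0 := Nat.cast_ne_zero.2 hl.ne_zero
  obtain ⟨t, ht1, ht2, ht3, ht4⟩ := h.basis
  choose dv hdv using h.div
  let T : Fin d → ℕ → A := fun i k => Nat.casesOn k 0 fun k => dv^[k] (t i)
  have hT : ∀ i k, l • T i (k + 1) = T i k := by
    intro i k
    cases k with
    | zero => exact ht2 i
    | succ k =>
      change l • dv^[k + 1] (t i) = dv^[k] (t i)
      rw [Function.iterate_succ_apply', hdv]
  obtain ⟨e, he, hs⟩ := tate_of_tower (l := l) (fun (x : Ix q d) k => (zt ^ (x.2 : ℕ)) (T x.1 k))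
    (fun x => map_zero _) (fun x k => by rw [← map_nsmul, hT]) ht3 ht4
  refine ⟨e, he, rep_of_gen he (fun x y => ?_) fun y k => ?_, fun θ M π hc hM hP i i' => ?_⟩
  · simp only [Zm]
    split_ifs <;> simp [Padic.norm_int_le_one]
  · have e1 : Zm ℚ_[l] q d *ᵥ Pi.single y ((l : ℚ_[l]) ^ k)⁻¹ =
        fun x => (Zm ℤ q d x y : ℚ_[l]) * ((l : ℚ_[l]) ^ k)⁻¹ := by
      rw [← Zm_map (Int.castRingHom ℚ_[l])]
      ext x
      simp [mulVec_single]
    rw [e1, t4_int]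
    simp only [hs]
    exact t4_zm h.norm (fun i => T i k) y
  · choose m y hm using fun x => t4_red (M x (i', i0 q)) (hM.int he x (i', i0 q))
    have e1 : M *ᵥ Pi.single (i', i0 q) ((l : ℚ_[l]) ^ 1)⁻¹ =
        (fun x => (m x : ℚ_[l]) * ((l : ℚ_[l]) ^ 1)⁻¹) + fun x => (y x : ℚ_[l]) := by
      ext x
      simp only [mulVec_single, Pi.add_apply, Pi.smul_apply, col_apply, MulOpposite.smul_eq_mul_unop,
        MulOpposite.unop_op, hm x]
      field_simp
    have e2 := hM (Pi.single (i', i0 q) ((l : ℚ_[l]) ^ 1)⁻¹)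
    rw [e1, map_add, (he.1 _).2 fun x => (y x).2, add_zero, t4_int] at e2
    simp only [hs] at e2
    have e3 : ∑ x : Ix q d, m x • (zt ^ (x.2 : ℕ)) (t x.1) = θ (t i') := e2
    have hfix : ∀ x, zt (P x) = P x := fun x =>
      (h.ker _).2 ⟨Pi.single x 1, by simp [Pi.single_apply]⟩
    have hfix' : ∀ (j : ℕ) x, (zt ^ j) (P x) = P x := by
      intro j x
      induction j with
      | zero => rfl
      | succ j ih =>
        rw [pow_succ']
        change zt ((zt ^ j) (P x)) = P x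
        rw [ih, hfix]
    have hcm : ∀ φ : AddMonoid.End A, Commute φ zt → ∀ w,
        ((1 - zt) ^ (q.totient - 1)) (φ w) = φ (((1 - zt) ^ (q.totient - 1)) w) := fun φ hφ w =>
      (DFunLike.congr_fun (((Commute.one_right φ).sub_right hφ).pow_right (q.totient - 1)).eq w).symm
    have e4 := congrArg ((1 - zt) ^ (q.totient - 1) : AddMonoid.End A) e3
    rw [hcm θ hc, ht1, hP, map_sum] at e4
    simp only [map_zsmul, hcm _ ((Commute.refl zt).pow_left _), ht1, hfix'] at e4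
    rw [Fintype.sum_prod_type] at e4
    simp only [← Finset.sum_smul] at e4
    let a : Fin (d + 1) → ℤ := fun x => (Fin.lastCases 0 (fun i => ∑ j, m (i, j)) x : ℤ) -
      if π i'.castSucc = x then 1 else 0
    have e5 : ∑ x, a x • P x = 0 := by
      simp only [a, sub_smul, Finset.sum_sub_distrib]
      rw [Fin.sum_univ_castSucc]
      simp [e4]
    obtain ⟨c, hc'⟩ := (h.rel a).1 e5 i.castSucc (Fin.last d)
    have e6 : ∑ j, m (i, j) - Hm ℤ π i i' = l * c := by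
      rw [← hc']
      simp only [a, Fin.lastCases_castSucc, Fin.lastCases_last, Hm_apply, qv]
      ring
    have e7 : (Hm ℤ π i i' : ℚ_[l]) = Hm ℚ_[l] π i i' :=
      congrFun (congrFun (Hm_map ℤ (Int.castRingHom ℚ_[l]) π) i) i'
    have e8 := congrArg (Int.cast : ℤ → ℚ_[l]) e6
    push_cast at e8
    have e9 : ∑ j, M (i, j) (i', i0 q) - Hm ℚ_[l] π i i' =
        l * ((c + ∑ j, y (i, j) : ℤ_[l]) : ℚ_[l]) := by
      simp only [hm, Finset.sum_add_distrib, ← Finset.mul_sum, ← e7]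
      have : ((∑ j, y (i, j) : ℤ_[l]) : ℚ_[l]) = ∑ j, (y (i, j) : ℚ_[l]) :=
        map_sum PadicInt.Coe.ringHom _ _
      rw [PadicInt.coe_add, this, PadicInt.coe_intCast]
      linear_combination e8
    rw [e9, norm_mul]
    exact mul_lt_one_of_nonneg_of_lt_one_left (norm_nonneg _) Padic.norm_p_lt_one
      (c + ∑ j, y (i, j) : ℤ_[l]).2

theorem Geo.tat (h : Geo l q d zt P act pm nu) (hj : JNew l q d zt P) :
    ∃ e ρ ζ R nu', Tat l q d zt act pm nu e ρ ζ R nu' := by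
  obtain ⟨e, he, hz, hθ⟩ := hj.tate
  obtain ⟨r0, hq⟩ := hj.pw
  choose r hr using fun γ => rep_exists he (act γ)
  let ρ : Γ →* Matrix (Ix q d) (Ix q d) ℚ_[l] :=
    { toFun := r
      map_one' := (hr 1).unique he (by rw [map_one]; exact rep_one)
      map_mul' := fun a b => (hr (a * b)).unique he (by rw [map_mul]; exact (hr a).mul (hr b)) }
  have hc : ∀ γ, r γ * Zm _ q d = Zm _ q d * r γ := fun γ =>
    ((hr γ).mul hz).unique he (by rw [h.comm]; exact hz.mul (hr γ))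
  have hc' : ∀ γ, (r γ).map (algebraMap ℚ_[l] (PadicAlgCl l)) * Zm _ q d =
      Zm _ q d * (r γ).map (algebraMap ℚ_[l] (PadicAlgCl l)) := fun γ => by
    rw [← Zm_map (algebraMap ℚ_[l] (PadicAlgCl l)), ← Matrix.map_mul, ← Matrix.map_mul, hc]
  obtain ⟨ζ, hζ⟩ := HasEnoughRootsOfUnity.exists_primitiveRoot (PadicAlgCl l) q
  let R : (ZMod q)ˣ → Γ →* Mat d (PadicAlgCl l) := fun a =>
    { toFun := fun γ => blk ζ a ((ρ γ).map (algebraMap _ _))
      map_one' := by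
        rw [map_one, Matrix.map_one _ (map_zero _) (map_one _), blk_one]
      map_mul' := fun x y => by
        rw [map_mul, Matrix.map_mul]
        exact blk_mul hζ (hc' x) (hc' y) a }
  refine ⟨e, ρ, ζ, R, (algebraMap ℚ_[l] (PadicAlgCl l)).toMonoidHom.comp
    (PadicInt.Coe.ringHom.toMonoidHom.comp ((Units.coeHom _).comp nu)),
    he, hz, hr, hc, hζ, fun _ _ => rfl, fun _ => rfl, fun a γ => ?_⟩
  exact lift_blk hq hζ ((hr γ).int he) (hθ _ _ _ (h.comm γ) (hr γ) (h.perm γ)) a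

end Pool.Agent.Lib.MP_d61fbb_ag.SQ
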