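import Pool.Agent.Lib.MP_d61fbb_ag.SQ.C3

/-! Units are constants; the moving lemma. -/

set_option autoImplicit false

noncomputable section

namespace Pool.Agent.Lib.MP_d61fbb_ag.SQ

open Polynomial Function

theorem c5_val {k L : Type} [Field k] [Field L] [Algebra k L] {x : L} (hx : Transcendental k x) :
    ∃ V : ValuationSubring L, V.valuation.IsTrivialOn k ∧ 1 < V.valuation x := by
  have hx0 : x ≠ 0 := fun e => hx (e ▸ isAlgebraic_zero)
  let A : Subring L := (aeval x⁻¹ : k[X] →ₐ[k] L).range.toSubring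
  have hm : x⁻¹ ∈ A := ⟨X, aeval_X _⟩
  have hI : Ideal.span {(⟨x⁻¹, hm⟩ : A)} ≠ ⊤ := by
    rw [Ne, Ideal.span_singleton_eq_top, isUnit_iff_exists_inv]
    rintro ⟨⟨_, p, rfl⟩, h⟩
    refine hx (IsAlgebraic.inv_iff.1 ⟨X * p - 1, fun e => ?_, ?_⟩)
    · simpa using congrArg (Polynomial.eval 0) e
    · rw [map_sub, map_mul, aeval_X, map_one, sub_eq_zero]
      exact congrArg Subtype.val h
  obtain ⟨V, h1, h2⟩ := Ideal.image_subset_nonunits_valuationSubring _ hI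
  have h3 : ∀ c : k, V.valuation (algebraMap k L c) ≤ 1 := fun c =>
    (V.valuation_le_one_iff _).2 (h1 ⟨C c, aeval_C _ _⟩)
  refine ⟨V, ⟨fun c hc => le_antisymm (h3 c) ?_⟩, ?_⟩
  · have h4 := h3 c⁻¹
    rwa [map_inv₀, map_inv₀, inv_le_one₀ ((Valuation.pos_iff _).2 ((_root_.map_ne_zero _).2 hc))] at h4
  · have h4 : V.valuation x⁻¹ < 1 := h2 ⟨_, Ideal.subset_span rfl, rfl⟩
    rwa [map_inv₀, inv_lt_one₀ ((Valuation.pos_iff _).2 hx0)] at h4

theorem c5_avoid {k ι : Type} [Field k] [Infinite k] {S : Set ι} (hS : S.Finite) (a b : ι → k)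
    (h : ∀ i ∈ S, a i = 0 → b i ≠ 0) : ∃ c, ∀ i ∈ S, a i + c * b i ≠ 0 := by
  obtain ⟨c, hc⟩ := (hS.image fun i => -a i / b i).exists_notMem
  refine ⟨c, fun i hi e => ?_⟩
  by_cases hb : b i = 0
  · rw [hb, mul_zero, add_zero] at e
    exact h i hi e hb
  · exact hc ⟨i, hi, by rw [div_eq_iff hb]; linear_combination -e⟩

variable {k : Type} [Field k] {l : ℕ} {f : k[X]} [Sm l f]

omit [Sm l f] in
theorem c5_pl (g : k[X]) : pl l f g = aeval (pl l f X) g :=
  DFunLike.congr_fun (Polynomial.ringHom_ext (f := pl l f)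
    (g := (aeval (pl l f X) : k[X] →ₐ[k] Fn l f)) (fun c => by simp [pl_C]) (by simp)) g

theorem c5_key {V : ValuationSubring (Fn l f)} [V.valuation.IsTrivialOn k]
    (hx : 1 < V.valuation (pl l f X)) {G : k[X][X]} (hG : G.degree < l) (h0 : G ≠ 0) :
    ∃ N : ℕ, V.valuation (io l f (AdjoinRoot.mk _ G)) ^ l = V.valuation (pl l f X) ^ N ∧
      ∀ i ∈ G.support, l * (G.coeff i).natDegree + f.natDegree * i ≤ N := by
  classical
  have hs : Sm l f := inferInstance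
  have hv : ∀ g : k[X], g ≠ 0 → V.valuation (pl l f g) = V.valuation (pl l f X) ^ g.natDegree :=
    fun g hg => by
      rw [c5_pl g]
      exact valuation_aeval_eq_valuation_X_pow_natDegree_of_one_lt_valuation_X _ hx hg
  have ht : ∀ i ∈ G.support, V.valuation (pl l f (G.coeff i) * yl l f ^ i) ^ l =
      V.valuation (pl l f X) ^ (l * (G.coeff i).natDegree + f.natDegree * i) := fun i hi => by
    rw [map_mul, map_pow, mul_pow, ← pow_mul _ i, mul_comm i, pow_mul _ l i, ← map_pow _ (yl l f),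
      yl_pow, hv _ hs.monic.ne_zero, hv _ (mem_support_iff.1 hi), ← pow_mul, ← pow_mul, ← pow_add,
      mul_comm l]
  obtain ⟨j, hj, hm⟩ := G.support.exists_max_image
    (fun i => l * (G.coeff i).natDegree + f.natDegree * i) (support_nonempty.2 h0)
  have hl : ∀ i ∈ G.support, i < l := fun i hi => by
    exact_mod_cast (le_degree_of_mem_supp i hi).trans_lt hG
  refine ⟨_, ?_, hm⟩
  have e : io l f (AdjoinRoot.mk _ G) = ∑ i ∈ G.support, pl l f (G.coeff i) * yl l f ^ i := by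
    rw [← AdjoinRoot.aeval_eq, aeval_def, eval₂_eq_sum, Polynomial.sum, map_sum]
    exact Finset.sum_congr rfl fun i _ => by rw [map_mul, map_pow]; rfl
  rw [e, Valuation.map_sum_eq_of_lt _ hj fun i hi => ?_, ht j hj]
  obtain ⟨h1, h2⟩ := Finset.mem_sdiff.1 hi
  refine lt_of_pow_lt_pow_left₀ l zero_le ?_
  rw [ht i h1, ht j hj]
  refine pow_lt_pow_right₀ hx (lt_of_le_of_ne (hm i h1) fun e => h2 ?_)
  have h3 : f.natDegree * i ≡ f.natDegree * j [MOD l] := by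
    have h4 := congrArg (· % l) e
    simpa only [Nat.mul_add_mod, Nat.ModEq] using h4
  exact Finset.mem_singleton.2 ((h3.cancel_left_of_coprime
    hs.cop).eq_of_lt_of_lt (hl i h1) (hl j hj))

theorem isUnit_const {b : Crv k l f} (hb : IsUnit b) : ∃ c, b = po l f (C c) := by
  have hs : Sm l f := inferInstance
  have hx : Transcendental k (pl l f X) := fun ⟨p, h1, h2⟩ =>
    h1 (pl_inj (l := l) (f := f) (by rw [c5_pl p, h2, map_zero]))
  obtain ⟨V, _, hV⟩ := c5_val hx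
  obtain ⟨b', hb'⟩ := hb.exists_right_inv
  obtain ⟨G, hG, rfl⟩ := exists_rep hs.one_lt.ne_bot b
  obtain ⟨G', hG', rfl⟩ := exists_rep hs.one_lt.ne_bot b'
  obtain ⟨N, h1, h2⟩ := c5_key hV hG fun e => by simp [e] at hb'
  obtain ⟨N', h3, -⟩ := c5_key hV hG' fun e => by simp [e] at hb'
  have h4 : V.valuation (pl l f X) ^ (N + N') = V.valuation (pl l f X) ^ 0 := by
    rw [pow_add, ← h1, ← h3, ← mul_pow, ← map_mul, ← map_mul, hb', map_one, map_one, one_pow,
      pow_zero]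
  have h5 : N = 0 := by
    have := pow_right_injective₀ (zero_lt_one.trans hV) hV.ne' h4
    omega
  have hn : f.natDegree ≠ 0 := hs.deg
  have h6 : G.natDegree = 0 := by
    by_contra h
    have := h2 _ (natDegree_mem_support_of_nonzero fun e => h (by rw [e, natDegree_zero]))
    exact mul_ne_zero hn h (by omega)
  have h7 : (G.coeff 0).natDegree = 0 := by
    by_contra h
    have := h2 0 (mem_support_iff.2 fun e => h (by rw [e, natDegree_zero]))
    exact mul_ne_zero hs.one_lt.ne_bot h (by omega)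
  exact ⟨_, by rw [eq_C_of_natDegree_eq_zero h6, eq_C_of_natDegree_eq_zero h7, AdjoinRoot.mk_C]⟩

variable [IsAlgClosed k]

theorem unit_const {b : Fn l f} (hb : b ≠ 0) (h : dv b = 0) : ∃ c, b = pl l f (C c) := by
  obtain ⟨a, rfl⟩ := dv_int h.ge
  obtain ⟨a', h'⟩ := dv_int (b := (io l f a)⁻¹) (by rw [dv_inv, h, neg_zero])
  obtain ⟨c, hc⟩ := isUnit_const (b := a) (IsUnit.of_mul_eq_one a'
    (io_inj (by rw [map_mul, h', mul_inv_cancel₀ hb, map_one])))
  exact ⟨c, by rw [hc, pl_def]⟩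

theorem c5_par (P : Pt l f) : ∃ τ u : Crv k l f, dv (io l f τ) P = 1 ∧ P.ev τ = 0 ∧ P.ev u ≠ 0 ∧
    ∀ b, P.ev b = 0 → τ ∣ u * b := by
  have hs : Sm l f := inferInstance
  by_cases h : P.y = 0
  · obtain ⟨u, h1, -, h2⟩ := par_y P.eq
    refine ⟨_, u, ?_, by simp, fun e => P.deriv_ne h (h1.symm.trans e), h2⟩
    rw [map_sub]
    exact dv_par_y P (P.deriv_ne h)
  · obtain ⟨u, h1, h2⟩ := par_x P.eq
    exact ⟨_, u, dv_x P h, by simp,
      fun e => mul_ne_zero hs.ne (pow_ne_zero _ h) (h1.symm.trans e), h2⟩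

theorem move_pt {S : Set (Pt l f)} (hS : S.Finite) (P : Pt l f) :
    ∃ b : Crv k l f, b ≠ 0 ∧ dv (io l f b) P = 1 ∧ ∀ Q ∈ S, Q ≠ P → dv (io l f b) Q = 0 := by
  obtain ⟨τ, u, h1, h2, h3, h4⟩ := c5_par P
  have hS' : (S \ {P}).Finite := hS.subset Set.sdiff_subset
  obtain ⟨c, hc⟩ := c5_avoid hS' (fun Q => Q.x - P.x) (fun Q => Q.y - P.y) fun Q hQ e e' =>
    hQ.2 (Pt.ext (sub_eq_zero.1 e) (sub_eq_zero.1 e'))
  obtain ⟨γ, g1, g2⟩ : ∃ γ : Crv k l f, P.ev γ = 0 ∧ ∀ Q ∈ S \ {P}, Q.ev γ ≠ 0 :=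
    ⟨po l f (X - C P.x) + po l f (C c) * (cy l f - po l f (C P.y)), by simp,
      fun Q hQ => by simpa using hc Q hQ⟩
  obtain ⟨e, he⟩ := c5_avoid hS' (fun Q => Q.ev τ) (fun Q => Q.ev γ ^ 2) fun Q hQ _ =>
    pow_ne_zero _ (g2 Q hQ)
  obtain ⟨s, hs⟩ := h4 γ g1
  have k1 : u ^ 2 * (τ + po l f (C e) * γ ^ 2) = τ * (u ^ 2 + po l f (C e) * τ * s ^ 2) := by
    linear_combination (po l f (C e) * (u * γ + τ * s)) * hs
  have k2 : P.ev (u ^ 2 + po l f (C e) * τ * s ^ 2) ≠ 0 := by simpa [h2] using h3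
  have k3 : P.ev (u ^ 2) ≠ 0 := by simpa using h3
  have nz : ∀ {b : Crv k l f}, P.ev b ≠ 0 → b ≠ 0 := fun h e => h (by rw [e, map_zero])
  have nz' : ∀ {b : Crv k l f}, b ≠ 0 → io l f b ≠ 0 := fun h => (map_ne_zero_iff _ io_inj).2 h
  have t0 : τ ≠ 0 := fun e => by simp [e, dv_zero] at h1
  have b0 : τ + po l f (C e) * γ ^ 2 ≠ 0 := fun e => by
    rw [e, mul_zero] at k1
    exact mul_ne_zero t0 (nz k2) k1.symm
  refine ⟨_, b0, ?_, fun Q hQ hQ' => (dv_eq_zero_iff b0 Q).2 (by simpa using he Q ⟨hQ, hQ'⟩)⟩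
  have k4 := congrArg (fun b => dv (io l f b) P) k1
  simp only [map_mul (io l f) (u ^ 2), map_mul (io l f) τ] at k4
  rwa [dv_mul (nz' (nz k3)) (nz' b0), dv_mul (nz' t0) (nz' (nz k2)), Finsupp.add_apply,
    Finsupp.add_apply, (dv_eq_zero_iff (nz k3) P).2 k3, (dv_eq_zero_iff (nz k2) P).2 k2, h1,
    zero_add, add_zero] at k4

theorem move {S : Set (Pt l f)} (hS : S.Finite) (x : Jac k l f) :
    ∃ D : Dv l f, cl D = x ∧ ∀ P ∈ D.support, P ∉ S := by
  classical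
  obtain ⟨D, rfl⟩ := cl_surj x
  suffices h : ∃ E : Dv l f, cl E = cl D ∧ ∀ P ∈ S, E P = 0 from
    h.imp fun E h => ⟨h.1, fun P hP hP' => Finsupp.mem_support_iff.1 hP (h.2 P hP')⟩
  induction D using Finsupp.induction_linear with
  | zero => exact ⟨0, rfl, fun _ _ => rfl⟩
  | add D D' h h' =>
    obtain ⟨E, h1, h2⟩ := h
    obtain ⟨E', h3, h4⟩ := h'
    exact ⟨E + E', by rw [map_add, map_add, h1, h3], fun P hP => by
      rw [Finsupp.add_apply, h2 P hP, h4 P hP, add_zero]⟩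
  | single P n =>
    obtain ⟨b, -, h1, h2⟩ := move_pt hS P
    refine ⟨Finsupp.single P n - n • dv (io l f b), ?_, fun Q hQ => ?_⟩
    · rw [map_sub, map_zsmul, cl_dv, smul_zero, sub_zero]
    · by_cases e : Q = P
      · simp [e, h1]
      · simp [h2 Q hQ e, Ne.symm e]

end Pool.Agent.Lib.MP_d61fbb_ag.SQ
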