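import Pool.Agent.Lib.MP_d61fbb_ag.SQ.S3

/-! Reduction of divisor classes. -/

set_option autoImplicit false

noncomputable section

namespace Pool.Agent.Lib.MP_d61fbb_ag.SQ

open Polynomial Function IsLocalRing

variable {k : Type} [Field k] {R : ValuationSubring k} {l : ℕ} {f : k[X]}
  {fb : (ResidueField R)[X]} [Sm l f] [Sm l fb] [IsAlgClosed k] [IsAlgClosed (ResidueField R)]
  (M : Mdl R l f fb)

theorem s4_ne {F : Type} [Field F] {g : F[X]} [Sm l g] {b : Crv F l g} (hb : b ≠ 0) :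
    io l g b ≠ 0 := fun e => hb (io_inj (e.trans (map_zero _).symm))

theorem s4_const {F : Type} [Field F] [IsAlgClosed F] {g : F[X]} [Sm l g] {c : F} (hc : c ≠ 0)
    {b : Crv F l g} (hb : b ≠ 0) : dv (io l g (po l g (C c) * b)) = dv (io l g b) := by
  have h1 : pl l g (C c) ≠ 0 := fun e =>
    hc (C_eq_zero.1 (pl_inj (e.trans (map_zero _).symm)))
  rw [map_mul, ← pl_def, dv_mul h1 (s4_ne hb), dv_const, zero_add]

theorem s4_prod (s : Multiset k) {c : k} (hc : c ≠ 0) :
    ∃ β, M.Sp (po l f (C c * (s.map fun a => X - C a).prod)) β ∧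
      redD fb (dv (io l f (po l f (C c * (s.map fun a => X - C a).prod)))) = dv (io l fb β) := by
  induction s using Multiset.induction_on with
  | empty =>
    refine ⟨1, ?_, ?_⟩
    · rw [Multiset.map_zero, Multiset.prod_zero, mul_one]
      exact M.sp_const hc
    · rw [Multiset.map_zero, Multiset.prod_zero, mul_one, ← pl_def, dv_const, map_zero, map_one,
        dv_one]
  | cons a s ih =>
    obtain ⟨β, h1, h2⟩ := ih
    have h3 : ∃ γ, M.Sp (po l f (X - C a)) γ ∧
        redD fb (dv (io l f (po l f (X - C a)))) = dv (io l fb γ) := by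
      by_cases ha : a ∈ R
      · exact ⟨_, M.sp_int ⟨a, ha⟩, M.red_int ⟨a, ha⟩⟩
      · refine ⟨1, M.sp_not ha, ?_⟩
        rw [map_one, dv_one]
        exact M.red_not ha
    obtain ⟨γ, k1, k2⟩ := h3
    rw [Multiset.map_cons, Multiset.prod_cons, mul_left_comm, map_mul]
    refine ⟨γ * β, k1.mul h1, ?_⟩
    rw [map_mul (io l f), map_mul (io l fb), dv_mul (s4_ne k1.ne) (s4_ne h1.ne),
      dv_mul (s4_ne k1.1) (s4_ne h1.1), map_add, h2, k2]

theorem Mdl.red_poly {g : k[X]} (hg : g ≠ 0) :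
    ∃ β, M.Sp (po l f g) β ∧ redD fb (dv (pl l f g)) = dv (io l fb β) := by
  have h := s4_prod M g.roots (leadingCoeff_ne_zero.2 hg)
  rwa [← (IsAlgClosed.splits g).eq_prod_roots] at h

theorem Mdl.red_sp {b : Crv k l f} {β : Crv (ResidueField R) l fb} (h : M.Sp b β) :
    redD fb (dv (io l f b)) = dv (io l fb β) := by
  have hb := h.ne
  have hn := h.nrm
  obtain ⟨hβ, c, b', hc, h1, h2⟩ := h
  have h3 := M.red_le (b := b') (h2 ▸ hβ)
  rw [h1, h2, s4_const hc hb] at h3
  obtain ⟨g, hg⟩ := nrm_poly M.z1 b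
  rw [hg] at hn
  have hg0 : g ≠ 0 := fun e => hn.ne (by rw [e, map_zero])
  obtain ⟨β', k1, k2⟩ := M.red_poly hg0
  obtain ⟨c', hc', k3⟩ := k1.unique hn
  have h4 : nmD M.z2 (dv (io l fb β) - redD fb (dv (io l f b))) = 0 := by
    rw [map_sub, ← M.redD_nmD, ← dv_nrm M.z1 (s4_ne hb), ← dv_nrm M.z2 (s4_ne hβ), nrm_io, nrm_io,
      hg, k3, s4_const hc' k1.1, ← pl_def, k2, sub_self]
  exact (sub_eq_zero.1 (eq_zero_of_nmD M.z2 (sub_nonneg.2 h3) h4)).symm

include M in
theorem Mdl.exists_red : ∃ red : Jac k l f →+ Jac (ResidueField R) l fb,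
    (∀ D, red (cl D) = cl (redD fb D)) ∧
      ∀ (a : Au l f) (a' : Au l fb), Cpt a a' → ∀ x, red (a.J x) = a'.J (red x) := by
  have h1 : ∀ s : Crv k l f, s ≠ 0 → cl (redD fb (dv (io l f s))) = 0 := by
    intro s hs
    obtain ⟨β, hβ⟩ := M.sp_exists hs
    rw [M.red_sp hβ, cl_dv]
  have hk : (cl : Dv l f →+ Jac k l f).ker ≤ ((cl : Dv l fb →+ _).comp (redD fb)).ker := by
    intro D hD
    obtain ⟨b, hb, rfl⟩ := cl_eq_zero.1 (AddMonoidHom.mem_ker.1 hD)
    obtain ⟨s, t, ht, rfl⟩ := IsFractionRing.div_surjective (A := Crv k l f) b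
    have ht0 : t ≠ 0 := nonZeroDivisors.ne_zero ht
    have hs0 : s ≠ 0 := by
      rintro rfl
      exact hb (by rw [map_zero, zero_div])
    rw [AddMonoidHom.mem_ker, AddMonoidHom.comp_apply, dv_div (s4_ne hs0) (s4_ne ht0), map_sub,
      map_sub, h1 s hs0, h1 t ht0, sub_self]
  have h2 : ∀ D, (cl : Dv l f →+ Jac k l f).liftOfSurjective cl_surj ⟨_, hk⟩ (cl D) =
      cl (redD fb D) := fun D =>
    AddMonoidHom.liftOfRightInverse_comp_apply _ _ _ _ D
  refine ⟨_, h2, fun a a' h x => ?_⟩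
  obtain ⟨D, rfl⟩ := cl_surj x
  rw [← cl_au, h2, h2, M.redD_au h, cl_au]

/-- A map which is injective on the fixed points of `T` is injective on the kernel of the powers
of `1 - T`. -/
theorem inj_torsion {A A' : Type} [AddCommGroup A] [AddCommGroup A'] (T : AddMonoid.End A)
    (T' : AddMonoid.End A') (red : A →+ A') (h : ∀ x, red (T x) = T' (red x))
    (h0 : ∀ x, T x = x → red x = 0 → x = 0) {x : A} {N : ℕ} (hx : ((1 - T) ^ N) x = 0)
    (hr : red x = 0) : x = 0 := by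
  induction N generalizing x with
  | zero => exact hx
  | succ m ih =>
    rw [pow_succ] at hx
    have e : (1 - T) x = x - T x := rfl
    have h3 : (1 - T) x = 0 := ih hx (by rw [e, map_sub, h, hr, map_zero, sub_zero])
    exact h0 x (sub_eq_zero.1 (e ▸ h3)).symm hr

end Pool.Agent.Lib.MP_d61fbb_ag.SQ
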