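import Pool.Agent.Lib.MP_d61fbb_ag.SQ.C7
import Pool.Agent.Lib.MP_d61fbb_ag.SQ.C8
import Pool.Agent.Lib.MP_d61fbb_ag.SQ.S4
import Pool.Agent.Lib.MP_d61fbb_ag.SQ.A7

/-! The geometric statements. -/

set_option autoImplicit false

noncomputable section

namespace Pool.Agent.Lib.MP_d61fbb_ag.SQ

open Polynomial Function IsLocalRing

theorem j_data {k : Type} [Field k] [IsAlgClosed k] {l d : ℕ} {f : k[X]} [Sm l f]
    {r : Fin (d + 1) → k} {z : k} (h : Hyp l d f r) (hz : IsPrimitiveRoot z l) :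
    JData l d (zt f hz) fun i => cl (Finsupp.single (h.pt i) 1) :=
  ⟨j_norm hz, j_surj h hz, j_ker h hz, j_rel h hz⟩

theorem curveStmt : CurveStmt := by
  intro k _ _ l d f r h z hz
  have := h.sm
  refine ⟨_, j_data h hz, fun σ hσ π hπ i => ?_⟩
  rw [sg_eq, ← cl_au, Au.D_single]
  congr 2
  ext
  · exact hπ i
  · simp [Hyp.pt]

theorem contStmt : ContStmt := by
  classical
  intro k _ _ l d f r h x
  have := h.sm
  obtain ⟨D, rfl⟩ := cl_surj x
  refine ⟨D.support.image Pt.x ∪ D.support.image Pt.y, fun σ hσ hF => ?_⟩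
  rw [sg_eq, ← cl_au]
  congr 1
  conv_rhs => rw [← Finsupp.mapDomain_id (v := D)]
  refine Finsupp.mapDomain_congr fun P hP => ?_
  ext
  · exact hF _ (Finset.mem_union_left _ (Finset.mem_image_of_mem _ hP))
  · simpa using hF _ (Finset.mem_union_right _ (Finset.mem_image_of_mem _ hP))

section rel

variable {k : Type} [Field k] {R : ValuationSubring k}

theorem top_rs (x : R) : rs R (x : k) = residue R x := dif_pos x.2

theorem top_frob {p : ℕ} {φ : k ≃+* k} (h : FrobAt R p φ) (x y : R) (e : φ x = y) :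
    residue R x ^ p = residue R y := by
  have h1 := h.2 x x.2
  rw [e] at h1
  have h2 : y - x ^ p ∈ maximalIdeal R := (R.valuation_lt_one_iff _).2 (by simpa using h1)
  rw [← residue_eq_zero_iff, map_sub, map_pow, sub_eq_zero] at h2
  exact h2.symm

theorem top_prim {l : ℕ} (hl : l ≠ 0) (h0 : (l : ResidueField R) ≠ 0) {z : R}
    (hz : IsPrimitiveRoot (z : k) l) : IsPrimitiveRoot (residue R z) l := by
  have h1 : IsPrimitiveRoot z l := hz.of_map_of_injective (f := R.subtype) Subtype.val_injective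
  refine IsPrimitiveRoot.mk_of_lt _ (Nat.pos_of_ne_zero hl)
    (by rw [← map_pow, h1.pow_eq_one, map_one]) fun j j0 jl e => h0 ?_
  obtain ⟨n, rfl⟩ := Nat.exists_eq_succ_of_ne_zero hl
  obtain ⟨j, rfl⟩ := Nat.exists_eq_succ_of_ne_zero j0.ne'
  have h4 := congrArg (residue R) h1.prod_one_sub_pow_eq_order
  rw [map_prod, Finset.prod_eq_zero (i := j) (Finset.mem_range.2 (by omega))
    (by rw [map_sub, map_pow, map_one]; exact sub_eq_zero.2 e.symm)] at h4
  simpa using h4.symm

theorem top_perm {l d : ℕ} {f : k[X]} {r : Fin (d + 1) → k} (h : Hyp l d f r) (φ : k ≃+* k)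
    (hφ : f.map φ.toRingHom = f) : ∃ π : Equiv.Perm (Fin (d + 1)), ∀ i, φ (r i) = r (π i) := by
  have h1 : ∀ i, ∃ j, φ (r i) = r j := fun i => (h.eval_eq_zero _).1 (by
    have e := eval_map_apply (p := f) φ.toRingHom (r i)
    rw [hφ, (h.eval_eq_zero _).2 ⟨i, rfl⟩, map_zero] at e
    exact e)
  choose π hπ using h1
  have h2 : Injective π := fun i j e => h.inj (φ.injective (by rw [hπ, hπ, e]))
  exact ⟨Equiv.ofBijective π (Finite.injective_iff_bijective.1 h2), hπ⟩

end rel

section comm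

variable {A A' : Type} [AddCommGroup A] [AddCommGroup A'] (red : A →+ A')

theorem top_pow {T : AddMonoid.End A} {T' : AddMonoid.End A'} (h : ∀ x, red (T x) = T' (red x))
    (n : ℕ) (x : A) : red ((T ^ n) x) = (T' ^ n) (red x) := by
  induction n with
  | zero => rfl
  | succ n ih =>
    rw [pow_succ', pow_succ']
    exact (h _).trans (congrArg T' ih)

theorem top_aeval {T : AddMonoid.End A} {T' : AddMonoid.End A'}
    (h : ∀ x, red (T x) = T' (red x)) (g : ℤ[X]) (x : A) :
    red (aeval T g x) = aeval T' g (red x) := by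
  induction g using Polynomial.induction_on' with
  | add g g' h1 h2 =>
    rw [map_add, map_add]
    exact (map_add red _ _).trans (congrArg₂ _ h1 h2)
  | monomial n a =>
    rw [aeval_monomial, aeval_monomial, ← Algebra.smul_def, ← Algebra.smul_def]
    exact (map_zsmul red a _).trans (congrArg _ (top_pow red h n x))

theorem top_rel {T S : AddMonoid.End A} {T' S' : AddMonoid.End A'}
    (h : ∀ x, red (T x) = T' (red x)) (h' : ∀ x, red (S x) = S' (red x)) (s : Finset ℕ)
    (c : ℕ → ℤ[X]) (x : A) : red (((1 - T) * ∑ i ∈ s, aeval T (c i) * S ^ i) x) =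
      ((1 - T') * ∑ i ∈ s, aeval T' (c i) * S' ^ i) (red x) := by
  have h1 : red ((∑ i ∈ s, aeval T (c i) * S ^ i) x) =
      (∑ i ∈ s, aeval T' (c i) * S' ^ i) (red x) := by
    classical
    induction s using Finset.induction_on with
    | empty => exact map_zero red
    | insert i s hi ih =>
      rw [Finset.sum_insert hi, Finset.sum_insert hi]
      refine (map_add red _ _).trans (congrArg₂ _ ?_ ih)
      exact (top_aeval red h _ _).trans (congrArg _ (top_pow red h' i x))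
  exact (map_sub red _ _).trans (congrArg₂ _ h1 ((h _).trans (congrArg T' h1)))

end comm

theorem top_main {k : Type} [Field k] [IsAlgClosed k] {R : ValuationSubring k}
    [IsAlgClosed (ResidueField R)] {l d : ℕ} {f : k[X]} {fb : (ResidueField R)[X]} [Sm l f]
    [Sm l fb] {r : Fin (d + 1) → k} {rb : Fin (d + 1) → ResidueField R} (h : Hyp l d f r)
    (hb : Hyp l d fb rb) (M : Mdl R l f fb) (ho : ∀ i, Over (h.pt i) (hb.pt i)) {a : Au l f}
    {a' : Au l fb} (hc : Cpt a a') (c : ℕ → ℤ[X]) (s : Finset ℕ)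
    (h0 : ∀ x, ((1 - zt fb M.z2) * ∑ i ∈ s, aeval (zt fb M.z2) (c i) * a'.J ^ i) x = 0)
    (hw : a.σ M.z = M.z) (x : Jac k l f) (N : ℕ) (hx : ((1 - zt f M.z1) ^ N) x = 0) :
    ((1 - zt f M.z1) * ∑ i ∈ s, aeval (zt f M.z1) (c i) * a.J ^ i) x = 0 := by
  obtain ⟨red, h1, h2⟩ := M.exists_red
  have h3 : ∀ x, red (zt f M.z1 x) = zt fb M.z2 (red x) := by
    rw [zt_eq, zt_eq]
    exact h2 _ _ M.cpt_rt
  have h4 : Commute (zt f M.z1) a.J := DFunLike.ext _ _ fun x => by
    obtain ⟨D, rfl⟩ := cl_surj x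
    rw [a7_mul, a7_mul, zt_eq, ← cl_au, ← cl_au, ← cl_au, ← cl_au]
    congr 1
    induction D using Finsupp.induction_linear with
    | zero => simp only [map_zero]
    | add D E h5 h6 => simp only [map_add, h5, h6]
    | single P n =>
      simp only [Au.D_single]
      congr 1
      ext
      · rfl
      · simp [hw, mul_left_comm]
  have h5 : Commute (zt f M.z1)
      ((1 - zt f M.z1) * ∑ i ∈ s, aeval (zt f M.z1) (c i) * a.J ^ i) :=
    ((Commute.one_right _).sub_right (Commute.refl _)).mul_right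
      (Commute.sum_right _ _ _ fun i _ => Commute.mul_right (by
        have e := congrArg (aeval (zt f M.z1)) (mul_comm X (c i))
        rwa [map_mul, map_mul, aeval_X] at e) (h4.pow_right i))
  refine inj_torsion (zt f M.z1) (zt fb M.z2) red h3 (N := N) (fun x hx h0 => ?_) ?_ ?_
  · obtain ⟨a, rfl⟩ := (j_ker h M.z1 x).1 hx
    refine (j_rel h M.z1 a).2 ((j_rel hb M.z2 a).1 ?_)
    rw [← h0, map_sum]
    refine Finset.sum_congr rfl fun i _ => ?_
    rw [map_zsmul, h1, redD_over (ho i)]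
  · rw [← a7_mul, (((Commute.one_left _).sub_left h5).pow_left N).eq, a7_mul, hx, map_zero]
  · rw [top_rel red h3 (h2 _ _ hc), h0]

theorem relStmt : RelStmt := by
  intro k _ _ l d f r h z hz R p hp hp0 hl hr hi φ hφ hF hφz
  have := h.sm
  have := residue_algClosed R
  have := Fact.mk hp
  have : CharP (ResidueField R) p := (CharP.charP_iff_prime_eq_zero hp).2 hp0
  have hl0 : (l : ResidueField R) ≠ 0 := fun e => by
    obtain ⟨m, hm⟩ := hl
    have h1 : p = l * m + 1 := by have := hp.one_lt; omega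
    rw [h1] at hp0
    simp [e] at hp0
  have hzR : z ∈ R := mem_of_pow_mem h.one_lt.ne_bot (by rw [hz.pow_eq_one]; exact R.one_mem)
  obtain ⟨rb, hrb⟩ : ∃ rb : Fin (d + 1) → ResidueField R, (fun i => rs R (r i)) = rb := ⟨_, rfl⟩
  have hrr : ∀ i, rb i = residue R ⟨r i, hr i⟩ := fun i => by
    rw [← hrb]
    exact top_rs ⟨r i, hr i⟩
  rw [show (fun i => -rs R (r i)) = -rb from hrb ▸ rfl]
  rw [hrb] at hi
  obtain ⟨fb, hfb⟩ : ∃ fb : (ResidueField R)[X], fb = ∏ i, (X - C (rb i)) := ⟨_, rfl⟩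
  have hb : Hyp l d fb rb := ⟨h.one_lt, hl0, h.cop, hi, hfb⟩
  have := hb.sm
  have z2 := top_prim (Sm.ne0 f) hl0 (z := ⟨z, hzR⟩) hz
  have m1 : (∏ i, (X - C ⟨r i, hr i⟩) : R[X]).map R.subtype = f := by
    simp [h.fac, Polynomial.map_prod]
  have m2 : (∏ i, (X - C ⟨r i, hr i⟩) : R[X]).map (residue R) = fb := by
    simp [hfb, hrr, Polynomial.map_prod]
  obtain ⟨π, hπ⟩ := top_perm h φ hφ
  have hπb : ∀ i, rb i ^ p = rb (π i) := fun i => by
    rw [hrr, hrr]
    exact top_frob hF _ _ (hπ i)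
  obtain ⟨ψ, hψ1⟩ : ∃ ψ : ResidueField R ≃+* ResidueField R, ∀ x, ψ x = x ^ p :=
    ⟨frobeniusEquiv (ResidueField R) p, fun x => rfl⟩
  have hψ : fb.map ψ.toRingHom = fb := by
    rw [hfb, Polynomial.map_prod, ← Equiv.prod_comp π fun i => X - C (rb i)]
    exact Finset.prod_congr rfl fun i _ => by simp [hψ1, hπb]
  have hc : Cpt (ga l φ hφ) (ga l ψ hψ) :=
    ⟨hF.1, fun x y e => (hψ1 _).trans (top_frob hF x y e), 1, rfl, (map_one _).symm⟩
  refine ⟨_, z2.inv, fun x N hx => ?_⟩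
  rw [sg_eq]
  refine top_main h hb ⟨_, m1, m2, ⟨z, hzR⟩, hz, z2⟩
    (fun i => ⟨⟨r i, hr i⟩, 0, rfl, rfl, hrr i, (map_zero _).symm⟩) hc _ _ (fun x => ?_) hφz x N
    hx
  rw [← sg_eq]
  exact rel_charp p hb hl π hπb z2 ψ hψ1 hψ x

end Pool.Agent.Lib.MP_d61fbb_ag.SQ
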