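import Pool.Agent.Lib.MP_d61fbb_ag.SQ.Defs

/-! The group of unitary similitudes and full monodromy. -/

set_option autoImplicit false

namespace Pool.Agent.Lib.MP_d61fbb_ag.SQ

open Matrix

/-- `g` commutes with `Z` and is a similitude of the form `B`. -/
def GU {l : ℕ} [Fact l.Prime] {ι : Type} [Fintype ι] (Z B : Matrix ι ι ℚ_[l])
    (g : Matrix ι ι (PadicAlgCl l)) : Prop :=
  g * Z.map (algebraMap _ _) = Z.map (algebraMap _ _) * g ∧
    ∃ ν : PadicAlgCl l, gᵀ * B.map (algebraMap _ _) * g = ν • B.map (algebraMap _ _)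

/-- There are Tate coordinates indexed by `ι` on the image of `1 - δ ^ m` in which the Zariski
closure of the image of `Γ` is the group of unitary similitudes of an alternating form. -/
def FullMono {l : ℕ} [Fact l.Prime] {A Γ : Type} [AddCommGroup A] [Group Γ] (ι : Type)
    [Fintype ι] [DecidableEq ι] (δ : AddMonoid.End A) (m : ℕ) (act : Γ → AddMonoid.End A)
    (χ : Γ → ℤ_[l]) : Prop :=
  ∃ (e : (ι → ℚ_[l]) →+ A) (Z B : Matrix ι ι ℚ_[l]) (ρ : Γ →* Matrix ι ι ℚ_[l]),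
    TateOn e (1 - δ ^ m) ∧ Rep e δ Z ∧ (∀ γ, Rep e (act γ) (ρ γ)) ∧
    Bᵀ = -B ∧ B.det ≠ 0 ∧ Zᵀ * B * Z = B ∧ (∀ γ, (ρ γ)ᵀ * B * ρ γ = (χ γ : ℚ_[l]) • B) ∧
    ∀ g : Matrix ι ι (PadicAlgCl l), g.det ≠ 0 → (Zar (Set.range ρ) g ↔ GU Z B g)

end Pool.Agent.Lib.MP_d61fbb_ag.SQ
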