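import Pool.Agent.Lib.MP_d61fbb_ag.SQ.AD

/-! Characters of the multiplicative group and Zariski closures. -/

set_option autoImplicit false

noncomputable section

namespace Pool.Agent.Lib.MP_d61fbb_ag.SQ

open Matrix

variable {K n : Type} [Field K] [Fintype n] [DecidableEq n] {S : Set (Matrix n n K)}

theorem pt_char {ι : Type} (s : Finset ι) (x : ι → Kˣ) (π : ι → Matrix n n K)
    (h : ∀ N : ℕ, Pt S (∑ i ∈ s, (x i : K) ^ N • π i)) (χ : Kˣ →* Kˣ) :
    Pt S (∑ i ∈ s, (χ (x i) : K) • π i) := by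
  intro p hp
  let G : Matrix n n (MonoidAlgebra K Kˣ) :=
    ∑ i ∈ s, MonoidAlgebra.of K Kˣ (x i) • (π i).map (algebraMap K _)
  have hG : ∀ ψ : Kˣ →* K, G.map (MonoidAlgebra.lift K K Kˣ ψ) = ∑ i ∈ s, ψ (x i) • π i := by
    intro ψ
    ext i j
    simp only [G, Matrix.map_apply, Matrix.sum_apply, Matrix.smul_apply, map_sum, smul_eq_mul,
      map_mul, MonoidAlgebra.lift_of, AlgHom.commutes, Algebra.algebraMap_self, RingHom.id_apply]
  have e : ∑ i ∈ s, (χ (x i) : K) • π i =
      G.map (MonoidAlgebra.lift K K Kˣ ((Units.coeHom K).comp χ)) := by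
    rw [hG]
    rfl
  rw [e, ← aeval_comp_map]
  suffices h0 : MvPolynomial.aeval (fun ij : n × n => G ij.1 ij.2) p = 0 by rw [h0, map_zero]
  have hN : ∀ N : ℕ, MonoidAlgebra.lift K K Kˣ ((powMonoidHom N).comp (Units.coeHom K))
      (MvPolynomial.aeval (fun ij : n × n => G ij.1 ij.2) p) = 0 := by
    intro N
    rw [aeval_comp_map, hG]
    exact h N p hp
  generalize MvPolynomial.aeval (fun ij : n × n => G ij.1 ij.2) p = q at hN
  have li := (linearIndependent_monoidHom (Multiplicative ℕ) K).comp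
    (fun y : Kˣ => powersHom K (y : K)) fun y z e => Units.ext ((powersHom K).injective e)
  ext y
  refine congrFun (congrArg DFunLike.coe (linearIndependent_iff.1 li q.coeff ?_)) y
  ext N
  have := hN N.toAdd
  rw [MonoidAlgebra.lift_apply] at this
  rw [Finsupp.linearCombination_apply, Finsupp.sum_apply']
  exact this

theorem exists_char_ext [IsAlgClosed K] {ι : Type} [Fintype ι] (t : ι → Kˣ)
    (ht : ∀ m : ι → ℤ, ∏ i, t i ^ m i = 1 → m = 0) (u : ι → Kˣ) :
    ∃ χ : Kˣ →* Kˣ, ∀ i, χ (t i) = u i := by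
  classical
  have hsur : ∀ {k : ℕ}, k ≠ 0 → Function.Surjective fun a : Additive Kˣ => k • a := by
    intro k hk a
    obtain ⟨z, hz⟩ := IsAlgClosed.exists_pow_nat_eq ((Additive.toMul a : Kˣ) : K)
      (Nat.pos_of_ne_zero hk)
    have hz0 : z ≠ 0 := by
      rintro rfl
      rw [zero_pow hk] at hz
      exact (Additive.toMul a).ne_zero hz.symm
    refine ⟨Additive.ofMul (Units.mk0 z hz0), ?_⟩
    change Additive.ofMul (Units.mk0 z hz0 ^ k) = a
    rw [show Units.mk0 z hz0 ^ k = Additive.toMul a from Units.ext (by simpa using hz)]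
    rfl
  let : DivisibleBy (Additive Kˣ) ℕ := divisibleByOfSMulRightSurj _ _ hsur
  let : DivisibleBy (Additive Kˣ) ℤ := AddGroup.divisibleByIntOfDivisibleByNat _
  have hB : Module.Baer ℤ (Additive Kˣ) := Module.Baer.of_divisible _
  let f : (ι → ℤ) →ₗ[ℤ] Additive Kˣ :=
    Fintype.linearCombination ℤ fun i => Additive.ofMul (t i)
  let g : (ι → ℤ) →ₗ[ℤ] Additive Kˣ :=
    Fintype.linearCombination ℤ fun i => Additive.ofMul (u i)
  have hf : Function.Injective f := by
    refine (injective_iff_map_eq_zero f).2 fun m hm => ht m ?_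
    have h1 := congrArg Additive.toMul hm
    simpa [f, Fintype.linearCombination_apply, toMul_sum] using h1
  obtain ⟨φ, hφ⟩ := hB.extension_property f hf g
  refine ⟨MonoidHom.toAdditive.symm φ.toAddMonoidHom, fun i => ?_⟩
  have h1 := LinearMap.congr_fun hφ (Pi.single i 1)
  simp only [f, g, LinearMap.comp_apply, Fintype.linearCombination_apply_single, one_smul] at h1
  exact congrArg Additive.toMul h1

end Pool.Agent.Lib.MP_d61fbb_ag.SQ
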