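import Pool.Agent.Lib.MP_d61fbb_ag.SQ.G0

/-! Second differences. -/

set_option autoImplicit false

noncomputable section

namespace Pool.Agent.Lib.MP_d61fbb_ag.SQ

open Matrix Equiv

variable {κ : Type} [Field κ] {d : ℕ} {G : Subgroup (Perm (Fin (d + 1)))}
  {W : Submodule κ (Mat d κ)}

theorem g1a_rr (u v w x : Fin d → κ) :
    vecMulVec u v * vecMulVec w x = (v ⬝ᵥ w) • vecMulVec u x := by
  rw [vecMulVec_mul_vecMulVec, vecMulVec_smul]

theorem g1a_dr (p u v w : Fin d → κ) : p ⬝ᵥ vecMulVec u v *ᵥ w = (p ⬝ᵥ u) * (v ⬝ᵥ w) := by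
  rw [vecMulVec_mulVec, op_smul_eq_smul, dotProduct_smul, smul_eq_mul, mul_comm]

theorem g1a_fp (a b c e : Fin (d + 1)) : fv κ a b ⬝ᵥ pv κ c e =
    ((if a = c then 1 else 0) - (if b = c then 1 else 0)) -
      ((if a = e then 1 else 0) - (if b = e then 1 else 0)) := by
  rw [pv, dotProduct_sub, fv_dot_qv, fv_dot_qv]

theorem g1a_ext (hn : (d : κ) + 1 ≠ 0) {X Y : Mat d κ} (h : ∀ x y, en X x y = en Y x y) :
    X = Y :=
  (en_expand hn X 0).trans (by simp only [h]; exact (en_expand hn Y 0).symm)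

theorem g1a_sub (X Y : Mat d κ) (x y : Fin (d + 1)) : en (X - Y) x y = en X x y - en Y x y := by
  simp only [en, sub_mulVec, dotProduct_sub]

theorem g1a_cj (hn : (d : κ) + 1 ≠ 0) (π : Perm (Fin (d + 1))) (X : Mat d κ)
    (x y : Fin (d + 1)) : en (Hm κ π⁻¹ * X * Hm κ π⁻¹⁻¹) x y = en X (π x) (π y) := by
  simpa using en_conj hn π⁻¹ X (π x) (π y)

theorem g1a_new (l : List (Fin (d + 1))) (hl : l.length ≤ d) : ∃ x, x ∉ l := by
  by_contra! h
  have := (Finset.card_le_card (s := Finset.univ) fun x _ => List.mem_toFinset.2 (h x)).trans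
    l.toFinset_card_le
  simp at this
  omega

/-- Elements fixed by a transposition have all their conjugates in `W`. -/
theorem g1a_all (hG : Big G) (hW : ∀ π ∈ G, ∀ X ∈ W, Hm κ π * X * Hm κ π⁻¹ ∈ W) {Y : Mat d κ}
    (hY : Y ∈ W) {g h : Fin (d + 1)} (hgh : g ≠ h)
    (hf : Hm κ (swap g h) * Y * Hm κ (swap g h)⁻¹ = Y) (π : Perm (Fin (d + 1))) :
    Hm κ π * Y * Hm κ π⁻¹ ∈ W := by
  rcases Int.units_eq_one_or (Perm.sign π) with hs | hs
  · exact hW π (hG.alt (Perm.mem_alternatingGroup.2 hs)) Y hY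
  · have := hW (π * swap g h) (hG.alt (Perm.mem_alternatingGroup.2 (by simp [hs, hgh]))) Y hY
    rwa [_root_.mul_inv_rev, map_mul, map_mul, mul_assoc (Hm κ π), mul_assoc (Hm κ π),
      ← mul_assoc _ _ (Hm κ π⁻¹), hf, ← mul_assoc] at this

theorem g1a_top {Y : Mat d κ} (hY : ∀ π, Hm κ π * Y * Hm κ π⁻¹ ∈ W) {a b c e : Fin (d + 1)}
    (h : Dis a b c e) : (fv κ a b ⬝ᵥ Y *ᵥ pv κ c e) • Eo κ a b c e +
      (fv κ c e ⬝ᵥ Y *ᵥ pv κ a b) • Eo κ c e a b ∈ W := by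
  obtain ⟨-, h2, h3, h4, h5, -⟩ := h
  have z1 : Eo κ a b a b * Eo κ c e c e = 0 := by
    simp [Eo, g1a_rr, g1a_fp, h2, h3, h4, h5]
  have z2 : Eo κ c e c e * Eo κ a b a b = 0 := by
    simp [Eo, g1a_rr, g1a_fp, h2.symm, h3.symm, h4.symm, h5.symm]
  have := W.sub_mem (W.sub_mem (hY 1) (hY (swap a b)))
    (W.sub_mem (hY (swap c e)) (hY (swap c e * swap a b)))
  simp only [_root_.mul_inv_rev, swap_inv, map_mul, Hm_swap, inv_one, map_one] at this
  rw [← Eo_mul a b a b c e c e, ← Eo_mul c e c e a b a b]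
  generalize Eo κ a b a b = P at *
  generalize Eo κ c e c e = Q at *
  convert this using 1
  have e : 1 * Y * 1 - (1 - P) * Y * (1 - P) - ((1 - Q) * Y * (1 - Q) -
      (1 - Q) * (1 - P) * Y * ((1 - P) * (1 - Q))) = P * Y * Q + Q * Y * P +
        (1 - P - Q) * Y * (P * Q) + (Q * P) * Y * (1 - P - Q + P * Q) := by noncomm_ring
  rw [e, z1, z2]
  simp

theorem g1a_three (hG : Big G) {a b u : Fin (d + 1)} (h1 : a ≠ b) (h2 : u ≠ a) (h3 : u ≠ b) :
    ∃ t, t⁻¹ ∈ G ∧ t a = b ∧ ∀ x, x ≠ a → x ≠ b → x ≠ u → t x = x :=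
  ⟨swap a u * swap a b, G.inv_mem (hG.alt (Perm.mem_alternatingGroup.2 (by simp [h1, h2.symm]))),
    by simp [swap_apply_of_ne_of_ne h1.symm h3.symm],
    fun x x1 x2 x3 => by simp [swap_apply_of_ne_of_ne x1 x2, swap_apply_of_ne_of_ne x1 x3]⟩

theorem second_mem (hn : (d : κ) + 1 ≠ 0) (hG : Big G)
    (hW : ∀ π ∈ G, ∀ X ∈ W, Hm κ π * X * Hm κ π⁻¹ ∈ W) {X : Mat d κ} (hX : X ∈ W)
    {a b c e : Fin (d + 1)} (h : Dis a b c e) :
    (fv κ a b ⬝ᵥ X *ᵥ pv κ c e) • Eo κ a b c e + (fv κ c e ⬝ᵥ X *ᵥ pv κ a b) • Eo κ c e a b ∈ W := by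
  rcases id hG with ⟨hd, -⟩ | ⟨-, rfl⟩
  swap
  · exact g1a_top (fun π => hW π trivial X hX) h
  obtain ⟨u, hu⟩ := g1a_new [a, b, c, e] (by simp; omega)
  obtain ⟨v, hv⟩ := g1a_new [a, b, c, e, u] (by simp; omega)
  obtain ⟨g, hg⟩ := g1a_new [a, b, c, e, u, v] (by simp; omega)
  obtain ⟨k, hk⟩ := g1a_new [a, b, c, e, u, v, g] (by simp; omega)
  simp only [List.mem_cons, List.not_mem_nil, or_false, not_or] at hu hv hg hk
  obtain ⟨h1, h2, h3, h4, h5, h6⟩ := id h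
  obtain ⟨t, tG, ta, ht⟩ := g1a_three hG h1 hu.1 hu.2.1
  obtain ⟨s, sG, sc, hs⟩ := g1a_three hG h6 hv.2.2.1 hv.2.2.2.1
  have hdis : ∀ y, s y ≠ y → t y = y := fun y hy => by
    by_contra h0
    have := ht y
    have := hs y
    grind
  obtain ⟨Y, hY, eY⟩ : ∃ Y ∈ W, ∀ x y, en Y x y = en X x y - en X (t x) (t y) -
      (en X (s x) (s y) - en X (t (s x)) (t (s y))) :=
    ⟨_, W.sub_mem (W.sub_mem hX (hW _ tG X hX)) (hW _ sG _ (W.sub_mem hX (hW _ tG X hX))),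
      fun x y => by simp only [g1a_sub, g1a_cj hn]⟩
  have hz : ∀ x, t x = x → s x = x → ∀ y, en Y x y = 0 ∧ en Y y x = 0 := fun x tx sx y => by
    rw [eY, eY, sx, tx]
    by_cases hy : s y = y
    · simp [hy]
    · simp [hdis y hy, hdis (s y) fun h0 => hy (s.injective h0)]
  have zg := hz g (ht g hg.1 hg.2.1 hg.2.2.2.2.1) (hs g hg.2.2.1 hg.2.2.2.1 hg.2.2.2.2.2)
  have zk := hz k (ht k hk.1 hk.2.1 hk.2.2.2.2.1) (hs k hk.2.2.1 hk.2.2.2.1 hk.2.2.2.2.2.1)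
  have hgk : g ≠ k := Ne.symm hk.2.2.2.2.2.2
  have hf : Hm κ (swap g k) * Y * Hm κ (swap g k)⁻¹ = Y := g1a_ext hn fun x y => by
    have := g1a_cj hn (swap g k) Y x y
    rw [swap_inv] at this
    rw [this]
    simp only [swap_apply_def]
    split_ifs <;> simp_all
  have hD : Dis a g c k := ⟨Ne.symm hg.1, h2, Ne.symm hk.1, hg.2.2.1, hgk, Ne.symm hk.2.2.1⟩
  have key := g1a_top (g1a_all hG hW hY hgk hf) hD
  obtain ⟨π, πG, p1, p2, p3, p4⟩ := hG.move hD h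
  have sa : s a = a := hs a h2 h3 (Ne.symm hv.1)
  have tc : t c = c := ht c h2.symm h4.symm (Ne.symm hu.2.2.1)
  have te : t e = e := ht e h3.symm h5.symm (Ne.symm hu.2.2.2)
  have := hW π πG _ key
  simp only [mul_add, add_mul, Matrix.mul_smul, Matrix.smul_mul, Eo_conj, p1, p2, p3, p4,
    en_second, zg, zk, eY a c, eY c a, sa, sc, ta, tc, te] at this
  simp only [en_second]
  convert this using 3 <;> ring

theorem g1a_aq (hn : (d : κ) + 1 ≠ 0) (x y : Fin (d + 1)) :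
    av κ x ⬝ᵥ qv κ y = (if x = y then 1 else 0) - ((d : κ) + 1)⁻¹ := by
  induction y using Fin.lastCases with
  | cast j => rw [qv_castSucc, dotProduct_single, mul_one, av]
  | last =>
    have h := Fin.sum_univ_castSucc fun z : Fin (d + 1) => if x = z then (1 : κ) else 0
    rw [Finset.sum_ite_eq, if_pos (Finset.mem_univ _)] at h
    simp only [dotProduct, qv_last, av, mul_neg, mul_one, Finset.sum_neg_distrib,
      Finset.sum_sub_distrib, Finset.sum_const, Finset.card_univ, Fintype.card_fin, nsmul_eq_mul]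
    linear_combination h + mul_inv_cancel₀ hn

variable (κ) in
/-- The compression of a diagonal matrix unit. -/
def g1a_T (x : Fin (d + 1)) : Mat d κ := vecMulVec (qv κ x) (av κ x)

/-- The compression of a diagonal matrix. -/
def g1a_D (D : Fin (d + 1) → κ) : Mat d κ := ∑ x, D x • g1a_T κ x

theorem g1a_Tc (hn : (d : κ) + 1 ≠ 0) (π : Perm (Fin (d + 1))) (x : Fin (d + 1)) :
    Hm κ π * g1a_T κ x * Hm κ π⁻¹ = g1a_T κ (π x) := g1a_ext hn fun y z => by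
  obtain ⟨y, rfl⟩ := π.surjective y
  obtain ⟨z, rfl⟩ := π.surjective z
  rw [en_conj hn]
  simp only [en, g1a_T, g1a_dr, g1a_aq hn, π.apply_eq_iff_eq]

theorem g1a_Dc (hn : (d : κ) + 1 ≠ 0) (π : Perm (Fin (d + 1))) (D : Fin (d + 1) → κ) :
    g1a_D D - Hm κ π⁻¹ * g1a_D D * Hm κ π⁻¹⁻¹ = g1a_D fun x => D x - D (π x) := by
  simp only [g1a_D, Finset.mul_sum, Finset.sum_mul, Matrix.mul_smul, Matrix.smul_mul, g1a_Tc hn,
    sub_smul, Finset.sum_sub_distrib]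
  rw [← Equiv.sum_comp π fun x => D x • g1a_T κ (π⁻¹ x)]
  simp

theorem g1a_De (hn : (d : κ) + 1 ≠ 0) (D : Fin (d + 1) → κ) (y z : Fin (d + 1)) :
    en (g1a_D D) y z = (if y = z then D y else 0) - ((d : κ) + 1)⁻¹ * (D y + D z) +
      ((d : κ) + 1)⁻¹ ^ 2 * ∑ x, D x := by
  simp only [en, g1a_D, sum_mulVec, dotProduct_sum, smul_mulVec, dotProduct_smul, g1a_T, g1a_dr,
    g1a_aq hn, smul_eq_mul, mul_sub, sub_mul, Finset.sum_sub_distrib, mul_ite, ite_mul, mul_one,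
    one_mul, mul_zero, zero_mul, Finset.sum_ite_eq, Finset.sum_ite_eq', Finset.mem_univ, if_true,
    ← Finset.sum_mul]
  split_ifs with h
  · subst h
    ring
  · ring

theorem g1a_Ds (hn : (d : κ) + 1 ≠ 0) {D : Fin (d + 1) → κ} {a b : Fin (d + 1)} (hab : D a ≠ D b)
    (h : ∀ π, Hm κ π * g1a_D D * Hm κ π⁻¹ ∈ W) : g1a_T κ a - g1a_T κ b ∈ W := by
  have h1 := W.sub_mem (h 1) (h (swap a b)⁻¹)
  rw [inv_one, map_one, one_mul, mul_one, g1a_Dc hn, g1a_D,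
    Finset.sum_eq_add_of_mem a b (Finset.mem_univ _) (Finset.mem_univ _) (fun e => hab (e ▸ rfl))
      fun x _ hx => by simp [swap_apply_of_ne_of_ne hx.1 hx.2], swap_apply_left, swap_apply_right,
    ← neg_sub (D a), neg_smul, ← sub_eq_add_neg, ← smul_sub] at h1
  exact (W.smul_mem_iff (sub_ne_zero.2 hab)).1 h1

theorem g1a_diag (hn : (d : κ) + 1 ≠ 0) (hd : 4 ≤ d) {X : Mat d κ}
    (h0 : ∀ a b c e, Dis a b c e → fv κ a b ⬝ᵥ X *ᵥ pv κ c e = 0) : ∃ D, X = g1a_D D := by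
  have h1 : ∀ a b c e, c ≠ a → c ≠ b → e ≠ a → e ≠ b →
      en X a c - en X b c = en X a e - en X b e := fun a b c e h1 h2 h3 h4 => by
    rcases eq_or_ne a b with rfl | h5
    · simp
    rcases eq_or_ne c e with rfl | h6
    · rfl
    have := h0 a b c e ⟨h5, h1.symm, h3.symm, h2.symm, h4.symm, h6⟩
    rw [en_second] at this
    linear_combination this
  choose w hw using fun a : Fin (d + 1) => g1a_new [a, 0] (by simp; omega)
  simp only [List.mem_cons, List.not_mem_nil, or_false, not_or] at hw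
  obtain ⟨u, hu⟩ : ∃ u : Fin (d + 1) → κ, ∀ a b c, c ≠ a → c ≠ b →
      en X a c - u a = en X b c - u b := by
    refine ⟨fun a => en X a (w a) - en X 0 (w a), fun a b c h2 h3 => ?_⟩
    obtain ⟨e, he⟩ := g1a_new [a, b, 0] (by simp; omega)
    simp only [List.mem_cons, List.not_mem_nil, or_false, not_or] at he
    linear_combination h1 a b c e h2 h3 he.1 he.2.1 - h1 a 0 (w a) e (hw a).1 (hw a).2 he.1 he.2.2 +
      h1 b 0 (w b) e (hw b).1 (hw b).2 he.2.1 he.2.2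
  obtain ⟨v, D, hv⟩ : ∃ v D : Fin (d + 1) → κ, ∀ y z,
      en X y z = u y + v z + if y = z then D y else 0 := by
    refine ⟨fun z => en X (w z) z - u (w z), fun y => en X y y - u y - (en X (w y) y - u (w y)),
      fun y z => ?_⟩
    split_ifs with h
    · subst h
      ring
    · linear_combination hu y (w z) z (Ne.symm h) (Ne.symm (hw z).1)
  have r : ∀ y, ((d : κ) + 1) * u y + ∑ z, v z + D y = 0 := fun y => by
    simpa [hv, Finset.sum_add_distrib] using en_row X y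
  have c : ∀ z, ∑ y, u y + ((d : κ) + 1) * v z + D z = 0 := fun z => by
    simpa [hv, Finset.sum_add_distrib] using en_col hn X z
  have t : ((d : κ) + 1) * ∑ y, u y + ((d : κ) + 1) * ∑ z, v z + ∑ y, D y = 0 := by
    simpa [Finset.sum_add_distrib, ← Finset.mul_sum] using
      Finset.sum_eq_zero (s := Finset.univ) fun y _ => r y
  refine ⟨D, g1a_ext hn fun y z => ?_⟩
  rw [hv, g1a_De hn]
  have hi := mul_inv_cancel₀ hn
  generalize ((d : κ) + 1)⁻¹ = m at *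
  linear_combination m * r y + m * c z - m ^ 2 * t - (u y + v z - m * (∑ y, u y + ∑ z, v z)) * hi

theorem g1a_const (hn : (d : κ) + 1 ≠ 0) {D : Fin (d + 1) → κ} (hc : ∀ a b, D a = D b) :
    g1a_D D = D 0 • (1 : Mat d κ) := g1a_ext hn fun y z => by
  have hi := mul_inv_cancel₀ hn
  rw [g1a_De hn, en, smul_mulVec, one_mulVec, dotProduct_smul, g1a_aq hn]
  simp only [hc _ 0, Finset.sum_const, Finset.card_univ, Fintype.card_fin, nsmul_eq_mul,
    smul_eq_mul, Nat.cast_add, Nat.cast_one]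
  split_ifs <;> linear_combination (((d : κ) + 1)⁻¹ * D 0) * hi

theorem g1a_case (hn : (d : κ) + 1 ≠ 0) (hG : Big G)
    (hW : ∀ π ∈ G, ∀ X ∈ W, Hm κ π * X * Hm κ π⁻¹ ∈ W) (hbr : Br W) {X : Mat d κ} (hX : X ∈ W)
    (h0 : ∀ a b c e, Dis a b c e → fv κ a b ⬝ᵥ X *ᵥ pv κ c e = 0) (h1 : ∀ t : κ, X ≠ t • 1) :
    (∀ {a b c e : Fin (d + 1)}, Dis a b c e → g1a_T κ a - g1a_T κ b ∈ W) ∧
      ∀ {a b c e : Fin (d + 1)}, Dis a b c e → Eo κ a b c e - Eo κ c e a b ∈ W := by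
  have hd := hG.le
  obtain ⟨D, rfl⟩ := g1a_diag hn hd h0
  obtain ⟨a0, b0, hab⟩ : ∃ a0 b0, D a0 ≠ D b0 := by
    by_contra! hc
    exact h1 (D 0) (g1a_const hn hc)
  obtain ⟨a1, b1, hne, hT⟩ : ∃ a1 b1, a1 ≠ b1 ∧ g1a_T κ a1 - g1a_T κ b1 ∈ W := by
    have hne : a0 ≠ b0 := fun e => hab (e ▸ rfl)
    rcases id hG with ⟨hd, -⟩ | ⟨-, rfl⟩
    swap
    · exact ⟨a0, b0, hne, g1a_Ds hn hab fun π => hW π trivial _ hX⟩
    obtain ⟨u, hu⟩ := g1a_new [a0, b0] (by simp; omega)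
    obtain ⟨g, hg⟩ := g1a_new [a0, b0, u] (by simp; omega)
    obtain ⟨k, hk⟩ := g1a_new [a0, b0, u, g] (by simp; omega)
    simp only [List.mem_cons, List.not_mem_nil, or_false, not_or] at hu hg hk
    obtain ⟨t, tG, ta, ht⟩ := g1a_three hG hne hu.1 hu.2
    have tg := ht g hg.1 hg.2.1 hg.2.2
    have tk := ht k hk.1 hk.2.1 hk.2.2.1
    have hY := W.sub_mem hX (hW _ tG _ hX)
    rw [g1a_Dc hn] at hY
    refine ⟨a0, g, Ne.symm hg.1, g1a_Ds hn (D := fun x => D x - D (t x))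
      (by simpa [ta, tg, sub_eq_zero] using hab) (g1a_all hG hW hY (Ne.symm hk.2.2.2) ?_)⟩
    have := g1a_Dc hn (swap g k) fun x => D x - D (t x)
    rw [swap_inv, sub_eq_iff_eq_add, g1a_D, g1a_D, Finset.sum_eq_zero (s := Finset.univ)
      (f := fun x => (D x - D (t x) - (D (swap g k x) - D (t (swap g k x)))) • g1a_T κ x)
      fun x _ => ?_, zero_add] at this
    · exact this.symm
    · simp only [swap_apply_def]
      split_ifs with h1 h2
      · simp [h1, tg, tk]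
      · simp [h2, tg, tk]
      · simp
  have hS : ∀ {a b c e : Fin (d + 1)}, Dis a b c e → g1a_T κ a - g1a_T κ b ∈ W := fun h => by
    obtain ⟨u, hu⟩ := g1a_new [a1, b1] (by simp; omega)
    obtain ⟨g, hg⟩ := g1a_new [a1, b1, u] (by simp; omega)
    simp only [List.mem_cons, List.not_mem_nil, or_false, not_or] at hu hg
    obtain ⟨π, πG, p1, p2, -⟩ := hG.move ⟨hne, Ne.symm hu.1, Ne.symm hg.1, Ne.symm hu.2,
      Ne.symm hg.2.1, Ne.symm hg.2.2⟩ h
    simpa only [mul_sub, sub_mul, g1a_Tc hn, p1, p2] using hW π πG _ hT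
  have hP : ∀ {a b c e : Fin (d + 1)}, Dis a b c e → (g1a_T κ a - g1a_T κ b) *
      (g1a_T κ c - g1a_T κ e) = -((d : κ) + 1)⁻¹ • Eo κ a b c e := fun {a b c e} h => by
    obtain ⟨-, h2, h3, h4, h5, -⟩ := h
    have : fv κ c e = av κ c - av κ e := by
      ext j
      simp [fv, av]
    simp only [g1a_T, mul_sub, sub_mul, g1a_rr, g1a_aq hn, h2, h3, h4, h5, if_false, zero_sub, Eo,
      pv, this, sub_vecMulVec, vecMulVec_sub, smul_sub]
  have sy : ∀ {a b c e : Fin (d + 1)}, Dis a b c e → Dis c e a b := fun h =>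
    ⟨h.2.2.2.2.2, h.2.1.symm, h.2.2.2.1.symm, h.2.2.1.symm, h.2.2.2.2.1.symm, h.1⟩
  refine ⟨hS, fun h => ?_⟩
  have := hbr _ (hS h) _ (hS (sy h))
  rw [hP h, hP (sy h), ← smul_sub] at this
  exact (W.smul_mem_iff (neg_ne_zero.2 (inv_ne_zero hn))).1 this

theorem diag_case (h2 : (2 : κ) ≠ 0) (hn : (d : κ) + 1 ≠ 0) (hG : Big G)
    (hW : ∀ π ∈ G, ∀ X ∈ W, Hm κ π * X * Hm κ π⁻¹ ∈ W) (hbr : Br W) {X : Mat d κ} (hX : X ∈ W)
    (h0 : ∀ a b c e, Dis a b c e → fv κ a b ⬝ᵥ X *ᵥ pv κ c e = 0) (h1 : ∀ t : κ, X ≠ t • 1)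
    {a b c e : Fin (d + 1)} (h : Dis a b c e) : Eo κ a b c e ∈ W := by
  have hd := hG.le
  obtain ⟨hS, hE⟩ := g1a_case hn hG hW hbr hX h0 h1
  obtain ⟨g, hg⟩ := g1a_new [a, b, c, e] (by simp; omega)
  simp only [List.mem_cons, List.not_mem_nil, or_false, not_or] at hg
  obtain ⟨g1, g2, g3, g4⟩ := hg
  obtain ⟨h1, h2', h3, h4, h5, h6⟩ := id h
  have key := second_mem hn hG hW (hbr _ (hS h) _
    (hE (a := a) (b := g) ⟨Ne.symm g1, h2', h3, g3, g4, h6⟩)) h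
  have ap : ∀ x y z : Fin (d + 1), av κ x ⬝ᵥ pv κ y z =
      (if x = y then 1 else 0) - (if x = z then 1 else 0) := fun x y z => by
    rw [pv, dotProduct_sub, g1a_aq hn, g1a_aq hn, sub_sub_sub_cancel_right]
  simp only [g1a_T, Eo, mul_sub, sub_mul, g1a_rr, sub_mulVec, dotProduct_sub, smul_mulVec,
    dotProduct_smul, g1a_dr, ap, g1a_fp, fv_dot_qv, h1, h2', h3, h4, h5, h6, h1.symm, h2'.symm,
    h3.symm, h4.symm, h5.symm, h6.symm, g1, g2, g3, g4, Ne.symm g1, Ne.symm g2, Ne.symm g3,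
    Ne.symm g4, if_true, if_false, smul_eq_mul] at key
  refine (W.smul_mem_iff (mul_ne_zero h2 h2)).1 ?_
  convert W.add_mem key (W.smul_mem 2 (hE h)) using 1
  simp only [Eo]
  module

end Pool.Agent.Lib.MP_d61fbb_ag.SQ
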