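import Pool.Agent.Lib.MP_d61fbb_ag.SQ.G1b

/-! The orthogonal decomposition of the matrix algebra. -/

set_option autoImplicit false

noncomputable section

namespace Pool.Agent.Lib.MP_d61fbb_ag.SQ

open Matrix Equiv

variable {κ : Type} [Field κ] {d : ℕ}

theorem g3_unit (hn : (d : κ) + 1 ≠ 0) : IsUnit (Gm κ d).det := (Gm_det hn).isUnit

theorem g3_adj_l (hn : (d : κ) + 1 ≠ 0) (X : Mat d κ) :
    Gm κ d * ((Gm κ d)⁻¹ * Xᵀ * Gm κ d) = Xᵀ * Gm κ d := by
  rw [← mul_assoc, ← mul_assoc, mul_nonsing_inv _ (g3_unit hn), one_mul]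

theorem g3_adj_r (hn : (d : κ) + 1 ≠ 0) (X : Mat d κ) :
    ((Gm κ d)⁻¹ * Xᵀ * Gm κ d)ᵀ * Gm κ d = Gm κ d * X := by
  rw [transpose_mul, transpose_mul, transpose_transpose, transpose_nonsing_inv, Gm_symm, mul_assoc,
    mul_assoc, nonsing_inv_mul _ (g3_unit hn), mul_one]

theorem g3_cancel (hn : (d : κ) + 1 ≠ 0) {X : Mat d κ} (h : Gm κ d * X = 0) : X = 0 := by
  rw [← one_mul X, ← nonsing_inv_mul _ (g3_unit hn), mul_assoc, h, mul_zero]

theorem g3_trace (hn : (d : κ) + 1 ≠ 0) {X Y : Mat d κ} (h : Xᵀ * Gm κ d = Gm κ d * Y) :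
    X.trace = Y.trace := by
  have e : Xᵀ = Gm κ d * (Y * (Gm κ d)⁻¹) := by
    rw [← mul_assoc, ← h, mul_assoc, mul_nonsing_inv _ (g3_unit hn), mul_one]
  rw [← trace_transpose X, e, trace_mul_comm, mul_assoc, nonsing_inv_mul _ (g3_unit hn), mul_one]

theorem g3_half (h2 : (2 : κ) ≠ 0) {x : κ} (h : x = -x) : x = 0 :=
  (mul_eq_zero.1 (show 2 * x = 0 by linear_combination h)).resolve_left h2

theorem so_sym_compl (h2 : (2 : κ) ≠ 0) (hn : (d : κ) + 1 ≠ 0) : IsCompl (so κ d) (sym κ d) := by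
  refine ⟨Submodule.disjoint_def.2 fun X h h' => g3_cancel hn ?_,
    Submodule.codisjoint_iff_exists_add_eq.2 fun X => ?_⟩
  · rw [mem_so, mem_sym.1 h', ← two_smul κ] at h
    exact (smul_eq_zero.1 h).resolve_left h2
  · refine ⟨(2 : κ)⁻¹ • (X - (Gm κ d)⁻¹ * Xᵀ * Gm κ d), (2 : κ)⁻¹ • (X + (Gm κ d)⁻¹ * Xᵀ * Gm κ d),
      (so κ d).smul_mem _ ?_, (sym κ d).smul_mem _ ?_, ?_⟩
    · rw [mem_so, transpose_sub, sub_mul, mul_sub, g3_adj_l hn, g3_adj_r hn]
      abel
    · rw [mem_sym, transpose_add, add_mul, mul_add, g3_adj_l hn, g3_adj_r hn, add_comm]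
    · rw [← smul_add, sub_add_add_cancel, ← two_smul κ, smul_smul, inv_mul_cancel₀ h2, one_smul]

theorem one_mem_sym : (1 : Mat d κ) ∈ sym κ d := by
  rw [mem_sym, transpose_one, one_mul, mul_one]

theorem g3_so {X : Mat d κ} (h : X ∈ so κ d) : Xᵀ * Gm κ d = Gm κ d * -X := by
  rw [mul_neg]
  exact eq_neg_of_add_eq_zero_left h

theorem so_le_sl (h2 : (2 : κ) ≠ 0) (hn : (d : κ) + 1 ≠ 0) : so κ d ≤ sl κ d := fun X h => by
  have e := g3_trace hn (g3_so h)
  rw [trace_neg] at e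
  exact g3_half h2 e

theorem so_br : Br (so κ d) := fun X hX Y hY => by
  have k : ∀ {X Y : Mat d κ}, X ∈ so κ d → Y ∈ so κ d →
      (X * Y)ᵀ * Gm κ d = Gm κ d * (Y * X) := fun hX hY => by
    rw [transpose_mul, mul_assoc, g3_so hX, ← mul_assoc, g3_so hY, mul_assoc, neg_mul_neg]
  rw [mem_so, transpose_sub, sub_mul, mul_sub, k hX hY, k hY hX]
  abel

theorem g3_perp (h2 : (2 : κ) ≠ 0) (hn : (d : κ) + 1 ≠ 0) {X Y : Mat d κ} (hX : X ∈ so κ d)
    (hY : Y ∈ sym κ d) : (X * Y).trace = 0 := by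
  have e : (X * Y)ᵀ * Gm κ d = Gm κ d * -(Y * X) := by
    rw [transpose_mul, mul_assoc, g3_so hX, ← mul_assoc, mem_sym.1 hY, mul_assoc, mul_neg Y]
  have e' := g3_trace hn e
  rw [trace_neg, trace_mul_comm Y] at e'
  exact g3_half h2 e'

theorem perp_so (h2 : (2 : κ) ≠ 0) (hn : (d : κ) + 1 ≠ 0) (Y : Mat d κ) :
    (∀ X ∈ so κ d, (X * Y).trace = 0) ↔ Y ∈ sym κ d := by
  refine ⟨fun h => ?_, fun h X hX => g3_perp h2 hn hX h⟩
  have c := Submodule.codisjoint_iff_exists_add_eq.1 (so_sym_compl h2 hn).codisjoint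
  obtain ⟨A, S, hA, hS, rfl⟩ := c Y
  have : A = 0 := by
    refine ext_iff_trace_mul_left.2 fun Z => ?_
    obtain ⟨B, T, hB, hT, rfl⟩ := c Z
    have e := h B hB
    rw [mul_add, trace_add, g3_perp h2 hn hB hS, add_zero] at e
    rw [add_mul, trace_add, e, trace_mul_comm, g3_perp h2 hn hA hT, mul_zero, trace_zero, add_zero]
  rwa [this, zero_add]

theorem g3_br {p q r f g h : Fin d → κ} (h1 : f ⬝ᵥ q = 0) (h2 : g ⬝ᵥ p = 0) (h3 : f ⬝ᵥ r = 0)
    (h4 : h ⬝ᵥ p = 0) (h5 : g ⬝ᵥ r = 0) (h6 : h ⬝ᵥ q = 0) :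
    (vecMulVec p g - vecMulVec q f) * (vecMulVec q h - vecMulVec r g) -
      (vecMulVec q h - vecMulVec r g) * (vecMulVec p g - vecMulVec q f) =
      (g ⬝ᵥ q) • (vecMulVec p h - vecMulVec r f) := by
  simp only [sub_mul, mul_sub, vecMulVec_mul_vecMulVec, h1, h2, h3, h4, h5, h6, zero_smul,
    vecMulVec_zero, vecMulVec_smul, smul_sub]
  abel

theorem g3_Eo (a b c e : Fin (d + 1)) : Eo κ a b c e - Eo κ c e a b ∈ so κ d := by
  rw [mem_so, transpose_sub, sub_mul, mul_sub, Eo_adj, Eo_adj]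
  abel

theorem der_so (h2 : (2 : κ) ≠ 0) (hn : (d : κ) + 1 ≠ 0) (hd : 4 ≤ d) : der (so κ d) = so κ d := by
  refine le_antisymm so_br.der_le (so_le_of h2 hn hd fun a b c e h => ?_)
  obtain ⟨ab, ac, ae, bc, be, ce⟩ := h
  have m1 : vecMulVec (pv κ a b) (fv κ a c + fv κ b e) -
      vecMulVec (pv κ a c + pv κ b e) (fv κ a b) ∈ so κ d := by
    have := (so κ d).add_mem (g3_Eo a b a c) (g3_Eo a b b e)
    simp only [Eo] at this
    rwa [vecMulVec_add, add_vecMulVec, add_sub_add_comm]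
  have m2 : vecMulVec (pv κ a c + pv κ b e) (fv κ c e) -
      vecMulVec (pv κ c e) (fv κ a c + fv κ b e) ∈ so κ d := by
    have := (so κ d).add_mem (g3_Eo a c c e) (g3_Eo b e c e)
    simp only [Eo] at this
    rwa [vecMulVec_add, add_vecMulVec, add_sub_add_comm]
  have m := br_mem_der m1 m2
  have s : ∀ x y z w : Fin (d + 1), fv κ x y ⬝ᵥ pv κ z w =
      (if x = z then 1 else 0) - (if y = z then 1 else 0) -
        ((if x = w then 1 else 0) - (if y = w then 1 else 0)) := fun x y z w => by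
    rw [pv, dotProduct_sub, fv_dot_qv, fv_dot_qv]
  have e4 : (fv κ a c + fv κ b e) ⬝ᵥ (pv κ a c + pv κ b e) = 2 * 2 := by
    simp [add_dotProduct, dotProduct_add, s, ab, ac, ae, bc, be, ce, ab.symm, ac.symm, ae.symm,
      bc.symm, be.symm, ce.symm]
    ring
  rw [g3_br, e4] at m
  · exact ((der (so κ d)).smul_mem_iff (mul_ne_zero h2 h2)).1 m
  all_goals simp [add_dotProduct, dotProduct_add, s, ab, ac, ae, bc, be, ce, ab.symm, ac.symm,
    ae.symm, bc.symm, be.symm, ce.symm]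

theorem der_sl (h2 : (2 : κ) ≠ 0) : der (sl κ d) = sl κ d := by
  refine le_antisymm (Br.der_le fun X _ Y _ => ?_) fun X hX => ?_
  · rw [mem_sl, trace_sub, trace_mul_comm, sub_self]
  have o1 : ∀ i j : Fin d, i ≠ j → (single i j 1 : Mat d κ) ∈ sl κ d := fun i j h =>
    trace_single_eq_of_ne _ _ _ h
  have o2 : ∀ i j : Fin d, (single i i 1 - single j j 1 : Mat d κ) ∈ sl κ d := fun i j => by
    rw [mem_sl, trace_sub, trace_single_eq_same, trace_single_eq_same, sub_self]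
  have d1 : ∀ i j : Fin d, i ≠ j → (single i j 1 : Mat d κ) ∈ der (sl κ d) := fun i j h => by
    have m := br_mem_der (o2 i j) (o1 i j h)
    rw [sub_mul, mul_sub, single_mul_single_same, single_mul_single_same,
      single_mul_single_of_ne _ _ _ _ h.symm, single_mul_single_of_ne _ _ _ _ h.symm, one_mul,
      sub_zero, zero_sub, sub_neg_eq_add, ← two_smul κ] at m
    exact ((der (sl κ d)).smul_mem_iff h2).1 m
  have d2 : ∀ i j : Fin d, (single i i 1 - single j j 1 : Mat d κ) ∈ der (sl κ d) := fun i j => by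
    by_cases h : i = j
    · rw [h, sub_self]
      exact zero_mem _
    · have m := br_mem_der (o1 i j h) (o1 j i (Ne.symm h))
      rwa [single_mul_single_same, single_mul_single_same, one_mul] at m
  rcases Nat.eq_zero_or_pos d with rfl | hd
  · rw [Subsingleton.elim X 0]
    exact zero_mem _
  let o : Fin d := ⟨0, hd⟩
  have e : X = ∑ i, ∑ j, X i j • (single i j 1 - if i = j then single o o 1 else 0 : Mat d κ) := by
    have t : ∑ i, X i i = 0 := hX
    simp only [smul_sub, Finset.sum_sub_distrib, smul_ite, smul_zero, Finset.sum_ite_eq,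
      Finset.mem_univ, if_true, ← Finset.sum_smul, t, zero_smul, sub_zero]
    simp only [smul_single, smul_eq_mul, mul_one]
    exact matrix_eq_sum_single X
  rw [e]
  refine sum_mem fun i _ => sum_mem fun j _ => (der (sl κ d)).smul_mem _ ?_
  by_cases h : i = j
  · rw [if_pos h, ← h]
    exact d2 i o
  · rw [if_neg h, sub_zero]
    exact d1 i j h

theorem finrank_sl (hd : 0 < d) : Module.finrank κ (sl κ d) + 1 = d * d := by
  have e := LinearMap.finrank_range_add_finrank_ker (Matrix.traceLinearMap (Fin d) κ κ)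
  have r : LinearMap.range (Matrix.traceLinearMap (Fin d) κ κ) = ⊤ :=
    LinearMap.range_eq_top.2 fun c => ⟨single ⟨0, hd⟩ ⟨0, hd⟩ c, by simp⟩
  rw [r, finrank_top, Module.finrank_self, Module.finrank_matrix, Module.finrank_self,
    Fintype.card_fin, mul_one, add_comm] at e
  exact e

theorem two_le_finrank_sym (hd : 2 ≤ d) : 2 ≤ Module.finrank κ (sym κ d) := by
  let i : Fin d := ⟨0, by omega⟩
  let j : Fin d := ⟨1, by omega⟩
  have ij : j ≠ i := fun h => by simp [i, j] at h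
  have m : Eo κ i.castSucc (Fin.last d) i.castSucc (Fin.last d) ∈ sym κ d := Eo_adj _ _ _ _
  have li : LinearIndependent κ ![(⟨1, one_mem_sym⟩ : sym κ d), ⟨_, m⟩] := by
    refine LinearIndependent.pair_iff.2 fun s t h => ?_
    have h' : s • (1 : Mat d κ) + t • Eo κ i.castSucc (Fin.last d) i.castSucc (Fin.last d) = 0 :=
      congrArg Subtype.val h
    have a := congrFun (congrFun h' j) i
    have b := congrFun (congrFun h' j) j
    simp [Eo, vecMulVec_apply, pv, fv, qv_castSucc, qv_last, ij, ij.symm,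
      (Fin.castSucc_lt_last _).ne'] at a b
    exact ⟨b, a⟩
  simpa using li.fintype_card_le_finrank

end Pool.Agent.Lib.MP_d61fbb_ag.SQ
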