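import Pool.Agent.Lib.MP_d61fbb_ag.SQ.G1a
import Pool.Agent.Lib.MP_d61fbb_ag.SQ.G3

/-! The classification in characteristic two. -/

set_option autoImplicit false

noncomputable section

namespace Pool.Agent.Lib.MP_d61fbb_ag.SQ

open Matrix Equiv

variable {κ : Type} [Field κ] {d : ℕ} {G : Subgroup (Perm (Fin (d + 1)))}
  {W : Submodule κ (Mat d κ)}

theorem der_sl3 (hd : 3 ≤ d) : der (sl κ d) = sl κ d := by
  refine le_antisymm (Br.der_le fun X _ Y _ => ?_) fun X hX => ?_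
  · rw [mem_sl, trace_sub, trace_mul_comm, sub_self]
  have o1 : ∀ i j : Fin d, i ≠ j → (single i j 1 : Mat d κ) ∈ sl κ d := fun i j h =>
    trace_single_eq_of_ne _ _ _ h
  have d1 : ∀ i j : Fin d, i ≠ j → (single i j 1 : Mat d κ) ∈ der (sl κ d) := fun i j h => by
    obtain ⟨k, -, hk⟩ := Finset.exists_mem_notMem_of_card_lt_card (s := {i, j})
      (t := Finset.univ) (Finset.card_le_two.trans_lt (by simp; omega))
    simp only [Finset.mem_insert, Finset.mem_singleton, not_or] at hk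
    have m := br_mem_der (o1 i k (Ne.symm hk.1)) (o1 k j hk.2)
    rwa [single_mul_single_same, single_mul_single_of_ne _ _ _ _ h.symm, one_mul, sub_zero] at m
  have d2 : ∀ i j : Fin d, (single i i 1 - single j j 1 : Mat d κ) ∈ der (sl κ d) := fun i j => by
    by_cases h : i = j
    · rw [h, sub_self]
      exact zero_mem _
    · have m := br_mem_der (o1 i j h) (o1 j i (Ne.symm h))
      rwa [single_mul_single_same, single_mul_single_same, one_mul] at m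
  let o : Fin d := ⟨0, by omega⟩
  have e : X = ∑ i, ∑ j, X i j • (single i j 1 - if i = j then single o o 1 else 0 : Mat d κ) := by
    have t : ∑ i, X i i = 0 := hX
    simp only [smul_sub, Finset.sum_sub_distrib, smul_ite, smul_zero, Finset.sum_ite_eq,
      Finset.mem_univ, if_true, ← Finset.sum_smul, t, zero_smul, sub_zero]
    simp only [smul_single, smul_eq_mul, mul_one]
    exact matrix_eq_sum_single X
  rw [e]
  refine sum_mem fun i _ => sum_mem fun j _ => (der (sl κ d)).smul_mem _ ?_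
  by_cases h : i = j
  · rw [if_pos h, ← h]
    exact d2 i o
  · rw [if_neg h, sub_zero]
    exact d1 i j h

theorem g8_eq {X Y Z : Mat d κ} (h : Z ∈ W) (e : X - Y = Z) : W.mkQ X = W.mkQ Y :=
  (Submodule.Quotient.eq W).2 (e ▸ h)

theorem g8_fp {o x y : Fin (d + 1)} (hx : x ≠ o) (hy : y ≠ o) :
    fv κ y o ⬝ᵥ pv κ x o = if x = y then 2 else 1 := by
  rw [g1a_fp, if_neg hx.symm, if_neg hy, if_pos rfl]
  split_ifs with h1 h2 h2
  · ring
  · exact absurd h1.symm h2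
  · exact absurd h2.symm h1
  · ring

theorem g8_zero {o x y : Fin (d + 1)} (h : x = o ∨ y = o) : Eo κ x o y o = 0 := by
  rcases h with rfl | rfl <;> simp only [g1b_Eo] <;> abel

theorem sl_le_of (hn : (d : κ) + 1 ≠ 0) (hd : 4 ≤ d) (hbr : Br W)
    (h : ∀ a b c e, Dis a b c e → Eo κ a b c e ∈ W) : sl κ d ≤ W := by
  have r1 : ∀ a b e e', a ≠ b → a ≠ e → b ≠ e → a ≠ e' → b ≠ e' →
      W.mkQ (Eo κ a b a e) = W.mkQ (Eo κ a b a e') := fun a b e e' h1 h2 h3 h4 h5 => by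
    rcases eq_or_ne e' e with rfl | h6
    · rfl
    exact g8_eq (h a b e' e ⟨h1, h4, h2, h5, h3, h6⟩) (by simp only [g1b_Eo]; abel)
  have r2 : ∀ a b b' e, a ≠ e → a ≠ b → b ≠ e → a ≠ b' → b' ≠ e →
      W.mkQ (Eo κ a b a e) = W.mkQ (Eo κ a b' a e) := fun a b b' e h1 h2 h3 h4 h5 => by
    rcases eq_or_ne b' b with rfl | h6
    · rfl
    exact g8_eq (h b' b a e ⟨h6, h4.symm, h5, h2.symm, h3, h1⟩) (by simp only [g1b_Eo]; abel)
  have r3 : ∀ a b c e, Dis a b c e → W.mkQ (Eo κ a b a e) = W.mkQ (Eo κ c b c e) :=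
    fun a b c e hD => by
      obtain ⟨ab, ac, ae, bc, be, ce⟩ := id hD
      refine g8_eq (hbr _ (h a b c e hD) _ (h c b a e ⟨bc.symm, ac.symm, ce, ab.symm, be, ae⟩)) ?_
      simp [Eo, g1a_rr, g1a_fp, ab, ae.symm, be.symm, bc.symm, ce.symm]
  have sA : ∀ a b e b' e', a ≠ b → a ≠ e → b ≠ e → a ≠ b' → a ≠ e' → b' ≠ e' →
      W.mkQ (Eo κ a b a e) = W.mkQ (Eo κ a b' a e') := fun a b e b' e' h1 h2 h3 h4 h5 h6 => by
    obtain ⟨g, g1, g2, g3, -⟩ := g1b_new hd a b b' b'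
    exact (r1 a b e g h1 h2 h3 g1.symm g2.symm).trans ((r2 a b b' g g1.symm h1 g2.symm h4
      g3.symm).trans (r1 a b' g e' h4 g1.symm g3.symm h5 h6))
  have sB : ∀ a b e c b' e', a ≠ b → a ≠ e → b ≠ e → c ≠ b' → c ≠ e' → b' ≠ e' →
      W.mkQ (Eo κ a b a e) = W.mkQ (Eo κ c b' c e') := fun a b e c b' e' h1 h2 h3 h4 h5 h6 => by
    rcases eq_or_ne a c with rfl | h7
    · exact sA a b e b' e' h1 h2 h3 h4 h5 h6
    obtain ⟨g, g1, g2, -⟩ := g1b_new hd a c c c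
    obtain ⟨k, k1, k2, k3, -⟩ := g1b_new hd a c g g
    exact (sA a b e g k h1 h2 h3 g1.symm k1.symm k3.symm).trans ((r3 a g c k ⟨g1.symm, h7, k1.symm,
      g2, k3.symm, k2.symm⟩).trans (sA c g k b' e' g2.symm k2.symm k3.symm h4 h5 h6))
  obtain ⟨p, p0, -⟩ := g1b_new hd 0 0 0 0
  obtain ⟨q, q0, qp, -⟩ := g1b_new hd 0 p p p
  have key : ∀ x y, W.mkQ (Eo κ x 0 y 0) = (Eo κ x 0 y 0).trace • W.mkQ (Eo κ 0 p 0 q) := by
    intro x y
    by_cases h0 : x = 0 ∨ y = 0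
    · rw [g8_zero h0, map_zero, trace_zero, zero_smul]
    rw [not_or] at h0
    rw [trace_Eo, g8_fp h0.1 h0.2]
    split_ifs with h1
    · subst h1
      obtain ⟨g, g1, g2, -⟩ := g1b_new hd 0 x x x
      rw [show Eo κ x 0 x 0 = Eo κ x 0 x g + Eo κ 0 x 0 g by simp only [g1b_Eo]; abel, map_add,
        sB x 0 g 0 p q h0.1 g2.symm g1.symm p0.symm q0.symm qp.symm,
        sB 0 x g 0 p q (Ne.symm h0.1) g1.symm g2.symm p0.symm q0.symm qp.symm, two_smul]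
    · rw [show Eo κ x 0 y 0 = Eo κ 0 x 0 y by simp only [g1b_Eo]; abel, one_smul]
      exact sB 0 x y 0 p q (Ne.symm h0.1) (Ne.symm h0.2) h1 p0.symm q0.symm qp.symm
  intro X hX
  have e := congrArg trace (en_expand hn X 0)
  rw [mem_sl.1 hX] at e
  simp only [trace_sum, trace_smul, smul_eq_mul] at e
  rw [← Submodule.Quotient.mk_eq_zero, ← Submodule.mkQ_apply, en_expand hn X 0]
  simp only [map_sum, map_smul, key, smul_smul, ← Finset.sum_smul]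
  rw [← e, zero_smul]

theorem g8_span (hn : (d : κ) + 1 ≠ 0) (o : Fin (d + 1)) (x : Fin d → κ) :
    x ∈ Submodule.span κ (Set.range fun z => pv κ z o) := by
  have h1 : ∀ z, pv κ z o ∈ Submodule.span κ (Set.range fun z => pv κ z o) := fun z =>
    Submodule.subset_span ⟨z, rfl⟩
  have h2 : qv κ o ∈ Submodule.span κ (Set.range fun z => pv κ z o) := by
    have h3 := neg_mem (sum_mem (t := Finset.univ) fun z _ => h1 z)
    simp only [pv, Finset.sum_sub_distrib, sum_qv, zero_sub, neg_neg, Finset.sum_const,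
      Finset.card_univ, Fintype.card_fin, ← Nat.cast_smul_eq_nsmul κ, Nat.cast_add,
      Nat.cast_one] at h3
    exact (Submodule.smul_mem_iff _ hn).1 h3
  rw [pi_eq_sum_univ' x]
  refine sum_mem fun j _ => Submodule.smul_mem _ _ ?_
  have h4 := add_mem (h1 j.castSucc) h2
  rwa [pv, sub_add_cancel, qv_castSucc] at h4

theorem g8_comm (x y : Fin d → κ) : x ⬝ᵥ Gm κ d *ᵥ y = y ⬝ᵥ Gm κ d *ᵥ x := by
  rw [dotProduct_mulVec, ← mulVec_transpose, Gm_symm, dotProduct_comm]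

theorem wedge_mem (h2 : (2 : κ) = 0) (hn : (d : κ) + 1 ≠ 0) (hd : 4 ≤ d)
    (h : ∀ a b c e, Dis a b c e → Eo κ a b c e + Eo κ c e a b ∈ W) (x y : Fin d → κ)
    (hxy : x ⬝ᵥ Gm κ d *ᵥ y = 0) : wedge x y ∈ W := by
  have r1 : ∀ i j j', i ≠ 0 → j ≠ 0 → j' ≠ 0 → i ≠ j → i ≠ j' →
      W.mkQ (Eo κ i 0 j 0 + Eo κ j 0 i 0) = W.mkQ (Eo κ i 0 j' 0 + Eo κ j' 0 i 0) :=
    fun i j j' h1 h3 h4 h5 h6 => by
      rcases eq_or_ne j j' with rfl | h7
      · rfl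
      exact g8_eq (h i 0 j j' ⟨h1, h5, h6, h3.symm, h4.symm, h7⟩) (by simp only [g1b_Eo]; abel)
  obtain ⟨p, p0, -⟩ := g1b_new hd 0 0 0 0
  obtain ⟨q, q0, qp, -⟩ := g1b_new hd 0 p p p
  obtain ⟨T, hT⟩ : ∃ T, T = W.mkQ (Eo κ p 0 q 0 + Eo κ q 0 p 0) := ⟨_, rfl⟩
  have base : ∀ i j, W.mkQ (wedge (pv κ i 0) (pv κ j 0)) =
      (pv κ i 0 ⬝ᵥ Gm κ d *ᵥ pv κ j 0) • T := fun i j => by
    have e : wedge (pv κ i 0) (pv κ j 0) = ((d : κ) + 1) • (Eo κ i 0 j 0 + Eo κ j 0 i 0) := by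
      rw [wedge, Gm_pv, Gm_pv, vecMulVec_smul, vecMulVec_smul, smul_add, Eo, Eo]
    rw [e, Gm_pv, dotProduct_smul, smul_eq_mul, mul_smul, map_smul, dotProduct_comm, ← trace_Eo]
    congr 1
    by_cases h0 : i = 0 ∨ j = 0
    · rw [g8_zero h0, g8_zero h0.symm, add_zero, map_zero, trace_zero, zero_smul]
    rw [not_or] at h0
    rw [trace_Eo, g8_fp h0.1 h0.2]
    split_ifs with h1
    · rw [h1, ← two_smul κ, h2, zero_smul, zero_smul, map_zero]
    · obtain ⟨g, g1, g2, g3, -⟩ := g1b_new hd 0 i p p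
      rw [one_smul, hT, r1 i j g h0.1 h0.2 g1 h1 g2.symm, add_comm, r1 g i p g1 h0.1 p0 g2 g3,
        add_comm, r1 p g q p0 g1 q0 g3.symm qp.symm]
  have ext : ∀ y, (∀ i, W.mkQ (wedge (pv κ i 0) y) = (pv κ i 0 ⬝ᵥ Gm κ d *ᵥ y) • T) →
      ∀ x, W.mkQ (wedge y x) = (y ⬝ᵥ Gm κ d *ᵥ x) • T := fun y hy x => by
    rw [g8_comm, wedge, add_comm, ← wedge]
    induction g8_span hn 0 x using Submodule.span_induction with
    | mem x hx => obtain ⟨i, rfl⟩ := hx; exact hy i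
    | zero => simp [wedge]
    | add u v _ _ hu hv =>
      rw [add_dotProduct, add_smul, ← hu, ← hv, ← map_add]
      simp only [wedge, add_vecMulVec, mulVec_add, vecMulVec_add, add_add_add_comm]
    | smul c u _ hu =>
      rw [smul_dotProduct, smul_eq_mul, mul_smul, ← hu, ← map_smul]
      simp only [wedge, smul_vecMulVec, mulVec_smul, vecMulVec_smul, smul_add]
  have := ext x (fun i => ext _ (fun j => base j i) x) y
  rwa [hxy, zero_smul, Submodule.mkQ_apply, Submodule.Quotient.mk_eq_zero] at this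

theorem g8_move (hG : Big G) (hW : ∀ π ∈ G, ∀ X ∈ W, Hm κ π * X * Hm κ π⁻¹ ∈ W) {β γ : κ}
    {a b c e : Fin (d + 1)} (h : Dis a b c e) (k : β • Eo κ a b c e + γ • Eo κ c e a b ∈ W)
    {a' b' c' e' : Fin (d + 1)} (h' : Dis a' b' c' e') :
    β • Eo κ a' b' c' e' + γ • Eo κ c' e' a' b' ∈ W := by
  obtain ⟨π, hπ, rfl, rfl, rfl, rfl⟩ := hG.move h h'
  have := hW π hπ _ k
  rwa [mul_add, add_mul, Matrix.mul_smul, Matrix.mul_smul, smul_mul, smul_mul, Eo_conj,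
    Eo_conj] at this

theorem g8_form (h2 : (2 : κ) = 0) (hn : (d : κ) + 1 ≠ 0) (hd : 4 ≤ d) {X : Mat d κ}
    (h : ∀ a b c e, Dis a b c e → fv κ a b ⬝ᵥ X *ᵥ pv κ c e = fv κ c e ⬝ᵥ X *ᵥ pv κ a b) :
    ∃ t : κ, Xᵀ * Gm κ d + Gm κ d * X = t • Gm κ d := by
  obtain ⟨Y, hY⟩ : ∃ Y : Mat d κ, Gm κ d * Y = Xᵀ * Gm κ d + Gm κ d * X :=
    ⟨(Gm κ d)⁻¹ * Xᵀ * Gm κ d + X, by rw [mul_add, g3_adj_l hn]⟩
  have e : ∀ x y, en Y x y = en X y x + en X x y := fun x y => mul_left_cancel₀ hn (by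
    rw [← g0_en_left hn, hY, add_mulVec, dotProduct_add, g0_en_left hn, g0_en_right hn, mul_add])
  obtain ⟨D, rfl⟩ := g1a_diag hn hd (X := Y) fun a b c f hD => by
    have k := h a b c f hD
    rw [en_second, en_second] at k
    rw [en_second, e, e, e, e]
    linear_combination -k + (en X a c - en X a f - en X b c + en X b f) * h2
  have k : ∀ a, D a = -(((d : κ) + 1)⁻¹ ^ 2 * ∑ x, D x) := fun a => by
    have k1 := e a a
    rw [g1a_De hn, if_pos rfl] at k1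
    linear_combination k1 + (((d : κ) + 1)⁻¹ * D a + en X a a) * h2
  exact ⟨D 0, by rw [← hY, g1a_const hn fun a b => (k a).trans (k b).symm, Matrix.mul_smul, mul_one]⟩

theorem classify_two (h2 : (2 : κ) = 0) (hn : (d : κ) + 1 ≠ 0) (hG : Big G)
    (hW : ∀ π ∈ G, ∀ X ∈ W, Hm κ π * X * Hm κ π⁻¹ ∈ W) (hbr : Br W) (h1 : (1 : Mat d κ) ∈ W) :
    W = κ ∙ (1 : Mat d κ) ∨ sl κ d ≤ W ∨
      ((∀ x y : Fin d → κ, x ⬝ᵥ Gm κ d *ᵥ y = 0 → wedge x y ∈ W) ∧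
        ∀ X ∈ W, ∃ t : κ, Xᵀ * Gm κ d + Gm κ d * X = t • Gm κ d) := by
  have hd := hG.le
  by_cases hA : ∀ X ∈ W, ∀ a b c e, Dis a b c e →
      fv κ a b ⬝ᵥ X *ᵥ pv κ c e = fv κ c e ⬝ᵥ X *ᵥ pv κ a b
  swap
  · push Not at hA
    obtain ⟨X, hX, a, b, c, e, h, k⟩ := hA
    have m := second_mem hn hG hW hX h
    generalize fv κ a b ⬝ᵥ X *ᵥ pv κ c e = β at k m
    generalize fv κ c e ⬝ᵥ X *ᵥ pv κ a b = γ at k m
    refine Or.inr (Or.inl (sl_le_of hn hd hbr fun a' b' c' e' h' => ?_))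
    have m1 := sub_mem (W.smul_mem β (g8_move hG hW h m h')) (W.smul_mem γ (g8_move hG hW h m
      ⟨h'.2.2.2.2.2, h'.2.1.symm, h'.2.2.2.1.symm, h'.2.2.1.symm, h'.2.2.2.2.1.symm, h'.1⟩))
    rw [show β • (β • Eo κ a' b' c' e' + γ • Eo κ c' e' a' b') -
      γ • (β • Eo κ c' e' a' b' + γ • Eo κ a' b' c' e') = (β ^ 2 - γ ^ 2) • Eo κ a' b' c' e' by
        module, show β ^ 2 - γ ^ 2 = (β - γ) ^ 2 by
        linear_combination (β * γ - γ ^ 2) * h2] at m1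
    exact (W.smul_mem_iff (pow_ne_zero 2 (sub_ne_zero.2 k))).1 m1
  by_cases hs : W ≤ κ ∙ (1 : Mat d κ)
  · exact Or.inl (le_antisymm hs ((Submodule.span_singleton_le_iff_mem _ _).2 h1))
  obtain ⟨X, hX, hX1⟩ := SetLike.not_le_iff_exists.1 hs
  refine Or.inr (Or.inr ⟨wedge_mem h2 hn hd fun a' b' c' e' h' => ?_,
    fun Y hY => g8_form h2 hn hd (hA Y hY)⟩)
  by_cases h0 : ∀ a b c e, Dis a b c e → fv κ a b ⬝ᵥ X *ᵥ pv κ c e = 0
  · have m := add_mem ((g1a_case hn hG hW hbr hX h0 fun t e =>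
      hX1 (Submodule.mem_span_singleton.2 ⟨t, e.symm⟩)).2 h') (h2 ▸ zero_smul κ (Eo κ c' e' a' b') ▸
        zero_mem W : (2 : κ) • Eo κ c' e' a' b' ∈ W)
    rwa [two_smul, sub_add_add_cancel] at m
  · push Not at h0
    obtain ⟨a, b, c, e, h, k⟩ := h0
    have m := g8_move hG hW h (second_mem hn hG hW hX h) h'
    rwa [← hA X hX a b c e h, ← smul_add, W.smul_mem_iff k] at m

end Pool.Agent.Lib.MP_d61fbb_ag.SQ
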