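import Pool.Agent.Lib.MP_d61fbb_ag.SQ.G7

/-! Good permutations with one orbit. -/

set_option autoImplicit false

noncomputable section

namespace Pool.Agent.Lib.MP_d61fbb_ag.SQ

open Matrix Equiv

variable {d : ℕ}

theorem Cyc.congr {π σ : Perm (Fin (d + 1))} (h : Cyc π)
    (e : Subgroup.zpowers π = Subgroup.zpowers σ) : Cyc σ := fun k => e ▸ h k

theorem Big.exists_cyc {G : Subgroup (Perm (Fin (d + 1)))} (hG : Big G) :
    ∃ π ∈ G, Good π ∧ Cyc π := by
  have hd := hG.le
  rcases Nat.even_or_odd d with h | h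
  · refine ⟨_, hG.alt ?_, g7_one (by omega), fun _ x y => (g7_mem _ _ _).2 (g7_same (by omega) x y)⟩
    rw [Perm.mem_alternatingGroup, sign_finRotate, Nat.add_sub_cancel, h.neg_one_pow]
  · obtain ⟨π, h1, h2⟩ := hG.exists_good
    exact ⟨π, h1, h2, fun k => absurd k (Nat.not_odd_iff_even.2 h.add_one)⟩

end Pool.Agent.Lib.MP_d61fbb_ag.SQ
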