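import Pool.Agent.Lib.MP_d61fbb_ag.SQ.AD

/-! Rank one operators on the standard module. -/

set_option autoImplicit false

noncomputable section

namespace Pool.Agent.Lib.MP_d61fbb_ag.SQ

open Matrix Equiv

variable (κ : Type) [Field κ] {d : ℕ}

/-- The class of `e_a - e_b`. -/
def pv (a b : Fin (d + 1)) : Fin d → κ := qv κ a - qv κ b

/-- The functional `u ↦ u_a - u_b`. -/
def fv (a b : Fin (d + 1)) : Fin d → κ := fun j =>
  (if a = j.castSucc then 1 else 0) - (if b = j.castSucc then 1 else 0)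

/-- The operator `(e_a - e_b) (e_c - e_e)^T`. -/
def Eo (a b c e : Fin (d + 1)) : Mat d κ := vecMulVec (pv κ a b) (fv κ c e)

/-- The functional `u ↦ u_x - mean of u`. -/
def av (x : Fin (d + 1)) : Fin d → κ := fun j =>
  (if x = j.castSucc then 1 else 0) - ((d : κ) + 1)⁻¹

variable {κ}

/-- The entries of the matrix with zero row and column sums attached to an operator. -/
def en (X : Mat d κ) (x y : Fin (d + 1)) : κ := av κ x ⬝ᵥ X *ᵥ qv κ y

/-- Four distinct indices. -/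
def Dis (a b c e : Fin (d + 1)) : Prop := a ≠ b ∧ a ≠ c ∧ a ≠ e ∧ b ≠ c ∧ b ≠ e ∧ c ≠ e

theorem g0_sum (a : Fin (d + 1)) : ∑ j : Fin d, (if a = j.castSucc then (1 : κ) else 0) =
    1 - if a = Fin.last d then 1 else 0 := by
  have h := Fin.sum_univ_castSucc (fun x : Fin (d + 1) => if a = x then (1 : κ) else 0)
  rw [Finset.sum_ite_eq, if_pos (Finset.mem_univ _)] at h
  linear_combination -h

theorem g0_dot_cast (u : Fin d → κ) (j : Fin d) : u ⬝ᵥ qv κ j.castSucc = u j := by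
  rw [qv_castSucc, dotProduct_single_one]

theorem g0_dot_last (u : Fin d → κ) : u ⬝ᵥ qv κ (Fin.last d) = -∑ j, u j := by
  simp [dotProduct, qv_last]

theorem g0_vec_ext {u w : Fin d → κ} (h : ∀ x, u ⬝ᵥ qv κ x = w ⬝ᵥ qv κ x) : u = w := by
  ext j
  rw [← g0_dot_cast u, ← g0_dot_cast w, h]

theorem g0_mat_ext {X Y : Mat d κ} (h : ∀ x, X *ᵥ qv κ x = Y *ᵥ qv κ x) : X = Y := by
  ext i j
  have := congrFun (h j.castSucc) i
  rwa [qv_castSucc, mulVec_single_one, mulVec_single_one] at this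

theorem g0_bil_ext {X Y : Mat d κ}
    (h : ∀ x y, qv κ x ⬝ᵥ X *ᵥ qv κ y = qv κ x ⬝ᵥ Y *ᵥ qv κ y) : X = Y :=
  g0_mat_ext fun y => g0_vec_ext fun x => by rw [dotProduct_comm, h, dotProduct_comm]

theorem g0_inv (π : Perm (Fin (d + 1))) (x : Fin (d + 1)) : π⁻¹ (π x) = x :=
  π.symm_apply_apply x

theorem g0_vmv (u v w : Fin d → κ) : vecMulVec u v *ᵥ w = (v ⬝ᵥ w) • u := by
  rw [vecMulVec_mulVec, op_smul_eq_smul]

theorem g0_av_sub (a b : Fin (d + 1)) : av κ a - av κ b = fv κ a b := by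
  ext j
  simp [av, fv]

theorem g0_av_dot (hn : (d : κ) + 1 ≠ 0) (x y : Fin (d + 1)) :
    av κ x ⬝ᵥ qv κ y = (if x = y then 1 else 0) - ((d : κ) + 1)⁻¹ := by
  induction y using Fin.lastCases with
  | cast j => rw [g0_dot_cast]; rfl
  | last =>
    rw [g0_dot_last]
    simp only [av, Finset.sum_sub_distrib, g0_sum, Finset.sum_const, Finset.card_univ,
      Fintype.card_fin, nsmul_eq_mul]
    have := mul_inv_cancel₀ hn
    linear_combination this

theorem g0_Gm_qv (x : Fin (d + 1)) : Gm κ d *ᵥ qv κ x =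
    fun j : Fin d => ((d : κ) + 1) * (if x = j.castSucc then 1 else 0) - 1 := by
  ext j
  induction x using Fin.lastCases with
  | cast k =>
    change (fun i => Gm κ d j i) ⬝ᵥ _ = _
    rw [g0_dot_cast]
    by_cases h : j = k
    · simp [Gm, h]
    · simp [Gm, h, Ne.symm h]
  | last =>
    change (fun i => Gm κ d j i) ⬝ᵥ _ = _
    rw [g0_dot_last]
    simp [Gm, (Fin.castSucc_lt_last j).ne']

theorem g0_Gm_av (hn : (d : κ) + 1 ≠ 0) (x : Fin (d + 1)) :
    Gm κ d *ᵥ qv κ x = ((d : κ) + 1) • av κ x := by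
  rw [g0_Gm_qv]
  ext j
  simp only [av, Pi.smul_apply, smul_eq_mul, mul_sub, mul_inv_cancel₀ hn]

theorem g0_form (x y : Fin (d + 1)) :
    qv κ x ⬝ᵥ Gm κ d *ᵥ qv κ y = ((d : κ) + 1) * (if y = x then 1 else 0) - 1 := by
  rw [dotProduct_comm, g0_Gm_qv]
  induction x using Fin.lastCases with
  | cast j => rw [g0_dot_cast]
  | last =>
    rw [g0_dot_last]
    simp only [Finset.sum_sub_distrib, ← Finset.mul_sum, g0_sum, Finset.sum_const,
      Finset.card_univ, Fintype.card_fin, nsmul_eq_mul]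
    ring

theorem g0_en_ext {X Y : Mat d κ} (h : ∀ x y, en X x y = en Y x y) : X = Y := by
  refine g0_mat_ext fun y => ?_
  ext j
  have e : ∀ u : Fin d → κ, u j = av κ j.castSucc ⬝ᵥ u - av κ (Fin.last d) ⬝ᵥ u := fun u => by
    rw [← sub_dotProduct, g0_av_sub, ← single_one_dotProduct j u]
    congr 1
    ext k
    simp [fv, Pi.single_apply, (Fin.castSucc_lt_last k).ne', eq_comm]
  rw [e (X *ᵥ _), e (Y *ᵥ _)]
  exact congrArg₂ _ (h _ _) (h _ _)

theorem g0_en_sum {ι : Type} (s : Finset ι) (X : ι → Mat d κ) (x y : Fin (d + 1)) :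
    en (∑ i ∈ s, X i) x y = ∑ i ∈ s, en (X i) x y := by
  simp only [en, sum_mulVec, dotProduct_sum]

theorem g0_en_smul (c : κ) (X : Mat d κ) (x y : Fin (d + 1)) :
    en (c • X) x y = c * en X x y := by
  simp only [en, smul_mulVec, dotProduct_smul, smul_eq_mul]

theorem fv_dot_qv (a b x : Fin (d + 1)) :
    fv κ a b ⬝ᵥ qv κ x = (if a = x then 1 else 0) - (if b = x then 1 else 0) := by
  induction x using Fin.lastCases with
  | cast j => rw [g0_dot_cast]; rfl
  | last =>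
    rw [g0_dot_last]
    simp only [fv, Finset.sum_sub_distrib, g0_sum]
    ring

theorem Hm_pv (π : Perm (Fin (d + 1))) (a b : Fin (d + 1)) :
    Hm κ π *ᵥ pv κ a b = pv κ (π a) (π b) := by
  rw [pv, mulVec_sub, Hm_qv, Hm_qv, pv]

theorem fv_Hm (π : Perm (Fin (d + 1))) (a b : Fin (d + 1)) :
    fv κ (π a) (π b) ᵥ* Hm κ π = fv κ a b := by
  refine g0_vec_ext fun x => ?_
  rw [← dotProduct_mulVec, Hm_qv, fv_dot_qv, fv_dot_qv]
  simp only [EmbeddingLike.apply_eq_iff_eq]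

theorem Eo_conj (π : Perm (Fin (d + 1))) (a b c e : Fin (d + 1)) :
    Hm κ π * Eo κ a b c e * Hm κ π⁻¹ = Eo κ (π a) (π b) (π c) (π e) := by
  have h := fv_Hm (κ := κ) π⁻¹ (π c) (π e)
  rw [g0_inv, g0_inv] at h
  rw [Eo, mul_vecMulVec, vecMulVec_mul, Hm_pv, h, Eo]

theorem Eo_mul (a b c e a' b' c' e' : Fin (d + 1)) (X : Mat d κ) :
    Eo κ a b c e * X * Eo κ a' b' c' e' = (fv κ c e ⬝ᵥ X *ᵥ pv κ a' b') • Eo κ a b c' e' := by
  rw [Eo, Eo, vecMulVec_mul, vecMulVec_mul_vecMulVec, vecMulVec_smul, dotProduct_mulVec, Eo]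

theorem Hm_swap (a b : Fin (d + 1)) : Hm κ (swap a b) = 1 - Eo κ a b a b := by
  refine g0_mat_ext fun x => ?_
  rw [Hm_qv, sub_mulVec, one_mulVec, Eo, g0_vmv, fv_dot_qv, pv]
  by_cases h : a = b
  · subst h
    simp
  by_cases ha : a = x
  · subst ha
    simp [Ne.symm h]
  by_cases hb : b = x
  · subst hb
    simp [h]
  · simp [ha, hb, swap_apply_of_ne_of_ne (Ne.symm ha) (Ne.symm hb)]

theorem Gm_pv (a b : Fin (d + 1)) : Gm κ d *ᵥ pv κ a b = ((d : κ) + 1) • fv κ a b := by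
  rw [pv, mulVec_sub, g0_Gm_qv, g0_Gm_qv]
  ext j
  simp only [fv, Pi.sub_apply, Pi.smul_apply, smul_eq_mul]
  ring

theorem Gm_symm : (Gm κ d)ᵀ = Gm κ d := by
  ext i j
  simp [Gm, eq_comm]

theorem Gm_det (hn : (d : κ) + 1 ≠ 0) : (Gm κ d).det ≠ 0 := by
  intro h
  obtain ⟨v, hv, h0⟩ := exists_mulVec_eq_zero_iff.2 h
  have h1 : ∀ j, ((d : κ) + 1) * v j = ∑ i, v i := fun j => by
    have := congrFun h0 j
    simp only [mulVec, dotProduct, Gm, sub_mul, ite_mul, zero_mul, one_mul,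
      Finset.sum_sub_distrib, Finset.sum_ite_eq, Finset.mem_univ, if_true, Pi.zero_apply] at this
    linear_combination this
  have h2 : ∑ j, ((d : κ) + 1) * v j = ∑ _j : Fin d, ∑ i, v i :=
    Finset.sum_congr rfl fun j _ => h1 j
  rw [← Finset.mul_sum, Finset.sum_const, Finset.card_univ, Fintype.card_fin, nsmul_eq_mul] at h2
  have h3 : ∑ i, v i = 0 := by linear_combination h2
  apply hv
  ext j
  exact (mul_eq_zero.1 ((h1 j).trans h3)).resolve_left hn

theorem Hm_Gm (π : Perm (Fin (d + 1))) : (Hm κ π)ᵀ * Gm κ d * Hm κ π = Gm κ d := by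
  refine g0_bil_ext fun x y => ?_
  rw [← mulVec_mulVec, ← mulVec_mulVec, dotProduct_mulVec, vecMul_transpose, Hm_qv, Hm_qv,
    g0_form, g0_form]
  simp only [EmbeddingLike.apply_eq_iff_eq]

theorem Eo_adj (a b c e : Fin (d + 1)) :
    (Eo κ a b c e)ᵀ * Gm κ d = Gm κ d * Eo κ c e a b := by
  rw [Eo, Eo, transpose_vecMulVec, vecMulVec_mul, mul_vecMulVec, ← mulVec_transpose, Gm_symm,
    Gm_pv, Gm_pv, vecMulVec_smul, smul_vecMulVec]

theorem trace_Eo (a b c e : Fin (d + 1)) : (Eo κ a b c e).trace = fv κ c e ⬝ᵥ pv κ a b := by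
  rw [Eo, trace_vecMulVec, dotProduct_comm]

theorem en_row (X : Mat d κ) (x : Fin (d + 1)) : ∑ y, en X x y = 0 := by
  simp only [en]
  rw [← dotProduct_sum, ← mulVec_sum, sum_qv, mulVec_zero, dotProduct_zero]

theorem en_col (hn : (d : κ) + 1 ≠ 0) (X : Mat d κ) (y : Fin (d + 1)) : ∑ x, en X x y = 0 := by
  have h : ∑ x : Fin (d + 1), av κ x = 0 := by
    ext j
    simp [av, Finset.sum_apply, mul_inv_cancel₀ hn]
  simp only [en]
  rw [← sum_dotProduct, h, zero_dotProduct]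

theorem en_Eo (hn : (d : κ) + 1 ≠ 0) (a b c e x y : Fin (d + 1)) :
    en (Eo κ a b c e) x y = ((if x = a then 1 else 0) - (if x = b then 1 else 0)) *
      ((if y = c then 1 else 0) - (if y = e then 1 else 0)) := by
  rw [en, Eo, g0_vmv, dotProduct_smul, fv_dot_qv, pv, dotProduct_sub, g0_av_dot hn,
    g0_av_dot hn, smul_eq_mul]
  simp only [@eq_comm _ y]
  ring

theorem en_second (X : Mat d κ) (a b c e : Fin (d + 1)) :
    fv κ a b ⬝ᵥ X *ᵥ pv κ c e = en X a c - en X a e - en X b c + en X b e := by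
  simp only [← g0_av_sub, pv, en, sub_dotProduct, mulVec_sub, dotProduct_sub]
  ring

theorem en_expand (hn : (d : κ) + 1 ≠ 0) (X : Mat d κ) (o : Fin (d + 1)) :
    X = ∑ x, ∑ y, en X x y • Eo κ x o y o := by
  refine g0_en_ext fun a b => ?_
  have h1 : ∀ x, ∑ y, en X x y * (((if a = x then 1 else 0) - (if a = o then 1 else 0)) *
      ((if b = y then 1 else 0) - (if b = o then 1 else 0))) =
      ((if a = x then 1 else 0) - (if a = o then 1 else 0)) * en X x b := fun x => by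
    have e : ∀ y, en X x y * (((if a = x then 1 else 0) - (if a = o then 1 else 0)) *
        ((if b = y then 1 else 0) - (if b = o then 1 else 0))) =
        ((if a = x then 1 else 0) - (if a = o then 1 else 0)) *
          ((if b = y then en X x y else 0) - (if b = o then 1 else 0) * en X x y) := fun y => by
      by_cases hy : b = y
      · rw [if_pos hy, if_pos hy]; ring
      · rw [if_neg hy, if_neg hy]; ring
    simp only [e]
    rw [← Finset.mul_sum, Finset.sum_sub_distrib, ← Finset.mul_sum, en_row, Finset.sum_ite_eq,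
      if_pos (Finset.mem_univ b), mul_zero, sub_zero]
  simp only [g0_en_sum, g0_en_smul, en_Eo hn, h1]
  simp only [sub_mul, Finset.sum_sub_distrib, ← Finset.mul_sum, en_col hn]
  simp

theorem en_conj (hn : (d : κ) + 1 ≠ 0) (π : Perm (Fin (d + 1))) (X : Mat d κ)
    (x y : Fin (d + 1)) : en (Hm κ π * X * Hm κ π⁻¹) (π x) (π y) = en X x y := by
  have h : av κ (π x) ᵥ* Hm κ π = av κ x := g0_vec_ext fun z => by
    rw [← dotProduct_mulVec, Hm_qv, g0_av_dot hn, g0_av_dot hn]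
    simp only [EmbeddingLike.apply_eq_iff_eq]
  rw [en, ← mulVec_mulVec, ← mulVec_mulVec, Hm_qv, g0_inv, dotProduct_mulVec, h, en]

theorem g0_en_left (hn : (d : κ) + 1 ≠ 0) (X : Mat d κ) (x y : Fin (d + 1)) :
    qv κ x ⬝ᵥ (Gm κ d * X) *ᵥ qv κ y = ((d : κ) + 1) * en X x y := by
  rw [← mulVec_mulVec, dotProduct_mulVec, ← mulVec_transpose, Gm_symm, g0_Gm_av hn,
    smul_dotProduct, smul_eq_mul, en]

theorem g0_en_right (hn : (d : κ) + 1 ≠ 0) (X : Mat d κ) (x y : Fin (d + 1)) :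
    qv κ x ⬝ᵥ (Xᵀ * Gm κ d) *ᵥ qv κ y = ((d : κ) + 1) * en X y x := by
  rw [← mulVec_mulVec, dotProduct_mulVec, vecMul_transpose, g0_Gm_av hn, dotProduct_smul,
    smul_eq_mul, dotProduct_comm, en]

theorem mem_sym_iff (hn : (d : κ) + 1 ≠ 0) (X : Mat d κ) :
    X ∈ sym κ d ↔ ∀ x y, en X x y = en X y x := by
  rw [mem_sym]
  constructor
  · intro h x y
    apply mul_left_cancel₀ hn
    rw [← g0_en_left hn, ← g0_en_right hn, h]
  · intro h
    refine g0_bil_ext fun x y => ?_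
    rw [g0_en_left hn, g0_en_right hn, h]

theorem mem_so_iff (hn : (d : κ) + 1 ≠ 0) (X : Mat d κ) :
    X ∈ so κ d ↔ ∀ x y, en X x y = -en X y x := by
  rw [mem_so]
  constructor
  · intro h x y
    apply mul_left_cancel₀ hn
    rw [mul_neg, ← g0_en_left hn, ← g0_en_right hn, eq_neg_of_add_eq_zero_left h, neg_mulVec,
      dotProduct_neg, neg_neg]
  · intro h
    refine g0_bil_ext fun x y => ?_
    rw [add_mulVec, dotProduct_add, g0_en_left hn, g0_en_right hn, h x y, zero_mulVec,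
      dotProduct_zero]
    ring

theorem Big.move {G : Subgroup (Perm (Fin (d + 1)))} (hG : Big G) {a b c e a' b' c' e' : Fin (d + 1)}
    (h : Dis a b c e) (h' : Dis a' b' c' e') :
    ∃ π ∈ G, π a = a' ∧ π b = b' ∧ π c = c' ∧ π e = e' := by
  have inj : ∀ {a b c e : Fin (d + 1)}, Dis a b c e → Function.Injective ![a, b, c, e] := by
    rintro a b c e ⟨h1, h2, h3, h4, h5, h6⟩ i j hij
    fin_cases i <;> fin_cases j <;> simp_all
  obtain ⟨σ, hσ⟩ := Perm.exists_extending_pair _ _ (inj h) (inj h')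
  have ha : σ a = a' := hσ 0
  have hb : σ b = b' := hσ 1
  have hc : σ c = c' := hσ 2
  have he : σ e = e' := hσ 3
  rcases hG with ⟨hd, hG⟩ | ⟨_, rfl⟩
  · rcases Int.units_eq_one_or (Perm.sign σ) with hs | hs
    · exact ⟨σ, hG (Perm.mem_alternatingGroup.2 hs), ha, hb, hc, he⟩
    · have hcard : 1 < (({a, b, c, e} : Finset (Fin (d + 1)))ᶜ).card := by
        have := Finset.card_le_four (a := a) (b := b) (c := c) (d := e)
        rw [Finset.card_compl, Fintype.card_fin]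
        omega
      obtain ⟨u, hu, v, hv, huv⟩ := Finset.one_lt_card.1 hcard
      simp only [Finset.mem_compl, Finset.mem_insert, Finset.mem_singleton, not_or] at hu hv
      refine ⟨σ * swap u v, hG (Perm.mem_alternatingGroup.2 ?_), ?_, ?_, ?_, ?_⟩
      · rw [map_mul, hs, Perm.sign_swap huv]
        simp
      · rw [Perm.mul_apply, swap_apply_of_ne_of_ne (Ne.symm hu.1) (Ne.symm hv.1), ha]
      · rw [Perm.mul_apply, swap_apply_of_ne_of_ne (Ne.symm hu.2.1) (Ne.symm hv.2.1), hb]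
      · rw [Perm.mul_apply, swap_apply_of_ne_of_ne (Ne.symm hu.2.2.1) (Ne.symm hv.2.2.1), hc]
      · rw [Perm.mul_apply, swap_apply_of_ne_of_ne (Ne.symm hu.2.2.2) (Ne.symm hv.2.2.2), he]
  · exact ⟨σ, Subgroup.mem_top _, ha, hb, hc, he⟩

end Pool.Agent.Lib.MP_d61fbb_ag.SQ
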