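import Pool.Agent.Lib.MP_d61fbb_ag.SQ.L0
import Pool.Agent.Lib.MP_d61fbb_ag.SQ.G0

/-! Eigenvalues of a lift of a long cycle. -/

set_option autoImplicit false

noncomputable section

namespace Pool.Agent.Lib.MP_d61fbb_ag.SQ

open Matrix Equiv IsLocalRing

variable {Ω : Type} [Field Ω] [CharZero Ω] [IsAlgClosed Ω] {O : ValuationSubring Ω} {d : ℕ}

theorem l3_prim (hn : (d : ResidueField O) + 1 ≠ 0) :
    ∃ z : ResidueField O, IsPrimitiveRoot z (d + 1) := by
  obtain ⟨ζ, hζ⟩ := HasEnoughRootsOfUnity.exists_primitiveRoot Ω (d + 1)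
  have h1 : ζ ∈ O := by
    rw [← O.valuation_le_one_iff, ← pow_le_one_iff (Nat.succ_ne_zero d), ← map_pow,
      hζ.pow_eq_one, map_one]
  have h2 : IsPrimitiveRoot (⟨ζ, h1⟩ : O) (d + 1) :=
    IsPrimitiveRoot.of_map_of_injective (f := O.subtype) hζ O.subtype_injective
  refine ⟨residue O ⟨ζ, h1⟩, IsPrimitiveRoot.mk_of_lt _ (Nat.succ_pos d)
    (by rw [← map_pow, h2.pow_eq_one, map_one]) fun k k1 k2 e => hn ?_⟩
  have h3 := congrArg (residue O) h2.prod_one_sub_pow_eq_order
  rw [map_prod, map_add, map_natCast, map_one] at h3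
  rw [← h3]
  refine Finset.prod_eq_zero (i := k - 1) (Finset.mem_range.2 (by omega)) ?_
  rw [map_sub, map_one, map_pow, Nat.sub_add_cancel k1, e, sub_self]

theorem l3_eig {κ : Type} [Field κ] {π : Perm (Fin (d + 1))}
    (hπ : ∀ x y : Fin (d + 1), y ∈ MulAction.orbit (Subgroup.zpowers π) x) {w : κ}
    (hw : w ^ (d + 1) = 1) (h1 : w ≠ 1) : (scalar (Fin d) w - Hm κ π).det = 0 := by
  classical
  have hw0 : w ≠ 0 := fun e => by
    rw [e, zero_pow (Nat.succ_ne_zero d)] at hw
    exact zero_ne_one hw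
  have h2 : ∀ x : Fin (d + 1), ∃ k : ℤ, π ^ k • (0 : Fin (d + 1)) = x := fun x => by
    obtain ⟨⟨_, k, rfl⟩, e⟩ := hπ 0 x
    exact ⟨k, e⟩
  choose k hk using h2
  have hp : Function.minimalPeriod (π • ·) (0 : Fin (d + 1)) = d + 1 := by
    rw [MulAction.minimalPeriod_eq_card, ← Set.toFinset_card,
      Finset.eq_univ_of_forall fun x => Set.mem_toFinset.2 (hπ 0 x), Finset.card_univ,
      Fintype.card_fin]
  have hc : ∀ x, w ^ (-k x) = w * w ^ (-k (π x)) := by
    intro x
    have e1 : π ^ (-k (π x) + (1 + k x)) • (0 : Fin (d + 1)) = 0 := by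
      rw [_root_.zpow_add, _root_.zpow_add, mul_smul, mul_smul, hk, zpow_one, _root_.zpow_neg,
        inv_smul_eq_iff, hk]
      rfl
    rw [MulAction.zpow_smul_eq_iff_minimalPeriod_dvd, hp] at e1
    obtain ⟨j, hj⟩ := e1
    have e2 : w ^ (-k (π x) + (1 + k x)) = 1 := by
      rw [hj, _root_.zpow_mul, _root_.zpow_natCast, hw, _root_.one_zpow]
    rw [← mul_one (w ^ (-k x)), ← e2, ← zpow_add₀ hw0, ← zpow_one_add₀ hw0]
    congr 1
    ring
  refine exists_mulVec_eq_zero_iff.1 ⟨∑ x, w ^ (-k x) • qv κ x, fun e => h1 ?_, ?_⟩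
  · have h3 : ∀ x, w ^ (-k x) = w ^ (-k (Fin.last d)) := by
      intro x
      induction x using Fin.lastCases with
      | last => rfl
      | cast i =>
        have := congrFun e i
        simp only [qv, Finset.sum_apply, Pi.smul_apply, smul_eq_mul, mul_sub, mul_ite, mul_one,
          mul_zero, Finset.sum_sub_distrib, Finset.sum_ite_eq', Finset.mem_univ, if_true,
          Pi.zero_apply] at this
        exact sub_eq_zero.1 this
    have h4 := hc 0
    rw [h3, h3 (π 0)] at h4
    exact (mul_eq_right₀ (zpow_ne_zero _ hw0)).1 h4.symm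
  · rw [sub_mulVec, scalar_apply, ← smul_one_eq_diagonal, smul_mulVec, one_mulVec, mulVec_sum,
      Finset.smul_sum, ← Equiv.sum_comp π, sub_eq_zero]
    refine Finset.sum_congr rfl fun x _ => ?_
    rw [mulVec_smul, Hm_qv, smul_smul, ← hc]

omit [CharZero Ω] in
theorem l3_lift (M : Mat d O) {w : ResidueField O}
    (h : (scalar (Fin d) w - M.map (residue O)).det = 0) :
    ∃ (α : O) (u : Fin d → O), residue O α = w ∧ M *ᵥ u = α • u ∧ ∃ e, u e = 1 := by
  obtain ⟨w, rfl⟩ := residue_surjective w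
  have hs : M.charpoly.Splits := by
    refine Polynomial.Splits.of_splits_map_of_injective O.subtype_injective
      (IsAlgClosed.splits _) fun a ha => ?_
    have h1 : IsIntegral O a := ⟨M.charpoly, M.charpoly_monic, by
      rw [← Polynomial.eval_map]
      exact Polynomial.isRoot_of_mem_roots ha⟩
    exact IsIntegrallyClosed.isIntegral_iff.1 h1
  have h1 : residue O (M.charpoly.eval w) = 0 := by
    rw [eval_charpoly, RingHom.map_det, ← h]
    congr 1
    ext i j
    by_cases e : i = j <;> simp [e]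
  rw [hs.eval_eq_prod_roots_of_monic M.charpoly_monic, map_multiset_prod, Multiset.map_map,
    Multiset.prod_eq_zero_iff, Multiset.mem_map] at h1
  obtain ⟨α, h2, h3⟩ := h1
  have h4 : (scalar (Fin d) α - M).det = 0 := by
    rw [← eval_charpoly]
    exact Polynomial.isRoot_of_mem_roots h2
  obtain ⟨v, h5, h6⟩ := exists_mulVec_eq_zero_iff.2 h4
  rw [sub_mulVec, scalar_apply, ← smul_one_eq_diagonal, smul_mulVec, one_mulVec,
    sub_eq_zero] at h6
  obtain ⟨a, -, u, k1, k2⟩ := l0_vec (O := O) (c := fun i => (v i : Ω)) fun e =>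
    h5 (funext fun i => Subtype.ext (congrFun e i))
  refine ⟨α, u, ?_, funext fun i => Subtype.ext ?_, k2⟩
  · rw [Function.comp_apply, map_sub, sub_eq_zero] at h3
    exact h3.symm
  · have h7 := congrArg O.subtype (congrFun h6 i)
    simp only [mulVec, dotProduct, Pi.smul_apply, smul_eq_mul, map_mul, map_sum,
      ValuationSubring.coe_subtype] at h7
    change O.subtype (∑ j, M i j * u j) = O.subtype (α * u i)
    simp only [map_mul, map_sum, ValuationSubring.coe_subtype, ← k1]
    rw [mul_left_comm, h7, Finset.mul_sum]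
    exact Finset.sum_congr rfl fun j _ => mul_left_comm _ _ _

omit [CharZero Ω] in
theorem l3_diag (M : Mat d O) {w : Fin d → ResidueField O} (hw : Function.Injective w)
    (h : ∀ j, (scalar (Fin d) (w j) - M.map (residue O)).det = 0) :
    ∃ (α : Fin d → O) (S T : Mat d O), (∀ j, residue O (α j) = w j) ∧ S * T = 1 ∧ T * S = 1 ∧
      M * S = S * diagonal α := by
  choose α u h1 h2 h3 using fun j => l3_lift M (h j)
  have h4 : LinearIndependent (ResidueField O) fun j i => residue O (u j i) := by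
    refine Module.End.eigenvectors_linearIndependent' (toLin' (M.map (residue O))) w hw _
      fun j => ⟨Module.End.mem_eigenspace_iff.2 (funext fun i => ?_), fun e => ?_⟩
    · have := congrArg (residue O) (congrFun (h2 j) i)
      simpa [mulVec, dotProduct, h1] using this
    · obtain ⟨i, hi⟩ := h3 j
      have := congrFun e i
      simp [hi] at this
  have h5 : IsUnit ((of u)ᵀ.map (residue O)) := linearIndependent_cols_iff_isUnit.1 h4
  have h6 : IsUnit (of u)ᵀ.det := by
    rw [← residue_ne_zero_iff_isUnit, RingHom.map_det]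
    exact ((isUnit_iff_isUnit_det _).1 h5).ne_zero
  refine ⟨α, (of u)ᵀ, (of u)ᵀ⁻¹, h1, mul_nonsing_inv _ h6, nonsing_inv_mul _ h6, ?_⟩
  ext i j
  rw [mul_diagonal, mul_comm]
  exact congrArg _ (congrFun (h2 j) i)

omit [IsAlgClosed Ω] in
theorem l3_mask {M N S T : Mat d Ω} {α : Fin d → Ω} (hST : S * T = 1)
    (hM : M * S = S * diagonal α) (hN : T * N = diagonal α⁻¹ * T)
    {W : Submodule Ω (Mat d Ω)} (hW : ∀ X ∈ W, M * X * N ∈ W) {X : Mat d Ω} (hX : X ∈ W) (c : Ω) :
    S * (of fun i j => by classical exact if α i / α j = c then (T * X * S) i j else 0) * T ∈ W := by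
  classical
  have e : ∀ Y : Mat d Ω, S * Y * T =
      ∑ p ∈ Finset.univ ×ˢ Finset.univ, S * single p.1 p.2 (Y p.1 p.2) * T := by
    intro Y
    conv_lhs => rw [matrix_eq_sum_single Y]
    rw [Finset.sum_product]
    simp only [Finset.mul_sum, Finset.sum_mul]
  have h := sum_smul_mem (LinearMap.mulLeftRight Ω (M, N)) W hW (Finset.univ ×ˢ Finset.univ)
    (fun p : Fin d × Fin d => S * single p.1 p.2 ((T * X * S) p.1 p.2) * T)
    (fun p => α p.1 / α p.2) (fun p => if α p.1 / α p.2 = c then 1 else 0) (fun p _ => ?_)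
    (fun p _ q _ k => by simp only [k]) (by
      rw [← e, ← mul_assoc, ← mul_assoc, hST, one_mul, mul_assoc, hST, mul_one]
      exact hX)
  · rw [e]
    refine Set.mem_of_eq_of_mem (Finset.sum_congr rfl fun p _ => ?_) h
    rw [of_apply]
    split_ifs
    · rw [one_smul]
    · rw [zero_smul, single_zero, mul_zero, zero_mul]
  · have k : ∀ x : Ω, diagonal α * single p.1 p.2 x * diagonal α⁻¹ =
        (α p.1 / α p.2) • single p.1 p.2 x := by
      intro x
      ext i j
      rw [mul_diagonal, diagonal_mul, Matrix.smul_apply, single_apply]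
      split_ifs with k
      · rw [k.1, k.2, Pi.inv_apply, smul_eq_mul, div_eq_mul_inv]
        ring
      · simp
    rw [LinearMap.mulLeftRight_apply, ← mul_assoc, ← mul_assoc, hM, mul_assoc _ T, hN,
      ← mul_assoc, mul_assoc S, mul_assoc S, k, Matrix.mul_smul, smul_mul_assoc]

theorem l3_rank {κ : Type} [Field κ] (hd : 4 ≤ d) {B : Mat d κ}
    (h1 : ∀ i, B i i.rev ≠ 0) {a b : Fin d} (hab : a ≠ b) {β t : κ} (hβ : β ≠ 0)
    (h : (single a b.rev β)ᵀ * B + B * single a b.rev β = t • B) : False := by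
  obtain ⟨c, hc⟩ : ∃ c : Fin d, c ∉ ({b, b.rev} : Finset (Fin d)) := by
    by_contra k
    push Not at k
    have := Finset.card_le_card (fun c _ => k c : (Finset.univ : Finset (Fin d)) ⊆ {b, b.rev})
    rw [Finset.card_univ, Fintype.card_fin] at this
    have := Finset.card_le_two (a := b) (b := b.rev)
    omega
  rw [Finset.mem_insert, Finset.mem_singleton, not_or] at hc
  rw [transpose_single] at h
  have e1 := congrFun (congrFun h c) c.rev
  rw [Matrix.add_apply, single_mul_apply_of_ne _ _ _ _ _ hc.2,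
    mul_single_apply_of_ne _ _ _ _ _ (fun k => hc.1 (Fin.rev_injective k)), add_zero,
    Matrix.smul_apply, smul_eq_mul] at e1
  have ht : t = 0 := (mul_eq_zero.1 e1.symm).resolve_right (h1 c)
  have e2 := congrFun (congrFun h a.rev) b.rev
  rw [Matrix.add_apply, single_mul_apply_of_ne _ _ _ _ _ (fun k => hab (Fin.rev_injective k)),
    mul_single_apply_same, zero_add, ht, zero_smul, Matrix.zero_apply] at e2
  have := h1 a.rev
  rw [Fin.rev_rev] at this
  exact mul_ne_zero this hβ e2

theorem l3_conj {κ : Type} [Field κ] {S T G E : Mat d κ} {t : κ} (hTS : T * S = 1)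
    (h : (S * E * T)ᵀ * G + G * (S * E * T) = t • G) :
    Eᵀ * (Sᵀ * G * S) + Sᵀ * G * S * E = t • (Sᵀ * G * S) := by
  have e1 : S * E * T * S = S * E := by rw [mul_assoc, hTS, mul_one]
  have e2 : Sᵀ * (S * E * T)ᵀ = Eᵀ * Sᵀ := by rw [← transpose_mul, e1, transpose_mul]
  have e := congrArg (fun Y => Sᵀ * Y * S) h
  simp only [mul_add, add_mul, Matrix.mul_smul, smul_mul_assoc] at e
  rw [← e, ← mul_assoc Sᵀ, e2, mul_assoc Sᵀ (G * _), mul_assoc G, e1]
  simp only [mul_assoc]

theorem l3_wedge {κ : Type} [Field κ] {S T : Mat d κ} (hTS : T * S = 1)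
    (h0 : ∀ i j, j ≠ i.rev → (Sᵀ * Gm κ d * S) i j = 0) (a b : Fin d) :
    T * wedge (S.col a) (S.col b) * S = single a b.rev ((Sᵀ * Gm κ d * S) b.rev b) +
      single b a.rev ((Sᵀ * Gm κ d * S) a.rev a) := by
  have e : ∀ a b : Fin d, T * vecMulVec (S.col a) (Gm κ d *ᵥ S.col b) * S =
      single a b.rev ((Sᵀ * Gm κ d * S) b.rev b) := by
    intro a b
    have e1 : T *ᵥ S.col a = Pi.single a 1 := by
      rw [← mulVec_single_one, mulVec_mulVec, hTS, one_mulVec]
    have e2 : ∀ j, ((Gm κ d *ᵥ S.col b) ᵥ* S) j = (Sᵀ * Gm κ d * S) j b := by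
      intro j
      rw [← mulVec_transpose, ← mulVec_single_one, mulVec_mulVec, mulVec_mulVec,
        mulVec_single_one]
      rfl
    rw [mul_vecMulVec, vecMulVec_mul, e1]
    ext i j
    rw [vecMulVec_apply, e2, single_apply, Pi.single_apply]
    by_cases k1 : i = a
    · by_cases k2 : b.rev = j
      · simp [k1, k2]
      · rw [h0 j b fun k => k2 (by rw [k, Fin.rev_rev]), mul_zero, if_neg fun k => k2 k.2]
    · rw [if_neg k1, zero_mul, if_neg fun k => k1 k.1.symm]
  rw [wedge, mul_add, add_mul, e, e]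

theorem sd_of_cycle (hn : (d : ResidueField O) + 1 ≠ 0) (hd : 4 ≤ d) {M N : Mat d Ω}
    (hMN : M * N = 1) {π : Perm (Fin (d + 1))}
    (hπ : ∀ x y : Fin (d + 1), y ∈ MulAction.orbit (Subgroup.zpowers π) x)
    (hM : Lift O M (Hm _ π)) {W : Submodule Ω (Mat d Ω)} (hW : ∀ X ∈ W, M * X * N ∈ W)
    (h1 : ∀ x y : Fin d → ResidueField O, x ⬝ᵥ Gm _ d *ᵥ y = 0 → wedge x y ∈ red O W)
    (h2 : ∀ X ∈ red O W, ∃ t : ResidueField O, Xᵀ * Gm _ d + Gm _ d * X = t • Gm _ d) :
    SD M N := by
  classical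
  obtain ⟨z, hz⟩ := l3_prim hn
  obtain ⟨M, rfl, hH⟩ := hM
  set w : Fin d → ResidueField O := fun j => z ^ (j.1 + 1) with hw
  have hw1 : Function.Injective w := fun i j e =>
    Fin.ext (Nat.succ_injective (hz.pow_inj (by omega) (by omega) e))
  have hw2 : ∀ j, w j * w j.rev = 1 := fun j => by
    simp only [hw]
    rw [← pow_add, Fin.val_rev, ← hz.pow_eq_one]
    congr 1
    omega
  obtain ⟨α, S, T, hα, hST, hTS, hMS⟩ := l3_diag M hw1 fun j => hH ▸ l3_eig hπ
    (by simp only [hw]; rw [← pow_mul, mul_comm, pow_mul, hz.pow_eq_one, one_pow])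
    (hz.pow_ne_one_of_pos_of_lt (by omega) (by omega))
  have hα0 : ∀ j, (α j : Ω) ≠ 0 := fun j e => by
    have e1 := hw2 j
    rw [← hα j, show α j = 0 from Subtype.ext e, map_zero, zero_mul] at e1
    exact zero_ne_one e1
  have mp : ∀ {F : Type} [CommRing F] (φ : O →+* F), S.map φ * T.map φ = 1 ∧
      T.map φ * S.map φ = 1 ∧ M.map φ * S.map φ = S.map φ * diagonal fun j => φ (α j) := by
    intro F _ φ
    refine ⟨?_, ?_, ?_⟩
    · rw [← Matrix.map_mul, hST, Matrix.map_one _ (map_zero φ) (map_one φ)]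
    · rw [← Matrix.map_mul, hTS, Matrix.map_one _ (map_zero φ) (map_one φ)]
    · rw [← Matrix.map_mul, hMS, Matrix.map_mul, diagonal_map (map_zero φ)]
  obtain ⟨a1, a2, a3⟩ := mp O.subtype
  obtain ⟨b1, b2, b3⟩ := mp (residue O)
  simp only [hα, hH] at b3
  set β : Fin d → Ω := fun j => O.subtype (α j) with hβ
  replace hα0 : ∀ j, β j ≠ 0 := hα0
  have hD : diagonal β⁻¹ * diagonal β = 1 := by
    rw [diagonal_mul_diagonal, ← diagonal_one]
    exact congrArg _ (funext fun j => inv_mul_cancel₀ (hα0 j))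
  have hMe : M.map O.subtype = S.map O.subtype * diagonal β * T.map O.subtype := by
    rw [← a3, mul_assoc, a1, mul_one]
  have hN : T.map O.subtype * N = diagonal β⁻¹ * T.map O.subtype := by
    have e := congrArg (fun Y => diagonal β⁻¹ * T.map O.subtype * Y) hMN
    simp only [hMe, ← mul_assoc, mul_one] at e
    rwa [mul_assoc _ _ (S.map O.subtype), a2, mul_one, hD, one_mul] at e
  set B := (S.map (residue O))ᵀ * Gm _ d * S.map (residue O) with hB
  have hB0 : ∀ i j, j ≠ i.rev → B i j = 0 := by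
    intro i j hij
    have e : diagonal w * B * diagonal w = B := by
      have e2 : (S.map (residue O))ᵀ * ((Hm _ π)ᵀ * Gm _ d * Hm _ π) * S.map (residue O) =
          (Hm _ π * S.map (residue O))ᵀ * Gm _ d * (Hm _ π * S.map (residue O)) := by
        simp only [transpose_mul, mul_assoc]
      rw [Hm_Gm, b3, transpose_mul, diagonal_transpose] at e2
      rw [hB]
      conv_rhs => rw [e2]
      simp only [mul_assoc]
    have e1 := congrFun (congrFun e i) j
    rw [mul_diagonal, diagonal_mul] at e1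
    by_contra k
    refine hij (hw1 (mul_left_cancel₀ (left_ne_zero_of_mul_eq_one (hw2 i)) ?_))
    rw [hw2]
    exact mul_right_cancel₀ k (by linear_combination e1)
  have hB1 : ∀ i, B i i.rev ≠ 0 := by
    intro i k
    have e : B.det ≠ 0 := by
      have e1 : (S.map (residue O)).det ≠ 0 := det_ne_zero_of_right_inverse b1
      rw [hB, det_mul, det_mul, det_transpose]
      exact mul_ne_zero (mul_ne_zero e1 (Gm_det hn)) e1
    refine e (det_eq_zero_of_row_eq_zero i fun j => ?_)
    by_cases e1 : j = i.rev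
    · rw [e1, k]
    · exact hB0 i j e1
  have key : ∀ a b, β a * β a.rev = β b * β b.rev := by
    intro a b
    by_cases hab : a = b
    · rw [hab]
    by_cases hab' : b = a.rev
    · rw [hab', Fin.rev_rev, mul_comm]
    by_contra k
    have k1 : β b / β a.rev ≠ β a / β b.rev := fun e => k (by
      rw [div_eq_div_iff (hα0 _) (hα0 _)] at e
      exact e.symm)
    have e0 : (S.map (residue O)).col a ⬝ᵥ Gm _ d *ᵥ (S.map (residue O)).col b = 0 := by
      rw [← hB0 a b hab', hB, mul_assoc, ← mulVec_single_one _ b, mulVec_mulVec,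
        mulVec_single_one]
      rfl
    obtain ⟨_, hX, X, rfl, hX'⟩ := h1 _ _ e0
    have e1 := l3_wedge b2 hB0 a b
    rw [← hX', ← Matrix.map_mul, ← Matrix.map_mul, ← hB] at e1
    have e2 := l3_mask a1 a3 hN hW hX (β a / β b.rev)
    suffices hm : S.map (residue O) * single a b.rev (B b.rev b) * T.map (residue O) ∈ red O W by
      obtain ⟨t, ht⟩ := h2 _ hm
      have e3 := hB1 b.rev
      rw [Fin.rev_rev] at e3
      exact l3_rank hd hB1 hab e3 (l3_conj b2 ht)
    refine ⟨_, e2,
      S * (of fun i j => if β i / β j = β a / β b.rev then (T * X * S) i j else 0) * T, ?_, ?_⟩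
    · rw [Matrix.map_mul, Matrix.map_mul, ← Matrix.map_mul (L := T),
        ← Matrix.map_mul (L := T * X)]
      congr 2
      ext i j
      simp only [map_apply, of_apply, apply_ite O.subtype, map_zero]
    · rw [Matrix.map_mul, Matrix.map_mul]
      congr 2
      ext i j
      have e3 := congrFun (congrFun e1 i) j
      rw [map_apply, Matrix.add_apply] at e3
      rw [map_apply, of_apply, apply_ite (residue O), map_zero, e3]
      split_ifs with e4
      · rw [single_apply_of_ne (i := b), add_zero]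
        rintro ⟨rfl, rfl⟩
        exact k1 e4
      · rw [single_apply_of_ne]
        rintro ⟨rfl, rfl⟩
        exact e4 rfl
  have hNe : N = S.map O.subtype * diagonal β⁻¹ * T.map O.subtype := by
    rw [mul_assoc, ← hN, ← mul_assoc, a1, one_mul]
  refine ⟨β ⟨0, by omega⟩ * β (Fin.rev ⟨0, by omega⟩), ?_, ?_⟩
  · rw [hMe, hNe, trace_mul_cycle, trace_mul_cycle (S.map _), a2, one_mul, one_mul, trace_diagonal,
      trace_diagonal, Finset.mul_sum, ← Equiv.sum_comp Fin.revPerm]
    refine Finset.sum_congr rfl fun j _ => ?_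
    rw [key _ j, Pi.inv_apply, mul_comm (β j), mul_inv_cancel_right₀ (hα0 j)]
    rfl
  · have e : (M.map O.subtype).det = ∏ j, β j := by
      rw [hMe, det_mul, det_mul, mul_right_comm, ← det_mul, a1, det_one, one_mul, det_diagonal]
    rw [e]
    nth_rw 2 [← Equiv.prod_comp Fin.revPerm]
    rw [← Finset.prod_mul_distrib, Finset.prod_congr rfl fun j _ => key j ⟨0, by omega⟩,
      Finset.prod_const, Finset.card_univ, Fintype.card_fin]

end Pool.Agent.Lib.MP_d61fbb_ag.SQ
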