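import Pool.Agent.Lib.MP_d61fbb_ag.SQ.AD

/-! Characteristic polynomials. -/

set_option autoImplicit false

noncomputable section

namespace Pool.Agent.Lib.MP_d61fbb_ag.SQ

open Matrix Equiv IsLocalRing Polynomial

variable {Ω : Type} [Field Ω] {d : ℕ}

theorem l2_coeff (c : ℕ → Ω) (k : ℕ) :
    (∑ i ∈ Finset.range (d + 1), C (c (d - i)) * X ^ i).coeff k =
      if k ≤ d then c (d - k) else 0 := by
  simp [finsetSum_coeff, coeff_C_mul, coeff_X_pow]

theorem l2_li {O : ValuationSubring Ω} {M : Mat d Ω} {N : Mat d (ResidueField O)}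
    (h : Lift O M N)
    (hN : ∃ v, LinearIndependent (ResidueField O) fun i : Fin d => N ^ (i : ℕ) *ᵥ v) :
    ∃ v, LinearIndependent Ω fun i : Fin d => M ^ (i : ℕ) *ᵥ v := by
  obtain ⟨Y, rfl, rfl⟩ := h
  obtain ⟨v, hv⟩ := hN
  choose s hs using residue_surjective (R := O)
  let K : Matrix (Fin d) (Fin d) O := Matrix.of fun i j => (Y ^ (j : ℕ) *ᵥ fun k => s (v k)) i
  have hK : ∀ {S : Type} [CommRing S] (φ : O →+* S), (K.map φ).col =
      fun j : Fin d => Y.map φ ^ (j : ℕ) *ᵥ fun k => φ (s (v k)) := fun φ => by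
    ext j i
    have e := RingHom.map_mulVec φ (Y ^ (j : ℕ)) (fun k => s (v k)) i
    rw [← RingHom.mapMatrix_apply, map_pow, RingHom.mapMatrix_apply] at e
    exact e
  have h1 : IsUnit (K.map (residue O)) := by
    rw [← linearIndependent_cols_iff_isUnit, hK]
    simpa only [hs] using hv
  have h2 : K.det ≠ 0 := fun e => by
    have h3 := ((isUnit_iff_isUnit_det _).1 h1).ne_zero
    rw [← RingHom.mapMatrix_apply, ← RingHom.map_det, e, map_zero] at h3
    exact h3 rfl
  refine ⟨fun k => O.subtype (s (v k)), ?_⟩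
  rw [← hK O.subtype, linearIndependent_cols_iff_isUnit, isUnit_iff_isUnit_det, isUnit_iff_ne_zero,
    ← RingHom.mapMatrix_apply, ← RingHom.map_det]
  exact fun e => h2 (Subtype.ext e)

theorem charpoly_of_cyclic {O : ValuationSubring Ω} {M : Mat d Ω} {N : Mat d (ResidueField O)}
    (h : Lift O M N)
    (hN : ∃ v, LinearIndependent (ResidueField O) fun i : Fin d => N ^ (i : ℕ) *ᵥ v)
    (c : ℕ → Ω) (h0 : c 0 = 1) (hc : ∑ i ∈ Finset.range (d + 1), c (d - i) • M ^ i = 0) :
    M.charpoly = ∑ i ∈ Finset.range (d + 1), C (c (d - i)) * X ^ i := by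
  obtain ⟨v, hv⟩ := l2_li h hN
  have hd : M.charpoly.natDegree = d := by rw [charpoly_natDegree_eq_dim, Fintype.card_fin]
  have h1 : M.charpoly.coeff d = 1 := by
    have := M.charpoly_monic.coeff_natDegree
    rwa [hd] at this
  have h2 := M.aeval_self_charpoly
  rw [aeval_eq_sum_range' (n := d + 1) (by omega), Finset.sum_range_succ, h1] at h2
  rw [Finset.sum_range_succ, Nat.sub_self, h0] at hc
  have h3 : ∑ i : Fin d, (M.charpoly.coeff i - c (d - i)) • (M ^ (i : ℕ) *ᵥ v) = 0 := by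
    have h4 := congrArg (· *ᵥ v) (add_right_cancel (h2.trans hc.symm))
    simp only [Finset.sum_range, Matrix.sum_mulVec, smul_mulVec] at h4
    simp only [sub_smul, Finset.sum_sub_distrib, h4, sub_self]
  have h5 := Fintype.linearIndependent_iff.1 hv _ h3
  ext k
  rw [l2_coeff]
  rcases lt_trichotomy k d with hk | rfl | hk
  · rw [if_pos hk.le]
    exact sub_eq_zero.1 (h5 ⟨k, hk⟩)
  · rw [if_pos le_rfl, h1, Nat.sub_self, h0]
  · rw [if_neg (by omega)]
    exact coeff_eq_zero_of_natDegree_lt (by omega)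

theorem trace_of_charpoly {M : Mat d Ω} (hd : 0 < d) {c : ℕ → Ω}
    (h : M.charpoly = ∑ i ∈ Finset.range (d + 1), C (c (d - i)) * X ^ i) : M.trace = -c 1 := by
  have : Nonempty (Fin d) := ⟨⟨0, hd⟩⟩
  rw [trace_eq_neg_charpoly_coeff, h, l2_coeff, Fintype.card_fin, if_pos (by omega),
    show d - (d - 1) = 1 by omega]

theorem det_of_charpoly {M : Mat d Ω} {c : ℕ → Ω}
    (h : M.charpoly = ∑ i ∈ Finset.range (d + 1), C (c (d - i)) * X ^ i) :
    M.det = (-1) ^ d * c d := by
  rw [det_eq_sign_charpoly_coeff, h, l2_coeff, Fintype.card_fin, if_pos (by omega), Nat.sub_zero]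

theorem l2_det_aeval [IsAlgClosed Ω] {A B : Mat d Ω} (h : A.charpoly = B.charpoly)
    (q : Polynomial Ω) : (aeval A q).det = (aeval B q).det := by
  let φ : Mat d Ω → Polynomial Ω →* Ω := fun A =>
    detMonoidHom.comp (aeval A).toRingHom.toMonoidHom
  have e : ∀ (A : Mat d Ω) (r : Ω), φ A (X - C r) = (-1) ^ d * A.charpoly.eval r := fun A r => by
    change (aeval A (X - C r)).det = _
    rw [eval_charpoly, map_sub, aeval_X, aeval_C, ← neg_sub, det_neg, Fintype.card_fin]
    rfl
  have e' : ∀ (A : Mat d Ω) (r : Ω), φ A (C r) = (algebraMap Ω (Mat d Ω) r).det := fun A r => by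
    change (aeval A (C r)).det = _
    rw [aeval_C]
  change φ A q = φ B q
  rw [(IsAlgClosed.splits q).eq_prod_roots, map_mul, map_mul, map_multiset_prod, map_multiset_prod,
    Multiset.map_map, Multiset.map_map, e', e']
  congr 2
  exact Multiset.map_congr rfl fun r _ => by simp only [Function.comp, e, h]

theorem l2_trace_pow [IsAlgClosed Ω] {A B : Mat d Ω} (h : A.charpoly = B.charpoly) (b : ℕ) :
    (A ^ b).trace = (B ^ b).trace := by
  have e : (A ^ b).charpoly = (B ^ b).charpoly := Polynomial.funext fun t => by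
    have := l2_det_aeval h (C t - X ^ b)
    rw [map_sub, map_sub, aeval_C, aeval_C, map_pow, map_pow, aeval_X, aeval_X] at this
    rw [eval_charpoly, eval_charpoly]
    exact this
  rw [trace_eq_sum_roots_charpoly, trace_eq_sum_roots_charpoly, e]

theorem trace_pow_fe [IsAlgClosed Ω] {M M' N : Mat d Ω} (hN : M * N = 1) {c c' : ℕ → Ω} {p : Ω}
    (hp : p ≠ 0) (h : M.charpoly = ∑ i ∈ Finset.range (d + 1), C (c (d - i)) * X ^ i)
    (h' : M'.charpoly = ∑ i ∈ Finset.range (d + 1), C (c' (d - i)) * X ^ i)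
    (fe : ∀ j, j ≤ d → c j * p ^ (d - j) = c d * c' (d - j)) (b : ℕ) :
    (M' ^ b).trace = p ^ b * (N ^ b).trace ∧ M.det * M'.det = p ^ d := by
  have h1 : M.det * N.det = 1 := by rw [← det_mul, hN, det_one]
  have h2 : M.det ≠ 0 := left_ne_zero_of_mul_eq_one h1
  have e : M'.charpoly = (p • N).charpoly := by
    refine eq_of_infinite_eval_eq _ _ ((Set.finite_singleton (0 : Ω)).infinite_compl.mono ?_)
    intro t ht
    have ht' : t ≠ 0 := ht
    refine mul_left_cancel₀ h2 ?_
    have e1 : M * (scalar (Fin d) t - p • N) = (-t) • (scalar (Fin d) (p / t) - M) := by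
      rw [mul_sub, Matrix.mul_smul, hN, scalar_apply, scalar_apply, ← smul_one_eq_diagonal,
        ← smul_one_eq_diagonal, Matrix.mul_smul, mul_one, smul_sub, smul_smul, neg_mul,
        mul_div_cancel₀ _ ht', neg_smul, neg_smul]
      abel
    rw [eval_charpoly (p • N), ← det_mul, e1, det_smul, ← eval_charpoly, det_of_charpoly h, h, h',
      Fintype.card_fin, eval_finsetSum, eval_finsetSum, neg_pow t, mul_assoc, mul_assoc,
      ← Finset.sum_range_reflect fun i => eval t (C (c' (d - i)) * X ^ i),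
      Finset.mul_sum _ _ (c d), Finset.mul_sum _ _ (t ^ d)]
    congr 1
    refine Finset.sum_congr rfl fun i hi => ?_
    have hi' : i ≤ d := Nat.lt_succ_iff.1 (Finset.mem_range.1 hi)
    have e2 := fe (d - i) (Nat.sub_le _ _)
    obtain ⟨k, rfl⟩ := Nat.exists_eq_add_of_le hi'
    simp only [eval_mul, eval_C, eval_pow, eval_X, Nat.add_sub_cancel,
      Nat.add_sub_cancel_left] at e2 ⊢
    rw [← mul_assoc, ← e2, div_pow, pow_add]
    field_simp
  refine ⟨by rw [l2_trace_pow e, _root_.smul_pow, trace_smul, smul_eq_mul], ?_⟩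
  have e3 := l2_det_aeval e X
  rw [aeval_X, aeval_X, det_smul, Fintype.card_fin] at e3
  rw [e3, mul_left_comm, h1, mul_one]

end Pool.Agent.Lib.MP_d61fbb_ag.SQ
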