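import Pool.Agent.Lib.MP_d61fbb_ag.SQ.T4
import Pool.Agent.Lib.MP_d61fbb_ag.SQ.L2
import Pool.Agent.Lib.MP_d61fbb_ag.SQ.G6
import Pool.Agent.Lib.MP_d61fbb_ag.SQ.G9

/-! The core data. -/

set_option autoImplicit false

noncomputable section

namespace Pool.Agent.Lib.MP_d61fbb_ag.SQ

open Matrix Equiv IsLocalRing Polynomial Filter Topology

variable {l q d : ℕ} [Fact l.Prime] [NeZero q] {Γ A : Type} [Group Γ] [AddCommGroup A] {zt : AddMonoid.End A}
  {P : Fin (d + 1) → A} {act : Γ →* AddMonoid.End A} {pm : Γ →* Perm (Fin (d + 1))}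
  {nu : Γ →* ℤ_[l]ˣ} {e : (Ix q d → ℚ_[l]) →+ A} {ρ : Γ →* Matrix (Ix q d) (Ix q d) ℚ_[l]}
  {ζ : PadicAlgCl l} {R : (ZMod q)ˣ → Γ →* Mat d (PadicAlgCl l)} {nu' : Γ →* PadicAlgCl l}

theorem m3_nat {n : ℕ} (h : ¬ l ∣ n) : (n : ResidueField (OO l)) ≠ 0 := fun k => by
  rw [← map_natCast (residue (OO l)), residue_OO] at k
  have e : (((n : OO l) : PadicAlgCl l)) = algebraMap ℚ_[l] _ (n : ℚ_[l]) := by simp
  rw [e, norm_algebraMap', Padic.norm_natCast_lt_one_iff] at k
  exact h k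

theorem Geo.rp (h : Geo l q d zt P act pm nu) (t : Tat l q d zt act pm nu e ρ ζ R nu')
    (a : (ZMod q)ˣ) : Rq (OO l) (R a) pm where
  dim := by exact_mod_cast m3_nat h.nd
  big := h.big
  lift := t.lift a

theorem Geo.charpoly (h : Geo l q d zt P act pm nu) (hj : JNew l q d zt P)
    (t : Tat l q d zt act pm nu e ρ ζ R nu') {φ : Γ}
    (hφ : Good (pm φ)) {c : ℕ → ℤ[X]} (h0 : ∀ a : (ZMod q)ˣ, cv ζ c a 0 = 1)
    (hc : ∀ (x : A) (N : ℕ), ((1 - zt) ^ N) x = 0 →
      ((1 - zt) * ∑ i ∈ Finset.range (d + 1), aeval zt (c (d - i)) * act φ ^ i) x = 0)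
    (a : (ZMod q)ˣ) :
    (R a φ).charpoly = ∑ i ∈ Finset.range (d + 1), C (cv ζ c a (d - i)) * X ^ i := by
  have h1 := Rep.eq_zero t.tate ((rep_one.sub t.rz).mul (Rep.sum (Finset.range (d + 1))
    fun i _ => (t.rz.aeval (c (d - i))).mul ((t.rep φ).pow i))) fun x N e => (hj.tors_pow N x e).elim (hc x)
  obtain ⟨f, hf⟩ : ∃ f : Matrix (Ix q d) (Ix q d) ℚ_[l] →+* Matrix (Ix q d) (Ix q d) (PadicAlgCl l),
    ∀ M, f M = M.map (algebraMap _ _) := ⟨(algebraMap ℚ_[l] (PadicAlgCl l)).mapMatrix, fun _ => rfl⟩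
  have hz : f (Zm _ q d) = Zm _ q d := (hf _).trans (Zm_map _ q d)
  have h2 := congrArg f h1
  have h3 : ∀ g : ℤ[X], f (aeval (Zm ℚ_[l] q d) g) = aeval (Zm (PadicAlgCl l) q d) g := fun g => by
    rw [← hz]
    exact (aeval_algHom_apply f.toIntAlgHom _ g).symm
  simp only [map_mul, map_sub, map_one, map_sum, map_pow, map_zero, hz, h3] at h2
  have h4 := blk_rel (by have := h.two_lt; omega) t.prim (by rw [← hz, ← map_mul, ← map_mul, t.comm]) c h2 a
  rw [hf, ← t.hR] at h4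
  exact charpoly_of_cyclic (t.lift a φ) (hφ.cyclic (h.rp t a).dim) _ (h0 a) h4

theorem m3_lim (t : Tat l q d zt act pm nu e ρ ζ R nu') {u : ℕ → Γ}
    (h : ∀ k i j, ‖(ρ (u k) - 1) i j‖ ≤ ((l : ℝ) ^ k)⁻¹) (a : (ZMod q)ˣ) :
    Tendsto (fun k => R a (u k)) atTop (𝓝 1) := by
  have h1 : Tendsto (fun k => ρ (u k)) atTop (𝓝 1) :=
    tendsto_pi_nhds.2 fun i => tendsto_pi_nhds.2 fun j => tendsto_iff_norm_sub_tendsto_zero.2
      (squeeze_zero (fun _ => norm_nonneg _) (fun k => h k i j) (tendsto_inv_atTop_zero.comp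
        (tendsto_pow_atTop_atTop_of_one_lt (by exact_mod_cast (Fact.out : l.Prime).one_lt))))
  have h2 : Continuous fun M : Matrix (Ix q d) (Ix q d) ℚ_[l] =>
      blk ζ a (M.map (algebraMap _ (PadicAlgCl l))) :=
    continuous_matrix fun i i' => by
      simp only [blk_apply, map_apply]
      exact continuous_finsetSum _ fun j _ => ((continuous_algebraMap ℚ_[l] (PadicAlgCl l)).comp
        (continuous_id.matrix_elem _ _)).mul continuous_const
  have h3 := (h2.tendsto 1).comp h1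
  rw [Matrix.map_one _ (map_zero _) (map_one _), blk_one] at h3
  exact h3.congr fun k => (t.hR a _).symm

theorem Geo.fe (h : Geo l q d zt P act pm nu) (hj : JNew l q d zt P)
    (t : Tat l q d zt act pm nu e ρ ζ R nu') {s : Γ}
    (hs : Good (pm s)) (a : (ZMod q)ˣ) : (R (-a) s).trace = nu' s * (R a s⁻¹).trace ∧
      (R a s).det * (R (-a) s).det = nu' s ^ d := by
  choose F hF using fun k => rep_small (A := A) t.tate k
  choose φ b p c h1 h2 h3 h4 h5 h6 h7 using fun k => h.frob s hs (F k) k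
  obtain ⟨u, hu⟩ : ∃ u : ℕ → Γ, ∀ k, s⁻¹ * φ k ^ b k = u k := ⟨_, fun _ => rfl⟩
  simp only [hu] at h2 h3
  have l1 := m3_lim t fun k => hF k _ _ (t.rep (u k)) (h2 k)
  have l2 := m3_lim t (u := fun k => (u k)⁻¹) fun k => hF k _ _ (t.rep (u k)⁻¹) fun x hx => by
    conv_lhs => rw [← h2 k x hx]
    change (act (u k)⁻¹ * act (u k)) x = x
    rw [← map_mul, inv_mul_cancel, map_one]
    rfl
  have l3 : Tendsto (fun k => nu' (u k)) atTop (𝓝 1) := by
    have k1 : Tendsto (fun k => (nu (u k) : ℤ_[l])) atTop (𝓝 1) :=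
      tendsto_iff_norm_sub_tendsto_zero.2 (squeeze_zero (fun _ => norm_nonneg _) h3
        (tendsto_inv_atTop_zero.comp (tendsto_pow_atTop_atTop_of_one_lt
          (by exact_mod_cast (Fact.out : l.Prime).one_lt))))
    have k2 := (((continuous_algebraMap ℚ_[l] (PadicAlgCl l)).comp
      continuous_subtype_val).tendsto _).comp k1
    simpa only [t.hnu, Function.comp_def, PadicInt.coe_one, map_one] using k2
  have key : ∀ k, (R (-a) s * R (-a) (u k)).trace =
      nu' s * nu' (u k) * (R a (u k)⁻¹ * R a s⁻¹).trace ∧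
      (R a s * R a (u k)).det * (R (-a) s * R (-a) (u k)).det = (nu' s * nu' (u k)) ^ d :=
    fun k => by
      have ap := h6 k ζ t.prim
      have e1 : s * u k = φ k ^ b k := by rw [← hu, mul_inv_cancel_left]
      have e2 : nu' (φ k) = p k := by rw [t.hnu, h4]; simp
      have := trace_pow_fe (M := R a (φ k)) (N := R a (φ k)⁻¹)
        (by rw [← map_mul, mul_inv_cancel, map_one])
        (Nat.cast_ne_zero.2 (by have := h5 k; omega) : (p k : PadicAlgCl l) ≠ 0)
        (h.charpoly hj t (hs.congr (h1 k)) ap.zero (h7 k) a) (h.charpoly hj t (hs.congr (h1 k)) ap.zero (h7 k) (-a))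
        (ap.fe a) (b k)
      simp only [← map_mul, ← _root_.mul_inv_rev, e1]
      rw [← inv_pow]
      simp only [map_pow, e2, det_pow]
      exact ⟨this.1, by rw [← mul_pow, this.2, pow_right_comm]⟩
  have c1 : ∀ x, Tendsto (fun k => R x s * R x (u k)) atTop (𝓝 (R x s)) := fun x => by
    simpa using (l1 x).const_mul (R x s)
  have c2 : Tendsto (fun k => R a (u k)⁻¹ * R a s⁻¹) atTop (𝓝 (R a s⁻¹)) := by
    simpa using (l2 a).mul_const (R a s⁻¹)
  have c3 : Tendsto (fun k => nu' s * nu' (u k)) atTop (𝓝 (nu' s)) := by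
    simpa using l3.const_mul (nu' s)
  have tr := (continuous_id (X := Mat d (PadicAlgCl l))).matrix_trace
  have dt := (continuous_id (X := Mat d (PadicAlgCl l))).matrix_det
  exact ⟨tendsto_nhds_unique (((tr.tendsto _).comp (c1 (-a))).congr fun k => (key k).1)
      (c3.mul ((tr.tendsto _).comp c2)),
    tendsto_nhds_unique ((((dt.tendsto _).comp (c1 a)).mul ((dt.tendsto _).comp (c1 (-a)))).congr
      fun k => (key k).2) (c3.pow d)⟩

theorem Geo.core (h : Geo l q d zt P act pm nu) (hj : JNew l q d zt P)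
    (t : Tat l q d zt act pm nu e ρ ζ R nu') :
    Core (OO l) q R pm nu' := by
  refine ⟨fun a e => ?_, h.rp t, fun s hs => h.fe hj t hs, ?_⟩
  · have h1 : -(a : ZMod q) = a := by rw [← Units.val_neg, e]
    have h2 : ((2 : ℕ) : ZMod q) * a = 0 := by
      push_cast
      linear_combination -h1
    have h3 := Nat.le_of_dvd two_pos ((ZMod.natCast_eq_zero_iff 2 q).1 (a.mul_left_eq_zero.1 h2))
    exact absurd h.two_lt (by omega)
  obtain ⟨_, ⟨s, rfl⟩, hs, hs'⟩ := h.big.exists_cyc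
  obtain ⟨φ, b, p, c, h0, -, -, h4, h5, h6, h7⟩ := h.frob s hs ∅ 0
  have h1 := hs.congr h0
  have ap := h6 ζ t.prim
  have cp := h.charpoly hj t h1 ap.zero h7
  have e2 : nu' φ = p := by rw [t.hnu, h4]; simp
  have hd : 0 < d := by have := h.big.le; omega
  refine ⟨φ, ⟨h1, hs'.congr h0⟩, fun a b hab k => ap.v1 a b hab ?_, fun a N y hN => ?_, fun m m0 k => ap.v4 m m0 ?_,
    fun N hN k => ?_⟩
  · simp only [trace_of_charpoly hd (cp _), det_of_charpoly (cp _), neg_pow (cv _ _ _ _)] at k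
    have e : ((-1 : PadicAlgCl l) ^ d) ^ 2 = 1 := by rw [pow_right_comm]; simp
    linear_combination k - (cv ζ c b 1 ^ d * cv ζ c a d - cv ζ c a 1 ^ d * cv ζ c b d) * e
  · obtain ⟨α, k1, k2⟩ := ap.v3 a N y hN
    exact ⟨α, by simpa [cp a, eval_finsetSum] using k1, k2⟩
  · simpa only [det_of_charpoly (cp _), e2] using k
  · rw [e2] at k
    exact (Nat.one_lt_pow hN.ne' h5).ne' (by exact_mod_cast k)

end Pool.Agent.Lib.MP_d61fbb_ag.SQ
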