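import Pool.Agent.Lib.MP_d61fbb_ag.SQ.AD

/-! Change of coordinates and the easy inclusion. -/

set_option autoImplicit false

noncomputable section

namespace Pool.Agent.Lib.MP_d61fbb_ag.SQ

open Matrix

variable {l : ℕ} [Fact l.Prime] {ι n Γ : Type} [Fintype ι] [DecidableEq ι] [Fintype n]
  [DecidableEq n]

omit [Fintype ι] [DecidableEq ι] [DecidableEq n] in
open MvPolynomial in
theorem z7_eval {K R : Type} [CommRing K] [CommRing R] [Algebra K R] (a : Matrix ι n R)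
    (b : Matrix n ι R) (g : Matrix n n R) (p : MvPolynomial (ι × ι) K) :
    eval (fun ij => g ij.1 ij.2) (aeval (fun ij : ι × ι =>
      (a.map (C (σ := n × n)) * mvPolynomialX n n R * b.map (C (σ := n × n))) ij.1 ij.2) p) = aeval (fun ij : ι × ι => (a * g * b) ij.1 ij.2) p := by
  induction p using MvPolynomial.induction_on with
  | C c => simp
  | add p q hp hq => simp only [map_add, hp, hq]
  | mul_X p ij hp =>
    simp only [map_mul, hp, aeval_X]
    simp [Matrix.mul_apply]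

theorem zar_of_pt (ρ : Γ → Matrix ι ι ℚ_[l]) (D : Γ → Matrix n n (PadicAlgCl l))
    (T : Matrix n ι (PadicAlgCl l)) (T' : Matrix ι n (PadicAlgCl l)) (hT : T' * T = 1)
    (h : ∀ γ, T * (ρ γ).map (algebraMap _ _) = D γ * T) {g : Matrix n n (PadicAlgCl l)}
    (hg : Pt (Set.range D) g) : Zar (Set.range ρ) (T' * g * T) := by
  have h' : ∀ γ, T * (ρ γ).map (algebraMap ℚ_[l] (PadicAlgCl l)) = D γ * T := h
  intro p hp
  rw [← z7_eval]
  refine hg _ ?_
  rintro _ ⟨γ, rfl⟩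
  rw [z7_eval, Matrix.mul_assoc, ← h', ← Matrix.mul_assoc, hT, Matrix.one_mul, aeval_alg,
    hp _ ⟨γ, rfl⟩, map_zero]

theorem Zar.comm {S : Set (Matrix ι ι ℚ_[l])} {Z : Matrix ι ι ℚ_[l]} (h : ∀ s ∈ S, s * Z = Z * s)
    {g : Matrix ι ι (PadicAlgCl l)} (hg : Zar S g) :
    g * Z.map (algebraMap _ _) = Z.map (algebraMap _ _) * g := by
  ext i j
  have := hg ((mvPolynomialX ι ι ℚ_[l] * Z.map (MvPolynomial.C (σ := ι × ι)) -
    Z.map (MvPolynomial.C (σ := ι × ι)) * mvPolynomialX ι ι ℚ_[l]) i j) fun s hs => by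
      simpa [Matrix.mul_apply, sub_eq_zero] using congrFun (congrFun (h s hs) i) j
  simpa [Matrix.mul_apply, sub_eq_zero] using this

theorem Zar.sim {S : Set (Matrix ι ι ℚ_[l])} {B : Matrix ι ι ℚ_[l]} (hB : B ≠ 0)
    (h : ∀ s ∈ S, ∃ ν : ℚ_[l], sᵀ * B * s = ν • B) {g : Matrix ι ι (PadicAlgCl l)} (hg : Zar S g) :
    ∃ ν : PadicAlgCl l, gᵀ * B.map (algebraMap _ _) * g = ν • B.map (algebraMap _ _) := by
  obtain ⟨a, b, hab⟩ : ∃ a b, B a b ≠ 0 := by
    by_contra! k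
    exact hB (Matrix.ext k)
  have h0 : algebraMap _ (PadicAlgCl l) (B a b) ≠ 0 := (map_ne_zero _).2 hab
  refine ⟨(gᵀ * B.map (algebraMap _ (PadicAlgCl l)) * g) a b / algebraMap _ _ (B a b), ?_⟩
  ext i j
  let P := (mvPolynomialX ι ι ℚ_[l])ᵀ * B.map (MvPolynomial.C (σ := ι × ι)) *
    mvPolynomialX ι ι ℚ_[l]
  have := hg (P i j * MvPolynomial.C (B a b) - P a b * MvPolynomial.C (B i j)) fun s hs => by
      obtain ⟨ν, e⟩ := h s hs
      have k : (sᵀ * B * s) i j * B a b - (sᵀ * B * s) a b * B i j = 0 := by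
        rw [e, Matrix.smul_apply, Matrix.smul_apply, smul_eq_mul, smul_eq_mul]
        ring
      simpa [P, Matrix.mul_apply] using k
  rw [Matrix.smul_apply, smul_eq_mul, div_mul_eq_mul_div, eq_div_iff h0, ← sub_eq_zero]
  simpa [P, Matrix.mul_apply] using this

theorem descent {F Ω J : Type} [Field F] [Infinite F] [Field Ω] [Algebra F Ω]
    (M : J → Matrix ι ι F) (c : J → F) (B : Matrix ι ι Ω) (hB : B.det ≠ 0) (ha : Bᵀ = -B)
    (h : ∀ j, ((M j).map (algebraMap F Ω))ᵀ * B * (M j).map (algebraMap F Ω) =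
      algebraMap F Ω (c j) • B) :
    ∃ B0 : Matrix ι ι F, B0.det ≠ 0 ∧ B0ᵀ = -B0 ∧ ∀ j, (M j)ᵀ * B0 * M j = c j • B0 := by
  let b := Module.Basis.ofVectorSpace F Ω
  let Φ := b.constr F (MvPolynomial.X (R := F))
  have h1 : ∀ x, MvPolynomial.aeval b (Φ x) = x := LinearMap.congr_fun (g := LinearMap.id)
    (f := (MvPolynomial.aeval b).toLinearMap ∘ₗ Φ) (b.ext fun k => by simp [Φ])
  have h2 : (B.map Φ).det ≠ 0 := fun e => hB (by
    have := congrArg (MvPolynomial.aeval b) e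
    rwa [map_zero, AlgHom.map_det, show (MvPolynomial.aeval b).mapMatrix (B.map Φ) = B from
      Matrix.ext fun i j => h1 _] at this)
  obtain ⟨x, hx⟩ : ∃ x, MvPolynomial.aeval x (B.map Φ).det ≠ (0 : F) := by
    by_contra! k
    exact h2 (MvPolynomial.funext fun x => (k x).trans (map_zero _).symm)
  rw [AlgHom.map_det] at hx
  obtain ⟨f, hf⟩ : ∃ f : Ω →ₗ[F] F, (B.map f).det ≠ 0 :=
    ⟨(MvPolynomial.aeval x).toLinearMap ∘ₗ Φ, hx⟩
  refine ⟨B.map f, hf, Matrix.ext fun i j => ?_, fun j => Matrix.ext fun i k => ?_⟩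
  · simpa using congrArg f (congrFun (congrFun ha i) j)
  · have := congrArg f (congrFun (congrFun (h j) i) k)
    simp only [Matrix.mul_apply, transpose_apply, map_apply, Matrix.smul_apply, smul_eq_mul,
      mul_comm _ (algebraMap F Ω _), ← Algebra.smul_def, map_sum, map_smul] at this ⊢
    rw [← this]
    exact Finset.sum_congr rfl fun _ _ => mul_comm _ _

end Pool.Agent.Lib.MP_d61fbb_ag.SQ
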