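import Pool.Agent.Lib.MP_d61fbb_ag.SQ.EDef

/-! Elementary properties of the Hodge numbers. -/

set_option autoImplicit false

noncomputable section

namespace Pool.Agent.Lib.MP_d61fbb_ag.SQ

open Polynomial Module Pool.Agent.Lib.MP_696deb_nt.B2
open scoped NNReal

variable {l d : ℕ} [NeZero l]

theorem nn1_ne (hl : 1 < l) (a : (ZMod l)ˣ) : (a : ZMod l) ≠ 0 :=
  haveI := Fact.mk hl
  a.ne_zero

theorem nn1_pos (hl : 1 < l) (a : (ZMod l)ˣ) : 0 < (a : ZMod l).val :=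
  Nat.pos_of_ne_zero fun h => nn1_ne hl a ((ZMod.val_eq_zero _).1 h)

theorem nn1_lt (a : (ZMod l)ˣ) : (a : ZMod l).val < l := ZMod.val_lt _

theorem nn1_neg (hl : 1 < l) (a : (ZMod l)ˣ) :
    ((-a : (ZMod l)ˣ) : ZMod l).val = l - (a : ZMod l).val := by
  rw [Units.val_neg, ZMod.neg_val, if_neg (nn1_ne hl a)]

theorem nn1_mod (hl : 1 < l) (hd : l.Coprime (d + 1)) (a : (ZMod l)ˣ) :
    0 < (d + 1) * (a : ZMod l).val % l :=
  Nat.pos_of_ne_zero fun h => absurd (Nat.le_of_dvd (nn1_pos hl a)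
    (hd.dvd_of_dvd_mul_left (Nat.dvd_of_mod_eq_zero h))) (nn1_lt a).not_ge

theorem nn1_ex {s : ℕ} (h0 : s.Coprime l) (h1 : s < l) :
    ∃ a : (ZMod l)ˣ, (a : ZMod l).val = s :=
  ⟨ZMod.unitOfCoprime s h0, ZMod.val_cast_of_lt h1⟩

theorem nn1_one (hl : 1 < l) {a : (ZMod l)ˣ} (h : (a : ZMod l).val = 1) : a = 1 :=
  haveI := Fact.mk hl
  Units.ext (ZMod.val_injective l (h.trans (ZMod.val_one l).symm))

omit [NeZero l] in
theorem nn1_or (hl : IsPrimePow l) (s : ℕ) : s.Coprime l ∨ (s + 1).Coprime l := by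
  obtain ⟨q, k, hq, hk, rfl⟩ := (isPrimePow_nat_iff l).1 hl
  simp only [Nat.coprime_pow_right_iff hk, Nat.coprime_comm (m := q), hq.coprime_iff_not_dvd]
  by_contra h
  rw [not_or, not_not, not_not] at h
  exact hq.one_lt.ne' (Nat.dvd_one.1 ((Nat.dvd_add_right h.1).1 h.2))

omit [NeZero l] in
theorem nn1_four (hl : IsPrimePow l) (hl2 : 2 < l) (h : 2 ∣ l) : 4 ∣ l := by
  obtain ⟨q, k, hq, hk, rfl⟩ := (isPrimePow_nat_iff l).1 hl
  obtain rfl := (Nat.prime_dvd_prime_iff_eq Nat.prime_two hq).1 (Nat.prime_two.dvd_of_dvd_pow h)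
  refine pow_dvd_pow 2 (show 2 ≤ k from ?_)
  by_contra h1
  obtain rfl : k = 1 := by omega
  omega

theorem nn_add (hl1 : 1 < l) (hd : l.Coprime (d + 1)) (a : (ZMod l)ˣ) :
    nn l d a + nn l d (-a) = d := by
  have h1 := nn1_mod hl1 hd a
  have h2 := nn1_lt a
  have hl : 0 < l := by omega
  have h3 := Nat.mod_lt ((d + 1) * (a : ZMod l).val) hl
  have h4 := Nat.div_add_mod ((d + 1) * (a : ZMod l).val) l
  unfold nn
  rw [nn1_neg hl1]
  generalize (a : ZMod l).val = s at *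
  generalize (d + 1) * s / l = q at *
  generalize (d + 1) * s % l = r at *
  obtain ⟨t, rfl⟩ := Nat.exists_eq_add_of_le h2.le
  have hq : q ≤ d := by
    by_contra hq
    have : d + 1 ≤ q := by omega
    nlinarith
  obtain ⟨u, rfl⟩ := Nat.exists_eq_add_of_le hq
  rw [Nat.add_sub_cancel_left, Nat.add_left_cancel_iff]
  apply Nat.div_eq_of_lt_le <;> nlinarith

theorem nn_eq (hl1 : 1 < l) (hd : l.Coprime (d + 1)) (a : (ZMod l)ˣ) :
    l * (nn l d a + 1) =
      (d + 1) * (a : ZMod l).val + (-(((d + 1 : ℕ) : ZMod l) * a)).val := by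
  have h1 := nn1_mod hl1 hd a
  have h2 := nn1_lt a
  have hl : 0 < l := by omega
  have h3 := Nat.mod_lt ((d + 1) * (a : ZMod l).val) hl
  have h4 := Nat.div_add_mod ((d + 1) * (a : ZMod l).val) l
  have h5 : (((d + 1 : ℕ) : ZMod l) * a).val = (d + 1) * (a : ZMod l).val % l := by
    rw [ZMod.val_mul, ZMod.val_natCast, Nat.mod_mul_mod]
  have h6 : ((d + 1 : ℕ) : ZMod l) * a ≠ 0 := fun h => by
    rw [h, ZMod.val_zero] at h5
    omega
  rw [ZMod.neg_val, if_neg h6, h5, nn, mul_add]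
  omega

theorem nn_mid (hl : IsPrimePow l) (hl2 : 2 < l) (h4 : 4 ≤ d) :
    ∃ a : (ZMod l)ˣ, a ≠ -a ∧ 0 < nn l d a ∧ 0 < nn l d (-a) := by
  obtain ⟨m, h1, h2, h3⟩ : ∃ m : ℕ, m.Coprime l ∧ 2 * m < l ∧ l ≤ 5 * m := by
    rcases Nat.even_or_odd' l with ⟨m, hm | hm⟩
    · obtain ⟨k, hk⟩ := nn1_four hl hl2 ⟨m, hm⟩
      obtain ⟨k, rfl⟩ : ∃ j, k = j + 1 := ⟨k - 1, by omega⟩
      refine ⟨2 * k + 1, ?_, by omega, by omega⟩
      rw [show l = (2 * k + 1) * 2 + 2 by omega, Nat.coprime_mul_left_add_right]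
      simp
    · exact ⟨m, by rw [hm]; simp, by omega, by omega⟩
  obtain ⟨a, ha⟩ := nn1_ex (l := l) (s := m) h1 (by omega)
  have h5 := nn1_neg hl.one_lt a
  refine ⟨a, fun h => ?_, ?_, ?_⟩
  · rw [← h] at h5
    omega
  · rw [nn, ha]
    exact Nat.div_pos (by nlinarith) (by omega)
  · rw [nn, h5, ha]
    have h6 : m ≤ l - m := by omega
    exact Nat.div_pos (by nlinarith) (by omega)

theorem nn_card (hl : IsPrimePow l) (hl2 : 2 < l) (hd : l.Coprime (d + 1)) (h4 : 4 ≤ d) :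
    l.totient + 2 ≤ 2 * (Finset.univ.filter fun a : (ZMod l)ˣ => 0 < nn l d a).card := by
  obtain ⟨a0, hne, h1, h2⟩ := nn_mid hl hl2 h4
  have e1 : ∑ a : (ZMod l)ˣ, (if 0 < nn l d (-a) then 1 else 0) =
      ∑ a : (ZMod l)ˣ, if 0 < nn l d a then 1 else 0 :=
    Equiv.sum_comp (Equiv.neg _) fun a : (ZMod l)ˣ => if 0 < nn l d a then 1 else 0
  have e2 : ∑ a : (ZMod l)ˣ, (1 + (if a = a0 then 1 else 0) + (if a = -a0 then 1 else 0)) ≤
      ∑ a : (ZMod l)ˣ, ((if 0 < nn l d a then 1 else 0) + (if 0 < nn l d (-a) then 1 else 0)) := by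
    refine Finset.sum_le_sum fun a _ => ?_
    by_cases k1 : a = a0
    · rw [k1, if_pos rfl, if_neg hne, if_pos h1, if_pos h2]
    by_cases k2 : a = -a0
    · rw [if_neg k1, if_pos k2, k2, neg_neg, if_pos h1, if_pos h2]
    have := nn_add hl.one_lt hd a
    rw [if_neg k1, if_neg k2]
    split_ifs <;> omega
  rw [Finset.sum_add_distrib, Finset.sum_add_distrib, Finset.sum_add_distrib, e1,
    Finset.sum_ite_eq', Finset.sum_ite_eq', if_pos (Finset.mem_univ _),
    if_pos (Finset.mem_univ _), Finset.sum_const, Finset.card_univ, ZMod.card_units_eq_totient,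
    smul_eq_mul] at e2
  rw [Finset.card_filter]
  omega

theorem nn_inj (hl : IsPrimePow l) (hl2 : 2 < l) (hd : l.Coprime (d + 1)) (h4 : 4 ≤ d)
    {e : (ZMod l)ˣ} (h : ∀ a, nn l d (e * a) ≡ nn l d a [MOD d]) : e = 1 := by
  have h2 := hl.one_lt
  have := Fact.mk h2
  have hv1 : ((1 : (ZMod l)ˣ) : ZMod l).val = 1 := ZMod.val_one l
  rcases lt_trichotomy l (d + 1) with hn | hn | hn
  · have k1 : ∀ a : (ZMod l)ˣ, 0 < nn l d a := fun a =>
      Nat.div_pos (by have := nn1_pos h2 a; nlinarith) (by omega)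
    have k2 : ∀ a : (ZMod l)ˣ, nn l d a < d := fun a => by
      have := nn_add h2 hd a
      have := k1 (-a)
      omega
    have k3 := Nat.ModEq.eq_of_lt_of_lt (h 1) (k2 _) (k2 _)
    rw [mul_one, nn, nn, hv1, mul_one] at k3
    apply nn1_one h2
    by_contra hc
    have k4 : 2 ≤ (e : ZMod l).val := by
      have := nn1_pos h2 e
      omega
    have k5 : (d + 1 + l) / l ≤ (d + 1) * (e : ZMod l).val / l :=
      Nat.div_le_div_right (by nlinarith)
    rw [Nat.add_div_right _ (by omega)] at k5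
    omega
  · exact absurd (hd.eq_one_of_dvd (hn ▸ dvd_rfl)) h2.ne'
  obtain ⟨r, hr⟩ : ∃ r, r = (l - 1) / (d + 1) := ⟨_, rfl⟩
  have r0 : ∀ s, (d + 1) * s < l ↔ s ≤ r := fun s => by
    rw [hr, Nat.le_div_iff_mul_le (by omega), mul_comm]
    omega
  have r1 : 1 ≤ r := (r0 1).1 (by omega)
  have r2 : (d + 1) * r < l := (r0 r).2 le_rfl
  have r3 : 5 * r < l := by nlinarith
  have z0 : ∀ a : (ZMod l)ˣ, nn l d a = 0 ↔ (a : ZMod l).val ≤ r := fun a => by
    rw [nn, Nat.div_eq_zero_iff_lt (by omega), r0]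
  have z1 : ∀ a : (ZMod l)ˣ, d ∣ nn l d a ↔
      (a : ZMod l).val ≤ r ∨ l - (a : ZMod l).val ≤ r := fun a => by
    rw [← nn1_neg h2, ← z0, ← z0]
    have := nn_add h2 hd a
    constructor
    · intro hh
      rcases Nat.eq_zero_or_pos (nn l d a) with h0 | h0
      · exact Or.inl h0
      · have := Nat.le_of_dvd h0 hh
        omega
    · rintro (h0 | h0)
      · rw [h0]
        exact dvd_zero d
      · rw [h0, add_zero] at this
        rw [this]
  have z2 : ∀ a, d ∣ nn l d (e * a) ↔ d ∣ nn l d a := fun a => (h a).dvd_iff dvd_rfl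
  have key : ∀ e' : (ZMod l)ˣ, (∀ a, d ∣ nn l d (e' * a) ↔ d ∣ nn l d a) →
      (e' : ZMod l).val ≤ r → e' = 1 := fun e' he ht => by
    apply nn1_one h2
    by_contra hc
    have t0 := nn1_pos h2 e'
    have tc := ZMod.val_coe_unit_coprime e'
    generalize hte : (e' : ZMod l).val = t at *
    have t1 : r / t ≤ r / 2 := Nat.div_le_div_left (by omega) (by omega)
    have t2 := Nat.div_add_mod r t
    have t3 := Nat.mod_lt r t0
    obtain ⟨s, s1, s2, s3, s4⟩ : ∃ s : ℕ, s.Coprime l ∧ s ≤ r ∧ r < t * s ∧ t * s ≤ 3 * r := by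
      have t4 : t * (r / t + 1) = t * (r / t) + t := by ring
      have t5 : t * (r / t + 1 + 1) = t * (r / t) + 2 * t := by ring
      by_cases c : (r / t + 1).Coprime l
      · exact ⟨_, c, by omega, by omega, by omega⟩
      · refine ⟨_, (nn1_or hl _).resolve_left c, ?_, by omega, by omega⟩
        by_contra c1
        exact c ((show t = r / t + 1 by omega) ▸ tc)
    obtain ⟨a, ha⟩ := nn1_ex (l := l) s1 (by omega)
    have t5 : ((e' * a : (ZMod l)ˣ) : ZMod l).val = t * s := by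
      rw [Units.val_mul, ZMod.val_mul, hte, ha, Nat.mod_eq_of_lt (by omega)]
    have t6 := (z1 _).1 ((he a).2 ((z1 a).2 (Or.inl (by omega))))
    omega
  rcases (z1 _).1 ((z2 1).2 ((z1 1).2 (Or.inl (by omega)))) with k | k
  · rw [mul_one] at k
    exact key e z2 k
  rw [mul_one, ← nn1_neg h2] at k
  have k1 : -e = 1 := key (-e) (fun a => by
    have := nn1_lt (e * a)
    rw [← z2 a, z1, z1, neg_mul, nn1_neg h2]
    omega) k
  have k6 := (r0 (r + 1)).not.2 (by omega)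
  have k7 : ∀ a : (ZMod l)ˣ, 0 < nn l d a → nn l d a < d → 2 * nn l d a = d := fun a a1 a2 => by
    have k3 := nn_add h2 hd a
    have k4 := h a
    rw [neg_eq_iff_eq_neg.1 k1, neg_mul, one_mul] at k4
    have k5 := Nat.ModEq.eq_of_lt_of_lt k4 (by omega) (by omega)
    omega
  by_cases c : (r + 1).Coprime l
  · obtain ⟨a, ha⟩ := nn1_ex (l := l) c (by omega)
    have k2 : nn l d a = 1 := by
      rw [nn, ha]
      apply Nat.div_eq_of_lt_le <;> nlinarith
    have := k7 a (by omega) (by omega)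
    omega
  obtain ⟨a, ha⟩ := nn1_ex (l := l) ((nn1_or hl _).resolve_left c) (by omega)
  have k8 : 0 < nn l d a := by
    rw [nn, ha]
    exact Nat.div_pos (by nlinarith) (by omega)
  have k9 : nn l d a < 3 := by
    rw [nn, ha, Nat.div_lt_iff_lt_mul (by omega)]
    nlinarith
  have k10 := k7 a k8 (by omega)
  obtain rfl : d = 4 := by omega
  have k11 : 2 ≤ nn l 4 a := by omega
  rw [nn, ha, Nat.le_div_iff_mul_le (by omega)] at k11
  obtain rfl : r = 1 := by omega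
  have := nn1_four hl hl2 (by_contra fun c2 => c ((Nat.prime_two.coprime_iff_not_dvd).2 c2))
  omega

end Pool.Agent.Lib.MP_d61fbb_ag.SQ
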