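import Pool.Agent.Lib.MP_d61fbb_ag.SQ.EDef
import Pool.Agent.Lib.MP_0d42ed_ag.Fermat.Par

/-! Nondegeneracy of the Hodge numbers. -/

set_option autoImplicit false

noncomputable section

namespace Pool.Agent.Lib.MP_d61fbb_ag.SQ

open Polynomial Module Pool.Agent.Lib.MP_696deb_nt.B2
open scoped NNReal

theorem nn3_range {n : ℕ} [NeZero n] (g : ZMod n → ℕ → ℂ) :
    ∑ a : ZMod n, g a a.val = ∑ i ∈ Finset.range n, g i i :=
  Finset.sum_nbij' ZMod.val Nat.cast (fun a _ => Finset.mem_range.2 a.val_lt)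
    (fun _ _ => Finset.mem_univ _) (fun a _ => ZMod.natCast_zmod_val a)
    (fun _ h => ZMod.val_cast_of_lt (Finset.mem_range.1 h))
    fun a _ => by rw [ZMod.natCast_zmod_val]

theorem nn3_mul {n : ℕ} [NeZero n] {χ : DirichletCharacter ℂ n} (h : χ ≠ 1) (c : ℕ) :
    ∑ i ∈ Finset.range (n * c), χ i * (i : ℂ) = c * ∑ a : ZMod n, χ a * (a.val : ℂ) := by
  induction c with
  | zero => simp
  | succ c ih =>
    have h1 := (nn3_range fun a _ => χ a).symm.trans (MulChar.sum_eq_zero_of_ne_one h)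
    rw [mul_add_one, Finset.sum_range_add, ih, nn3_range fun a i => χ a * (i : ℂ)]
    simp only [Nat.cast_add, Nat.cast_mul, ZMod.natCast_self, zero_mul, zero_add, mul_add,
      Finset.sum_add_distrib, ← Finset.sum_mul, h1, Nat.cast_one, add_mul, one_mul]

theorem nn3_b {l : ℕ} [NeZero l] (hl : IsPrimePow l) {χ : DirichletCharacter ℂ l} (ho : χ.Odd) :
    ∑ s : (ZMod l)ˣ, χ s * ((s : ZMod l).val : ℂ) ≠ 0 := by
  have : NeZero χ.conductor := ⟨χ.conductor_ne_zero⟩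
  have h1 : χ.primitiveCharacter.Odd := by
    have h0 := χ.primitiveCharacter_apply_of_isCoprime (a := -1) isCoprime_one_left.neg_left
    simp only [Int.cast_neg, Int.cast_one] at h0
    exact h0.trans ho
  have h2 : χ.primitiveCharacter ≠ 1 := fun e => by
    have h3 : χ.primitiveCharacter (-1) = -1 := h1
    rw [e, MulChar.one_apply isUnit_one.neg] at h3
    norm_num at h3
  have h3 : ∀ i : ℕ, χ i = χ.primitiveCharacter i := fun i => by
    by_cases c : i.Coprime l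
    · simpa using (χ.primitiveCharacter_apply_of_isCoprime (a := i)
        (Nat.isCoprime_iff_coprime.2 c)).symm
    · rw [χ.map_nonunit (by rwa [ZMod.isUnit_iff_coprime]), MulChar.map_nonunit]
      rw [ZMod.isUnit_iff_coprime]
      intro c1
      obtain ⟨q, k, hq, hk, rfl⟩ := (isPrimePow_nat_iff l).1 hl
      obtain ⟨j, -, hj⟩ := (Nat.dvd_prime_pow hq).1 χ.conductor_dvd_level
      have j0 : 0 < j := Nat.pos_of_ne_zero fun e => h2 (by
        rw [e, pow_zero] at hj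
        exact DirichletCharacter.level_one' _ hj)
      rw [hj, Nat.coprime_pow_right_iff j0] at c1
      exact c (c1.pow_right k)
  rw [Fintype.sum_of_injective Units.val Units.val_injective _
    (fun a : ZMod l => χ a * (a.val : ℂ)) (fun a ha => ?_) fun _ => rfl]
  · obtain ⟨c, hc⟩ := χ.conductor_dvd_level
    have h4 := nn3_mul h2 c
    rw [← hc] at h4
    rw [nn3_range fun a i => χ a * (i : ℂ)]
    simp only [h3, h4]
    refine mul_ne_zero (Nat.cast_ne_zero.2 fun e => NeZero.ne l (by rw [hc, e, mul_zero])) ?_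
    exact MP_0d42ed_ag.Fer.b1Stmt _ _ χ.primitiveCharacter_isPrimitive h1
  · rw [χ.map_nonunit fun h => ha ⟨h.unit, h.unit_spec⟩, zero_mul]

theorem nn3_n {l d : ℕ} [NeZero l] (hl : IsPrimePow l) (hd : l.Coprime (d + 1)) (h1 : 1 ≤ d)
    {χ : DirichletCharacter ℂ l} (ho : χ.Odd) : ∑ s : (ZMod l)ˣ, χ s * (nn l d s : ℂ) ≠ 0 := by
  intro h
  let u : (ZMod l)ˣ := ZMod.unitOfCoprime (d + 1) hd.symm
  have e1 : ∀ s : (ZMod l)ˣ, (l : ℂ) * nn l d s + (((u * s : (ZMod l)ˣ) : ZMod l).val : ℂ) =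
      (d + 1 : ℕ) * ((s : ZMod l).val : ℂ) := fun s => by
    rw [Units.val_mul, ZMod.val_mul, ZMod.coe_unitOfCoprime, ZMod.val_natCast, Nat.mod_mul_mod, nn]
    exact_mod_cast Nat.div_add_mod _ _
  have e2 := Equiv.sum_comp (Equiv.mulLeft u) fun s : (ZMod l)ˣ => χ s * ((s : ZMod l).val : ℂ)
  have e3 : (χ u * (d + 1 : ℕ) - 1) * ∑ s : (ZMod l)ˣ, χ s * ((s : ZMod l).val : ℂ) =
      χ u * l * ∑ s : (ZMod l)ˣ, χ s * (nn l d s : ℂ) := by
    rw [sub_mul, one_mul]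
    nth_rw 2 [← e2]
    rw [Finset.mul_sum, Finset.mul_sum, ← Finset.sum_sub_distrib]
    refine Finset.sum_congr rfl fun s _ => ?_
    have e4 := e1 s
    rw [Equiv.coe_mulLeft, Units.val_mul, map_mul]
    rw [Units.val_mul] at e4
    linear_combination (-χ u * χ s) * e4
  rw [h, mul_zero, mul_eq_zero, sub_eq_zero] at e3
  have e5 := congrArg norm (e3.resolve_right (nn3_b hl ho))
  rw [norm_mul, χ.unit_norm_eq_one, one_mul, Complex.norm_natCast, norm_one, Nat.cast_eq_one] at e5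
  omega

theorem nn3_f {l d : ℕ} [NeZero l] (hl : IsPrimePow l) (hd : l.Coprime (d + 1)) (h1 : 1 ≤ d)
    (m : (ZMod l)ˣ → ℤ) (m0 : ℤ) (h : ∀ e : (ZMod l)ˣ, ∑ a, m a * (nn l d (a * e) : ℤ) = m0)
    {χ : DirichletCharacter ℂ l} (ho : χ.Odd) : ∑ a, (m a : ℂ) * χ (a : ZMod l)⁻¹ = 0 := by
  have e1 : ∑ e : (ZMod l)ˣ, χ e = 0 := by
    have e2 := Equiv.sum_comp (Equiv.neg (ZMod l)ˣ) fun e : (ZMod l)ˣ => χ e
    simp only [Equiv.neg_apply, Units.val_neg, ho.eval_neg, Finset.sum_neg_distrib] at e2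
    linear_combination (-1 / 2) * e2
  refine (mul_eq_zero.1 ?_).resolve_right (nn3_n hl hd h1 ho)
  have e3 : ∀ e : (ZMod l)ˣ, ∑ a, (m a : ℂ) * (nn l d (a * e) : ℂ) = m0 := fun e => by
    exact_mod_cast h e
  have e5 : ∑ e : (ZMod l)ˣ, ∑ a, χ e * ((m a : ℂ) * (nn l d (a * e) : ℂ)) = 0 := by
    simp only [← Finset.mul_sum, e3]
    rw [← Finset.sum_mul, e1, zero_mul]
  rw [Finset.sum_comm] at e5
  refine Eq.trans ?_ e5
  rw [Finset.sum_mul]
  simp only [Finset.mul_sum]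
  refine Finset.sum_congr rfl fun a _ => ?_
  rw [← Equiv.sum_comp (Equiv.mulLeft a)]
  refine Finset.sum_congr rfl fun e _ => ?_
  have e4 : χ (a : ZMod l)⁻¹ * χ a = 1 := by rw [← map_mul, ZMod.inv_mul_of_unit _ a.isUnit, map_one]
  rw [Equiv.coe_mulLeft, Units.val_mul, map_mul]
  linear_combination ((m a : ℂ) * χ e * (nn l d (a * e) : ℂ)) * e4

theorem nn_odd {l d : ℕ} [NeZero l] (hl : IsPrimePow l) (hd : l.Coprime (d + 1)) (h1 : 1 ≤ d)
    (m : (ZMod l)ˣ → ℤ) (m0 : ℤ) (h : ∀ e : (ZMod l)ˣ, ∑ a, m a * (nn l d (a * e) : ℤ) = m0)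
    (a : (ZMod l)ˣ) : m a = m (-a) := by
  classical
  have e1 : ∀ χ : DirichletCharacter ℂ l,
      ∑ b : (ZMod l)ˣ, ((m b : ℂ) - m (-b)) * χ (b : ZMod l)⁻¹ = 0 := fun χ => by
    have e2 := Equiv.sum_comp (Equiv.neg (ZMod l)ˣ) fun b : (ZMod l)ˣ => (m b : ℂ) * χ (b : ZMod l)⁻¹
    have e0 : ∀ b : (ZMod l)ˣ, ((-b : (ZMod l)ˣ) : ZMod l)⁻¹ = -(b : ZMod l)⁻¹ := fun b => by
      rw [ZMod.inv_coe_unit, ZMod.inv_coe_unit, inv_neg, Units.val_neg]
    simp only [Equiv.neg_apply, e0] at e2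
    simp only [sub_mul, Finset.sum_sub_distrib]
    rcases χ.even_or_odd with he | ho
    · simp only [he.eval_neg] at e2
      rw [e2, sub_self]
    · simp only [ho.eval_neg, mul_neg, Finset.sum_neg_distrib, nn3_f hl hd h1 m m0 h ho,
        neg_eq_zero] at e2
      rw [e2, nn3_f hl hd h1 m m0 h ho, sub_self]
  have e3 : ∑ χ : DirichletCharacter ℂ l,
      (∑ b : (ZMod l)ˣ, ((m b : ℂ) - m (-b)) * χ (b : ZMod l)⁻¹) * χ a = 0 := by
    simp only [e1, zero_mul, Finset.sum_const_zero]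
  simp only [Finset.sum_mul, mul_assoc] at e3
  rw [Finset.sum_comm] at e3
  simp only [← Finset.mul_sum, DirichletCharacter.sum_char_inv_mul_char_eq ℂ (Units.isUnit _),
    Units.val_inj, mul_ite, mul_zero, Finset.sum_ite_eq', Finset.mem_univ, if_true] at e3
  have e4 := (mul_eq_zero.1 e3).resolve_right
    (Nat.cast_ne_zero.2 (Nat.totient_pos.2 (NeZero.pos l)).ne')
  exact_mod_cast sub_eq_zero.1 e4

end Pool.Agent.Lib.MP_d61fbb_ag.SQ
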