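import Pool.Agent.Lib.MP_d61fbb_ag.SQ.M1
import Pool.Agent.Lib.MP_d61fbb_ag.SQ.G6

/-! The abstract input holds for superelliptic curves. -/

set_option autoImplicit false

noncomputable section

namespace Pool.Agent.Lib.MP_d61fbb_ag.SQ

open Matrix Equiv IsLocalRing Polynomial

theorem geo_of (hC : CurveStmt) (hc : ContStmt) (hR : RelStmt) (hF : FrobStmt) (hA : ArithStmt)
    {K : Type} [Field K] [NumberField K] {l q r0 : ℕ} [Fact l.Prime] [NeZero q] (hq : q = l ^ (r0 + 1))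
    (hl : 2 < q) {z : K} (hz : IsPrimitiveRoot z q) {d : ℕ} (hn : ¬ l ∣ d + 1) {f : K[X]}
    {r : Fin (d + 1) → AlgebraicClosure K} (hr : Function.Injective r)
    (hf : bar f = ∏ i, (X - C (r i)))
    (act : (AlgebraicClosure K ≃ₐ[K] AlgebraicClosure K) →*
      AddMonoid.End (Jac (AlgebraicClosure K) q (bar f))) (ha : ∀ γ, act γ = gal q f γ)
    (pm : (AlgebraicClosure K ≃ₐ[K] AlgebraicClosure K) →* Perm (Fin (d + 1)))
    (hp : ∀ γ i, γ (r i) = r (pm γ i)) (hG : Big pm.range)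
    (nu : (AlgebraicClosure K ≃ₐ[K] AlgebraicClosure K) →* ℤ_[l]ˣ)
    (hnu : ∀ γ, nu γ = cyclotomicCharacter _ l γ.toRingEquiv) :
    ∃ P, JData q d (rot f hz) P ∧ Geo l q d (rot f hz) P act pm nu := by
  classical
  have hp' : l.Prime := Fact.out
  have hz' : IsPrimitiveRoot (algebraMap K (AlgebraicClosure K) z) q :=
    hz.map_of_injective (algebraMap K _).injective
  have hco : q.Coprime (d + 1) := hq ▸ Nat.Coprime.pow_left _ (hp'.coprime_iff_not_dvd.2 hn)
  have hpp : IsPrimePow q := hq ▸ hp'.isPrimePow.pow (Nat.succ_ne_zero _)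
  have H : Hyp q d (bar f) r := ⟨by omega, Nat.cast_ne_zero.2 (NeZero.ne q), hco, hr, hf⟩
  have hm : ∀ γ : AlgebraicClosure K ≃ₐ[K] AlgebraicClosure K,
      (bar f).map γ.toRingEquiv.toRingHom = bar f := fun γ => by
    rw [Polynomial.map_map]
    exact congrArg (Polynomial.map · f) (RingHom.ext fun a => γ.commutes a)
  have ha' : ∀ γ, act γ = sg q γ.toRingEquiv (hm γ) := ha
  have hr' : rot f hz = zt (bar f) hz' := rfl
  obtain ⟨P, h1, h2⟩ := hC _ q d _ r H _ hz'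
  rw [hr']
  refine ⟨P, h1, hl, hn, hG, fun γ => ?_, fun γ i => ?_, fun s hs F j => ?_⟩
  · rw [ha']
    exact sg_zt _ hz' (γ.commutes z)
  · rw [ha']
    exact h2 _ _ _ (hp γ) i
  choose Fs hFs using hc _ q d _ r H
  obtain ⟨x0, hx0⟩ := cyc_small (k := AlgebraicClosure K) (l := l) j
  obtain ⟨R, p, φ, a, b, k1, k2, k3, k4, k5, k6, k7⟩ := hF K (insert x0 (F.biUnion Fs ∪
    (Finset.univ.image r ∪ Finset.univ.image fun i : Fin (d + 1) × Fin (d + 1) => r i.1 - r i.2)))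
    s (d ^ q + l)
  simp only [Finset.mem_insert, Finset.mem_union, Finset.mem_biUnion, Finset.mem_image,
    Finset.mem_univ, true_and] at k5 k6 k7
  have m1 : ∀ i, r i ∈ R := fun i => by
    by_cases e : r i = 0
    · exact e ▸ R.zero_mem
    · exact (R.valuation_le_one_iff _).1 (k5 _ (.inr (.inr (.inl ⟨i, rfl⟩))) e).le
  have m2 : Function.Injective fun i => rs R (r i) := fun i i' e => by
    by_contra ne
    exact rs_inj (m1 i) (m1 i') (k5 _ (.inr (.inr (.inr ⟨(i, i'), rfl⟩)))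
      (sub_ne_zero.2 (hr.ne ne))) e
  have m3 : (l : ResidueField R) ≠ 0 := fun e => by
    have k : IsCoprime (p : ResidueField R) l :=
      ((Nat.coprime_primes k1 hp').2 (by omega)).cast
    rw [k3, e] at k
    exact not_isCoprime_zero_zero k
  have m4 : φ.toRingEquiv (algebraMap K _ z) = algebraMap K _ z := φ.commutes z
  have m5 : q ∣ p - 1 := by
    have k := k4.root (N := q) (by rw [hq, Nat.cast_pow]; exact pow_ne_zero _ m3) hz'.pow_eq_one
    rw [m4, ← Nat.sub_add_cancel k1.one_le, pow_succ, eq_comm,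
      mul_eq_right₀ (hz'.ne_zero (NeZero.ne q))] at k
    exact hz'.dvd_of_pow_eq_one _ k
  have m6 : pm φ = pm s ^ a := Equiv.ext fun i => hr (by
    rw [← hp, ← map_pow, ← hp]
    exact k6 _ (.inr (.inr (.inl ⟨i, rfl⟩))))
  have m7 : pm s = pm φ ^ b := Equiv.ext fun i => hr (by
    rw [← hp, ← map_pow, ← hp]
    exact k7 _ (.inr (.inr (.inl ⟨i, rfl⟩))))
  have m0 : Subgroup.zpowers (pm s) = Subgroup.zpowers (pm φ) := le_antisymm
    (Subgroup.zpowers_le.2 (m7 ▸ Subgroup.npow_mem_zpowers _ _))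
    (Subgroup.zpowers_le.2 (m6 ▸ Subgroup.npow_mem_zpowers _ _))
  have m8 : Good (pm φ) := hs.congr m0
  have m9 : ∀ x, s x = (φ ^ b) x → (s⁻¹ * φ ^ b).toRingEquiv x = x := fun x e =>
    (congrArg s.symm e).symm.trans (s.symm_apply_apply x)
  obtain ⟨w, w1, w2⟩ := hR _ q d _ r H _ hz' R p k1 k3 m5 m1 m2 _ (hm φ) k4 m4
  refine ⟨φ, b, p, cpoly p q (fun i => -rs R (r i)) w, m0, fun x hx => ?_, ?_, ?_, k1.one_lt,
    fun ζ hζ => hA _ p q d _ w (pm φ) k1 k3 hpp hl hco hG.le m5 (by omega) (neg_injective.comp m2) (fun i => ?_) m8.1 w1 _ ζ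
      hζ, ?_⟩
  · rw [ha']
    exact hFs x _ _ fun y hy => m9 y (k7 y (.inr (.inl ⟨x, hx, hy⟩)))
  · rw [hnu]
    exact hx0 _ (m9 _ (k7 _ (.inl rfl)))
  · rw [hnu]
    exact k4.cyc m3
  · have : Fact p.Prime := ⟨k1⟩
    have : CharP (ResidueField R) p := (CharP.charP_iff_prime_eq_zero k1).2 k3
    show (-rs R (r i)) ^ p = -rs R (r (pm φ i))
    rw [← hp, neg_pow, neg_one_pow_char, neg_one_mul]
    exact congrArg _ (k4.rs (m1 i)).symm
  · rw [ha']
    exact w2

end Pool.Agent.Lib.MP_d61fbb_ag.SQ
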