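import Pool.Agent.Lib.MP_d61fbb_ag.SQ.M4

/-! Passage to the new part. -/

set_option autoImplicit false

noncomputable section

namespace Pool.Agent.Lib.MP_d61fbb_ag.SQ

open Matrix Equiv IsLocalRing Polynomial

section

variable {A A' : Type} [AddCommGroup A] [AddCommGroup A']

/-- The endomorphism `f'` is the restriction of `f`. -/
def m5_R (j : A' →+ A) (f : AddMonoid.End A) (f' : AddMonoid.End A') : Prop :=
  ∀ y, j (f' y) = f (j y)

variable {j : A' →+ A} {f g : AddMonoid.End A} {f' g' : AddMonoid.End A'}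

theorem m5_R.one : m5_R j 1 1 := fun _ => rfl

theorem m5_R.mul (h : m5_R j f f') (k : m5_R j g g') : m5_R j (f * g) (f' * g') := fun y =>
  (h (g' y)).trans (congrArg f (k y))

theorem m5_R.add (h : m5_R j f f') (k : m5_R j g g') : m5_R j (f + g) (f' + g') := fun y => by
  change j (f' y + g' y) = f (j y) + g (j y)
  rw [map_add, h y, k y]

theorem m5_R.sub (h : m5_R j f f') (k : m5_R j g g') : m5_R j (f - g) (f' - g') := fun y => by
  change j (f' y - g' y) = f (j y) - g (j y)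
  rw [map_sub, h y, k y]

theorem m5_R.pow (h : m5_R j f f') (n : ℕ) : m5_R j (f ^ n) (f' ^ n) := by
  induction n with
  | zero => exact m5_R.one
  | succ n ih =>
    rw [pow_succ, pow_succ]
    exact ih.mul h

theorem m5_R.sum {ι : Type} (s : Finset ι) {u : ι → AddMonoid.End A} {u' : ι → AddMonoid.End A'}
    (h : ∀ i, m5_R j (u i) (u' i)) : m5_R j (∑ i ∈ s, u i) (∑ i ∈ s, u' i) := by
  classical
  induction s using Finset.induction_on with
  | empty => exact fun _ => map_zero j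
  | insert a s ha ih =>
    rw [Finset.sum_insert ha, Finset.sum_insert ha]
    exact (h a).add ih

theorem m5_R.aeval (h : m5_R j f f') (p : ℤ[X]) : m5_R j (aeval f p) (aeval f' p) := by
  induction p using Polynomial.induction_on' with
  | add p p' hp hp' =>
    rw [map_add, map_add]
    exact hp.add hp'
  | monomial n a =>
    rw [aeval_monomial, aeval_monomial]
    refine m5_R.mul (fun y => ?_) (h.pow n)
    simp

theorem m5_pow {x : A} (h : f x = x) (n : ℕ) : (f ^ n) x = x := by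
  induction n with
  | zero => rfl
  | succ n ih =>
    rw [pow_succ]
    exact (congrArg (f ^ n) h).trans ih

theorem m5_fix {x : A} (h : f x = x) (p : ℤ[X]) : aeval f p x = p.eval 1 • x := by
  induction p using Polynomial.induction_on' with
  | add p p' hp hp' =>
    rw [map_add, eval_add, add_smul, ← hp, ← hp']
    rfl
  | monomial n a =>
    rw [aeval_monomial]
    change algebraMap ℤ (AddMonoid.End A) a ((f ^ n) x) = _
    simp [m5_pow h]

theorem m5_geom {x : A} (h : f x = x) (n : ℕ) : (∑ i ∈ Finset.range n, f ^ i) x = n • x := by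
  induction n with
  | zero => exact (zero_smul _ _).symm
  | succ n ih =>
    rw [Finset.sum_range_succ, succ_nsmul, ← ih]
    exact congrArg (_ + ·) (m5_pow h n)

/-- The restriction to the image of `θ`. -/
def m5_res (θ f : AddMonoid.End A) (h : f * θ = θ * f) :
    AddMonoid.End (AddMonoidHom.range (θ : A →+ A)) :=
  AddMonoidHom.mk' (fun y => ⟨f y, by
    obtain ⟨w, hw⟩ := y.2
    exact ⟨f w, (DFunLike.congr_fun h w).symm.trans (congrArg f hw)⟩⟩)
    fun a b => Subtype.ext (map_add f _ _)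

end

variable {l q d : ℕ} [Fact l.Prime] [NeZero q] {Γ A : Type} [Group Γ] [AddCommGroup A]
  {zt : AddMonoid.End A} {P : Fin (d + 1) → A} {act : Γ →* AddMonoid.End A}
  {pm : Γ →* Perm (Fin (d + 1))} {nu : Γ →* ℤ_[l]ˣ}

theorem Geo.new (h : Geo l q d zt P act pm nu) (hj : JData q d zt P) {r : ℕ}
    (hq : q = l ^ (r + 1)) :
    ∃ (A' : Type) (_ : AddCommGroup A') (j : A' →+ A) (zt' : AddMonoid.End A')
      (P' : Fin (d + 1) → A') (act' : Γ →* AddMonoid.End A'),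
      Function.Injective j ∧ (∀ x, (∃ y, j y = x) ↔ ∃ y, (1 - zt ^ (q / l)) y = x) ∧
      (∀ y, j (zt' y) = zt (j y)) ∧ (∀ γ y, j (act' γ y) = act γ (j y)) ∧
      JNew l q d zt' P' ∧ Geo l q d zt' P' act' pm nu := by
  have hl : l.Prime := Fact.out
  have hm : q / l = l ^ r := by rw [hq, pow_succ, Nat.mul_div_cancel _ hl.pos]
  rw [hm]
  have hc : ∀ f : AddMonoid.End A, f * zt = zt * f → f * (1 - zt ^ l ^ r) = (1 - zt ^ l ^ r) * f :=
    fun f hf => ((Commute.one_right f).sub_right (Commute.pow_right hf _)).eq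
  have h1 : zt ^ q = 1 := by rw [← sub_eq_zero, ← geom_sum_mul, hj.norm, zero_mul]
  have h2 : aeval zt (cyclotomic q ℤ) * (1 - zt ^ l ^ r) = 0 := by
    have h3 := congrArg (aeval zt) (cyclotomic_prime_pow_mul_X_pow_sub_one ℤ l r)
    simp only [← hq, map_mul, map_sub, map_pow, aeval_X, map_one, h1, sub_self] at h3
    rw [← neg_sub, mul_neg, h3, neg_zero]
  have h3 : ∀ i, zt (P i) = P i := fun i => (hj.ker _).2 ⟨Pi.single i 1, by simp [Pi.single_apply]⟩
  have h4 : ∀ i, l ^ r • P i ∈ AddMonoidHom.range (1 - zt ^ l ^ r : AddMonoid.End A) := fun i => by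
    obtain ⟨y, hy⟩ := hj.surj (P i)
    refine ⟨y, ?_⟩
    rw [← geom_sum_mul_neg, ← m5_geom (h3 i), ← hy]
    rfl
  let j := (AddMonoidHom.range (1 - zt ^ l ^ r : AddMonoid.End A)).subtype
  have hi : Function.Injective j := Subtype.val_injective
  let zt' := m5_res _ zt (hc zt rfl)
  let act' : Γ →* AddMonoid.End (AddMonoidHom.range (1 - zt ^ l ^ r : AddMonoid.End A)) :=
    { toFun := fun γ => m5_res _ (act γ) (hc _ (h.comm γ))
      map_one' := AddMonoidHom.ext fun y => Subtype.ext (DFunLike.congr_fun (map_one act) y.1)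
      map_mul' := fun γ δ =>
        AddMonoidHom.ext fun y => Subtype.ext (DFunLike.congr_fun (map_mul act γ δ) y.1) }
  have rz : m5_R j zt zt' := fun _ => rfl
  have ra : ∀ γ, m5_R j (act γ) (act' γ) := fun _ _ => rfl
  have h5 : ∀ y, aeval zt (cyclotomic q ℤ) (j y) = 0 := by
    rintro ⟨_, w, rfl⟩
    exact DFunLike.congr_fun h2 w
  have h6 : ∀ a : Fin (d + 1) → ℤ, j (∑ i, a i • ⟨_, h4 i⟩) = ∑ i, (l ^ r * a i) • P i := fun a => by
    rw [map_sum]
    refine Finset.sum_congr rfl fun i _ => ?_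
    rw [map_zsmul, mul_comm, mul_smul, ← Nat.cast_pow, natCast_zsmul]
    rfl
  have hq' : (q : ℤ) = l ^ r * l := by rw [hq, Nat.cast_pow, pow_succ]
  have hl' : (l : ℤ) ≠ 0 := Nat.cast_ne_zero.2 hl.ne_zero
  refine ⟨_, inferInstance, j, zt', fun i => ⟨_, h4 i⟩, act', hi,
    fun x => ⟨fun ⟨y, e⟩ => e ▸ y.2, fun hx => ⟨⟨x, hx⟩, rfl⟩⟩, rz, ra,
    ⟨⟨r, hq⟩, ?_, ?_, fun x => ⟨fun e => ?_, ?_⟩, fun a => ?_⟩,
    h.two_lt, h.nd, h.big, fun γ => ?_, fun γ i => ?_, fun s hs F k => ?_⟩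
  · exact AddMonoidHom.ext fun y => hi ((rz.aeval _ y).trans (h5 y))
  · rintro ⟨_, w, rfl⟩
    obtain ⟨y, rfl⟩ := hj.surj w
    refine ⟨⟨_, y, rfl⟩, hi ?_⟩
    exact (congrArg ((1 - zt ^ l ^ r) y - ·) (DFunLike.congr_fun (hc zt rfl) y)).trans
      (map_sub (1 - zt ^ l ^ r) y (zt y)).symm
  · have e1 : zt (j x) = j x := congrArg j e
    obtain ⟨a, ha⟩ := (hj.ker _).1 e1
    have e2 := h5 x
    rw [m5_fix e1, hq, eval_one_cyclotomic_prime_pow, ha, Finset.smul_sum] at e2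
    simp only [smul_smul] at e2
    have e3 : ∀ i, ∃ b, a i - a 0 = l ^ r * b := fun i => by
      have e4 := (hj.rel _).1 e2 i 0
      rw [hq', ← mul_sub, mul_comm (l : ℤ)] at e4
      exact (mul_dvd_mul_iff_right hl').1 e4
    choose b hb using e3
    refine ⟨b, hi ?_⟩
    have e5 := (hj.rel fun _ => a 0).2 fun _ _ => by simp
    rw [h6, ha, ← sub_zero (∑ i, a i • P i), ← e5, ← Finset.sum_sub_distrib]
    simp only [← sub_smul, hb]
  · rintro ⟨a, rfl⟩
    exact hi ((rz _).trans (by rw [h6]; exact (hj.ker _).2 ⟨_, rfl⟩))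
  · rw [← map_eq_zero_iff j hi, h6, hj.rel, hq']
    simp only [← mul_sub, mul_dvd_mul_iff_left (pow_ne_zero r hl')]
  · exact AddMonoidHom.ext fun y => hi (DFunLike.congr_fun (h.comm γ) y.1)
  · exact hi ((map_nsmul (act γ) _ _).trans (congrArg _ (h.perm γ i)))
  · obtain ⟨φ, b, p, c, k1, k2, k3, k4, k5, k6, k7⟩ := h.frob s hs (F.map ⟨j, hi⟩) k
    refine ⟨φ, b, p, c, k1, fun x hx => hi (k2 _ (Finset.mem_map_of_mem _ hx)), k3, k4, k5, k6,
      fun x N hx => hi ?_⟩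
    refine ((m5_R.one.sub rz).mul (m5_R.sum _ fun i => (rz.aeval _).mul ((ra φ).pow i)) x).trans
      (k7 _ N ?_)
    exact ((m5_R.one.sub rz).pow N x).symm.trans (congrArg j hx)

theorem Geo.main' (h : Geo l q d zt P act pm nu) (hj : JData q d zt P) {r : ℕ}
    (hq : q = l ^ (r + 1)) :
    ∃ (e : (Ix q d → ℚ_[l]) →+ A) (Z B : Matrix (Ix q d) (Ix q d) ℚ_[l])
      (ρ : Γ →* Matrix (Ix q d) (Ix q d) ℚ_[l]),
      TateOn e (1 - zt ^ (q / l)) ∧ Rep e zt Z ∧ (∀ γ, Rep e (act γ) (ρ γ)) ∧ Bᵀ = -B ∧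
      B.det ≠ 0 ∧ Zᵀ * B * Z = B ∧
      (∀ γ, (ρ γ)ᵀ * B * ρ γ = ((nu γ : ℤ_[l]) : ℚ_[l]) • B) ∧
      ∀ g : Matrix (Ix q d) (Ix q d) (PadicAlgCl l), g.det ≠ 0 → (Zar (Set.range ρ) g ↔
        g * Z.map (algebraMap _ _) = Z.map (algebraMap _ _) * g ∧
          ∃ ν : PadicAlgCl l, gᵀ * B.map (algebraMap _ _) * g = ν • B.map (algebraMap _ _)) := by
  obtain ⟨A', _, j, zt', P', act', h1, h2, h3, h4, h5, h6⟩ := h.new hj hq
  obtain ⟨e, Z, B, ρ, k1, k2, k3, k4⟩ := h6.main h5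
  refine ⟨j.comp e, Z, B, ρ, ⟨fun v => ?_, fun x => ?_⟩, fun v => ?_, fun γ v => ?_, k4⟩
  · rw [AddMonoidHom.comp_apply, map_eq_zero_iff j h1, k1.1]
  · rw [← h2]
    constructor
    · rintro ⟨v, rfl⟩
      obtain ⟨k, hk⟩ := (k1.2 _).1 ⟨v, rfl⟩
      exact ⟨⟨_, rfl⟩, k, by rw [AddMonoidHom.comp_apply, ← map_nsmul, hk, map_zero]⟩
    · rintro ⟨⟨y, rfl⟩, k, hk⟩
      obtain ⟨v, rfl⟩ := (k1.2 y).2 ⟨k, h1 (by rw [map_nsmul, hk, map_zero])⟩
      exact ⟨v, rfl⟩
  · rw [AddMonoidHom.comp_apply, k2 v, h3]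
    rfl
  · rw [AddMonoidHom.comp_apply, k3 γ v, h4]
    rfl

end Pool.Agent.Lib.MP_d61fbb_ag.SQ
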