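import Pool.Agent.Lib.MP_d61fbb_ag.SQ.CStmt

/-! The equations of the Anderson function. -/

set_option autoImplicit false
set_option linter.unusedSectionVars false

noncomputable section

namespace Pool.Agent.Lib.MP_d61fbb_ag.SQ

open Polynomial Function Finset

variable {k : Type} [Field k]

/-- Roots permuted by Frobenius and a generic point `(t, s)` of the curve
`y ^ l = ∏ (r i - x)`. -/
structure Dat (k : Type) [Field k] (p l d : ℕ) where
  r : Fin (d + 1) → k
  π : Equiv.Perm (Fin (d + 1))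
  t : k
  s : k
  inj : Injective r
  fr : ∀ i, r i ^ p = r (π i)
  cop : l.Coprime (d + 1)
  pm : l ∣ p - 1
  eq : s ^ l = ∏ i, (r i - t)
  s0 : s ≠ 0
  gen : ∀ i ≤ d, ∀ j ≤ d, t ^ p ^ i = t ^ p ^ j → i = j

namespace Dat

variable {p l d : ℕ} (T : Dat k p l d)

/-- The solutions over the point `(x, y)`. -/
def Sol {F : Type} [CommRing F] [Algebra k F] (x y : F) : Set (Fin (d + 1) → F) :=
  {e | (∀ i, e i ^ p * algebraMap k F (T.r (T.π i) - T.t) =
      (algebraMap k F (T.r (T.π i)) - x) * e (T.π i)) ∧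
    (∏ i, e i) ^ ((p - 1) / l) * algebraMap k F T.s = y}

/-- The top coefficient of the interpolation polynomial. -/
def top {F : Type} [CommRing F] [Algebra k F] (e : Fin (d + 1) → F) : F :=
  ∑ i, e i * algebraMap k F (Lagrange.nodalWeight univ T.r i)

/-- The interpolation polynomial. -/
def itp {F : Type} [CommRing F] [Algebra k F] (e : Fin (d + 1) → F) : F[X] :=
  ∑ i, C (e i) * (Lagrange.basis univ T.r i).map (algebraMap k F)

open Classical in
/-- The multiplicity of the point `(x, y)`. -/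
def num (x y : k) : ℕ :=
  ∑ i ∈ range (d + 1), ∑ a : Fin (d - i) → Fin p,
    if x = T.t ^ p ^ i ∧ y = (∏ j, gv a (T.r j)) ^ ((p - 1) / l) * T.s ^ p ^ i then 1 else 0

variable [Fact p.Prime] [CharP k p]

theorem t_ne (j : ℕ) (i : Fin (d + 1)) : T.t ^ p ^ j ≠ T.r i := by
  induction j generalizing i with
  | zero =>
    intro e
    rw [pow_zero, pow_one] at e
    exact pow_ne_zero l T.s0 (T.eq.trans (prod_eq_zero (mem_univ i) (sub_eq_zero.2 e.symm)))
  | succ j ih =>
    intro e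
    refine ih (T.π.symm i) (sub_eq_zero.1 (pow_eq_zero_iff (Fact.out : p.Prime).ne_zero |>.1 ?_))
    rw [sub_pow_char, T.fr, Equiv.apply_symm_apply, ← pow_mul, ← pow_succ, e, sub_self]

omit [CharP k p] in
include T in
theorem m_eq : (p - 1) / l ≠ 0 ∧ (p - 1) / l * l + 1 = p := by
  have h1 := (Fact.out : p.Prime).two_le
  have h3 : (p - 1) / l * l = p - 1 := Nat.div_mul_cancel T.pm
  exact ⟨fun e => by rw [e] at h3; omega, by omega⟩

theorem exists_iter (i : Fin (d + 1)) : ∃ (N : ℕ) (G : k[X]), 0 < N ∧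
    (∀ u, (∀ j, u ≠ T.r j) → G.eval u ≠ 0) ∧
    ∀ (F : Type) [CommRing F] [Algebra k F] (x y : F), ∀ e ∈ T.Sol x y,
      e i ^ p ^ N * algebraMap k F (G.eval T.t) = aeval x G * e i := by
  have key : ∀ N : ℕ, ∃ G : k[X], (∀ u, (∀ j, u ≠ T.r j) → G.eval u ≠ 0) ∧
      ∀ (F : Type) [CommRing F] [Algebra k F] (x y : F), ∀ e ∈ T.Sol x y,
        e i ^ p ^ N * algebraMap k F (G.eval T.t) = aeval x G * e ((T.π ^ N) i) := fun N => by
    induction N with
    | zero => exact ⟨1, by simp, by simp⟩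
    | succ N ih =>
      obtain ⟨G, h1, h2⟩ := ih
      refine ⟨G ^ p * (C (T.r ((T.π ^ (N + 1)) i)) - X), fun u hu => ?_, fun F _ _ x y e he => ?_⟩
      · rw [eval_mul, eval_pow, eval_sub, eval_C, eval_X]
        exact mul_ne_zero (pow_ne_zero _ (h1 u hu)) (sub_ne_zero.2 (hu _).symm)
      · have h3 := congrArg (· ^ p) (h2 F x y e he)
        have h4 := he.1 ((T.π ^ N) i)
        simp only [mul_pow] at h3
        rw [pow_succ' T.π, Equiv.Perm.mul_apply, pow_succ p, pow_mul, eval_mul, eval_pow, eval_sub,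
          eval_C, eval_X, map_mul, map_pow, ← mul_assoc, h3, mul_assoc, h4, map_mul, map_pow,
          map_sub, aeval_C, aeval_X, mul_assoc]
  obtain ⟨G, h⟩ := key (orderOf T.π)
  rw [pow_orderOf_eq_one] at h
  exact ⟨_, G, orderOf_pos _, h⟩

variable {F : Type} [Field F] [Algebra k F]

theorem a1_ne (i : Fin (d + 1)) : algebraMap k F (T.r i - T.t) ≠ 0 :=
  (_root_.map_ne_zero _).2 (sub_ne_zero.2 (by simpa using (T.t_ne 0 i).symm))

theorem sol_ne {x y : F} (hy : y ≠ 0) {e : Fin (d + 1) → F} (he : e ∈ T.Sol x y)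
    (i : Fin (d + 1)) : e i ≠ 0 := by
  intro e0
  refine hy ?_
  rw [← he.2, prod_eq_zero (mem_univ i) e0, zero_pow T.m_eq.1, zero_mul]

theorem sol_finite (x y : F) : (T.Sol x y).Finite := by
  classical
  have h1 := fun i => T.exists_iter i
  choose N G h0 h1 h2 using h1
  refine (Set.Finite.pi' fun i => ((C (algebraMap k F ((G i).eval T.t)) * X ^ p ^ N i -
    C (aeval x (G i)) * X).roots.toFinset.finite_toSet)).subset fun e he i => ?_
  have h3 : p ^ N i ≠ 1 := (Nat.one_lt_pow (h0 i).ne' (Fact.out : p.Prime).one_lt).ne'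
  rw [Finset.mem_coe, Multiset.mem_toFinset, mem_roots', IsRoot.def]
  refine ⟨fun e0 => h1 i T.t (by simpa using T.t_ne 0) ?_, ?_⟩
  · simpa [coeff_X, h3.symm] using congrArg (coeff · (p ^ N i)) e0
  · rw [eval_sub, eval_mul, eval_mul, eval_C, eval_C, eval_pow, eval_X, mul_comm, h2 i F x y e he,
      sub_self]

theorem sol_mul {x y : F} {e : Fin (d + 1) → F} (he : e ∈ T.Sol x y) {c : Fin (d + 1) → k}
    (h1 : ∀ i, c i ^ p = c (T.π i)) (h2 : (∏ i, c i) ^ ((p - 1) / l) = 1) :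
    (fun i => algebraMap k F (c i) * e i) ∈ T.Sol x y := by
  refine ⟨fun i => ?_, ?_⟩
  · simp only
    rw [mul_pow, mul_assoc, he.1, ← map_pow, h1, mul_left_comm]
  · rw [prod_mul_distrib, mul_pow, ← map_prod, ← map_pow, h2, map_one, one_mul, he.2]

theorem sol_ratio [IsAlgClosed k] {x y : F} (hy : y ≠ 0) {e e' : Fin (d + 1) → F}
    (he : e ∈ T.Sol x y) (he' : e' ∈ T.Sol x y) : ∃ c : Fin (d + 1) → k,
      (∀ i, c i ^ p = c (T.π i)) ∧ (∏ i, c i) ^ ((p - 1) / l) = 1 ∧
        ∀ i, e i = algebraMap k F (c i) * e' i := by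
  have hp : p.Prime := Fact.out
  have h0 := T.sol_ne hy he'
  have h1 : ∀ i, (e i / e' i) ^ p = e (T.π i) / e' (T.π i) := fun i => by
    rw [div_pow, div_eq_div_iff (pow_ne_zero _ (h0 _)) (h0 _)]
    refine mul_right_cancel₀ (T.a1_ne (F := F) (T.π i)) ?_
    linear_combination e' (T.π i) * he.1 i - e (T.π i) * he'.1 i
  have h2 : ∀ (N : ℕ) i, (e i / e' i) ^ p ^ N = e ((T.π ^ N) i) / e' ((T.π ^ N) i) := fun N i => by
    induction N with
    | zero => simp
    | succ N ih => rw [pow_succ, pow_mul, ih, h1, pow_succ', Equiv.Perm.mul_apply]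
  have h3 : ∀ i, ∃ c, algebraMap k F c = e i / e' i := fun i => by
    have h4 := h2 (orderOf T.π) i
    rw [pow_orderOf_eq_one, Equiv.Perm.one_apply] at h4
    have h5 : 1 < p ^ orderOf T.π := Nat.one_lt_pow (orderOf_pos _).ne' hp.one_lt
    refine minpoly.mem_range_of_degree_eq_one k _ (IsAlgClosed.degree_eq_one_of_irreducible k
      (minpoly.irreducible ⟨X ^ p ^ orderOf T.π - X,
        (monic_X_pow _).sub_of_left (by rw [degree_X, degree_X_pow]; exact_mod_cast h5), ?_⟩))
    rw [eval₂_sub, eval₂_X_pow, eval₂_X, h4, sub_self]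
  choose c hc using h3
  have inj := (algebraMap k F).injective
  refine ⟨c, fun i => inj (by rw [map_pow, hc, hc, h1]), inj ?_,
    fun i => by rw [hc, div_mul_cancel₀ _ (h0 i)]⟩
  simp only [map_pow, map_prod, hc, map_one]
  rw [prod_div_distrib, div_pow,
    div_eq_one_iff_eq (pow_ne_zero _ (prod_ne_zero_iff.2 fun i _ => h0 i))]
  exact mul_right_cancel₀ ((_root_.map_ne_zero _).2 T.s0) (he.2.trans he'.2.symm)

theorem sol_map {F' : Type} [Field F'] [Algebra k F'] (φ : F →ₐ[k] F') {x y : F}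
    {e : Fin (d + 1) → F} (he : e ∈ T.Sol x y) :
    (fun i => φ (e i)) ∈ T.Sol (φ x) (φ y) ∧ T.top (fun i => φ (e i)) = φ (T.top e) := by
  refine ⟨⟨fun i => ?_, ?_⟩, by simp [top]⟩
  · simpa only [map_mul, map_pow, AlgHom.commutes, map_sub φ] using congrArg φ (he.1 i)
  · simpa only [map_mul, map_pow, AlgHom.commutes, map_prod] using congrArg φ he.2

end Dat

end Pool.Agent.Lib.MP_d61fbb_ag.SQ
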