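import Pool.Agent.Lib.MP_d61fbb_ag.SQ.A1

/-! Existence of solutions. -/

set_option autoImplicit false

noncomputable section

namespace Pool.Agent.Lib.MP_d61fbb_ag.SQ

open Polynomial Function Finset

theorem a2_orbit {F : Type} [Field F] [IsSepClosed F] (p : ℕ) [Fact p.Prime] [CharP F p]
    {ι : Type} [Finite ι] (π : Equiv.Perm ι) (a : ι → F) (ha : ∀ i, a i ≠ 0) (ρ : ι) :
    ∃ u : ι → F, ∀ i, π.SameCycle ρ i → u i ≠ 0 ∧ u i ^ p = a (π i) * u (π i) := by
  classical
  have hp : p.Prime := Fact.out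
  let A : ℕ → F := fun s => Nat.rec 1 (fun s x => x ^ p * a (π^[s + 1] ρ)) s
  have hA : ∀ s, A (s + 1) = A s ^ p * a (π^[s + 1] ρ) := fun s => rfl
  have hA0 : ∀ s, A s ≠ 0 := fun s => by
    induction s with
    | zero => exact one_ne_zero
    | succ s ih => exact hA s ▸ mul_ne_zero (pow_ne_zero _ ih) (ha _)
  set n := minimalPeriod π ρ with hn
  have hn0 : 0 < n := minimalPeriod_pos_of_mem_periodicPts (π.injective.mem_periodicPts ρ)
  have h1 : 1 ≤ p ^ n := Nat.one_le_pow _ _ hp.pos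
  have : NeZero ((p ^ n - 1 : ℕ) : F) := ⟨by
    rw [Nat.cast_sub h1, Nat.cast_pow, CharP.cast_eq_zero, zero_pow hn0.ne']
    simp⟩
  obtain ⟨V, hV⟩ := IsSepClosed.exists_pow_nat_eq (A n) (p ^ n - 1)
  have hV0 : V ≠ 0 := by
    rintro rfl
    have h2 : 1 < p ^ n := Nat.one_lt_pow hn0.ne' hp.one_lt
    rw [zero_pow (by omega)] at hV
    exact hA0 n hV.symm
  let v : ℕ → F := fun s => V ^ p ^ s / A s
  have hv0 : ∀ s, v s ≠ 0 := fun s => div_ne_zero (pow_ne_zero _ hV0) (hA0 s)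
  have hv : ∀ s, v s ^ p = a (π^[s + 1] ρ) * v (s + 1) := fun s => by
    have := ha (π^[s + 1] ρ)
    have := hA0 s
    simp only [v, hA, div_pow, ← pow_mul, pow_succ]
    field_simp
  have hper : ∀ s, v (s + n) = v s := fun s => by
    induction s with
    | zero =>
      have : V ^ p ^ n = V * A n := by rw [← hV, ← pow_succ', Nat.sub_add_cancel h1]
      simp only [v, zero_add, this, pow_zero, pow_one]
      rw [mul_div_assoc, div_self (hA0 n)]
      exact (mul_one _).trans (div_one _).symm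
    | succ s ih =>
      have h2 := hv (s + n)
      rw [ih, hv s, show s + n + 1 = s + 1 + n by ring, hn, iterate_add_minimalPeriod_eq] at h2
      exact (mul_left_cancel₀ (ha _) h2).symm
  have hmod : ∀ s, v (s % n) = v s := fun s => Periodic.map_mod_nat hper s
  have key : ∀ s s', π^[s] ρ = π^[s'] ρ → v s = v s' := fun s s' h => by
    rw [← iterate_mod_minimalPeriod_eq (n := s), ← iterate_mod_minimalPeriod_eq (n := s'),
      iterate_eq_iterate_iff_of_lt_minimalPeriod (Nat.mod_lt _ hn0) (Nat.mod_lt _ hn0)] at h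
    rw [← hmod s, ← hmod s', hn, h]
  have hu : ∀ s (h : ∃ t, π^[t] ρ = π^[s] ρ), v h.choose = v s := fun s h =>
    key _ _ h.choose_spec
  refine ⟨fun i => if h : ∃ t, π^[t] ρ = i then v h.choose else 0, fun i hi => ?_⟩
  obtain ⟨s, hs⟩ := hi.exists_nat_pow_eq
  obtain rfl : π^[s] ρ = i := by rw [← hs, Equiv.Perm.iterate_eq_pow]
  have e : π (π^[s] ρ) = π^[s + 1] ρ := (iterate_succ_apply' π s ρ).symm
  simp only [e]
  rw [dif_pos ⟨s, rfl⟩, dif_pos ⟨s + 1, rfl⟩, hu, hu]
  exact ⟨hv0 s, hv s⟩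

/-- The theorem of Lang for a torus. -/
theorem lang {F : Type} [Field F] [IsSepClosed F] (p : ℕ) [Fact p.Prime] [CharP F p] {ι : Type}
    [Finite ι] (π : Equiv.Perm ι) (a : ι → F) (ha : ∀ i, a i ≠ 0) :
    ∃ w : ι → F, ∀ i, w i ≠ 0 ∧ w i ^ p = a (π i) * w (π i) := by
  choose u hu using a2_orbit p π a ha
  let ρ : ι → ι := fun i => (Quotient.mk (Equiv.Perm.SameCycle.setoid π) i).out
  have h1 : ∀ i, π.SameCycle (ρ i) i := fun i =>
    Quotient.mk_out (s := Equiv.Perm.SameCycle.setoid π) i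
  have h2 : ∀ i, ρ (π i) = ρ i := fun i => by
    have : Quotient.mk (Equiv.Perm.SameCycle.setoid π) (π i) =
        Quotient.mk (Equiv.Perm.SameCycle.setoid π) i :=
      Quotient.sound (Equiv.Perm.sameCycle_apply_left.2 (Equiv.Perm.SameCycle.refl π i))
    simp only [ρ, this]
  refine ⟨fun i => u (ρ i) i, fun i => ?_⟩
  simp only [h2]
  exact hu _ _ (h1 i)

theorem Dat.sol_nonempty {k : Type} [Field k] {p l d : ℕ} (T : Dat k p l d) [Fact p.Prime]
    [CharP k p] {F : Type} [Field F] [Algebra k F] [IsSepClosed F] {x y : F} (hy : y ≠ 0)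
    (h : y ^ l = ∏ i, (algebraMap k F (T.r i) - x)) : (T.Sol x y).Nonempty := by
  have : CharP F p := charP_of_injective_algebraMap (algebraMap k F).injective p
  obtain ⟨hm0, hm⟩ := T.m_eq
  set m := (p - 1) / l with hmdef
  have hx : ∀ i, algebraMap k F (T.r i) - x ≠ 0 := fun i hi => by
    refine pow_ne_zero l hy ?_
    rw [h]
    exact prod_eq_zero (mem_univ i) hi
  have ht : ∀ i, algebraMap k F (T.r i - T.t) ≠ 0 := fun i => by
    rw [_root_.map_ne_zero, sub_ne_zero]
    simpa using (T.t_ne 0 i).symm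
  have hs : algebraMap k F T.s ≠ 0 := (_root_.map_ne_zero _).2 T.s0
  obtain ⟨w, hw⟩ := lang p T.π
    (fun j => (algebraMap k F (T.r j) - x) / algebraMap k F (T.r j - T.t))
    fun j => div_ne_zero (hx j) (ht j)
  set W := ∏ i, w i with hW
  have hW0 : W ≠ 0 := prod_ne_zero_iff.2 fun i _ => (hw i).1
  have hWp : W ^ p = y ^ l / algebraMap k F T.s ^ l * W := by
    rw [hW, ← prod_pow, prod_congr rfl fun i _ => (hw i).2, prod_mul_distrib,
      Equiv.prod_comp T.π w, Equiv.prod_comp T.π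
        (fun j => (algebraMap k F (T.r j) - x) / algebraMap k F (T.r j - T.t)),
      h, ← map_pow, T.eq, map_prod, ← prod_div_distrib]
  have hW1 : (W ^ m) ^ l = y ^ l / algebraMap k F T.s ^ l := by
    rw [← pow_mul]
    refine mul_right_cancel₀ hW0 ?_
    rw [← pow_succ, hm, hWp]
  set μ := y / (W ^ m * algebraMap k F T.s) with hμ
  have hμl : μ ^ l = 1 := by
    rw [hμ, div_pow, mul_pow, hW1]
    field_simp
  have hc : (d + 1).Coprime (orderOf μ) :=
    T.cop.symm.coprime_dvd_right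
      (orderOf_dvd_of_pow_eq_one hμl)
  obtain ⟨j, hj⟩ := exists_pow_eq_self_of_coprime hc
  have : NeZero (m : F) := ⟨fun h0 => by
    have h1 := congrArg (Nat.cast : ℕ → F) hm
    rw [Nat.cast_add, Nat.cast_mul, h0, CharP.cast_eq_zero F p] at h1
    simp at h1⟩
  obtain ⟨c, hc⟩ := IsSepClosed.exists_pow_nat_eq (μ ^ j) m
  have hcp : c ^ p = c := by
    rw [← hm, pow_succ, pow_mul, hc, ← pow_mul, mul_comm j, pow_mul, hμl, one_pow, one_mul]
  refine ⟨fun i => c * w i, fun i => ?_, ?_⟩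
  · have := ht (T.π i)
    simp only [mul_pow, hcp, (hw i).2]
    field_simp
  · have h1 : (c ^ (d + 1)) ^ m = μ := by
      rw [← pow_mul, mul_comm, pow_mul, hc, ← pow_mul, mul_comm, pow_mul, hj]
    rw [prod_mul_distrib, prod_const, card_univ, Fintype.card_fin, mul_pow, ← hmdef, h1, ← hW, hμ]
    field_simp

end Pool.Agent.Lib.MP_d61fbb_ag.SQ
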