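import Pool.Agent.Lib.MP_d61fbb_ag.SQ.A1

/-! The interpolation polynomial and the zeros of the Anderson function. -/

set_option autoImplicit false
set_option linter.unusedSectionVars false

noncomputable section

namespace Pool.Agent.Lib.MP_d61fbb_ag.SQ

open Polynomial Function Finset

theorem a3_val {F Γ : Type} [Field F] [LinearOrderedCommGroupWithZero Γ] (v : Valuation F Γ)
    {p d : ℕ} (hp : 1 < p) {h H τ c : ℕ → F} {ε δ : Γ} (hε : ε < 1) (hc : ∀ j, v (c j) = ε)
    (hid : ∀ j, H j - h j * τ j = c j) (h0 : H 0 = 0) (hs : ∀ j, v (H (j + 1)) ≤ v (h j) ^ p)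
    (h1 : ∀ j, v (h j) ≤ 1) (hne : ¬ ∀ j ≤ d, v (h j) < 1) {P : ℕ → Prop}
    (hP : ∀ j, ¬ P j → v (τ j) = 1) (hP' : ∀ j, P j → v (τ j) = δ)
    (hu : ∀ i ≤ d, ∀ j ≤ d, P i → P j → i = j) : ε = δ := by
  have e1 : ∀ j, v (h j) * v (τ j) = v (H j - c j) := fun j => by
    rw [← hid j, sub_sub_cancel, map_mul]
  have step : ∀ j, ¬ P j → v (h j) ≤ max (v (H j)) ε := fun j hj => by
    rw [← mul_one (v (h j)), ← hP j hj, e1, ← hc j]
    exact v.map_sub _ _
  have e2 : ε ^ p ≤ ε := pow_le_of_le_one zero_le hε.le (by omega)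
  have A : ∀ j, (∀ i < j, ¬ P i) → v (H j) ≤ ε ^ p := by
    intro j
    induction j with
    | zero => exact fun _ => by rw [h0, map_zero]; exact zero_le
    | succ j ih =>
      intro hj
      refine (hs j).trans (pow_le_pow_left₀ zero_le ((step j (hj j j.lt_succ_self)).trans
        (max_le ((ih fun i hi => hj i (hi.trans j.lt_succ_self)).trans e2) le_rfl)) p)
  have B : (∀ j ≤ d, P j → v (h j) < 1) → False := fun k => hne (by
    intro j
    induction j with
    | zero =>
      intro hj
      by_cases e : P 0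
      · exact k 0 hj e
      · exact (step 0 e).trans_lt (max_lt (by rw [h0, map_zero]; exact zero_lt_one) hε)
    | succ j ih =>
      intro hj
      by_cases e : P (j + 1)
      · exact k _ hj e
      · exact (step _ e).trans_lt (max_lt ((hs j).trans_lt
          (pow_lt_one₀ zero_le (ih (by omega)) (by omega))) hε))
  obtain ⟨i, hi, hPi, hv⟩ : ∃ i ≤ d, P i ∧ ¬ v (h i) < 1 := by
    by_contra! k
    exact B k
  have e3 := A i fun j hj e => hj.ne (hu j (by omega) i hi e hPi)
  have e4 := e1 i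
  rw [(h1 i).antisymm (not_lt.1 hv), one_mul, hP' i hPi] at e4
  rw [e4]
  rcases eq_or_ne ε 0 with e | e
  · rw [e, zero_pow (by omega), le_zero_iff, map_eq_zero] at e3
    rw [e3, zero_sub, v.map_neg, hc]
  · rw [v.map_sub_eq_of_lt_right (e3.trans_lt ?_), hc]
    rw [hc]
    exact pow_lt_self_of_lt_one₀ (zero_lt_iff.2 e) hε hp

namespace Dat

variable {k : Type} [Field k] {p l d : ℕ} (T : Dat k p l d) [Fact p.Prime] [CharP k p]
  {F : Type} [Field F] [Algebra k F]

omit [Fact p.Prime] [CharP k p] in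
theorem a3_inj : Set.InjOn (fun j => algebraMap k F (T.r j)) (univ : Finset (Fin (d + 1))) :=
  ((algebraMap k F).injective.comp T.inj).injOn

omit [Fact p.Prime] [CharP k p] in
theorem a3_eq (e : Fin (d + 1) → F) :
    T.itp e = Lagrange.interpolate univ (fun j => algebraMap k F (T.r j)) e := by
  rw [itp, Lagrange.interpolate_apply]
  refine sum_congr rfl fun i _ => congrArg _ ?_
  simp [Lagrange.basis, Lagrange.basisDivisor, Polynomial.map_prod]

theorem itp_eval (e : Fin (d + 1) → F) (j : Fin (d + 1)) :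
    (T.itp e).eval (algebraMap k F (T.r j)) = e j := by
  rw [a3_eq]
  exact Lagrange.eval_interpolate_at_node e T.a3_inj (mem_univ j)

omit [Fact p.Prime] [CharP k p] in
theorem a3_lt {H : F[X]} (hH : H.natDegree ≤ d) : H.degree < #(univ : Finset (Fin (d + 1))) := by
  rw [card_univ, Fintype.card_fin]
  exact degree_le_natDegree.trans_lt (by exact_mod_cast Nat.lt_succ_of_le hH)

theorem itp_deg (e : Fin (d + 1) → F) :
    (T.itp e).natDegree ≤ d ∧ (T.itp e).coeff d = T.top e := by
  have h1 : (T.itp e).natDegree ≤ d := by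
    have := Lagrange.degree_interpolate_le e (T.a3_inj (F := F))
    rw [card_univ, Fintype.card_fin, Nat.add_sub_cancel, ← a3_eq] at this
    exact natDegree_le_iff_degree_le.2 this
  refine ⟨h1, ?_⟩
  have h2 := Lagrange.coeff_eq_sum (T.a3_inj (F := F)) (a3_lt h1)
  rw [card_univ, Fintype.card_fin, Nat.add_sub_cancel] at h2
  rw [h2, top]
  refine sum_congr rfl fun i _ => ?_
  rw [itp_eval]
  simp [Lagrange.nodalWeight, div_eq_mul_inv]

theorem itp_unique {H : F[X]} (hH : H.natDegree ≤ d) :
    T.itp (fun j => H.eval (algebraMap k F (T.r j))) = H := by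
  rw [a3_eq]
  exact (Lagrange.eq_interpolate T.a3_inj (a3_lt hH)).symm

omit [CharP k p] in
theorem a3_frob [CharP F p] (H : F[X]) (a : F) :
    (H.map (frobenius F p)).eval (a ^ p) = H.eval a ^ p :=
  eval_map_apply (frobenius F p) a

theorem itp_id [CharP F p] {x y : F} {e : Fin (d + 1) → F} (he : e ∈ T.Sol x y) :
    (T.itp e).map (frobenius F p) * (X - C (algebraMap k F T.t)) - T.itp e * (X - C x) =
      C (T.top e ^ p - T.top e) * ∏ i, (X - C (algebraMap k F (T.r i))) := by
  obtain ⟨h1, h2⟩ := T.itp_deg e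
  have h3 : (∏ i, (X - C (algebraMap k F (T.r i)))).Monic :=
    monic_prod_of_monic _ _ fun _ _ => monic_X_sub_C _
  have h4 : (∏ i, (X - C (algebraMap k F (T.r i)))).natDegree = d + 1 := by
    rw [natDegree_prod_of_monic _ _ fun i _ => monic_X_sub_C _]
    simp
  refine eq_of_degree_sub_lt_of_eval_index_eq univ T.a3_inj ?_ fun j _ => ?_
  · rw [card_univ, Fintype.card_fin, degree_lt_iff_coeff_zero]
    intro m hm
    obtain ⟨a, rfl⟩ : ∃ a, m = a + 1 := ⟨m - 1, by omega⟩
    rw [coeff_sub, coeff_sub, coeff_mul_X_sub_C, coeff_mul_X_sub_C, coeff_map, coeff_map,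
      coeff_C_mul, coeff_eq_zero_of_natDegree_lt (p := T.itp e) (n := a + 1) (by omega)]
    rcases (by omega : a = d ∨ d < a) with rfl | h
    · rw [h2, (congrArg _ h4).symm.trans h3.coeff_natDegree, frobenius_def]
      simp
    · rw [coeff_eq_zero_of_natDegree_lt (p := T.itp e) (n := a) (by omega),
        coeff_eq_zero_of_natDegree_lt (by omega)]
      simp
  · obtain ⟨i, rfl⟩ := T.π.surjective j
    have h5 := a3_frob (p := p) (T.itp e) (algebraMap k F (T.r i))
    rw [← map_pow, T.fr, itp_eval] at h5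
    have h6 := he.1 i
    rw [map_sub] at h6
    simp only [eval_sub, eval_mul, eval_X, eval_C, eval_prod, h5, itp_eval]
    rw [prod_eq_zero (mem_univ (T.π i)) (sub_self _)]
    linear_combination h6

/-- The Anderson function vanishes to order one. -/
theorem val_top {Γ : Type} [LinearOrderedCommGroupWithZero Γ] (v : Valuation F Γ)
    (hv : ∀ c : k, c ≠ 0 → v (algebraMap k F c) = 1) {x y : F} {e : Fin (d + 1) → F}
    (he : e ∈ T.Sol x y) (h1 : ∀ i, v (e i) ≤ 1) {x1 : k} (hx : v (x - algebraMap k F x1) < 1)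
    (h : v (T.top e - 1) < 1) : v (T.top e - 1) = v (x - algebraMap k F x1) := by
  have : CharP F p := charP_of_injective_algebraMap (algebraMap k F).injective p
  have hp : 1 < p := (Fact.out : p.Prime).one_lt
  have hle : ∀ c : k, v (algebraMap k F c) ≤ 1 := fun c => by
    rcases eq_or_ne c 0 with rfl | hc
    · simp
    · exact (hv c hc).le
  have h2 : v (T.top e) = 1 := by
    rw [← v.map_one]
    exact v.map_eq_of_sub_lt (by rwa [v.map_one])
  have h3 : v (T.top e ^ p - T.top e) = v (T.top e - 1) := by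
    rw [show T.top e ^ p - T.top e = (T.top e - 1) ^ p - (T.top e - 1) by
      rw [sub_pow_char, one_pow, sub_sub_sub_cancel_right]]
    rcases eq_or_ne (T.top e - 1) 0 with e0 | e0
    · rw [e0, zero_pow (by omega), sub_zero]
    · refine v.map_sub_eq_of_lt_right ?_
      rw [map_pow]
      exact pow_lt_self_of_lt_one₀ (zero_lt_iff.2 ((map_ne_zero v).2 e0)) h hp
  refine a3_val v (d := d) hp (h := fun j => (T.itp e).eval (algebraMap k F (T.t ^ p ^ j)))
    (H := fun j => ((T.itp e).map (frobenius F p)).eval (algebraMap k F (T.t ^ p ^ j)) *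
      algebraMap k F (T.t ^ p ^ j - T.t))
    (τ := fun j => algebraMap k F (T.t ^ p ^ j) - x)
    (c := fun j => (T.top e ^ p - T.top e) * algebraMap k F (∏ i, (T.t ^ p ^ j - T.r i)))
    (P := fun j => T.t ^ p ^ j = x1) h (fun j => ?_) (fun j => ?_) (by simp) (fun j => ?_)
    (fun j => ?_) (fun a => ?_) (fun j hj => ?_) (fun j hj => ?_)
    fun i hi j hj a b => T.gen i hi j hj (a.trans b.symm)
  · rw [map_mul, h3, hv _ (prod_ne_zero_iff.2 fun i _ => sub_ne_zero.2 (T.t_ne j i)), mul_one]
  · have h4 := congrArg (Polynomial.eval (algebraMap k F (T.t ^ p ^ j))) (T.itp_id he)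
    simp only [eval_sub, eval_mul, eval_X, eval_C, eval_prod] at h4
    simp only [map_sub, map_prod]
    exact h4
  · rw [map_mul, pow_succ, pow_mul, map_pow _ _ p, a3_frob, map_pow v]
    exact mul_le_of_le_one_right' (hle _)
  · rw [itp, eval_finsetSum]
    refine v.map_sum_le fun i _ => ?_
    rw [eval_mul, eval_C, eval_map_apply, map_mul]
    exact mul_le_one' (h1 i) (hle _)
  · obtain ⟨h4, h5⟩ := T.itp_deg e
    have h6 : Injective fun j : Fin (d + 1) => T.t ^ p ^ (j : ℕ) := fun i j b =>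
      Fin.ext (T.gen i (Nat.le_of_lt_succ i.2) j (Nat.le_of_lt_succ j.2) b)
    have h7 := Lagrange.coeff_eq_sum (s := univ)
      (v := fun j : Fin (d + 1) => algebraMap k F (T.t ^ p ^ (j : ℕ)))
      ((algebraMap k F).injective.comp h6).injOn (a3_lt h4)
    rw [card_univ, Fintype.card_fin, Nat.add_sub_cancel, h5] at h7
    refine h2.not_lt ?_
    rw [h7]
    refine v.map_sum_lt one_ne_zero fun i _ => ?_
    rw [map_div₀, map_prod, prod_eq_one fun j hj => ?_, div_one]
    · exact a i (Nat.le_of_lt_succ i.2)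
    · rw [← map_sub]
      exact hv _ (sub_ne_zero.2 fun b => (mem_erase.1 hj).1 (h6 b).symm)
  · have h4 := hv _ (sub_ne_zero.2 hj)
    rw [← h4]
    refine v.map_eq_of_sub_lt ?_
    rwa [h4, map_sub (algebraMap k F), sub_sub_sub_cancel_left, v.map_sub_swap]
  · rw [hj, v.map_sub_swap]

end Dat

end Pool.Agent.Lib.MP_d61fbb_ag.SQ
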