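import Pool.Agent.Lib.MP_d61fbb_ag.SQ.CD1

/-! The Picard group of a Dedekind domain as a divisor class group. -/

set_option autoImplicit false

noncomputable section

namespace Pool.Agent.Lib.MP_d61fbb_ag.SQ

open IsDedekindDomain Function
open scoped nonZeroDivisors

/-- A surjective semilinear map of invertible modules is a base change. -/
theorem cd2_map {B B' M M' : Type} [CommRing B] [CommRing B'] [AddCommGroup M] [Module B M]
    [Module.Invertible B M] [AddCommGroup M'] [Module B' M'] [Module.Invertible B' M']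
    (θ : B →+* B') (f : M →ₛₗ[θ] M') (hf : Surjective f) :
    CommRing.Pic.mapRingHom θ (CommRing.Pic.mk B M) = CommRing.Pic.mk B' M' := by
  let _ := θ.toAlgebra
  let _ : Module B M' := Module.compHom M' θ
  have : IsScalarTower B B' M' := ⟨fun a b m => mul_smul (θ a) b m⟩
  let g : CommRing.Pic.mk B M →ₗ[B] M' :=
    (⟨f.toAddHom, f.map_smulₛₗ⟩ : M →ₗ[B] M') ∘ₗ (CommRing.Pic.mk.linearEquiv B M).toLinearMap
  refine CommRing.Pic.mk_eq_mk_iff.2 ⟨.ofBijective (g.liftBaseChange B')
    (Module.Invertible.bijective_of_surjective fun y => ?_)⟩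
  obtain ⟨x, rfl⟩ := hf y
  refine ⟨1 ⊗ₜ (CommRing.Pic.mk.linearEquiv B M).symm x, ?_⟩
  rw [LinearMap.liftBaseChange_tmul, one_smul]
  exact congrArg f ((CommRing.Pic.mk.linearEquiv B M).apply_symm_apply x)

section

variable {B : Type} [CommRing B] [IsDedekindDomain B]

/-- The class of a fractional ideal. -/
def cd2_U (B : Type) [CommRing B] [IsDedekindDomain B] :
    (FractionalIdeal B⁰ (FractionRing B))ˣ →* CommRing.Pic B :=
  (Submodule.unitsToPic B (FractionRing B)).comp
    (FractionalIdeal.unitsMulEquivSubmodule (S := B⁰)).toMonoidHom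

/-- A prime as an invertible fractional ideal. -/
def cd2_pu (v : HeightOneSpectrum B) : (FractionalIdeal B⁰ (FractionRing B))ˣ :=
  Units.mk0 (v.asIdeal : FractionalIdeal B⁰ (FractionRing B))
    (FractionalIdeal.coeIdeal_ne_zero.2 v.ne_bot)

theorem cd2_count (D : HeightOneSpectrum B →₀ ℤ) (v : HeightOneSpectrum B) :
    FractionalIdeal.count (FractionRing B) v
      (D.prod fun w n => cd2_pu w ^ n : (FractionalIdeal B⁰ (FractionRing B))ˣ) = D v := by
  rw [← FractionalIdeal.count_finsuppProd (FractionRing B) v D]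
  simp [Finsupp.prod, cd2_pu]

theorem cd2_sum (D : HeightOneSpectrum B →₀ ℤ) :
    (D.sum fun v n => n • Additive.ofMul (cd2_U B (cd2_pu v))) =
      Additive.ofMul (cd2_U B (D.prod fun w n => cd2_pu w ^ n)) := by
  simp only [Finsupp.sum, Finsupp.prod, map_prod, map_zpow, ofMul_prod, ofMul_zpow]

theorem cd2_ext {I J : FractionalIdeal B⁰ (FractionRing B)} (hI : I ≠ 0) (hJ : J ≠ 0)
    (h : ∀ v, FractionalIdeal.count (FractionRing B) v I =
      FractionalIdeal.count (FractionRing B) v J) : I = J := by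
  rw [← FractionalIdeal.finprod_heightOneSpectrum_factorization' (FractionRing B) hI,
    ← FractionalIdeal.finprod_heightOneSpectrum_factorization' (FractionRing B) hJ]
  simp only [h]

theorem cd2_ker (I : (FractionalIdeal B⁰ (FractionRing B))ˣ) : cd2_U B I = 1 ↔
    ∃ b : FractionRing B, b ≠ 0 ∧ (I : FractionalIdeal B⁰ (FractionRing B)) =
      FractionalIdeal.spanSingleton B⁰ b := by
  refine (MonoidHom.mem_ker (f := Submodule.unitsToPic B (FractionRing B))).symm.trans ?_
  rw [Submodule.ker_unitsToPic]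
  refine ⟨fun ⟨b, e⟩ => ⟨b, b.ne_zero, FractionalIdeal.coeToSubmodule_injective ?_⟩,
    fun ⟨b, hb, e⟩ => ⟨Units.mk0 b hb, Units.ext ?_⟩⟩
  · exact (congrArg Units.val e).symm.trans (FractionalIdeal.coe_spanSingleton _ _).symm
  · exact (FractionalIdeal.coe_spanSingleton B⁰ b).symm.trans (congrArg _ e.symm)

theorem cd2_surj (x : CommRing.Pic B) : ∃ I, cd2_U B I = x := by
  obtain ⟨J, e⟩ : x ∈ (Submodule.unitsToPic B (FractionRing B)).range := by
    rw [Submodule.range_unitsToPic, CommRing.relPic_eq_top]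
    trivial
  obtain ⟨I, rfl⟩ := (FractionalIdeal.unitsMulEquivSubmodule (S := B⁰)).surjective J
  exact ⟨I, e⟩

theorem cd2_equi (σ : B ≃+* B) (v v' : HeightOneSpectrum B)
    (h : ∀ b, σ b ∈ v'.asIdeal ↔ b ∈ v.asIdeal) :
    CommRing.Pic.mapRingHom (σ : B →+* B) (cd2_U B (cd2_pu v)) = cd2_U B (cd2_pu v') := by
  let τ : FractionRing B ≃+* FractionRing B := IsFractionRing.ringEquivOfRingEquiv σ
  have hτ : ∀ b, τ (algebraMap B _ b) = algebraMap B _ (σ b) :=
    IsFractionRing.ringEquivOfRingEquiv_algebraMap σ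
  let g : FractionRing B →ₛₗ[(σ : B →+* B)] FractionRing B :=
    ⟨⟨τ, τ.map_add⟩, fun b x => by simp only [Algebra.smul_def, map_mul, hτ, RingHom.coe_coe]⟩
  refine cd2_map _ ((g.domRestrict _).codRestrict _ fun ⟨_, a, ha, e⟩ =>
    ⟨σ a, (h a).2 ha, (hτ a).symm.trans (congrArg τ e)⟩) fun ⟨_, a, ha, e⟩ => ?_
  obtain ⟨a, rfl⟩ := σ.surjective a
  exact ⟨⟨_, a, (h a).1 ha, rfl⟩, Subtype.ext ((hτ a).trans e)⟩

end

theorem exists_pcl (B : Type) [CommRing B] [IsDedekindDomain B] :
    ∃ c : HeightOneSpectrum B → Additive (CommRing.Pic B),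
      (∀ x, ∃ D : HeightOneSpectrum B →₀ ℤ, (D.sum fun v n => n • c v) = x) ∧
      (∀ D : HeightOneSpectrum B →₀ ℤ, (D.sum fun v n => n • c v) = 0 ↔
        ∃ b : FractionRing B, b ≠ 0 ∧ ∀ v, D v = cnt v b) ∧
      ∀ (σ : B ≃+* B) (v v' : HeightOneSpectrum B), (∀ b, σ b ∈ v'.asIdeal ↔ b ∈ v.asIdeal) →
        pic (σ : B →+* B) (c v) = c v' := by
  refine ⟨fun v => Additive.ofMul (cd2_U B (cd2_pu v)), fun x => ?_, fun D => ?_,
    fun σ v v' h => congrArg Additive.ofMul (cd2_equi σ v v' h)⟩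
  · obtain ⟨I, e⟩ := cd2_surj (Additive.toMul x)
    let D : HeightOneSpectrum B →₀ ℤ :=
      Finsupp.ofSupportFinite (fun v => FractionalIdeal.count (FractionRing B) v I)
        (Filter.eventually_cofinite.1 (FractionalIdeal.finite_factors _))
    have h : (D.prod fun w n => cd2_pu w ^ n) = I :=
      Units.ext (cd2_ext (Units.ne_zero _) I.ne_zero fun v => cd2_count D v)
    exact ⟨D, by rw [cd2_sum, h, e, ofMul_toMul]⟩
  · rw [cd2_sum, ofMul_eq_zero, cd2_ker]
    refine exists_congr fun b => and_congr_right fun hb => ⟨fun e v => ?_, fun e => ?_⟩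
    · rw [← cd2_count D v, e, cnt]
    · exact cd2_ext (Units.ne_zero _) (FractionalIdeal.spanSingleton_ne_zero_iff.2 hb)
        fun v => (cd2_count D v).trans (e v)

end Pool.Agent.Lib.MP_d61fbb_ag.SQ
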