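import Pool.Agent.Lib.MP_d61fbb_ag.SQ.A2
import Pool.Agent.Lib.MP_d61fbb_ag.SQ.A5
import Pool.Agent.Lib.MP_d61fbb_ag.SQ.C3

/-! The divisor of the Anderson function. -/

set_option autoImplicit false

noncomputable section

namespace Pool.Agent.Lib.MP_d61fbb_ag.SQ

open Polynomial Function Finset

variable {k : Type} [Field k] [IsAlgClosed k] {l : ℕ} {f : k[X]} [Sm l f]

theorem exists_val {Ω : Type} [Field Ω] (ι : Fn l f →+* Ω) (Q : Pt l f) :
    ∃ V : ValuationSubring Ω, (∀ b, Q.ev b ≠ 0 → V.valuation (ι (io l f b)) = 1) ∧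
      ∀ b, Q.ev b = 0 → V.valuation (ι (io l f b)) < 1 := by
  let j : Crv k l f →+* Ω := ι.comp (io l f)
  have hj : Bijective j.rangeRestrict :=
    ⟨fun a b e => io_inj (ι.injective (congrArg Subtype.val e)), j.rangeRestrict_surjective⟩
  obtain ⟨V, h1, h2⟩ := Ideal.image_subset_nonunits_valuationSubring
    ((RingHom.ker Q.ev).map j.rangeRestrict) fun e => Q.ker_prime.ne_top (by
      rw [← Ideal.comap_map_of_bijective j.rangeRestrict hj (I := RingHom.ker Q.ev), e,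
        Ideal.comap_top])
  have h3 : ∀ b, V.valuation (j b) ≤ 1 := fun b => (V.valuation_le_one_iff _).2 (h1 ⟨b, rfl⟩)
  have h4 : ∀ b, Q.ev b = 0 → V.valuation (j b) < 1 := fun b hb =>
    V.mem_nonunits_iff.1 (h2 ⟨_, Ideal.mem_map_of_mem _ hb, rfl⟩)
  refine ⟨V, fun b hb => ?_, h4⟩
  have h5 := V.valuation.map_one_add_of_lt (h4 (b * po l f (C (Q.ev b)⁻¹) - 1) (by simp [hb]))
  rw [map_sub, map_one, add_sub_cancel, map_mul, map_mul] at h5
  exact le_antisymm (h3 b) (h5.ge.trans (mul_le_of_le_one_right' (h3 _)))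

theorem a6_ne (c : k) : pl l f (X - C c) ≠ 0 := fun e =>
  X_sub_C_ne_zero c (pl_inj (e.trans (map_zero _).symm))

theorem val_eq_zpow {Γ : Type} [LinearOrderedCommGroupWithZero Γ] (v : Fn l f →*₀ Γ)
    (Q : Pt l f) (hQ : Q.y ≠ 0) (h : ∀ b, Q.ev b ≠ 0 → v (io l f b) = 1) {b : Fn l f}
    (hb : b ≠ 0) : v b = v (pl l f (X - C Q.x)) ^ dv b Q := by
  have h0 := zpow_ne_zero (dv b Q) (a6_ne (l := l) (f := f) Q.x)
  obtain ⟨u, u', h1, h2, e⟩ := dv_frac (div_ne_zero hb h0) (P := Q) (by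
    rw [dv_div hb h0, dv_zpow, Finsupp.sub_apply, Finsupp.smul_apply, dv_x Q hQ, smul_eq_mul,
      mul_one, sub_self])
  have h3 := congrArg v e
  rwa [map_mul, h u h1, h u' h2, mul_one, map_div₀, map_zpow₀, div_eq_one_iff_eq
    (zpow_ne_zero _ ((_root_.map_ne_zero v).2 (a6_ne Q.x)))] at h3

theorem a6_psi {p d : ℕ} (T : Dat k p l d) [Fact p.Prime] [CharP k p]
    (hf : f = ∏ i, (X + C (T.r i))) (Ω : Type) [Field Ω] [Algebra (Fn l f) Ω] [Algebra k Ω]
    [IsScalarTower k (Fn l f) Ω] [IsSepClosed Ω] [IsGalois (Fn l f) Ω] :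
    ∃ Ψ : Fn l f, Ψ ≠ 0 ∧ ∀ Q : Pt l f, Q.y ≠ 0 → dv Ψ Q = T.num (-Q.x) Q.y := by
  have hc : ∀ c : k, algebraMap k Ω c = algebraMap (Fn l f) Ω (pl l f (C c)) := fun c =>
    IsScalarTower.algebraMap_apply k (Fn l f) Ω c
  have he : ∀ c : k, f.eval c = ∏ i, (T.r i - -c) := fun c => by
    rw [hf, eval_prod]
    simp [add_comm]
  set x : Ω := algebraMap (Fn l f) Ω (-pl l f X) with hx
  set y : Ω := algebraMap (Fn l f) Ω (yl l f) with hy
  have hne : (T.Sol x y).Nonempty := T.sol_nonempty ((_root_.map_ne_zero _).2 yl_ne) (by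
    rw [hy, ← map_pow, yl_pow, congrArg (pl l f) hf, map_prod, map_prod]
    exact Finset.prod_congr rfl fun i _ => by
      rw [map_add, map_add, hc, hx, map_neg, sub_neg_eq_add, add_comm])
  have hm : ∀ (γ : Ω ≃ₐ[Fn l f] Ω), ∀ e ∈ T.Sol x y,
      (fun i => γ (e i)) ∈ T.Sol x y ∧ T.top (fun i => γ (e i)) = γ (T.top e) := fun γ e h => by
    have h1 := T.sol_map ((γ : Ω →ₐ[Fn l f] Ω).restrictScalars k) h
    have h2 : ((γ : Ω →ₐ[Fn l f] Ω).restrictScalars k) x = x := γ.commutes _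
    have h3 : ((γ : Ω →ₐ[Fn l f] Ω).restrictScalars k) y = y := γ.commutes _
    rw [h2, h3] at h1
    exact h1
  obtain ⟨Ψ, hΨ⟩ := (InfiniteGalois.mem_range_algebraMap_iff_fixed (k := Fn l f)
    (∏ e ∈ (T.sol_finite x y).toFinset, (T.top e - 1))).2 fun γ => by
      rw [map_prod]
      refine Finset.prod_equiv (Equiv.piCongrRight fun _ => γ.toEquiv) (fun e => ?_) fun e h => ?_
      · simp only [Set.Finite.mem_toFinset]
        refine ⟨fun h => (hm γ e h).1, fun h => ?_⟩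
        have h1 := (hm γ.symm _ h).1
        simpa using h1
      · rw [map_sub, map_one, ← (hm γ e ((Set.Finite.mem_toFinset _).1 h)).2]
        rfl
  have key : ∀ Q : Pt l f, Q.y ≠ 0 → Ψ ≠ 0 ∧ dv Ψ Q = T.num (-Q.x) Q.y := fun Q hQ => by
    obtain ⟨V, h1, h2⟩ := exists_val (algebraMap (Fn l f) Ω) Q
    have e1 : V.valuation (x - algebraMap k Ω (-Q.x)) =
        V.valuation (algebraMap (Fn l f) Ω (pl l f (X - C Q.x))) := by
      rw [map_sub (pl l f), map_sub (algebraMap (Fn l f) Ω), ← hc, hx, map_neg, map_neg,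
        neg_sub_neg, Valuation.map_sub_swap]
    have e2 : y - algebraMap k Ω Q.y =
        algebraMap (Fn l f) Ω (io l f (cy l f - po l f (C Q.y))) := by
      rw [map_sub, map_sub, hc]
      rfl
    have h3 : V.valuation (algebraMap (Fn l f) Ω (pl l f (X - C Q.x))) < 1 := h2 _ (by simp)
    have h4 : V.valuation (algebraMap (Fn l f) Ω (pl l f (X - C Q.x))) ≠ 0 :=
      (_root_.map_ne_zero _).2 ((_root_.map_ne_zero _).2 (a6_ne Q.x))
    have h5 := T.val_prod V.valuation (x := x) (y := y) (x1 := -Q.x) (y1 := Q.y)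
      (fun c h => hc c ▸ h1 _ (by simpa using h)) (e1 ▸ h3) (e2 ▸ h2 _ (by simp)) hQ
      (fun i h => pow_ne_zero l hQ (Q.eq.trans ((he _).trans
        (Finset.prod_eq_zero (Finset.mem_univ i) (sub_eq_zero.2 h.symm))))) hne
    rw [← hΨ, e1] at h5
    have h6 : Ψ ≠ 0 := fun e => pow_ne_zero _ h4 (by rw [← h5, e, map_zero, map_zero])
    have h7 := val_eq_zpow
      (V.valuation.toMonoidWithZeroHom.comp (algebraMap (Fn l f) Ω).toMonoidWithZeroHom) Q hQ h1 h6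
    refine ⟨h6, zpow_right_injective₀ (zero_lt_iff.2 h4) h3.ne ?_⟩
    exact h7.symm.trans (h5.trans (zpow_natCast _ _).symm)
  exact ⟨Ψ, (key ⟨-T.t, T.s, by rw [he, neg_neg, T.eq]⟩ T.s0).1, fun Q hQ => (key Q hQ).2⟩

theorem Dat.exists_psi {p d : ℕ} (T : Dat k p l d) [Fact p.Prime] [CharP k p]
    (hf : f = ∏ i, (X + C (T.r i))) :
    ∃ Ψ : Fn l f, Ψ ≠ 0 ∧ ∀ Q : Pt l f, Q.y ≠ 0 → dv Ψ Q = T.num (-Q.x) Q.y :=
  a6_psi T hf (SeparableClosure (Fn l f))

end Pool.Agent.Lib.MP_d61fbb_ag.SQ
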