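import Pool.Agent.Lib.MP_d61fbb_ag.SQ.C1

/-! The coordinate ring is a Dedekind domain whose primes are the points. -/

set_option autoImplicit false

noncomputable section

namespace Pool.Agent.Lib.MP_d61fbb_ag.SQ

open Polynomial Function

variable {k : Type} [Field k] {l : ℕ} {f : k[X]}

theorem crv_domain [Sm l f] : IsDomain (Crv k l f) := by
  have h : Sm l f := inferInstance
  obtain ⟨q, h1, h2⟩ := exists_irreducible_of_natDegree_ne_zero h.deg
  refine AdjoinRoot.isDomain_of_prime (Irreducible.prime (eis (P := Ideal.span {q})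
    ((Ideal.span_singleton_prime h1.ne_zero).2 h1.prime) (Sm.ne0 f)
    (Ideal.mem_span_singleton.2 h2) fun e => ?_))
  rw [Ideal.span_singleton_pow, Ideal.mem_span_singleton, sq] at e
  exact h1.not_isUnit (h.sep.squarefree q e)

instance [Sm l f] : IsDomain (Crv k l f) := crv_domain

theorem Pt.deriv_ne [Sm l f] (P : Pt l f) (h : P.y = 0) : f.derivative.eval P.x ≠ 0 := by
  have s : Sm l f := inferInstance
  have e := P.eq
  rw [h, zero_pow s.one_lt.ne_bot] at e
  simpa using s.sep.aeval_derivative_ne_zero (x := P.x) (by simpa using e.symm)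

theorem Pt.ker_prime (P : Pt l f) : (RingHom.ker P.ev).IsPrime := by
  exact RingHom.ker_isPrime _

theorem Pt.ker_ne [Sm l f] (P : Pt l f) : RingHom.ker P.ev ≠ ⊥ := by
  have s : Sm l f := inferInstance
  intro e
  have h : po l f (X - C P.x) ∈ RingHom.ker P.ev := by simp [RingHom.mem_ker]
  rw [e, Ideal.mem_bot, map_eq_zero_iff _ (po_inj s.one_lt.ne_bot)] at h
  exact X_sub_C_ne_zero _ h

theorem Pt.ker_inj {P Q : Pt l f} (h : RingHom.ker P.ev = RingHom.ker Q.ev) : P = Q := by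
  have h1 : po l f (X - C P.x) ∈ RingHom.ker P.ev := by simp [RingHom.mem_ker]
  have h2 : cy l f - po l f (C P.y) ∈ RingHom.ker P.ev := by simp [RingHom.mem_ker]
  rw [h, RingHom.mem_ker] at h1 h2
  ext
  · simpa [sub_eq_zero, eq_comm] using h1
  · simpa [sub_eq_zero, eq_comm] using h2

theorem c2_lin [IsAlgClosed k] {J : Ideal k[X]} (hJ : J.IsPrime) {g : k[X]} (g0 : g ≠ 0)
    (hg : g ∈ J) : ∃ x, X - C x ∈ J := by
  rw [(IsAlgClosed.splits g).eq_prod_roots] at hg
  refine (hJ.mem_or_mem hg).elim (fun h => ?_) fun h => ?_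
  · exact absurd (J.eq_top_of_isUnit_mem h
      (isUnit_C.2 (leadingCoeff_ne_zero.2 g0).isUnit)) hJ.ne_top
  · obtain ⟨a, ha, h⟩ := (hJ.multiset_prod_mem_iff_exists_mem _).1 h
    obtain ⟨x, -, rfl⟩ := Multiset.mem_map.1 ha
    exact ⟨x, h⟩

theorem exists_pt [IsAlgClosed k] [Sm l f] (I : Ideal (Crv k l f)) (hI : I.IsPrime)
    (h0 : I ≠ ⊥) : ∃ P : Pt l f, RingHom.ker P.ev = I := by
  have s : Sm l f := inferInstance
  have : Module.Finite k[X] (Crv k l f) :=
    (AdjoinRoot.powerBasis' (monic_X_pow_sub_C f s.one_lt.ne_bot)).finite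
  obtain ⟨b, hb, b0⟩ := Submodule.exists_mem_ne_zero_of_ne_bot h0
  obtain ⟨g, hg, g0⟩ := Submodule.exists_mem_ne_zero_of_ne_bot
    (Ideal.comap_ne_bot_of_integral_mem b0 hb (Algebra.IsIntegral.isIntegral (R := k[X]) b))
  obtain ⟨x, hx⟩ := c2_lin (hI.comap _) g0 hg
  replace hx : po l f (X - C x) ∈ I := hx
  have hp : ∀ p : k[X], po l f p - po l f (C (p.eval x)) ∈ I := fun p => by
    obtain ⟨q, e⟩ := X_sub_C_dvd_sub_C_eval (a := x) (p := p)
    rw [← map_sub, e, map_mul]
    exact I.mul_mem_right _ hx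
  obtain ⟨y, hy⟩ := c2_lin (hI.comap (eval₂RingHom ((po l f).comp C) (cy l f)))
    (X_pow_sub_C_ne_zero s.one_lt.pos (f.eval x)) (by simpa [cy_pow] using hp f)
  replace hy : cy l f - po l f (C y) ∈ I := by simpa using hy
  have e : y ^ l = f.eval x := by
    by_contra ne
    have h1 : cy l f ^ l - po l f (C y) ^ l ∈ I := Ideal.mem_of_dvd _ (sub_dvd_pow_sub_pow _ _ _) hy
    have h2 := I.sub_mem (hp f) h1
    rw [cy_pow, sub_sub_sub_cancel_left, ← map_pow, ← map_pow, ← map_sub, ← map_sub] at h2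
    exact hI.ne_top (I.eq_top_of_isUnit_mem h2
      (((sub_ne_zero.2 ne).isUnit.map C).map (po l f)))
  refine ⟨⟨x, y, e⟩, Ideal.IsMaximal.eq_of_le
    (RingHom.ker_isMaximal_of_surjective _ fun c => ⟨po l f (C c), by simp⟩) hI.ne_top
    fun c hc => ?_⟩
  obtain ⟨u, v, rfl⟩ := ker_bev e hc
  exact I.add_mem (I.mul_mem_right _ hx) (I.mul_mem_right _ hy)

theorem exists_pt_x [IsAlgClosed k] [Sm l f] (x : k) : ∃ P : Pt l f, P.x = x := by
  obtain ⟨y, hy⟩ := IsAlgClosed.exists_pow_nat_eq (f.eval x) (Sm.pos (l := l) f)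
  exact ⟨⟨x, y, hy⟩, rfl⟩

theorem finite_fibre [Sm l f] {S : Set k} (hS : S.Finite) : {P : Pt l f | P.x ∈ S}.Finite := by
  classical
  have s : Sm l f := inferInstance
  refine ((hS.biUnion fun x _ => (Set.finite_singleton x).prod
    (nthRootsFinset l (f.eval x)).finite_toSet).preimage (f := fun P : Pt l f => (P.x, P.y))
    fun P _ Q _ e => Pt.ext (congrArg Prod.fst e) (congrArg Prod.snd e)).subset fun P hP => ?_
  exact Set.mem_biUnion hP ⟨rfl, (mem_nthRootsFinset s.one_lt.pos _).2 P.eq⟩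

theorem c2_dvr {B : Type} [CommRing B] [IsDomain B] [IsNoetherianRing B] {I : Ideal B}
    [I.IsPrime] (h0 : I ≠ ⊥) {τ u : B} (hτ : τ ∈ I) (hu : u ∉ I) (h : ∀ b ∈ I, τ ∣ u * b) :
    IsDiscreteValuationRing (Localization.AtPrime I) := by
  have hf := IsLocalization.AtPrime.not_isField B h0 (Localization.AtPrime I)
  refine ((IsDiscreteValuationRing.TFAE (Localization.AtPrime I) hf).out 4 0).1
    (Submodule.IsPrincipal.mk ⟨algebraMap B _ τ, ?_⟩)
  rw [← Localization.AtPrime.map_eq_maximalIdeal, Ideal.submodule_span_eq]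
  refine le_antisymm (Ideal.map_le_iff_le_comap.2 fun b hb => ?_) ?_
  · have hU := IsLocalization.map_units (Localization.AtPrime I) (⟨u, hu⟩ : I.primeCompl)
    rw [Ideal.mem_comap, Ideal.mem_span_singleton, ← hU.dvd_mul_left, ← map_mul]
    exact map_dvd _ (h b hb)
  · rw [Ideal.span_singleton_le_iff_mem]
    exact Ideal.mem_map_of_mem _ hτ

theorem crv_dedekind [IsAlgClosed k] [Sm l f] : IsDedekindDomain (Crv k l f) := by
  have s : Sm l f := inferInstance
  have : IsDedekindDomainDvr (Crv k l f) := by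
    refine ⟨fun I h0 hI => ?_⟩
    obtain ⟨P, rfl⟩ := exists_pt I hI h0
    by_cases hy : P.y = 0
    · obtain ⟨u, h1, -, h2⟩ := par_y P.eq
      exact c2_dvr h0 (τ := cy l f - po l f (C P.y)) (by simp [RingHom.mem_ker])
        (fun e => P.deriv_ne hy (h1.symm.trans e)) h2
    · obtain ⟨u, h1, h2⟩ := par_x P.eq
      exact c2_dvr h0 (τ := po l f (X - C P.x)) (by simp [RingHom.mem_ker])
        (fun e => mul_ne_zero s.ne (pow_ne_zero _ hy) (h1.symm.trans e)) h2
  infer_instance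

instance [IsAlgClosed k] [Sm l f] : IsDedekindDomain (Crv k l f) := crv_dedekind

end Pool.Agent.Lib.MP_d61fbb_ag.SQ
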