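import Pool.Agent.Lib.MP_d61fbb_ag.SQ.C4
import Pool.Agent.Lib.MP_d61fbb_ag.SQ.C5
import Pool.Agent.Lib.MP_d61fbb_ag.SQ.C6
import Pool.Agent.Lib.MP_d61fbb_ag.SQ.C6b

/-! The class group as a module over the cyclotomic ring. -/

set_option autoImplicit false

noncomputable section

namespace Pool.Agent.Lib.MP_d61fbb_ag.SQ

open Polynomial Function

variable {k : Type} [Field k] [IsAlgClosed k] {l d : ℕ} {f : k[X]} [Sm l f]
  {r : Fin (d + 1) → k} {z : k}

theorem c7_sum {M : Type} [AddCommGroup M] (n : ℕ) (T : AddMonoid.End M) (x : M) :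
    (∑ j ∈ Finset.range n, T ^ j) x = ∑ j ∈ Finset.range n, (T ^ j) x :=
  map_sum (AddMonoidHom.eval x) _ _

theorem j_norm (hz : IsPrimitiveRoot z l) : ∑ j ∈ Finset.range l, zt f hz ^ j = 0 := by
  refine DFunLike.ext _ _ fun x => ?_
  obtain ⟨D, rfl⟩ := cl_surj x
  have h1 := cl_nmD hz D
  rw [nmD, c7_sum, map_sum] at h1
  rw [c7_sum, zt_eq]
  simp only [← cl_au_pow]
  exact h1

theorem c7_irr (P : Pt l f) (hP : P.y ≠ 0) :
    Irreducible (X ^ l - C (pl l f (C P.x - X)) : (Fn l f)[X]) := by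
  have h0 : po l f (X - C P.x) ≠ 0 :=
    (map_ne_zero_iff _ (po_inj (Sm.ne0 f))).2 (X_sub_C_ne_zero _)
  have h1 := eis (mx P).isPrime (a := po l f (C P.x - X)) (Sm.ne0 (l := l) f)
    (mem_mx.2 (by simp)) fun e => by
      rw [← neg_sub X (C P.x), map_neg] at e
      have h2 := (cd1_le (v := mx P) h0 2).2 (neg_mem_iff.1 e)
      have h3 : cnt (mx P) _ = 1 := dv_x P hP
      rw [pl_def] at h3
      rw [h3] at h2
      omega
  rwa [(monic_X_pow_sub_C _ (Sm.ne0 f)).irreducible_iff_irreducible_map_fraction_map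
    (K := Fn l f), Polynomial.map_sub, Polynomial.map_pow, map_X, map_C] at h1

theorem c7_pt (h : Hyp l d f r) (hz : IsPrimitiveRoot z l) (P : Pt l f) (hP : P.y ≠ 0) :
    ∃ y, y - zt f hz y = cl (Finsupp.single P 1) := by
  choose s hs using fun i => IsAlgClosed.exists_pow_nat_eq (P.x - r i) (Sm.pos (l := l) f)
  have hb : pl l f (X - C P.x) ≠ 0 := (map_ne_zero_iff _ pl_inj).2 (X_sub_C_ne_zero _)
  have hc : pl l f (C (-1)) ≠ 0 := (map_ne_zero_iff _ pl_inj).2 (by simp)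
  have he : pl l f (C P.x - X) = pl l f (C (-1)) * pl l f (X - C P.x) := by
    rw [← map_mul]
    simp
  have ha : pl l f (C P.x - X) ≠ 0 := he ▸ mul_ne_zero hc hb
  obtain ⟨γ, hγ⟩ := exists_norm (Sm.ne0 f) (rt f hz).L (rt_L_iter hz)
    ((hz.map_of_injective C_injective).map_of_injective pl_inj) (rt_L_pl hz _) yl_ne
    (rt f hz).L_yl ha (rt_L_pl hz _) (fun i => pl l f (C (s i))) (fun _ => rt_L_pl hz _) (by
      simp only [← map_pow, hs, ← map_sub, ← map_prod]
      rw [yl_pow]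
      refine congrArg _ (h.fac.trans (Finset.prod_congr rfl fun i _ => ?_))
      rw [C_sub]
      ring) (c7_irr P hP)
  have h0 : γ ≠ 0 := fun e => ha (by
    rw [← hγ, e]
    exact Finset.prod_eq_zero (Finset.mem_range.2 (Sm.pos f)) rfl)
  obtain ⟨E, hE⟩ := perm_ker (rt f hz).P (Sm.ne0 f) (rt_P_order hz) (rt f hz).D
    (rt f hz).D_single (D := Finsupp.single P 1 - dv γ) (by
      change nmD hz _ = 0
      rw [map_sub, nmD_single, ← dv_nrm hz h0, nrm, hγ, he, dv_mul hc hb, dv_const, zero_add,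
        sub_self])
  refine ⟨cl E, ?_⟩
  rw [zt_eq, ← cl_au, ← map_sub, ← hE, map_sub, cl_dv, sub_zero]

theorem j_surj (h : Hyp l d f r) (hz : IsPrimitiveRoot z l) (x : Jac k l f) :
    ∃ y, y - zt f hz y = x := by
  obtain ⟨D, rfl, hD⟩ := move (S := {P : Pt l f | P.y = 0})
    ((Set.finite_range h.pt).subset fun P hP => by
      have e := P.eq
      rw [show P.y = 0 from hP, zero_pow (Sm.ne0 f)] at e
      obtain ⟨i, hi⟩ := (h.eval_eq_zero _).1 e.symm
      exact ⟨i, (Pt.ext hi (show P.y = (h.pt i).y from hP)).symm⟩) x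
  have h1 : ∀ P ∈ D.support, ∃ y, y - zt f hz y = cl (Finsupp.single P (D P)) := fun P hP => by
    obtain ⟨a, ha⟩ := c7_pt h hz P (hD P hP)
    exact ⟨D P • a, by rw [map_zsmul, ← smul_sub, ha, ← map_zsmul, Finsupp.smul_single_one]⟩
  choose! y hy using h1
  refine ⟨∑ P ∈ D.support, y P, ?_⟩
  rw [map_sum, ← Finset.sum_sub_distrib, Finset.sum_congr rfl hy, ← map_sum]
  exact congrArg cl D.sum_single

end Pool.Agent.Lib.MP_d61fbb_ag.SQ
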