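import Pool.Agent.Lib.MP_d61fbb_ag.SQ.CStmt

/-! Orders of elements at the primes of a Dedekind domain. -/

set_option autoImplicit false

noncomputable section

namespace Pool.Agent.Lib.MP_d61fbb_ag.SQ

open IsDedekindDomain Function
open scoped nonZeroDivisors

variable {B : Type} [CommRing B] [IsDedekindDomain B]

/-- The order at `v` of an element of the fraction field. -/
def cnt (v : HeightOneSpectrum B) (b : FractionRing B) : ℤ :=
  FractionalIdeal.count (FractionRing B) v (FractionalIdeal.spanSingleton B⁰ b)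

variable {v v' : HeightOneSpectrum B}

theorem cnt_zero : cnt v 0 = 0 := by
  rw [cnt, FractionalIdeal.spanSingleton_zero, FractionalIdeal.count_zero]

theorem cnt_mul {a b : FractionRing B} (ha : a ≠ 0) (hb : b ≠ 0) :
    cnt v (a * b) = cnt v a + cnt v b := by
  rw [cnt, ← FractionalIdeal.spanSingleton_mul_spanSingleton, FractionalIdeal.count_mul _ _
    (FractionalIdeal.spanSingleton_ne_zero_iff.2 ha)
    (FractionalIdeal.spanSingleton_ne_zero_iff.2 hb)]
  rfl

theorem cnt_finite (b : FractionRing B) : (support fun v => cnt v b).Finite := by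
  exact Filter.eventually_cofinite.1
    (FractionalIdeal.finite_factors (FractionalIdeal.spanSingleton B⁰ b))

theorem cnt_nonneg (b : B) : 0 ≤ cnt v (algebraMap B _ b) := by
  rw [cnt, ← FractionalIdeal.coeIdeal_span_singleton]
  exact FractionalIdeal.count_coe_nonneg _ _ _

theorem cd1_int {b : B} (hb : b ≠ 0) :
    v.intValuation b = WithZero.exp (-cnt v (algebraMap B _ b)) := by
  rw [cnt, ← FractionalIdeal.coeIdeal_span_singleton, FractionalIdeal.count_coe _ _
    (Submodule.span_singleton_eq_bot.not.2 hb), v.intValuation_if_neg hb]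

theorem cd1_val {b : FractionRing B} (hb : b ≠ 0) :
    v.valuation (FractionRing B) b = WithZero.exp (-cnt v b) := by
  obtain ⟨⟨s, t⟩, h⟩ := IsLocalization.surj B⁰ b
  have ht : (t : B) ≠ 0 := nonZeroDivisors.coe_ne_zero t
  have ht' : algebraMap B (FractionRing B) t ≠ 0 :=
    (map_ne_zero_iff _ (IsFractionRing.injective B _)).2 ht
  have hs : s ≠ 0 := fun e => mul_ne_zero hb ht' (by rw [h, e, map_zero])
  have e1 := congrArg (v.valuation (FractionRing B)) h
  have e2 := congrArg (cnt v) h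
  have k : ∀ x : B, v.valuation (FractionRing B) (algebraMap B _ x) = v.intValuation x :=
    fun x => v.valuation_of_algebraMap x
  rw [map_mul, k, k, cd1_int ht, cd1_int hs] at e1
  rw [cnt_mul hb ht'] at e2
  rw [← e2, neg_add, WithZero.exp_add] at e1
  exact mul_right_cancel₀ WithZero.exp_ne_zero e1

theorem cd1_le {b : B} (hb : b ≠ 0) (n : ℕ) :
    (n : ℤ) ≤ cnt v (algebraMap B _ b) ↔ b ∈ v.asIdeal ^ n := by
  rw [← v.intValuation_le_pow_iff_mem, cd1_int hb, WithZero.exp_le_exp, neg_le_neg_iff]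

theorem cnt_eq_zero_iff {b : B} (hb : b ≠ 0) : cnt v (algebraMap B _ b) = 0 ↔ b ∉ v.asIdeal := by
  rw [← HeightOneSpectrum.intValuation_eq_one_iff, cd1_int hb, WithZero.exp_eq_one, neg_eq_zero]

theorem cnt_par {τ u : B} (h0 : τ ≠ 0) (hτ : τ ∈ v.asIdeal) (hu : u ∉ v.asIdeal)
    (h : ∀ b ∈ v.asIdeal, τ ∣ u * b) : cnt v (algebraMap B _ τ) = 1 := by
  obtain ⟨π, hπ⟩ := v.intValuation_exists_uniformizer
  have hπv : π ∈ v.asIdeal := by
    rw [← v.intValuation_lt_one_iff_mem, hπ, ← WithZero.exp_zero, WithZero.exp_lt_exp]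
    norm_num
  obtain ⟨c, hc⟩ := h π hπv
  have h1 : v.intValuation π ≤ v.intValuation τ := by
    have e := congrArg v.intValuation hc
    rw [map_mul, map_mul, HeightOneSpectrum.intValuation_eq_one_iff.2 hu, one_mul] at e
    rw [e]
    exact mul_le_of_le_one_right' (v.intValuation_le_one c)
  have h2 := (v.intValuation_lt_one_iff_mem τ).2 hτ
  rw [hπ, cd1_int h0, WithZero.exp_le_exp] at h1
  rw [cd1_int h0, ← WithZero.exp_zero, WithZero.exp_lt_exp] at h2
  omega

theorem cnt_frac {b : FractionRing B} (hb : b ≠ 0) (h : cnt v b = 0) :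
    ∃ u u' : B, u ∉ v.asIdeal ∧ u' ∉ v.asIdeal ∧ b * algebraMap B _ u' = algebraMap B _ u := by
  have h1 : v.valuation (FractionRing B) b = 1 := by rw [cd1_val hb, h, neg_zero, WithZero.exp_zero]
  obtain ⟨n, d, hd⟩ := v.exists_primeCompl_mul_eq_of_integer b h1.le
  refine ⟨n, d, ?_, d.2, hd⟩
  rw [← HeightOneSpectrum.valuation_eq_one_iff_notMem (K := FractionRing B), ← hd, map_mul, h1,
    one_mul, HeightOneSpectrum.valuation_eq_one_iff_notMem]
  exact d.2

theorem cnt_int {b : FractionRing B} (h : ∀ v, 0 ≤ cnt v b) : ∃ a : B, algebraMap B _ a = b := by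
  refine HeightOneSpectrum.mem_integers_of_valuation_le_one (FractionRing B) b fun v => ?_
  rcases eq_or_ne b 0 with rfl | hb
  · simp
  · rw [cd1_val hb, ← WithZero.exp_zero, WithZero.exp_le_exp, neg_nonpos]
    exact h v

theorem cnt_map (σ : B ≃+* B) (h : ∀ b, σ b ∈ v'.asIdeal ↔ b ∈ v.asIdeal) (b : B) :
    cnt v' (algebraMap B _ (σ b)) = cnt v (algebraMap B _ b) := by
  rcases eq_or_ne b 0 with rfl | hb
  · rw [map_zero, map_zero, cnt_zero, cnt_zero]
  have hb' : σ b ≠ 0 := (map_ne_zero_iff σ σ.injective).2 hb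
  have e : v'.asIdeal = v.asIdeal.map σ := by
    ext x
    obtain ⟨y, rfl⟩ := σ.surjective x
    rw [h, Ideal.apply_mem_of_equiv_iff]
  have k : ∀ n : ℕ, (n : ℤ) ≤ cnt v' (algebraMap B _ (σ b)) ↔ (n : ℤ) ≤ cnt v (algebraMap B _ b) :=
    fun n => by
      rw [cd1_le hb, cd1_le hb', e, ← Ideal.map_pow, Ideal.apply_mem_of_equiv_iff]
  have a := (k (cnt v' (algebraMap B _ (σ b))).toNat).1 (Int.toNat_of_nonneg (cnt_nonneg _)).le
  have c := (k (cnt v (algebraMap B _ b)).toNat).2 (Int.toNat_of_nonneg (cnt_nonneg _)).le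
  rw [Int.toNat_of_nonneg (cnt_nonneg _)] at a c
  exact le_antisymm a c

end Pool.Agent.Lib.MP_d61fbb_ag.SQ
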