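import Pool.Agent.Lib.MP_d61fbb_ag.SQ.EDef

/-! Poisson summation for the sums over monic polynomials. -/

set_option autoImplicit false

noncomputable section

namespace Pool.Agent.Lib.MP_d61fbb_ag.SQ

open Polynomial Module Pool.Agent.Lib.MP_696deb_nt.B2
open scoped NNReal

variable {A R : Type} [CommRing A] [Fintype A] [Field R] {p d : ℕ} [Fact p.Prime]
  [Algebra (ZMod p) A] {b : Basis (Fin (d + 1)) (ZMod p) A} {x : A} {ψ : AddChar (ZMod p) R}

omit [Fintype A] in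
theorem epoi_key (hb : ∀ i, b i = x ^ (i : ℕ)) {y : A} {i : ℕ} {r : Fin (d + 1)} (h : i + r = d)
    (hy : ∀ m, r < m → b.repr y m = 0) : b.coord (Fin.last d) (x ^ i * y) = b.repr y r := by
  have e : ∀ m ≤ r, b.coord (Fin.last d) (x ^ i * b m) = if m = r then 1 else 0 := fun m hm => by
    have h1 : (m : ℕ) ≤ r := hm
    rw [hb, ← pow_add, ← hb ⟨i + m, by omega⟩, Basis.coord_apply, b.repr_self,
      Finsupp.single_apply]
    simp only [Fin.ext_iff, Fin.val_last]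
    exact if_congr (by omega) rfl rfl
  conv_lhs => rw [← b.sum_repr y]
  simp only [Finset.mul_sum, mul_smul_comm, map_sum, map_smul, smul_eq_mul]
  rw [Finset.sum_eq_single r (fun m _ hm => ?_) (by simp), e r le_rfl, if_pos rfl, mul_one]
  rcases le_or_gt m r with h1 | h1
  · rw [e m h1, if_neg hm, mul_zero]
  · rw [hy m h1, zero_mul]

omit [Fintype A] in
theorem epoi_top (hb : ∀ i, b i = x ^ (i : ℕ)) (hψ : ψ.IsPrimitive) {y : A} {m : Fin (d + 1)}
    (hm : b.repr y m ≠ 0) : ∃ (i : ℕ) (t : ZMod p), i + m ≤ d ∧ tch b ψ (t • x ^ i * y) ≠ 1 := by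
  obtain ⟨r, hr, h⟩ := Finset.exists_max_image (Finset.univ.filter fun m => b.repr y m ≠ 0) id
    ⟨m, by simpa using hm⟩
  simp only [Finset.mem_filter, Finset.mem_univ, true_and, id] at hr h
  obtain ⟨t, ht⟩ := AddChar.ne_one_iff.1 (hψ hr)
  have h1 : (m : ℕ) ≤ r := h m hm
  have h2 := r.2
  refine ⟨d - r, t, by omega, ?_⟩
  rwa [tch, AddChar.compAddMonoidHom_apply, LinearMap.toAddMonoidHom_coe, smul_mul_assoc, map_smul,
    epoi_key hb (r := r) (by omega) fun k hk => of_not_not fun h0 => (h k h0).not_gt hk,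
    smul_eq_mul, mul_comm]

omit [Fintype A] in
theorem tch_prim (hb : ∀ i, b i = x ^ (i : ℕ)) (hψ : ψ.IsPrimitive) :
    (tch b ψ).IsPrimitive := fun y hy => by
  obtain ⟨m, hm⟩ := Finsupp.ne_iff.1 (b.repr.map_ne_zero_iff.2 hy)
  obtain ⟨i, t, -, h⟩ := epoi_top hb hψ hm
  exact AddChar.ne_one_iff.2 ⟨t • x ^ i, by rwa [AddChar.mulShift_apply, mul_comm]⟩

omit [Fintype A] in
theorem epoi_repr (hb : ∀ i, b i = x ^ (i : ℕ)) {k : ℕ} (hk : k ≤ d + 1) (a : Fin k → ZMod p)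
    (m : Fin (d + 1)) : b.repr (∑ i, a i • x ^ (i : ℕ)) m =
      if h : (m : ℕ) < k then a ⟨m, h⟩ else 0 := by
  have e : ∀ i : Fin k, x ^ (i : ℕ) = b (i.castLE hk) := fun i => (hb (i.castLE hk)).symm
  simp only [e, map_sum, map_smul, b.repr_self, Finsupp.coe_finsetSum, Finset.sum_apply,
    Finsupp.smul_apply, Finsupp.single_apply, smul_eq_mul, Fin.ext_iff, Fin.val_castLE]
  split_ifs with h
  · rw [Finset.sum_eq_single ⟨m, h⟩ (fun i _ hi => by simp [Fin.val_ne_of_ne hi]) (by simp)]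
    simp
  · exact Finset.sum_eq_zero fun i _ => by rw [if_neg (by omega), mul_zero]

open Classical in
theorem epoi_sum (hb : ∀ i, b i = x ^ (i : ℕ)) {k : ℕ} (hk : k ≤ d + 1) (f : A → R) :
    ∑ a : Fin k → ZMod p, f (∑ i, a i • x ^ (i : ℕ)) =
      ∑ v, if ∀ m : Fin (d + 1), k ≤ m → b.repr v m = 0 then f v else 0 := by
  rw [← Finset.sum_filter]
  refine Finset.sum_nbij' (fun a => ∑ i, a i • x ^ (i : ℕ)) (fun v i => b.repr v (i.castLE hk))
    (fun a _ => ?_) (by simp) (fun a _ => ?_) (fun v hv => ?_) fun _ _ => rfl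
  · simp only [Finset.mem_filter, Finset.mem_univ, true_and]
    exact fun m hm => by rw [epoi_repr hb hk, dif_neg hm.not_gt]
  · ext i
    simp [epoi_repr hb hk, -map_sum]
  · simp only [Finset.mem_filter, Finset.mem_univ, true_and] at hv
    refine b.ext_elem fun m => ?_
    rw [epoi_repr hb hk]
    split_ifs with h
    · rfl
    · exact (hv m (not_lt.1 h)).symm

omit [Fintype A] in
open Classical in
theorem epoi_orth (hb : ∀ i, b i = x ^ (i : ℕ)) (hψ : ψ.IsPrimitive) {j k : ℕ} (h : j + k = d + 1)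
    (y : A) : ∑ a : Fin k → ZMod p, tch b ψ ((∑ i, a i • x ^ (i : ℕ)) * y) =
      if ∀ m : Fin (d + 1), j ≤ m → b.repr y m = 0 then (p : R) ^ k else 0 := by
  split_ifs with hy
  · rw [Finset.sum_congr rfl fun a _ => (?_ : _ = (1 : R))]
    · simp
    rw [tch, AddChar.compAddMonoidHom_apply, LinearMap.toAddMonoidHom_coe, Finset.sum_mul, map_sum,
      Finset.sum_eq_zero fun i _ => ?_, AddChar.map_zero_eq_one]
    have := i.2
    rw [smul_mul_assoc, map_smul, epoi_key hb (r := ⟨d - i, by omega⟩) (by simp only; omega)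
      fun m hm => hy m (by simp only [Fin.lt_def] at hm; omega), hy _ (by simp only; omega),
      smul_zero]
  · push Not at hy
    obtain ⟨m, hm, h0⟩ := hy
    obtain ⟨i, t, h1, h2⟩ := epoi_top hb hψ h0
    refine AddChar.sum_eq_zero_of_ne_one (ψ := ((tch b ψ).mulShift y).compAddMonoidHom
      (Fintype.linearCombination (ZMod p) fun i : Fin k => x ^ (i : ℕ)).toAddMonoidHom)
      (AddChar.ne_one_iff.2 ⟨Pi.single ⟨i, by omega⟩ t, ?_⟩) ▸ Finset.sum_congr rfl fun a _ => ?_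
    · simpa [mul_comm y] using h2
    · simp [Fintype.linearCombination_apply, mul_comm y]

theorem epoi_shift (χ : MulChar A R) (E : AddChar A R)
    (h1 : ∀ v : A, ¬ IsUnit v → ∃ u : A, IsUnit u ∧ u * v = v ∧ χ u ≠ 1) (v : A) :
    ∑ u, χ u * E (v * u) = χ⁻¹ v * gaussSum χ E := by
  by_cases hv : IsUnit v
  · obtain ⟨v, rfl⟩ := hv
    exact gaussSum_mulShift_eq χ E v
  · obtain ⟨_, ⟨u, rfl⟩, h2, h3⟩ := h1 v hv
    have := Equiv.sum_comp u.mulLeft fun w => χ w * E (v * w)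
    simp only [Units.mulLeft_apply, map_mul, ← mul_assoc v, mul_comm v u, h2, mul_assoc,
      ← Finset.mul_sum] at this
    rw [MulChar.map_nonunit _ hv, zero_mul]
    exact (mul_eq_zero.1 (by linear_combination this :
      (χ u - 1) * ∑ w, χ w * E (v * w) = 0)).resolve_left (sub_ne_zero.2 h3)

omit [Fintype A] in
theorem epoi_scale (χ : MulChar A R) {χ' : MulChar (ZMod p) R}
    (h2 : ∀ t, χ' t = χ (algebraMap (ZMod p) A t)) (h3 : χ' ≠ 1) (k : ℕ) (t : ZMod p) :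
    ∑ a : Fin k → ZMod p, χ (∑ i, a i • x ^ (i : ℕ) + t • x ^ k) = χ' t * ms p χ x k := by
  have key : ∀ (s : (ZMod p)ˣ) (z : A), ∑ a : Fin k → ZMod p,
      χ ((s : ZMod p) • z + ∑ i, a i • x ^ (i : ℕ)) =
        χ' s * ∑ a : Fin k → ZMod p, χ (z + ∑ i, a i • x ^ (i : ℕ)) := fun s z => by
    rw [← Equiv.sum_comp (MulAction.toPerm s), Finset.mul_sum]
    refine Finset.sum_congr rfl fun a _ => ?_
    rw [h2, ← map_mul, ← Algebra.smul_def, smul_add, Finset.smul_sum]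
    simp [Units.smul_def, mul_smul]
  rcases eq_or_ne t 0 with rfl | ht
  · obtain ⟨s, hs⟩ := MulChar.ne_one_iff.1 h3
    have := key s 0
    simp only [smul_zero, zero_add] at this
    simp only [zero_smul, add_zero, MulChar.map_zero, zero_mul]
    exact (mul_eq_zero.1 (by linear_combination -this : (χ' s - 1) *
      ∑ a : Fin k → ZMod p, χ (∑ i, a i • x ^ (i : ℕ)) = 0)).resolve_left (sub_ne_zero.2 hs)
  · simpa only [add_comm, Units.val_mk0, ms] using key (Units.mk0 t ht) (x ^ k)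

theorem poisson (hb : ∀ i, b i = x ^ (i : ℕ)) (hψ : ψ.IsPrimitive) (χ : MulChar A R)
    (h1 : ∀ v : A, ¬ IsUnit v → ∃ u : A, IsUnit u ∧ u * v = v ∧ χ u ≠ 1)
    {χ' : MulChar (ZMod p) R} (h2 : ∀ t, χ' t = χ⁻¹ (algebraMap (ZMod p) A t)) (h3 : χ' ≠ 1)
    {j : ℕ} (hj : j ≤ d) :
    ms p χ x j * (p : R) ^ (d + 1 - j) =
      gaussSum χ (tch b ψ) * gaussSum χ' ψ⁻¹ * ms p χ⁻¹ x (d - j) := by
  classical
  obtain ⟨k, rfl⟩ := Nat.exists_eq_add_of_le hj
  rw [show j + k + 1 - j = k + 1 by omega, Nat.add_sub_cancel_left]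
  have e1 : ms p χ x j * (p : R) ^ (k + 1) = ∑ u, χ u * ∑ a : Fin (k + 1) → ZMod p,
      tch b ψ ((∑ i, a i • x ^ (i : ℕ)) * (u - x ^ j)) := by
    rw [ms, epoi_sum hb (by omega) fun v => χ (x ^ j + v), Finset.sum_mul,
      ← Equiv.sum_comp (Equiv.addLeft (x ^ j)) fun u => χ u * _]
    refine Finset.sum_congr rfl fun v _ => ?_
    rw [epoi_orth hb hψ (j := j) rfl]
    simp
  have e2 : ∀ a : Fin (k + 1) → ZMod p, tch b ψ (-((∑ i, a i • x ^ (i : ℕ)) * x ^ j)) =
      ψ⁻¹ (a (Fin.last k)) := fun a => by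
    rw [tch, AddChar.compAddMonoidHom_apply, LinearMap.toAddMonoidHom_coe, map_neg, mul_comm,
      epoi_key hb (r := ⟨k, by omega⟩) rfl fun m hm => by
        rw [epoi_repr hb (by omega), dif_neg (by simp only [Fin.lt_def] at hm; omega)],
      epoi_repr hb (by omega), dif_pos (Nat.lt_succ_self k), AddChar.inv_apply]
    rfl
  simp only [e1, sub_eq_add_neg, mul_add, mul_neg, AddChar.map_add_eq_mul, e2,
    Finset.mul_sum]
  rw [Finset.sum_comm]
  simp only [← mul_assoc, ← Finset.sum_mul, epoi_shift χ _ h1]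
  rw [← (Fin.snocEquiv fun _ => ZMod p).sum_comp, Fintype.sum_prod_type, gaussSum.eq_1 χ',
    Finset.mul_sum, Finset.sum_mul]
  refine Finset.sum_congr rfl fun t _ => ?_
  simp only [Fin.snocEquiv_apply, Fin.sum_univ_castSucc, Fin.snoc_castSucc, Fin.snoc_last,
    Fin.val_castSucc, Fin.val_last, ← Finset.sum_mul, epoi_scale χ⁻¹ h2 h3]
  ring

end Pool.Agent.Lib.MP_d61fbb_ag.SQ
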