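import Pool.Agent.Lib.MP_d61fbb_ag.SQ.EDef

/-! The characters of the finite model are primitive. -/

set_option autoImplicit false

noncomputable section

namespace Pool.Agent.Lib.MP_d61fbb_ag.SQ

open Polynomial Module Pool.Agent.Lib.MP_696deb_nt.B2
open scoped NNReal

variable {κ A : Type} [Field κ] [CommRing A] {p d : ℕ} [Fact p.Prime] [Algebra (ZMod p) A]
  {rb : Fin (d + 1) → κ} {b : Basis (Fin (d + 1)) (ZMod p) A} {x : A}
  {σ : Fin (d + 1) → A →+* κ}

theorem EMdl.isReduced (h : EMdl rb b x σ) : IsReduced A :=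
  ⟨fun u hu => h.inj u fun i => (hu.map (σ i)).eq_zero⟩

theorem EMdl.isUnit_iff [Finite A] (h : EMdl rb b x σ) (u : A) : IsUnit u ↔ ∀ i, σ i u ≠ 0 := by
  refine ⟨fun hu i => (hu.map (σ i)).ne_zero, fun hu => IsLeftRegular.isUnit_of_finite ?_⟩
  intro a c e
  refine sub_eq_zero.1 (h.inj _ fun i => (mul_eq_zero.1 ?_).resolve_left (hu i))
  have e' : u * a = u * c := e
  rw [← map_mul, mul_sub, e', sub_self, map_zero]

theorem EMdl.frob (h : EMdl rb b x σ) {π : Equiv.Perm (Fin (d + 1))}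
    (hπ : ∀ i, rb i ^ p = rb (π i)) (i : Fin (d + 1)) (u : A) : σ i u ^ p = σ (π i) u := by
  have : CharP κ p := (CharP.charP_iff_prime_eq_zero Fact.out).2 (by
    rw [← map_natCast ((σ i).comp (algebraMap (ZMod p) A)), ZMod.natCast_self, map_zero])
  have h1 : ∀ c, frobenius κ p (σ i (algebraMap (ZMod p) A c)) =
      σ (π i) (algebraMap (ZMod p) A c) := fun c => RingHom.congr_fun (RingHom.ext_zmod
    (((frobenius κ p).comp (σ i)).comp (algebraMap (ZMod p) A))
    ((σ (π i)).comp (algebraMap (ZMod p) A))) c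
  have h2 : frobenius κ p (rb i) = rb (π i) := hπ i
  change frobenius κ p (σ i u) = _
  rw [← b.sum_repr u]
  simp only [h.pow, Algebra.smul_def, map_sum, map_mul, map_pow, h1, h.ev, h2]

theorem EMdl.exists_chi [Finite A] (h : EMdl rb b x σ) {R : Type} [Field R] (Ψ : MulChar κ R)
    {k : ℕ} (hk : k ≠ 0) : ∃ χ : MulChar A R, ∀ u, χ u = ∏ i, Ψ (σ i u) ^ k :=
  ⟨{ toFun := fun u => ∏ i, Ψ (σ i u) ^ k
     map_one' := by simp
     map_mul' := fun u v => by simp only [map_mul, mul_pow, Finset.prod_mul_distrib]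
     map_nonunit' := fun u hu => by
      rw [h.isUnit_iff] at hu
      obtain ⟨i, hi⟩ := not_forall.1 hu
      exact Finset.prod_eq_zero (Finset.mem_univ i) (by
        rw [not_not.1 hi, MulChar.map_zero, zero_pow hk]) }, fun _ => rfl⟩

theorem eprim_emb {K : Type} [Field K] [Finite K] [Algebra (ZMod p) K] (s s' : K →+* κ) :
    ∃ e < finrank (ZMod p) K, ∀ y, s' y = s y ^ p ^ e := by
  let _ : Algebra (ZMod p) κ := (s.comp (algebraMap (ZMod p) K)).toAlgebra
  let _ : Algebra K κ := s.toAlgebra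
  have : IsScalarTower (ZMod p) K κ := IsScalarTower.of_algebraMap_eq fun _ => rfl
  let φ : K →ₐ[ZMod p] κ :=
    { s' with
      commutes' := fun c => RingHom.congr_fun
        (RingHom.ext_zmod (s'.comp (algebraMap (ZMod p) K)) (algebraMap (ZMod p) κ)) c }
  obtain ⟨e, he⟩ := (FiniteField.bijective_frobeniusAlgHom_pow (ZMod p) K).2 (φ.restrictNormal K)
  refine ⟨e, e.2, fun y => ?_⟩
  have h1 : s (φ.restrictNormal K y) = s' y := φ.restrictNormal_commutes K y
  rw [← h1, ← he, AlgHom.coe_pow, FiniteField.coe_frobeniusAlgHom, pow_iterate, ZMod.card, map_pow]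

theorem eprim_sum {ι : Type} (I : Finset ι) (hI : I.Nonempty) {e : ι → ℕ} {f k : ℕ}
    (h1 : ∀ i ∈ I, e i < f) (h2 : Set.InjOn e I) (hk : k ≠ 0) (hk' : k < p - 1) :
    ¬ p ^ f - 1 ∣ k * ∑ i ∈ I, p ^ e i := fun hd => by
  have hp : p.Prime := Fact.out
  have h3 : 0 < ∑ i ∈ I, p ^ e i := Finset.sum_pos (fun i _ => pow_pos hp.pos _) hI
  have h4 : ∑ i ∈ I, p ^ e i ≤ (p ^ f - 1) / (p - 1) := by
    rw [← Nat.geomSum_eq hp.two_le, ← Finset.sum_image (f := fun j => p ^ j) h2]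
    refine Finset.sum_le_sum_of_subset fun j hj => ?_
    obtain ⟨i, hi, rfl⟩ := Finset.mem_image.1 hj
    exact Finset.mem_range.2 (h1 i hi)
  exact (Nat.le_of_dvd (Nat.mul_pos (Nat.pos_of_ne_zero hk) h3) hd).not_gt
    ((Nat.mul_lt_mul_of_pos_right hk' h3).trans_le
      ((Nat.mul_le_mul_left _ h4).trans (Nat.mul_div_le _ _)))

theorem EMdl.prim [Finite A] (h : EMdl rb b x σ) (hinj : Function.Injective rb) {R : Type} [Field R]
    {Ψ : MulChar κ R} (hΨ : Function.Injective Ψ) {k : ℕ} (hk : k ≠ 0) (hk' : k < p - 1)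
    (v : A) (hv : ¬ IsUnit v) : ∃ u : A, IsUnit u ∧ u * v = v ∧ ∏ i, Ψ (σ i u) ^ k ≠ 1 := by
  classical
  rw [h.isUnit_iff] at hv
  obtain ⟨i₀, hi₀⟩ := not_forall.1 hv
  rw [not_not] at hi₀
  have hmax : ∀ i, (RingHom.ker (σ i)).IsMaximal := fun i =>
    have := RingHom.ker_isPrime (σ i)
    IsArtinianRing.isMaximal_of_isPrime _
  obtain ⟨M, hM⟩ : ∃ M, RingHom.ker (σ i₀) = M := ⟨_, rfl⟩
  have hMm : M.IsMaximal := hM ▸ hmax i₀
  let _ := Ideal.Quotient.field M
  have : Finite (A ⧸ M) := Finite.of_surjective _ Ideal.Quotient.mk_surjective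
  let s : ∀ i, RingHom.ker (σ i) = M → (A ⧸ M →+* κ) := fun i hi =>
    Ideal.Quotient.lift M (σ i) fun a ha => RingHom.mem_ker.1 (hi ▸ ha)
  have hs : ∀ i hi a, s i hi (Ideal.Quotient.mk M a) = σ i a := fun _ _ _ => rfl
  have he : ∀ i, ∃ e, RingHom.ker (σ i) = M →
      e < finrank (ZMod p) (A ⧸ M) ∧ ∀ a, σ i a = σ i₀ a ^ p ^ e := fun i => by
    by_cases hi : RingHom.ker (σ i) = M
    · obtain ⟨e, h1, h2⟩ := eprim_emb (p := p) (s i₀ hM) (s i hi)
      exact ⟨e, fun _ => ⟨h1, fun a => h2 (Ideal.Quotient.mk M a)⟩⟩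
    · exact ⟨0, fun e => (hi e).elim⟩
  choose e he using he
  have ha : ∀ i, ∃ a, a ∉ M ∧ (RingHom.ker (σ i) ≠ M → σ i a = 0) := fun i => by
    by_cases hi : RingHom.ker (σ i) = M
    · exact ⟨1, (Ideal.ne_top_iff_one M).1 hMm.ne_top, fun e => (e hi).elim⟩
    · obtain ⟨a, h1, h2⟩ := SetLike.not_le_iff_exists.1
        fun e => hi ((hmax i).eq_of_le hMm.ne_top e)
      exact ⟨a, h2, fun _ => h1⟩
  choose a ha ha' using ha
  have ha0 : Ideal.Quotient.mk M (∏ i, a i) ≠ 0 := by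
    rw [map_prod]
    exact Finset.prod_ne_zero_iff.2 fun i _ e => ha i (Ideal.Quotient.eq_zero_iff_mem.1 e)
  obtain ⟨g, hg⟩ := IsCyclic.exists_ofOrder_eq_natCard (α := (A ⧸ M)ˣ)
  obtain ⟨w, hw⟩ := Ideal.Quotient.mk_surjective
    ((Ideal.Quotient.mk M (∏ i, a i))⁻¹ * ((g : A ⧸ M) - 1))
  have h1 : Ideal.Quotient.mk M (1 + (∏ i, a i) * w) = g := by
    rw [map_add, map_one, map_mul, hw, mul_inv_cancel_left₀ ha0, add_sub_cancel]
  have h2 : ∀ i, RingHom.ker (σ i) ≠ M → σ i (1 + (∏ i, a i) * w) = 1 := fun i hi => by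
    rw [map_add, map_one, map_mul, map_prod, Finset.prod_eq_zero (Finset.mem_univ i) (ha' i hi),
      zero_mul, add_zero]
  generalize 1 + (∏ i, a i) * w = u at h1 h2
  refine ⟨u, (h.isUnit_iff u).2 fun i => ?_, sub_eq_zero.1 (h.inj _ fun i => ?_), fun h3 => ?_⟩
  · by_cases hi : RingHom.ker (σ i) = M
    · rw [← hs i hi, h1]
      exact (_root_.map_ne_zero _).2 g.ne_zero
    · rw [h2 i hi]
      exact one_ne_zero
  · by_cases hi : RingHom.ker (σ i) = M
    · have h3 : σ i v = 0 := RingHom.mem_ker.1 (hi ▸ hM ▸ RingHom.mem_ker.2 hi₀)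
      rw [map_sub, map_mul, h3, mul_zero, sub_zero]
    · rw [map_sub, map_mul, h2 i hi, one_mul, sub_self]
  · refine eprim_sum (p := p) (Finset.univ.filter fun i => RingHom.ker (σ i) = M)
      ⟨i₀, by simp [hM]⟩ (e := e) (fun i hi => (he i (Finset.mem_filter.1 hi).2).1)
      (fun i hi j hj hij => hinj ?_) hk hk' ?_
    · rw [← h.ev, ← h.ev, (he i (Finset.mem_filter.1 hi).2).2, (he j (Finset.mem_filter.1 hj).2).2,
        hij]
    · rw [FiniteField.pow_finrank_eq_natCard, ← Nat.card_units, ← hg]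
      refine orderOf_dvd_of_pow_eq_one (Units.ext ((s i₀ hM).injective (hΨ ?_)))
      rw [Units.val_pow_eq_pow_val, map_pow, ← h1, hs i₀ hM, Units.val_one, map_one, map_one, ← h3,
        map_pow, mul_comm, pow_mul, ← Finset.prod_pow_eq_pow_sum, ← Finset.prod_pow,
        Finset.prod_filter]
      refine Finset.prod_congr rfl fun i _ => ?_
      split_ifs with hi
      · rw [(he i hi).2 u, map_pow]
      · rw [h2 i hi, map_one, one_pow]

theorem pull_pow_ne_one {K R : Type} [Field K] [Fintype K] [Field R] {Ψ : MulChar κ R}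
    (hΨ : Function.Injective Ψ) (s : K →+* κ) {k : ℕ} (hk : ¬ Fintype.card K - 1 ∣ k) :
    pull Ψ s ^ k ≠ 1 := fun e => by
  classical
  obtain ⟨g, hg⟩ := IsCyclic.exists_ofOrder_eq_natCard (α := Kˣ)
  refine hk ?_
  rw [← Fintype.card_units, ← Nat.card_eq_fintype_card, ← hg]
  refine orderOf_dvd_of_pow_eq_one (Units.ext (s.injective (hΨ ?_)))
  have h1 := DFunLike.congr_fun e (g : K)
  rw [MulChar.pow_apply_coe, MulChar.one_apply_coe, pull_apply] at h1
  rw [Units.val_pow_eq_pow_val, map_pow, map_pow, h1, Units.val_one, map_one, map_one]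

end Pool.Agent.Lib.MP_d61fbb_ag.SQ
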