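import Pool.Agent.Lib.MP_d61fbb_ag.SQ.ETei

/-! The inequality of Stickelberger for a finite reduced ring. -/

set_option autoImplicit false

noncomputable section

namespace Pool.Agent.Lib.MP_d61fbb_ag.SQ

open Polynomial Module Pool.Agent.Lib.MP_696deb_nt.B2
open scoped NNReal

theorem esti_app {K ι : Type} [Field K] (s : Finset ι) (χ : ι → MulChar K Qbar) {y : K}
    (hy : IsUnit y) : (∏ i ∈ s, χ i) y = ∏ i ∈ s, χ i y := by
  classical
  induction s using Finset.induction_on with
  | empty => simpa using MulChar.one_apply hy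
  | insert i s hi ih => rw [Finset.prod_insert hi, Finset.prod_insert hi, MulChar.mul_apply, ih]

theorem esti_prod (P : Plc) {K ι : Type} [Field K] [Fintype K] (s : Finset ι)
    (χ : ι → MulChar K Qbar) {E : AddChar K Qbar} (hE : E ≠ 1) {a : ℝ≥0}
    (ha : ∀ i, a ≤ P.V (gaussSum (χ i) E)) : a ^ s.card ≤ P.V (gaussSum (∏ i ∈ s, χ i) E) := by
  classical
  induction s using Finset.induction_on with
  | empty => simp [gaussSum_one_left hE]
  | insert i s hi ih =>
    rw [Finset.prod_insert hi, Finset.card_insert_of_notMem hi, pow_succ']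
    exact (mul_le_mul' (ha i) ih).trans (MP_3d78c5_nt.Gs.val_gauss_mul P.V _ _ hE)

theorem esti_sum {A J : Type} [AddCommMonoid A] (E : AddChar A Qbar) (s : Finset J) (f : J → A) :
    E (∑ j ∈ s, f j) = ∏ j ∈ s, E (f j) := by
  classical
  induction s using Finset.induction_on with
  | empty => simp
  | insert i s hi ih => rw [Finset.prod_insert hi, Finset.sum_insert hi, E.map_add_eq_mul, ih]

theorem esti_pi {A J : Type} [CommRing A] [Fintype A] [Fintype J] [DecidableEq J] {K : J → Type}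
    [∀ j, Field (K j)] [∀ j, Fintype (K j)] (e : A ≃+* ∀ j, K j) {χ : MulChar A Qbar}
    (φ : ∀ j, MulChar (K j) Qbar) (hχ : ∀ u, IsUnit u → χ u = ∏ j, φ j (e u j))
    (E : AddChar A Qbar) (F : ∀ j, AddChar (K j) Qbar)
    (hF : ∀ j y, F j y = E (e.symm (Pi.single j y))) :
    gaussSum χ E = ∏ j, gaussSum (φ j) (F j) := by
  simp only [gaussSum]
  rw [Finset.prod_univ_sum, Fintype.piFinset_univ]
  refine Fintype.sum_equiv e.toEquiv _ _ fun u => ?_
  change _ = ∏ j, φ j (e u j) * F j (e u j)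
  rw [Finset.prod_mul_distrib]
  simp only [hF]
  rw [← esti_sum, ← map_sum, Finset.univ_sum_single, e.symm_apply_apply]
  by_cases hu : IsUnit u
  · rw [hχ u hu]
  · have h1 : ¬ IsUnit (e u) := fun h => hu (by simpa using h.map e.symm)
    rw [Pi.isUnit_iff, not_forall] at h1
    obtain ⟨j, hj⟩ := h1
    rw [χ.map_nonunit hu, Finset.prod_eq_zero (Finset.mem_univ j) ((φ j).map_nonunit hj)]

theorem esti_one {κ : Type} [Field κ] {P : Plc} {Ψ : MulChar κ Qbar} (h : Tei P Ψ)
    {z : Qbar} (hz : IsPrimitiveRoot z P.p) {A : Type} [CommRing A] [Fintype A] [IsReduced A]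
    {ι : Type} [Fintype ι] (σ : ι → A →+* κ) {χ : MulChar A Qbar}
    (hχ : ∀ u, IsUnit u → χ u = ∏ i, Ψ (σ i u)) {E : AddChar A Qbar} (hE : E.IsPrimitive) :
    P.V (1 - z) ^ Fintype.card ι ≤ P.V (gaussSum χ E) := by
  classical
  let _ : Fintype (MaximalSpectrum A) := Fintype.ofFinite _
  let _ : ∀ M : MaximalSpectrum A, Field (A ⧸ M.asIdeal) := fun M => Ideal.Quotient.field _
  let _ : ∀ M : MaximalSpectrum A, Fintype (A ⧸ M.asIdeal) := fun M => Fintype.ofFinite _
  let e : A ≃+* ∀ M : MaximalSpectrum A, A ⧸ M.asIdeal := (IsArtinianRing.equivPi A).toRingEquiv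
  let c : ι → MaximalSpectrum A := fun i =>
    ⟨RingHom.ker (σ i), (IsArtinianRing.isPrime_iff_isMaximal _).1 (RingHom.ker_isPrime (σ i))⟩
  let t : ∀ M, {i // c i = M} → (A ⧸ M.asIdeal →+* κ) := fun M i =>
    Ideal.Quotient.lift M.asIdeal (σ i) fun a ha => by
      rw [← i.2] at ha
      exact ha
  let F : ∀ M : MaximalSpectrum A, AddChar (A ⧸ M.asIdeal) Qbar := fun M =>
    E.compAddMonoidHom (e.symm.toAddMonoidHom.comp
      (AddMonoidHom.single (fun M : MaximalSpectrum A => A ⧸ M.asIdeal) M))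
  have hF : ∀ M, F M ≠ 1 := fun M h1 => by
    refine hE (a := e.symm (Pi.single M 1)) (by simp) (AddChar.ext _ _ fun x => ?_)
    have h2 := DFunLike.congr_fun h1 (e x M)
    have h3 : e.symm (Pi.single M 1) * x = e.symm (Pi.single M (e x M)) := by
      apply e.injective
      rw [map_mul, e.apply_symm_apply, e.apply_symm_apply, ← Pi.single_mul_left, one_mul]
    rw [AddChar.mulShift_apply, h3]
    exact h2
  rw [esti_pi e (fun M => ∏ i : {i // c i = M}, pull Ψ (t M i)) ?_ E F fun _ _ => rfl, map_prod,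
    ← Finset.card_univ, Finset.card_eq_sum_card_fiberwise (f := c) (t := Finset.univ) (by simp),
    ← Finset.prod_pow_eq_pow_sum]
  · refine Finset.prod_le_prod' fun M _ => ?_
    rw [← Fintype.card_subtype]
    exact esti_prod P _ _ (hF M) fun i => h.field hz _ (hF M)
  · intro u hu
    rw [hχ u hu, ← Fintype.prod_fiberwise c]
    refine Finset.prod_congr rfl fun M _ => ?_
    rw [esti_app _ _ (Pi.isUnit_iff.1 (hu.map e) M)]
    rfl

theorem Tei.alg {κ : Type} [Field κ] {P : Plc} {Ψ : MulChar κ Qbar} (h : Tei P Ψ)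
    {z : Qbar} (hz : IsPrimitiveRoot z P.p) {A : Type} [CommRing A] [Fintype A] [IsReduced A]
    {ι : Type} [Fintype ι] (σ : ι → A →+* κ) (k : ℕ) {χ : MulChar A Qbar}
    (hχ : ∀ u, IsUnit u → χ u = ∏ i, Ψ (σ i u) ^ k) {E : AddChar A Qbar} (hE : E.IsPrimitive) :
    P.V (1 - z) ^ (Fintype.card ι * k) ≤ P.V (gaussSum χ E) := by
  have h1 := esti_one h hz (fun i : ι × Fin k => σ i.1) (χ := χ)
    (fun u hu => by rw [hχ u hu, Fintype.prod_prod_type]; simp) hE
  rwa [Fintype.card_prod, Fintype.card_fin] at h1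

end Pool.Agent.Lib.MP_d61fbb_ag.SQ
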