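import Pool.Agent.Lib.MP_d61fbb_ag.SQ.EDef
import Pool.Agent.Lib.MP_3d78c5_nt.Gau

/-! The Teichmueller character and its Gauss sums. -/

set_option autoImplicit false

noncomputable section

namespace Pool.Agent.Lib.MP_d61fbb_ag.SQ

open Polynomial Module Pool.Agent.Lib.MP_696deb_nt.B2
open scoped NNReal
open Pool.Agent.Lib.MP_3d78c5_nt

theorem exists_tei (κ : Type) [Field κ] [Fintype κ] {p : ℕ} (hpp : p.Prime) (hp : (p : κ) = 0) :
    ∃ (P : Plc) (Ψ : MulChar κ Qbar), P.p = p ∧ Tei P Ψ := by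
  classical
  obtain ⟨m, hm⟩ : ∃ m, Fintype.card κ = m + 1 := ⟨_, (Nat.succ_pred Fintype.card_ne_zero).symm⟩
  have hm0 : 0 < m := by have := Fintype.one_lt_card (α := κ); omega
  have : NeZero m := ⟨hm0.ne'⟩
  have : NeZero (m : κ) := ⟨fun h => by
    have h1 := FiniteField.cast_card_eq_zero κ
    rw [hm, Nat.cast_succ, h] at h1
    simp at h1⟩
  obtain ⟨ζ, hζ⟩ := exists_zt m
  obtain ⟨ψ, hψ⟩ := MulChar.exists_mulChar_orderOf κ (n := m) (by rw [hm, Nat.add_sub_cancel]) hζ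
  obtain ⟨g, hg⟩ := IsCyclic.exists_generator (α := κˣ)
  have ho : orderOf g = m := by
    rw [orderOf_eq_card_of_forall_mem_zpowers hg, Nat.card_units, Nat.card_eq_fintype_card, hm,
      Nat.add_sub_cancel]
  have hγ : IsPrimitiveRoot (g : κ)⁻¹ m :=
    (IsPrimitiveRoot.coe_units_iff.2 (ho ▸ IsPrimitiveRoot.orderOf g)).inv
  have hr : IsPrimitiveRoot (ψ g) m := hψ ▸ Gs.prim_root (ψ := ψ) hg
  obtain ⟨A, hA⟩ := Gs.exists_val hm0 hr hγ
  have hl : ∀ x : κ, x ≠ 0 → ∃ l : ℕ, (g : κ) ^ l = x := fun x hx => by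
    obtain ⟨l, hl⟩ := mem_powers_iff_mem_zpowers.2 (hg (Units.mk0 x hx))
    exact ⟨l, by simpa using congrArg Units.val hl⟩
  have hQ : ∀ x : κ, ∃ Q : ℤ[X], aeval (ψ g) Q = ψ x ∧ aeval (g : κ)⁻¹ Q = x⁻¹ := fun x => by
    by_cases hx : x = 0
    · exact ⟨0, by simp [hx, MulChar.map_zero]⟩
    · obtain ⟨l, rfl⟩ := hl x hx
      exact ⟨X ^ l, by simp⟩
  choose Q hQ1 hQ2 using hQ
  have hAp : A.p = p := by
    have h6 := hA p (by simp [hp])
    rw [map_natCast] at h6
    have h7 : ¬ A.V ((p : ℤ) : Qbar) = 1 := by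
      rw [Int.cast_natCast]
      exact h6.ne
    rw [A.V_int_eq_one, not_not, Int.natCast_dvd_natCast] at h7
    exact (Nat.prime_dvd_prime_iff_eq A.prime hpp).1 h7
  have h1 : ∀ x : κ, ψ x = 1 → x = 1 := fun x hx => by
    obtain ⟨l, rfl⟩ := hl x (by
      rintro rfl
      simp [MulChar.map_zero] at hx)
    rw [map_pow, hr.pow_eq_one_iff_dvd, ← ho, orderOf_dvd_iff_pow_eq_one] at hx
    rw [← Units.val_pow_eq_pow_val, hx, Units.val_one]
  have h2 : ∀ x : κ, ψ x = 0 → x = 0 := fun x hx => by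
    by_contra h
    have h3 := Gs.val_mulChar A.V ψ h
    rw [hx, map_zero] at h3
    exact zero_ne_one h3
  refine ⟨A, ψ, hAp, hAp ▸ hp, fun x y e => ?_, fun ι s c x h => ?_⟩
  · by_cases hy : y = 0
    · rw [hy, MulChar.map_zero] at e
      rw [hy, h2 x e]
    · refine (mul_inv_eq_one₀ hy).1 (h1 _ ?_)
      rw [map_mul, e, ← map_mul, mul_inv_cancel₀ hy, map_one]
  · have h4 := hA (∑ i ∈ s, (c i : ℤ[X]) * Q (x i)) (by
      simp only [map_sum, map_mul, map_intCast, hQ2, h])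
    simpa only [map_sum, map_mul (aeval _), hQ1, map_intCast] using h4

theorem etei_shift {K : Type} [Field K] [Fintype K] {T : AddChar K Qbar} (hT : T ≠ 1)
    (E : AddChar K Qbar) : ∃ c, E = T.mulShift c := by
  classical
  by_contra h
  have h1 : ∀ c, ∑ x, E⁻¹ x * T (c * x) = 0 := fun c =>
    AddChar.sum_eq_zero_of_ne_one (ψ := E⁻¹ * T.mulShift c) fun e => h ⟨c, inv_mul_eq_one.1 e⟩
  have h2 : ∑ c, ∑ x, E⁻¹ x * T (c * x) = 0 := Finset.sum_eq_zero fun c _ => h1 c
  rw [Finset.sum_comm] at h2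
  simp only [← Finset.mul_sum, AddChar.sum_mulShift _ (AddChar.IsPrimitive.of_ne_one hT)] at h2
  simp at h2

theorem Tei.field {κ : Type} [Field κ] {P : Plc} {Ψ : MulChar κ Qbar} (h : Tei P Ψ)
    {z : Qbar} (hz : IsPrimitiveRoot z P.p) {K : Type} [Field K] [Fintype K] (s : K →+* κ)
    {E : AddChar K Qbar} (hE : E ≠ 1) : P.V (1 - z) ≤ P.V (gaussSum (pull Ψ s) E) := by
  classical
  have hp := P.prime
  have := Fact.mk hp
  have h1 := Gs.val_prime P.V hp hz
  have h2 : P.V (1 - z) < 1 := by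
    have h3 : P.V P.p < 1 := by
      rw [P.hV]
      exact inv_lt_one_of_one_lt₀ (by exact_mod_cast hp.one_lt)
    rw [h1] at h3
    exact not_le.1 fun h => not_le.2 h3 (one_le_pow_of_one_le' h _)
  by_cases hψ : pull Ψ s = 1
  · rw [hψ, gaussSum_one_left hE, P.V.map_neg, map_one]
    exact h2.le
  have : CharP K P.p := (CharP.charP_iff_prime_eq_zero hp).2
    (s.injective (by rw [map_natCast, h.chr, map_zero]))
  obtain ⟨f, -, hK⟩ := FiniteField.card K P.p
  obtain ⟨T, n, he, -, hsum⟩ := Gs.exists_char hK hz.pow_eq_one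
  have h3 : P.V (1 - z) ≠ 0 := by
    rw [Valuation.ne_zero_iff, sub_ne_zero]
    exact (hz.ne_one hp.one_lt).symm
  have h4 := h.red (Option K) Finset.univ (fun o => o.elim 1 fun x => (n x : ℤ))
    (fun o => o.elim 1 s) (by
      have h5 := congrArg s hsum
      simp only [map_sum, map_mul, map_inv₀, map_natCast, map_neg, map_one] at h5
      simp only [Fintype.sum_option, Option.elim, Int.cast_one, inv_one, Int.cast_natCast,
        mul_comm (n _ : κ), h5, mul_one, add_neg_cancel])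
  have h5 := Gs.val_gauss_one P.V hψ he (Gs.val_root _ hp.ne_zero hz.pow_eq_one).le h2 (by
    simpa only [Fintype.sum_option, Option.elim, Int.cast_one, Int.cast_natCast, map_one, mul_one,
      mul_comm (n _ : Qbar), add_comm (1 : Qbar), pull_apply] using h4)
  have he1 : T ≠ 1 := fun e => h3 (by
    rw [← h5, e]
    simp [gaussSum, MulChar.sum_eq_zero_of_ne_one hψ])
  obtain ⟨c, rfl⟩ := etei_shift he1 E
  have hc : c ≠ 0 := by
    rintro rfl
    exact hE (AddChar.mulShift_zero T)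
  have h6 := congrArg P.V (gaussSum_mulShift (pull Ψ s) T (Units.mk0 c hc))
  rw [map_mul, Units.val_mk0, Gs.val_mulChar P.V _ hc, one_mul] at h6
  exact (h6.trans h5).ge

end Pool.Agent.Lib.MP_d61fbb_ag.SQ
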