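import Pool.Agent.Lib.MP_d61fbb_ag.SQ.G0

/-! The edge basis of the self-adjoint operators. -/

set_option autoImplicit false

noncomputable section

namespace Pool.Agent.Lib.MP_d61fbb_ag.SQ

open Matrix Equiv

variable {κ : Type} [Field κ] {d : ℕ} {G : Subgroup (Perm (Fin (d + 1)))}

/-- Some permutation swaps two of three edges and fixes the third. -/
def g5_P {α : Type} (e1 e2 e3 : Sym2 α) (π : Perm α) : Prop :=
  (e1.map π = e2 ∧ e2.map π = e1 ∧ e3.map π = e3) ∨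
    (e1.map π = e3 ∧ e3.map π = e1 ∧ e2.map π = e2) ∨
    (e2.map π = e3 ∧ e3.map π = e2 ∧ e1.map π = e1)

theorem g5_path {α : Type} [DecidableEq α] {a b c x : α} (hac : a ≠ c)
    (hbc : b ≠ c) (hxa : x ≠ a) (hxb : x ≠ b) :
    g5_P s(a, b) s(a, c) s(b, x) (swap a b * swap c x) := by
  have h1 : (swap a b * swap c x) a = b := by
    rw [Perm.mul_apply, swap_apply_of_ne_of_ne hac hxa.symm, swap_apply_left]
  have h2 : (swap a b * swap c x) b = a := by
    rw [Perm.mul_apply, swap_apply_of_ne_of_ne hbc hxb.symm, swap_apply_right]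
  have h3 : (swap a b * swap c x) c = x := by
    rw [Perm.mul_apply, swap_apply_left, swap_apply_of_ne_of_ne hxa hxb]
  have h4 : (swap a b * swap c x) x = c := by
    rw [Perm.mul_apply, swap_apply_right, swap_apply_of_ne_of_ne hac.symm hbc.symm]
  refine Or.inr (Or.inr ⟨?_, ?_, ?_⟩)
  · rw [Sym2.map_mk, h1, h3]
  · rw [Sym2.map_mk, h2, h4]
  · rw [Sym2.map_mk, h1, h2, Sym2.eq_swap]

theorem g5_fix {α : Type} {e : Sym2 α} {π : Perm α} (h : ∀ x ∈ e, π x = x) : e.map π = e := by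
  induction e using Sym2.ind with
  | h x y => rw [Sym2.map_mk, h x (Sym2.mem_mk_left x y), h y (Sym2.mem_mk_right x y)]

theorem g5_share {α : Type} [DecidableEq α] {a b c : α} {e : Sym2 α} (hab : a ≠ b) (hac : a ≠ c)
    (hbc : b ≠ c) (he : ¬ e.IsDiag) (h1 : s(a, b) ≠ e) (h2 : s(a, c) ≠ e) :
    ∃ π, g5_P s(a, b) s(a, c) e π := by
  have k1 : Sym2.map (swap b c) s(a, b) = s(a, c) := by
    rw [Sym2.map_mk, swap_apply_of_ne_of_ne hab hac, swap_apply_left]
  have k2 : Sym2.map (swap b c) s(a, c) = s(a, b) := by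
    rw [Sym2.map_mk, swap_apply_of_ne_of_ne hab hac, swap_apply_right]
  by_cases hb : b ∈ e
  · obtain ⟨x, rfl⟩ := Sym2.mem_iff_exists.1 hb
    by_cases hx : x = c
    · subst hx
      refine ⟨swap b x, Or.inl ⟨k1, k2, ?_⟩⟩
      rw [Sym2.map_mk, swap_apply_left, swap_apply_right, Sym2.eq_swap]
    · refine ⟨_, g5_path hac hbc ?_ ?_⟩
      · rintro rfl
        exact h1 Sym2.eq_swap
      · rintro rfl
        exact he (Sym2.mk_isDiag_iff.2 rfl)
  · by_cases hc : c ∈ e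
    · obtain ⟨x, rfl⟩ := Sym2.mem_iff_exists.1 hc
      have hxa : x ≠ a := by
        rintro rfl
        exact h2 Sym2.eq_swap
      have hxc : x ≠ c := by
        rintro rfl
        exact he (Sym2.mk_isDiag_iff.2 rfl)
      have hxb : x ≠ b := by
        rintro rfl
        exact hb (Sym2.mem_mk_right _ _)
      refine ⟨swap a c * swap b x, ?_⟩
      rcases g5_path hab hbc.symm hxa hxc with h | h | h
      · exact Or.inl ⟨h.2.1, h.1, h.2.2⟩
      · exact Or.inr (Or.inr h)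
      · exact Or.inr (Or.inl h)
    · refine ⟨swap b c, Or.inl ⟨k1, k2, g5_fix fun x hx => ?_⟩⟩
      exact swap_apply_of_ne_of_ne (fun h => hb (h ▸ hx)) (fun h => hc (h ▸ hx))

theorem g5_share' {α : Type} [DecidableEq α] {e1 e2 e3 : Sym2 α} (h1 : ¬ e1.IsDiag)
    (h2 : ¬ e2.IsDiag) (h3 : ¬ e3.IsDiag) (h12 : e1 ≠ e2) (h13 : e1 ≠ e3) (h23 : e2 ≠ e3)
    {a : α} (k1 : a ∈ e1) (k2 : a ∈ e2) : ∃ π, g5_P e1 e2 e3 π := by
  obtain ⟨b, rfl⟩ := Sym2.mem_iff_exists.1 k1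
  obtain ⟨c, rfl⟩ := Sym2.mem_iff_exists.1 k2
  refine g5_share (fun h => h1 (Sym2.mk_isDiag_iff.2 h)) (fun h => h2 (Sym2.mk_isDiag_iff.2 h))
    ?_ h3 h13 h23
  rintro rfl
  exact h12 rfl

theorem g5_exists {α : Type} [DecidableEq α] {e1 e2 e3 : Sym2 α} (h1 : ¬ e1.IsDiag)
    (h2 : ¬ e2.IsDiag) (h3 : ¬ e3.IsDiag) (h12 : e1 ≠ e2) (h13 : e1 ≠ e3) (h23 : e2 ≠ e3) :
    ∃ π, g5_P e1 e2 e3 π := by
  by_cases c12 : ∃ a, a ∈ e1 ∧ a ∈ e2
  · obtain ⟨a, k1, k2⟩ := c12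
    exact g5_share' h1 h2 h3 h12 h13 h23 k1 k2
  by_cases c13 : ∃ a, a ∈ e1 ∧ a ∈ e3
  · obtain ⟨a, k1, k2⟩ := c13
    obtain ⟨π, h | h | h⟩ := g5_share' h1 h3 h2 h13 h12 h23.symm k1 k2
    · exact ⟨π, Or.inr (Or.inl h)⟩
    · exact ⟨π, Or.inl h⟩
    · exact ⟨π, Or.inr (Or.inr ⟨h.2.1, h.1, h.2.2⟩)⟩
  by_cases c23 : ∃ a, a ∈ e2 ∧ a ∈ e3
  · obtain ⟨a, k1, k2⟩ := c23
    obtain ⟨π, h | h | h⟩ := g5_share' h2 h3 h1 h23 h12.symm h13.symm k1 k2
    · exact ⟨π, Or.inr (Or.inr h)⟩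
    · exact ⟨π, Or.inl ⟨h.2.1, h.1, h.2.2⟩⟩
    · exact ⟨π, Or.inr (Or.inl ⟨h.2.1, h.1, h.2.2⟩)⟩
  induction e1 using Sym2.ind with
  | h a b =>
  induction e2 using Sym2.ind with
  | h c e =>
  have hab : a ≠ b := fun h => h1 (Sym2.mk_isDiag_iff.2 h)
  have hce : c ≠ e := fun h => h2 (Sym2.mk_isDiag_iff.2 h)
  have hac : a ≠ c := fun h => c12 ⟨a, Sym2.mem_mk_left _ _, h ▸ Sym2.mem_mk_left _ _⟩
  have hae : a ≠ e := fun h => c12 ⟨a, Sym2.mem_mk_left _ _, h ▸ Sym2.mem_mk_right _ _⟩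
  have hbc : b ≠ c := fun h => c12 ⟨b, Sym2.mem_mk_right _ _, h ▸ Sym2.mem_mk_left _ _⟩
  have hbe : b ≠ e := fun h => c12 ⟨b, Sym2.mem_mk_right _ _, h ▸ Sym2.mem_mk_right _ _⟩
  have k1 : (swap a c * swap b e) a = c := by
    rw [Perm.mul_apply, swap_apply_of_ne_of_ne hab hae, swap_apply_left]
  have k2 : (swap a c * swap b e) b = e := by
    rw [Perm.mul_apply, swap_apply_left, swap_apply_of_ne_of_ne hae.symm hce.symm]
  have k3 : (swap a c * swap b e) c = a := by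
    rw [Perm.mul_apply, swap_apply_of_ne_of_ne hbc.symm hce, swap_apply_right]
  have k4 : (swap a c * swap b e) e = b := by
    rw [Perm.mul_apply, swap_apply_right, swap_apply_of_ne_of_ne hab.symm hbc]
  refine ⟨swap a c * swap b e, Or.inl ⟨?_, ?_, g5_fix fun x hx => ?_⟩⟩
  · rw [Sym2.map_mk, k1, k2]
  · rw [Sym2.map_mk, k3, k4]
  · have hxa : x ≠ a := fun h => c13 ⟨x, h ▸ Sym2.mem_mk_left _ _, hx⟩
    have hxb : x ≠ b := fun h => c13 ⟨x, h ▸ Sym2.mem_mk_right _ _, hx⟩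
    have hxc : x ≠ c := fun h => c23 ⟨x, h ▸ Sym2.mem_mk_left _ _, hx⟩
    have hxe : x ≠ e := fun h => c23 ⟨x, h ▸ Sym2.mem_mk_right _ _, hx⟩
    rw [Perm.mul_apply, swap_apply_of_ne_of_ne hxb hxe, swap_apply_of_ne_of_ne hxa hxc]

theorem g5_adjust (hG : Big G) (σ : Perm (Fin (d + 1))) (S : Finset (Fin (d + 1)))
    (hS : S.card ≤ 6) : ∃ π ∈ G, ∀ x ∈ S, π x = σ x := by
  rcases hG with ⟨hd, hA⟩ | ⟨_, rfl⟩
  · have hc : 1 < Sᶜ.card := by
      rw [Finset.card_compl, Fintype.card_fin]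
      omega
    obtain ⟨u, hu, v, hv, huv⟩ := Finset.one_lt_card.1 hc
    rw [Finset.mem_compl] at hu hv
    rcases Int.units_eq_one_or (Perm.sign σ) with h | h
    · exact ⟨σ, hA (Perm.mem_alternatingGroup.2 h), fun _ _ => rfl⟩
    · refine ⟨σ * swap u v, hA (Perm.mem_alternatingGroup.2 ?_), fun x hx => ?_⟩
      · rw [map_mul, h, Perm.sign_swap huv]
        simp
      · have k1 : x ≠ u := fun k => hu (k ▸ hx)
        have k2 : x ≠ v := fun k => hv (k ▸ hx)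
        rw [Perm.mul_apply, swap_apply_of_ne_of_ne k1 k2]
  · exact ⟨σ, Subgroup.mem_top σ, fun _ _ => rfl⟩

theorem g5_group (hG : Big G) {e1 e2 e3 : Sym2 (Fin (d + 1))} (h1 : ¬ e1.IsDiag)
    (h2 : ¬ e2.IsDiag) (h3 : ¬ e3.IsDiag) (h12 : e1 ≠ e2) (h13 : e1 ≠ e3) (h23 : e2 ≠ e3) :
    ∃ π ∈ G, g5_P e1 e2 e3 π := by
  obtain ⟨σ, hσ⟩ := g5_exists h1 h2 h3 h12 h13 h23
  induction e1 using Sym2.ind with
  | h a1 b1 =>
  induction e2 using Sym2.ind with
  | h a2 b2 =>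
  induction e3 using Sym2.ind with
  | h a3 b3 =>
  obtain ⟨π, hπ, h⟩ := g5_adjust hG σ {a1, b1, a2, b2, a3, b3} Finset.card_le_six
  refine ⟨π, hπ, ?_⟩
  simp only [g5_P, Sym2.map_mk] at hσ ⊢
  rw [h a1 (by simp), h b1 (by simp), h a2 (by simp), h b2 (by simp), h a3 (by simp),
    h b3 (by simp)]
  exact hσ

theorem g5_symm (a b : Fin (d + 1)) : Eo κ a b a b = Eo κ b a b a := by
  ext i j
  simp only [Eo, pv, fv, vecMulVec_apply, Pi.sub_apply]
  ring

theorem g5_polar (x y o : Fin (d + 1)) :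
    Eo κ x o y o + Eo κ y o x o = Eo κ x o x o + Eo κ y o y o - Eo κ x y x y := by
  ext i j
  simp only [Eo, pv, fv, vecMulVec_apply, Pi.sub_apply, Matrix.add_apply, Matrix.sub_apply]
  ring

theorem g5_diag (a : Fin (d + 1)) : Eo κ a a a a = 0 := by
  ext i j
  simp [Eo, pv, vecMulVec_apply]

variable (κ) in
/-- The operator of an edge. -/
def g5_b : Sym2 (Fin (d + 1)) → Mat d κ :=
  Sym2.lift ⟨fun a b => Eo κ a b a b, fun a b => g5_symm a b⟩

theorem g5_b_mk (a b : Fin (d + 1)) : g5_b κ s(a, b) = Eo κ a b a b := rfl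

variable (κ) in
/-- The entry functional. -/
def g5_L (x y : Fin (d + 1)) : Module.Dual κ (Mat d κ) where
  toFun X := -en X x y
  map_add' X Y := by
    simp only [en, add_mulVec, dotProduct_add]
    ring
  map_smul' c X := by
    simp only [en, smul_mulVec, dotProduct_smul, smul_eq_mul, RingHom.id_apply]
    ring

theorem g5_L_b (hn : (d : κ) + 1 ≠ 0) {x y : Fin (d + 1)} (hxy : x ≠ y) (e : Sym2 (Fin (d + 1)))
    (he : ¬ e.IsDiag) : g5_L κ x y (g5_b κ e) = if s(x, y) = e then 1 else 0 := by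
  induction e using Sym2.ind with
  | h a b =>
  have hab : a ≠ b := fun h => he (Sym2.mk_isDiag_iff.2 h)
  change -en (Eo κ a b a b) x y = _
  rw [en_Eo hn]
  simp only [Sym2.eq_iff]
  by_cases h1 : x = a
  · subst h1
    by_cases h2 : y = b
    · subst h2
      simp [hab, hab.symm]
    · simp [hab, h2, hxy.symm]
  · by_cases h2 : x = b
    · subst h2
      by_cases h3 : y = a
      · subst h3
        simp [hab, hab.symm]
      · simp [h1, h3, hxy.symm]
    · simp [h1, h2]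

theorem g5_sum {W : Submodule κ (Mat d κ)} (c : Fin (d + 1) → Fin (d + 1) → κ)
    (T : Fin (d + 1) → Fin (d + 1) → Mat d κ) (hc : ∀ x y, c x y = c y x)
    (h1 : ∀ x, T x x ∈ W) (h2 : ∀ x y, T x y + T y x ∈ W) : ∑ x, ∑ y, c x y • T x y ∈ W := by
  have e1 : ∀ x y, c x y • T x y = (if x < y then c x y • T x y else 0) +
      (if y < x then c x y • T x y else 0) + (if x = y then c x y • T x y else 0) := by
    intro x y
    rcases lt_trichotomy x y with h | h | h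
    · simp [h, h.ne, h.not_gt]
    · simp [h]
    · simp [h, h.ne', h.not_gt]
  have e2 : ∑ x, ∑ y, c x y • T x y = ∑ x, ∑ y, ((if x < y then c x y • T x y else 0) +
      (if x < y then c y x • T y x else 0)) + ∑ x, ∑ y, (if x = y then c x y • T x y else 0) := by
    rw [Finset.sum_congr rfl fun x _ => Finset.sum_congr rfl fun y _ => e1 x y]
    simp only [Finset.sum_add_distrib]
    rw [Finset.sum_comm (f := fun x y => if y < x then c x y • T x y else 0)]
  rw [e2]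
  refine W.add_mem (W.sum_mem fun x _ => W.sum_mem fun y _ => ?_)
    (W.sum_mem fun x _ => W.sum_mem fun y _ => ?_)
  · split_ifs
    · rw [hc y x, ← smul_add]
      exact W.smul_mem _ (h2 x y)
    · rw [add_zero]
      exact W.zero_mem
  · split_ifs with h
    · subst h
      exact W.smul_mem _ (h1 x)
    · exact W.zero_mem

theorem edge_basis (hn : (d : κ) + 1 ≠ 0) (hG : Big G) :
    ∃ (E : Type) (_ : Fintype E) (b : E → Mat d κ) (act : Perm (Fin (d + 1)) → E → E),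
      LinearIndependent κ b ∧ Submodule.span κ (Set.range b) = sym κ d ∧
      (∀ π e, Hm κ π * b e * Hm κ π⁻¹ = b (act π e)) ∧
      ∀ e1 e2 e3, e1 ≠ e2 → e1 ≠ e3 → e2 ≠ e3 → ∃ π ∈ G,
        (act π e1 = e2 ∧ act π e2 = e1 ∧ act π e3 = e3) ∨
        (act π e1 = e3 ∧ act π e3 = e1 ∧ act π e2 = e2) ∨
        (act π e2 = e3 ∧ act π e3 = e2 ∧ act π e1 = e1) := by
  classical
  have hmap : ∀ (π : Perm (Fin (d + 1))) (e : Sym2 (Fin (d + 1))), ¬ e.IsDiag →
      ¬ (e.map π).IsDiag := fun π e he => by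
    rwa [Sym2.isDiag_map π.injective]
  refine ⟨{e : Sym2 (Fin (d + 1)) // ¬ e.IsDiag}, inferInstance, fun e => g5_b κ e.1,
    fun π e => ⟨e.1.map π, hmap π e.1 e.2⟩, ?_, ?_, ?_, ?_⟩
  · have hne : ∀ e : {e : Sym2 (Fin (d + 1)) // ¬ e.IsDiag}, e.1.out.1 ≠ e.1.out.2 := by
      intro e h
      apply e.2
      rw [← Quot.out_eq e.1]
      exact Sym2.mk_isDiag_iff.2 h
    have hout : ∀ e : Sym2 (Fin (d + 1)), s(e.out.1, e.out.2) = e := fun e => Quot.out_eq e
    refine LinearIndependent.of_pairwise_dual_eq_zero_one _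
      (fun e => g5_L κ e.1.out.1 e.1.out.2) (fun e e' h => ?_) (fun e => ?_)
    · change g5_L κ e.1.out.1 e.1.out.2 (g5_b κ e'.1) = 0
      rw [g5_L_b hn (hne e) _ e'.2, hout, if_neg fun k => h (Subtype.ext k)]
    · change g5_L κ e.1.out.1 e.1.out.2 (g5_b κ e.1) = 1
      rw [g5_L_b hn (hne e) _ e.2, hout, if_pos rfl]
  · refine le_antisymm (Submodule.span_le.2 ?_) fun X hX => ?_
    · rintro _ ⟨⟨e, he⟩, rfl⟩
      induction e using Sym2.ind with
      | h a b =>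
      change Eo κ a b a b ∈ sym κ d
      rw [mem_sym_iff hn]
      intro x y
      rw [en_Eo hn, en_Eo hn, mul_comm]
    · have hE : ∀ a b : Fin (d + 1), Eo κ a b a b ∈ Submodule.span κ (Set.range
          fun e : {e : Sym2 (Fin (d + 1)) // ¬ e.IsDiag} => g5_b κ e.1) := by
        intro a b
        by_cases h : a = b
        · subst h
          rw [g5_diag]
          exact Submodule.zero_mem _
        · exact Submodule.subset_span
            ⟨⟨s(a, b), fun k => h (Sym2.mk_isDiag_iff.1 k)⟩, g5_b_mk a b⟩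
      rw [en_expand hn X 0]
      refine g5_sum _ (fun x y => Eo κ x 0 y 0) ((mem_sym_iff hn X).1 hX) (fun x => hE x 0)
        fun x y => ?_
      rw [g5_polar]
      exact Submodule.sub_mem _ (Submodule.add_mem _ (hE x 0) (hE y 0)) (hE x y)
  · rintro π ⟨e, he⟩
    induction e using Sym2.ind with
    | h a b => exact Eo_conj π a b a b
  · intro e1 e2 e3 h12 h13 h23
    obtain ⟨π, hπ, h⟩ := g5_group hG e1.2 e2.2 e3.2 (fun k => h12 (Subtype.ext k))
      (fun k => h13 (Subtype.ext k)) (fun k => h23 (Subtype.ext k))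
    refine ⟨π, hπ, ?_⟩
    simpa only [g5_P, Subtype.ext_iff] using h

end Pool.Agent.Lib.MP_d61fbb_ag.SQ
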