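import Pool.Agent.Lib.MP_d61fbb_ag.SQ.G6
import Pool.Agent.Lib.MP_d61fbb_ag.SQ.G7

/-! Which blocks can be linked. -/

set_option autoImplicit false

noncomputable section

namespace Pool.Agent.Lib.MP_d61fbb_ag.SQ

open Matrix Equiv IsLocalRing

theorem k0_det {Ω Γ : Type} [Field Ω] [Group Γ] {d : ℕ} (R : Γ →* Mat d Ω) (γ : Γ) :
    (R γ).det ≠ 0 := by
  have h : (R γ).det * (R γ⁻¹).det = 1 := by rw [← det_mul, ← map_mul, mul_inv_cancel, map_one, det_one]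
  exact left_ne_zero_of_mul_eq_one h

theorem k0_conj {Ω : Type} [Field Ω] {d : ℕ} {S X Y : Mat d Ω} {μ : Ω} (hS : S.det ≠ 0)
    (e : Y * S = μ • (S * X)) : Y.trace = μ * X.trace ∧ Y.det = μ ^ d * X.det := by
  have h1 : S * S⁻¹ = 1 := mul_nonsing_inv _ (Ne.isUnit hS)
  have h2 : S⁻¹ * S = 1 := nonsing_inv_mul _ (Ne.isUnit hS)
  constructor
  · have h3 : Y = μ • (S * X * S⁻¹) := by rw [← smul_mul_assoc, ← e, mul_assoc, h1, mul_one]
    rw [h3, trace_smul, trace_mul_cycle, h2, one_mul, smul_eq_mul]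
  · have h3 := congrArg det e
    rw [det_mul, det_smul, det_mul, Fintype.card_fin] at h3
    exact mul_right_cancel₀ hS (by linear_combination h3)

theorem k0_dual {Ω Γ : Type} [Field Ω] [Group Γ] {d : ℕ} {R R' : Γ →* Mat d Ω} {β : Mat d Ω}
    (hβ : β.det ≠ 0) {γ : Γ} {μ : Ω} (e : (R' γ)ᵀ * β * R γ = μ • β) :
    (R' γ).trace = μ * (R γ⁻¹).trace ∧ (R' γ).det * (R γ).det = μ ^ d := by
  have h1 : (R' γ)ᵀ * β = μ • (β * R γ⁻¹) := by
    rw [← smul_mul_assoc, ← e, mul_assoc _ (R γ), ← map_mul, mul_inv_cancel, map_one, mul_one]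
  obtain ⟨h2, h3⟩ := k0_conj hβ h1
  rw [trace_transpose] at h2
  rw [det_transpose] at h3
  refine ⟨h2, ?_⟩
  rw [h3, mul_assoc, ← det_mul, ← map_mul, inv_mul_cancel, map_one, det_one, mul_one]

variable {Ω : Type} [Field Ω] [CharZero Ω] [IsAlgClosed Ω] {O : ValuationSubring Ω} {l d : ℕ}
  [NeZero l] {Γ : Type} [Group Γ] {R : (ZMod l)ˣ → Γ →* Mat d Ω}
  {pm : Γ →* Perm (Fin (d + 1))} {nu : Γ →* Ω}

theorem Core.neg_ne (h : Core O l R pm nu) (a : (ZMod l)ˣ) : -a ≠ a := h.odd a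

theorem Core.trace_ne (h : Core O l R pm nu) (a : (ZMod l)ˣ) {s : Γ} (hs : Good (pm s)) :
    (R a s).trace ≠ 0 := by
  intro e
  have h1 := ((h.rp a).lift s).trace_zero e
  rw [trace_Hm _ hs.1] at h1
  exact one_ne_zero (neg_eq_zero.1 h1)

theorem Core.inner_eq (h : Core O l R pm nu) {a b : (ZMod l)ˣ} (k : Inner (R a) (R b)) : a = b := by
  by_contra hab
  obtain ⟨S, hS, k⟩ := k
  obtain ⟨φ, -, v1, -⟩ := h.fr
  obtain ⟨μ, e⟩ := k φ
  obtain ⟨h1, h2⟩ := k0_conj hS e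
  refine v1 a b hab ?_
  rw [h1, h2]
  ring

theorem Core.dual_eq (h : Core O l R pm nu) {a b : (ZMod l)ˣ} (k : Dual (R a) (R b)) : b = -a := by
  by_contra hab
  obtain ⟨β, hβ, k⟩ := k
  obtain ⟨φ, ⟨hφ, -⟩, v1, -⟩ := h.fr
  obtain ⟨μ, e⟩ := k φ
  obtain ⟨h1, h2⟩ := k0_dual hβ e
  obtain ⟨h3, h4⟩ := h.fe φ hφ a
  refine v1 (-a) b (Ne.symm hab) (mul_right_cancel₀ (k0_det (R a) φ) ?_)
  rw [h1, h3, mul_assoc, mul_assoc, h2, mul_comm (R (-a) φ).det, h4]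
  ring

theorem Core.not_sd (h : Core O l R pm nu) (a : (ZMod l)ˣ) :
    ¬ ∀ φ, Cyc (pm φ) → SD (R a φ) (R a φ⁻¹) := by
  intro k
  obtain ⟨φ, ⟨hφ, hc⟩, v1, -⟩ := h.fr
  obtain ⟨μ, h1, h2⟩ := k φ hc
  obtain ⟨h3, h4⟩ := h.fe φ hφ a
  refine v1 (-a) a (h.odd a) (mul_right_cancel₀ (k0_det (R a) φ) ?_)
  rw [h1, h3, mul_assoc, mul_assoc, h2, mul_comm (R (-a) φ).det, h4]
  ring

theorem Core.dual_nu (h : Core O l R pm nu) {a : (ZMod l)ˣ} (k : Dual (R a) (R (-a))) :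
    ∃ β : Mat d Ω, β.det ≠ 0 ∧ ∀ γ, (R (-a) γ)ᵀ * β * R a γ = nu γ • β := by
  obtain ⟨β, hβ, k⟩ := k
  choose μ hμ using k
  have hd := (h.rp a).big.le
  have : Nonempty (Fin d) := ⟨⟨0, by omega⟩⟩
  have h0 : β ≠ 0 := fun e => hβ (by rw [e, det_zero])
  have hi := smul_left_injective Ω h0
  let m : Γ →* Ω :=
    { toFun := μ
      map_one' := hi (by
        have h1 := hμ 1
        rw [map_one, map_one, transpose_one, one_mul, mul_one] at h1
        exact h1.symm.trans (one_smul _ _).symm)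
      map_mul' := fun γ δ => hi (by
        change μ (γ * δ) • β = (μ γ * μ δ) • β
        rw [← hμ, mul_smul, ← hμ δ, ← smul_mul_assoc, ← mul_smul_comm, ← hμ γ, map_mul, map_mul,
          transpose_mul]
        simp only [mul_assoc]) }
  have h1 := hom_trivial pm (h.rp a).big (m.toHomUnits * nu.toHomUnits⁻¹) fun s hs => by
    have h2 := (k0_dual hβ (hμ s)).1
    have h3 := (h.fe s hs a).1
    have h4 := h.trace_ne a (s := s⁻¹) (by rw [map_inv]; exact hs.inv)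
    rw [MonoidHom.mul_apply, MonoidHom.inv_apply, mul_inv_eq_one]
    exact Units.ext (mul_right_cancel₀ h4 (h2.symm.trans h3))
  refine ⟨β, hβ, fun γ => ?_⟩
  have h2 := h1 γ
  rw [MonoidHom.mul_apply, MonoidHom.inv_apply, mul_inv_eq_one] at h2
  have h3 : μ γ = nu γ := congrArg Units.val h2
  rw [hμ, h3]

end Pool.Agent.Lib.MP_d61fbb_ag.SQ
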