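import Pool.Agent.Lib.MP_d61fbb_ag.SQ.U0

/-! Equivariant isomorphisms and the lemmas of Goursat and Ribet. -/

set_option autoImplicit false

noncomputable section

namespace Pool.Agent.Lib.MP_d61fbb_ag.SQ

open Matrix

theorem u2_comm {M : Type} [Monoid M] {a ai b bi S Si X : M} (h1 : ai * a = 1) (h3 : bi * b = 1)
    (h5 : Si * S = 1) (e : S * (a * X * ai) * Si = b * (S * X * Si) * bi) :
    X * (ai * Si * b * S) = ai * Si * b * S * X :=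
  calc X * (ai * Si * b * S) = ai * (Si * S) * a * X * (ai * Si * b * S) := by
        rw [h5, mul_one, h1, one_mul]
    _ = ai * Si * (S * (a * X * ai) * Si) * b * S := by simp only [mul_assoc]
    _ = ai * Si * b * S * X * (Si * (bi * b) * S) := by
        rw [e]
        simp only [mul_assoc]
    _ = _ := by rw [h3, mul_one, h5, mul_one]

variable {Ω : Type} [Field Ω] {d : ℕ} {Γ : Type} [Group Γ] {R R' : Γ →* Mat d Ω}
  {θ : Mat d Ω →ₗ[Ω] Mat d Ω} {S : Mat d Ω}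

theorem u2_inv (R : Γ →* Mat d Ω) (γ : Γ) : R γ⁻¹ * R γ = 1 := by
  rw [← map_mul, inv_mul_cancel, map_one]

theorem u2_inv' (R : Γ →* Mat d Ω) (γ : Γ) : R γ * R γ⁻¹ = 1 := by
  rw [← map_mul, mul_inv_cancel, map_one]

theorem u2_conj (R : Γ →* Mat d Ω) (γ : Γ) {X : Mat d Ω} (h : X ∈ sl Ω d) :
    R γ * X * R γ⁻¹ ∈ sl Ω d := by
  rw [mem_sl, trace_mul_cycle, u2_inv, one_mul]
  exact h

theorem inner_of (he : ∀ γ, ∀ X ∈ sl Ω d, θ (R γ * X * R γ⁻¹) = R' γ * θ X * R' γ⁻¹)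
    (hS : S.det ≠ 0) (h : ∀ X ∈ sl Ω d, θ X * S = S * X) : Inner R R' := by
  have s1 : S * S⁻¹ = 1 := mul_nonsing_inv S hS.isUnit
  have s2 : S⁻¹ * S = 1 := nonsing_inv_mul S hS.isUnit
  have h1 : ∀ X ∈ sl Ω d, θ X = S * X * S⁻¹ := fun X hX => by
    rw [← h X hX, mul_assoc, s1, mul_one]
  refine ⟨S, hS, fun γ => ?_⟩
  obtain ⟨μ, e⟩ := scalar_of_comm (T := R γ⁻¹ * S⁻¹ * R' γ * S) fun X hX =>
    u2_comm (u2_inv R γ) (u2_inv R' γ) s2 (by rw [← h1 _ (u2_conj R γ hX), he γ X hX, h1 X hX])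
  refine ⟨μ, ?_⟩
  calc R' γ * S = S * (R γ * R γ⁻¹) * S⁻¹ * R' γ * S := by rw [u2_inv', mul_one, s1, one_mul]
    _ = S * R γ * (R γ⁻¹ * S⁻¹ * R' γ * S) := by simp only [mul_assoc]
    _ = _ := by rw [e, mul_smul_comm, mul_one]

theorem dual_of (he : ∀ γ, ∀ X ∈ sl Ω d, θ (R γ * X * R γ⁻¹) = R' γ * θ X * R' γ⁻¹)
    (hS : S.det ≠ 0) (h : ∀ X ∈ sl Ω d, θ X * S = -(S * Xᵀ)) : Dual R R' := by
  have s1 : S * S⁻¹ = 1 := mul_nonsing_inv S hS.isUnit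
  have s2 : S⁻¹ * S = 1 := nonsing_inv_mul S hS.isUnit
  have h1 : ∀ X ∈ sl Ω d, θ X = -(S * Xᵀ * S⁻¹) := fun X hX => by
    rw [← neg_mul, ← h X hX, mul_assoc, s1, mul_one]
  refine ⟨S⁻¹ᵀ, ?_, fun γ => ?_⟩
  · rw [det_transpose]
    exact (isUnit_nonsing_inv_det S hS.isUnit).ne_zero
  obtain ⟨μ, e⟩ := scalar_of_comm (T := (R γ)ᵀ * S⁻¹ * R' γ * S) fun X hX => by
    have hX' : Xᵀ ∈ sl Ω d := by rwa [mem_sl, trace_transpose]
    refine u2_comm (a := (R γ⁻¹)ᵀ) ?_ (u2_inv R' γ) s2 (neg_injective ?_)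
    · rw [← transpose_mul, u2_inv, transpose_one]
    · have h2 := he γ _ hX'
      rw [h1 _ (u2_conj R γ hX'), h1 _ hX', transpose_mul, transpose_mul, transpose_transpose,
        ← mul_assoc (R γ⁻¹)ᵀ, mul_neg, neg_mul] at h2
      exact h2
  refine ⟨μ, transpose_injective ?_⟩
  rw [transpose_mul, transpose_mul, transpose_smul, transpose_transpose, transpose_transpose]
  calc (R γ)ᵀ * (S⁻¹ * R' γ) = (R γ)ᵀ * (S⁻¹ * R' γ) * (S * S⁻¹) := by rw [s1, mul_one]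
    _ = (R γ)ᵀ * S⁻¹ * R' γ * S * S⁻¹ := by simp only [mul_assoc]
    _ = _ := by rw [e, smul_mul_assoc, one_mul]

theorem u2_factor {U V W : Type} [AddCommGroup U] [Module Ω U] [AddCommGroup V] [Module Ω V]
    [AddCommGroup W] [Module Ω W] (p : U →ₗ[Ω] V) (q : U →ₗ[Ω] W)
    (h : ∀ x, p x = 0 → q x = 0) : ∃ θ : V →ₗ[Ω] W, ∀ x, θ (p x) = q x := by
  obtain ⟨s, hs⟩ := p.rangeRestrict.exists_rightInverse_of_surjective p.range_rangeRestrict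
  obtain ⟨θ, hθ⟩ := (q ∘ₗ s).exists_extend
  refine ⟨θ, fun x => ?_⟩
  have h1 : θ (p x) = q (s (p.rangeRestrict x)) := LinearMap.congr_fun hθ (p.rangeRestrict x)
  have h2 : p (s (p.rangeRestrict x)) = p x :=
    congrArg Subtype.val (LinearMap.congr_fun hs (p.rangeRestrict x))
  rw [h1, ← sub_eq_zero, ← map_sub]
  exact h _ (by rw [map_sub, h2, sub_self])

variable [CharZero Ω] {A : Type} {g : Submodule Ω (A → Mat d Ω)}

theorem goursat (hbr : Br g) (hsl : ∀ X ∈ g, ∀ a, X a ∈ sl Ω d)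
    (hon : ∀ a, ∀ Y ∈ sl Ω d, ∃ X ∈ g, X a = Y) (a c : A) :
    (∀ Y ∈ sl Ω d, ∃ X ∈ g, X a = Y ∧ X c = 0) ∨
      ∃ θ : Mat d Ω →ₗ[Ω] Mat d Ω, LieIso θ ∧ ∀ X ∈ g, θ (X c) = X a := by
  have h1 := sl_simple (I := (g ⊓ LinearMap.ker (LinearMap.proj c)).map (LinearMap.proj a))
    (by rintro _ ⟨X, hX, rfl⟩; exact hsl X hX.1 a) (by
      rintro X hX _ ⟨Y, hY, rfl⟩
      obtain ⟨X, hX', rfl⟩ := hon a X hX
      have h2 : Y c = 0 := hY.2
      refine ⟨_, ⟨hbr X hX' Y hY.1, ?_⟩, rfl⟩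
      change X c * Y c - Y c * X c = 0
      rw [h2, mul_zero, zero_mul, sub_zero])
  rcases h1 with h1 | h1
  · obtain ⟨θ, hθ⟩ := u2_factor (V := Mat d Ω) (W := Mat d Ω)
      (LinearMap.proj (φ := fun _ : A => Mat d Ω) c ∘ₗ g.subtype)
      (LinearMap.proj (φ := fun _ : A => Mat d Ω) a ∘ₗ g.subtype) fun X hX =>
      (Submodule.eq_bot_iff _).1 h1 _ ⟨X, ⟨X.2, hX⟩, rfl⟩
    have h2 : ∀ X ∈ g, θ (X c) = X a := fun X hX => hθ ⟨X, hX⟩
    have h3 : ∀ X ∈ sl Ω d, θ X ∈ sl Ω d := fun X hX => by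
      obtain ⟨X, hX', rfl⟩ := hon c X hX
      rw [h2 X hX']
      exact hsl X hX' a
    refine .inr ⟨θ, ⟨h3, fun X hX e => ?_, fun X hX Y hY => ?_⟩, h2⟩
    · have h4 : Function.Injective (θ.restrict h3) :=
        LinearMap.injective_iff_surjective.2 fun Y => by
          obtain ⟨X, hX', e⟩ := hon a Y Y.2
          exact ⟨⟨X c, hsl X hX' c⟩, Subtype.ext ((h2 X hX').trans e)⟩
      exact congrArg Subtype.val ((injective_iff_map_eq_zero _).1 h4 ⟨X, hX⟩ (Subtype.ext e))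
    · obtain ⟨X, hX', rfl⟩ := hon c X hX
      obtain ⟨Y, hY', rfl⟩ := hon c Y hY
      rw [h2 X hX', h2 Y hY']
      exact h2 _ (hbr X hX' Y hY')
  · refine .inl fun Y hY => ?_
    obtain ⟨X, hX, e⟩ := h1.ge hY
    exact ⟨X, hX.1, e, hX.2⟩

theorem ribet (hbr : Br g) (a : A) (hon : ∀ Y ∈ sl Ω d, ∃ X ∈ g, X a = Y) (T : Finset A)
    (h : ∀ c ∈ T, ∀ Y ∈ sl Ω d, ∃ X ∈ g, X a = Y ∧ X c = 0) :
    ∀ Y ∈ sl Ω d, ∃ X ∈ g, X a = Y ∧ ∀ c ∈ T, X c = 0 := by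
  classical
  induction T using Finset.induction_on with
  | empty => simpa using hon
  | insert c T _ ih =>
    intro Y hY
    rw [← der_sl two_ne_zero] at hY
    induction hY using Submodule.span_induction with
    | mem Z hZ =>
      obtain ⟨Y1, h1, Y2, h2, rfl⟩ := hZ
      obtain ⟨X1, a1, rfl, b1⟩ := h c (Finset.mem_insert_self c T) Y1 h1
      obtain ⟨X2, a2, rfl, b2⟩ := ih (fun c hc => h c (Finset.mem_insert_of_mem hc)) Y2 h2
      refine ⟨_, hbr X1 a1 X2 a2, rfl, fun c' hc' => ?_⟩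
      change X1 c' * X2 c' - X2 c' * X1 c' = 0
      rcases Finset.mem_insert.1 hc' with rfl | hc'
      · rw [b1, mul_zero, zero_mul, sub_zero]
      · rw [b2 c' hc', mul_zero, zero_mul, sub_zero]
    | zero => exact ⟨0, zero_mem _, rfl, fun _ _ => rfl⟩
    | add Y1 Y2 _ _ h1 h2 =>
      obtain ⟨X1, a1, rfl, b1⟩ := h1
      obtain ⟨X2, a2, rfl, b2⟩ := h2
      exact ⟨X1 + X2, add_mem a1 a2, rfl, fun c hc => by
        rw [Pi.add_apply, b1 c hc, b2 c hc, add_zero]⟩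
    | smul t Y1 _ h1 =>
      obtain ⟨X1, a1, rfl, b1⟩ := h1
      exact ⟨t • X1, g.smul_mem t a1, rfl, fun c hc => by rw [Pi.smul_apply, b1 c hc, smul_zero]⟩

end Pool.Agent.Lib.MP_d61fbb_ag.SQ
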