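import Pool.Agent.Lib.MP_d61fbb_ag.SQ.L1a
import Pool.Agent.Lib.MP_d61fbb_ag.SQ.L1c
import Pool.Agent.Lib.MP_d61fbb_ag.SQ.G1
import Pool.Agent.Lib.MP_d61fbb_ag.SQ.G8
import Pool.Agent.Lib.MP_d61fbb_ag.SQ.L3
import Pool.Agent.Lib.MP_d61fbb_ag.SQ.K0

/-! The trichotomy in characteristic zero. -/

set_option autoImplicit false

noncomputable section

namespace Pool.Agent.Lib.MP_d61fbb_ag.SQ

open Matrix Equiv IsLocalRing

variable {Ω : Type} [Field Ω] [CharZero Ω] {O : ValuationSubring Ω} {d : ℕ} {Γ : Type} [Group Γ]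
  {R : Γ →* Mat d Ω} {pm : Γ →* Perm (Fin (d + 1))} {W V U : Submodule Ω (Mat d Ω)}

theorem trichotomy [IsAlgClosed Ω] (hR : Rq O R pm) (hbr : Br W) (had : Ad R W) :
    (∀ X ∈ W, ∃ c : Ω, X = c • 1) ∨ der W = sl Ω d ∨
      ∀ φ, Cyc (pm φ) → SD (R φ) (R φ⁻¹) := by
  have h1 : (1 : Mat d Ω) ∈ W ⊔ Ω ∙ 1 := Submodule.mem_sup_right (Submodule.mem_span_singleton_self _)
  have dec : ∀ X ∈ W ⊔ Ω ∙ (1 : Mat d Ω), ∃ Y ∈ W, ∃ c : Ω, X = Y + c • 1 := fun X hX => by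
    obtain ⟨Y, hY, Z, hZ, rfl⟩ := Submodule.mem_sup.1 hX
    obtain ⟨c, rfl⟩ := Submodule.mem_span_singleton.1 hZ
    exact ⟨Y, hY, c, rfl⟩
  have hd : ∀ X ∈ W ⊔ Ω ∙ (1 : Mat d Ω), ∀ Y ∈ W ⊔ Ω ∙ (1 : Mat d Ω), X * Y - Y * X ∈ der W :=
    fun X hX Y hY => by
      obtain ⟨X, hX', c, rfl⟩ := dec X hX
      obtain ⟨Y, hY', e, rfl⟩ := dec Y hY
      have : (X + c • 1) * (Y + e • 1) - (Y + e • 1) * (X + c • 1) = X * Y - Y * X := by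
        simp only [add_mul, mul_add, Matrix.mul_smul, Matrix.smul_mul, mul_one, one_mul]
        module
      exact this ▸ br_mem_der hX' hY'
  have hb : Br (W ⊔ Ω ∙ (1 : Mat d Ω)) := fun X hX Y hY =>
    Submodule.mem_sup_left (hbr.der_le (hd X hX Y hY))
  have ha : Ad R (W ⊔ Ω ∙ (1 : Mat d Ω)) := fun γ X hX => by
    obtain ⟨X, hX', c, rfl⟩ := dec X hX
    rw [mul_add, add_mul, Matrix.mul_smul, Matrix.smul_mul, mul_one, ← map_mul, mul_inv_cancel,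
      map_one]
    exact add_mem (Submodule.mem_sup_left (had γ X hX')) (Submodule.smul_mem _ c h1)
  have c1 : ∀ π ∈ pm.range, ∀ X ∈ red O (W ⊔ Ω ∙ 1), Hm _ π * X * Hm _ π⁻¹ ∈ red O (W ⊔ Ω ∙ 1) := by
    rintro _ ⟨γ, rfl⟩ X ⟨M, hM, k⟩
    exact ⟨_, ha γ M hM, map_inv pm γ ▸ ((hR.lift γ).mul k).mul (hR.lift γ⁻¹)⟩
  have c2 : Br (red O (W ⊔ Ω ∙ 1)) :=
    fun X ⟨M, hM, k⟩ Y ⟨M', hM', k'⟩ => ⟨_, hb M hM M' hM', (k.mul k').sub (k'.mul k)⟩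
  have c3 : (1 : Mat d _) ∈ red O (W ⊔ Ω ∙ 1) := ⟨1, h1, Lift.one⟩
  have h4 := hR.big.le
  have s1 : red O (W ⊔ Ω ∙ 1) = ResidueField O ∙ (1 : Mat d (ResidueField O)) →
      ∀ X ∈ W, ∃ c : Ω, X = c • 1 := fun h X hX => by
    obtain ⟨c, e⟩ := Submodule.mem_span_singleton.1
      (scalar_case h1 h ▸ Submodule.mem_sup_left hX)
    exact ⟨c, e.symm⟩
  have s2 : sl (ResidueField O) d ≤ red O (W ⊔ Ω ∙ 1) → der W = sl Ω d := fun h => by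
    refine (le_antisymm ?_ ?_).trans (l1a_eq (O := O) (l1a_sl (W ⊔ Ω ∙ 1)) fun _ ⟨_, hM, k⟩ =>
      der_red_le _ (l1a_mono h ((der_sl3 (by omega)).ge (k.trace_zero hM))))
    · exact Submodule.span_le.2 fun _ ⟨X, hX, Y, hY, e⟩ =>
        e ▸ br_mem_der (Submodule.mem_sup_left hX) (Submodule.mem_sup_left hY)
    · exact Submodule.span_le.2 fun _ ⟨X, hX, Y, hY, e⟩ => e ▸ hd X hX Y hY
  by_cases h2 : (2 : ResidueField O) = 0
  · rcases classify_two h2 hR.dim hR.big c1 c2 c3 with h | h | h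
    · exact Or.inl (s1 h)
    · exact Or.inr (Or.inl (s2 h))
    · refine Or.inr (Or.inr fun φ hφ => sd_of_cycle hR.dim h4
        (by rw [← map_mul, mul_inv_cancel, map_one]) (hφ ?_) (hR.lift φ) (ha φ) h.1 h.2)
      refine Nat.not_even_iff_odd.1 fun ⟨m, hm⟩ => hR.dim ?_
      have := congrArg (Nat.cast : ℕ → ResidueField O) hm
      push_cast at this
      rw [this, ← two_mul, h2, zero_mul]
  have hR' : Rp O R pm := ⟨h2, hR.dim, hR.big, hR.lift⟩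
  rcases classify h2 hR.dim hR.big c1 c2 c3 with h | h | h
  · exact Or.inl (s1 h)
  · obtain ⟨V, U, k⟩ := split_exists hR' h1 hb ha h
    obtain ⟨β, hβ, k⟩ := k.dual hR'
    refine Or.inr (Or.inr fun φ _ => ?_)
    obtain ⟨μ, e⟩ := k φ
    exact ⟨μ, k0_dual hβ e⟩
  · exact Or.inr (Or.inl (s2 h))

end Pool.Agent.Lib.MP_d61fbb_ag.SQ
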