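import Pool.Agent.Lib.MP_d61fbb_ag.SQ.AD

/-! Points and tangent vectors of Zariski closures. -/

set_option autoImplicit false
set_option linter.unusedSectionVars false

noncomputable section

namespace Pool.Agent.Lib.MP_d61fbb_ag.SQ

open Matrix

variable {K n : Type} [Field K] [Fintype n] [DecidableEq n] {S : Set (Matrix n n K)}

theorem pt_mono {S' : Set (Matrix n n K)} (h : S ⊆ S') {g : Matrix n n K} (hg : Pt S g) :
    Pt S' g := fun p hp => hg p fun s hs => hp s (h hs)

theorem pt_self {g : Matrix n n K} (hg : g ∈ S) : Pt S g := fun _ hp => hp g hg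

theorem z1_map {R R' : Type} [CommRing R] [Algebra K R] [CommRing R'] [Algebra K R']
    (ψ : R →ₐ[K] R') {g : Matrix n n R} (hg : Pt S g) : Pt S (g.map ψ) := fun p hp => by
  rw [← aeval_comp_map, hg p hp, map_zero]

theorem z1_line {R R' : Type} [CommRing R] [Algebra K R] [CommRing R'] [Algebra K R']
    (ψ : R →ₐ[K] R') (a : R) (X : Matrix n n K) :
    (1 + a • X.map (algebraMap K R)).map ψ = 1 + ψ a • X.map (algebraMap K R') := by
  ext i j
  simp [one_apply, apply_ite ψ]

theorem z1_tower [CharZero K] (hS : ∀ a ∈ S, ∀ b ∈ S, a * b ∈ S) (h1 : 1 ∈ S) {X : Matrix n n K}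
    (hX : Tangent S X) (h2 : X * X = 0) (N : ℕ) :
    ∃ (R : Type) (_ : CommRing R) (_ : Algebra K R) (a : R),
      Pt S (1 + a • X.map (algebraMap K R)) ∧
        ∀ q : Polynomial K, Polynomial.aeval a q = 0 → ∀ k ≤ N, q.coeff k = 0 := by
  induction N with
  | zero =>
    refine ⟨K, inferInstance, inferInstance, 0, ?_, fun q hq k hk => ?_⟩
    · rw [zero_smul, add_zero]
      exact pt_self h1
    · rw [Nat.le_zero.1 hk, Polynomial.coeff_zero_eq_aeval_zero, hq]
  | succ N ih =>
    obtain ⟨R, _, _, a, h3, h4⟩ := ih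
    refine ⟨DualNumber R, inferInstance, inferInstance,
      algebraMap R (DualNumber R) a + DualNumber.eps, ?_, fun q hq k hk => ?_⟩
    · have h5 := (z1_map (IsScalarTower.toAlgHom K R (DualNumber R)) h3).mul hS
        (hX.pt h1 _ DualNumber.eps_mul_eps)
      rw [z1_line, mul_add, mul_one, add_mul, one_mul, smul_mul_smul_comm, ← Matrix.map_mul, h2,
        Matrix.map_zero _ (map_zero _), smul_zero, add_zero, add_assoc, ← add_smul] at h5
      exact h5
    · rw [Polynomial.aeval_add_of_sq_eq_zero _ _ _ (by rw [sq, DualNumber.eps_mul_eps]),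
        Polynomial.aeval_algebraMap_apply, Polynomial.aeval_algebraMap_apply] at hq
      cases k with
      | zero =>
        refine h4 q ?_ 0 (Nat.zero_le N)
        simpa [TrivSqZeroExt.algebraMap_eq_inl] using congrArg TrivSqZeroExt.fst hq
      | succ k =>
        have h5 := h4 q.derivative
          (by simpa [TrivSqZeroExt.algebraMap_eq_inl] using congrArg TrivSqZeroExt.snd hq) k
          (Nat.le_of_succ_le_succ hk)
        rw [Polynomial.coeff_derivative] at h5
        exact (mul_eq_zero.1 h5).resolve_right (Nat.cast_add_one_ne_zero k)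

theorem pt_one_add [CharZero K] (hS : ∀ a ∈ S, ∀ b ∈ S, a * b ∈ S) (h1 : 1 ∈ S) {X : Matrix n n K}
    (hX : Tangent S X) (h2 : X * X = 0) : Pt S (1 + X) := by
  intro p hp
  have h0 : MvPolynomial.aeval (fun ij : n × n =>
      (1 + (Polynomial.X : Polynomial K) • X.map (algebraMap K (Polynomial K)) :
        Matrix n n (Polynomial K)) ij.1 ij.2) p = 0 := by
    ext k
    obtain ⟨R, _, _, a, h3, h4⟩ := z1_tower hS h1 hX h2 k
    refine h4 _ ?_ k le_rfl
    rw [aeval_comp_map, z1_line, Polynomial.aeval_X]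
    exact h3 p hp
  have h3 := congrArg (Polynomial.aeval (1 : K)) h0
  rw [aeval_comp_map, z1_line, Polynomial.aeval_X, one_smul, map_zero] at h3
  exact h3

theorem z1_norm {R : Type} [CommRing R] [Algebra K R] {s t : Matrix n n K}
    (h : ∀ a ∈ S, s * a * t ∈ S) {g : Matrix n n R} (hg : Pt S g) :
    Pt S (s.map (algebraMap K R) * g * t.map (algebraMap K R)) := fun p hp => by
  rw [← eval_aeval_mul]
  refine hg.ext_scalars _ fun a ha => ?_
  rw [eval_aeval_mul, ← Matrix.map_mul, ← Matrix.map_mul, aeval_alg, hp _ (h a ha), map_zero]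

theorem tangent_norm (h1 : 1 ∈ S) {s t X : Matrix n n K} (hst : s * t = 1)
    (h : ∀ a ∈ S, s * a * t ∈ S) (hX : Tangent S X) : Tangent S (s * X * t) := by
  have h2 := z1_norm h (hX.pt (R := DualNumber K) h1 _ DualNumber.eps_mul_eps)
  refine Pt.tangent (R := DualNumber K) h1 _ DualNumber.eps_mul_eps eps_inj ?_
  rw [mul_add, add_mul, mul_one, ← Matrix.map_mul, hst, mul_smul_comm, smul_mul_assoc,
    ← Matrix.map_mul, ← Matrix.map_mul, Matrix.map_one _ (map_zero _) (map_one _)] at h2
  exact h2

/-- The form transported by two blocks. -/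
def z1F {d : ℕ} {A : Type} (a b : A) (β : Mat d K) {R : Type} [CommRing R] [Algebra K R]
    (g : Matrix (Fin d × A) (Fin d × A) R) : Mat d R :=
  (g.blockDiag b)ᵀ * β.map (algebraMap K R) * g.blockDiag a

theorem z1F_aeval {d : ℕ} {A : Type} (a b : A) (β : Mat d K) {R : Type} [CommRing R]
    [Algebra K R] (g : Matrix (Fin d × A) (Fin d × A) R) (i j : Fin d) :
    MvPolynomial.aeval (fun ij : (Fin d × A) × (Fin d × A) => g ij.1 ij.2)
      (z1F a b β (Matrix.of fun x y => (MvPolynomial.X (x, y) : MvPolynomial _ K)) i j) =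
        z1F a b β g i j := by
  simp [z1F, mul_apply, blockDiag_apply]

theorem tangent_form {d : ℕ} {A : Type} [Fintype A] [DecidableEq A]
    {S : Set (Matrix (Fin d × A) (Fin d × A) K)} (h1 : 1 ∈ S) (a b : A) (β : Mat d K) (hβ : β ≠ 0)
    (h : ∀ s ∈ S, ∃ ν : K, (s.blockDiag b)ᵀ * β * s.blockDiag a = ν • β) {X : A → Mat d K}
    (hX : Tangent S (blockDiagonal X)) : ∃ t : K, (X b)ᵀ * β + β * X a = t • β := by
  obtain ⟨k, l, hkl⟩ : ∃ k l, β k l ≠ 0 := by
    by_contra e
    push Not at e
    exact hβ (Matrix.ext e)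
  have e : z1F a b β (1 + (DualNumber.eps : DualNumber K) •
      (blockDiagonal X).map (algebraMap K (DualNumber K))) = β.map (algebraMap K _) +
        (DualNumber.eps : DualNumber K) • ((X b)ᵀ * β + β * X a).map (algebraMap K _) := by
    rw [z1F, blockDiag_add, blockDiag_smul, blockDiag_one, blockDiag_map, blockDiag_blockDiagonal,
      Matrix.map_add _ (map_add _), Matrix.map_mul, Matrix.map_mul]
    simp only [Pi.add_apply, Pi.smul_apply, Pi.one_apply, transpose_add, transpose_smul,
      transpose_one, add_mul, mul_add, one_mul, mul_one, smul_mul_assoc, mul_smul_comm, smul_smul,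
      DualNumber.eps_mul_eps, zero_smul, add_zero, smul_add, transpose_map, add_assoc]
  refine ⟨((X b)ᵀ * β + β * X a) k l / β k l, Matrix.ext fun i j => ?_⟩
  have h2 := hX.pt (R := DualNumber K) h1 _ DualNumber.eps_mul_eps
    (z1F a b β (Matrix.of fun x y => MvPolynomial.X (x, y)) i j * MvPolynomial.C (β k l) -
      z1F a b β (Matrix.of fun x y => MvPolynomial.X (x, y)) k l * MvPolynomial.C (β i j))
    fun s hs => by
      obtain ⟨ν, hν⟩ := h s hs
      have e1 : z1F a b β s = ν • β := hν
      rw [← MvPolynomial.aeval_eq_eval, map_sub, map_mul, map_mul, z1F_aeval, z1F_aeval, e1]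
      simp only [Matrix.smul_apply, smul_eq_mul, MvPolynomial.aeval_C,
        Algebra.algebraMap_self_apply]
      ring
  rw [map_sub, map_mul, map_mul, z1F_aeval, z1F_aeval, e] at h2
  generalize (X b)ᵀ * β + β * X a = Y at h2 ⊢
  have h3 : Y i j * β k l - Y k l * β i j = 0 := by
    refine eps_inj _ ?_
    simp only [Matrix.add_apply, Matrix.smul_apply, map_apply, smul_eq_mul,
      MvPolynomial.aeval_C] at h2
    rw [map_sub, map_mul, map_mul]
    linear_combination h2
  rw [Matrix.smul_apply, smul_eq_mul, div_mul_eq_mul_div, eq_div_iff hkl]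
  exact sub_eq_zero.1 h3

theorem tangent_block {d : ℕ} {A : Type} [Fintype A] [DecidableEq A]
    {S : Set (Matrix (Fin d × A) (Fin d × A) K)} (h : ∀ s ∈ S, ∃ u, s = blockDiagonal u)
    {X : Matrix (Fin d × A) (Fin d × A) K} (hX : Tangent S X) : X = blockDiagonal X.blockDiag := by
  have h2 := hX.mem_span
  clear hX
  induction h2 using Submodule.span_induction with
  | mem s hs =>
    obtain ⟨u, rfl⟩ := h s hs
    rw [blockDiag_blockDiagonal]
  | zero => rw [blockDiag_zero, blockDiagonal_zero]
  | add x y _ _ hx hy => rw [blockDiag_add, blockDiagonal_add, ← hx, ← hy]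
  | smul c x _ hx => rw [blockDiag_smul, blockDiagonal_smul, ← hx]

end Pool.Agent.Lib.MP_d61fbb_ag.SQ
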