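import Pool.Agent.Lib.MP_d61fbb_ag.SQ.KS
import Pool.Agent.Lib.MP_d61fbb_ag.SQ.Z3

/-! The group of unitary similitudes lies in the closure. -/

set_option autoImplicit false

noncomputable section

namespace Pool.Agent.Lib.MP_d61fbb_ag.SQ

open Matrix Equiv IsLocalRing

variable {Ω : Type} [Field Ω] [CharZero Ω] [IsAlgClosed Ω] {O : ValuationSubring Ω} {l d : ℕ}
  [NeZero l] {Γ : Type} [Group Γ] {R : (ZMod l)ˣ → Γ →* Mat d Ω}
  {pm : Γ →* Perm (Fin (d + 1))} {nu : Γ →* Ω}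

/-- The half system. -/
def kaP (a : (ZMod l)ˣ) : Prop := (a : ZMod l).val < ((-a : (ZMod l)ˣ) : ZMod l).val

instance (a : (ZMod l)ˣ) : Decidable (kaP a) := Nat.decLt _ _

theorem kaP.neg {a : (ZMod l)ˣ} (h : kaP a) : ¬ kaP (-a) := by
  unfold kaP at h ⊢
  rw [neg_neg]
  exact h.not_gt

theorem Core.ka_neg (h : Core O l R pm nu) {a : (ZMod l)ˣ} (k : ¬ kaP a) : kaP (-a) := by
  unfold kaP at k ⊢
  rw [neg_neg]
  exact lt_of_le_of_ne (not_lt.1 k) fun e =>
    h.neg_ne a (Units.ext (ZMod.val_injective l e))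

/-- The eigenvalues of a central family. -/
def kaX (t : (ZMod l)ˣ → Ωˣ) (ν : Ωˣ) (i : (ZMod l)ˣ × Bool) : Ωˣ :=
  if kaP i.1 then (if i.2 then t i.1 else 1) else if i.2 then ν / t (-i.1) else ν

omit [CharZero Ω] [IsAlgClosed Ω] in
theorem kaX_map (χ : Ωˣ →* Ωˣ) (t : (ZMod l)ˣ → Ωˣ) (ν : Ωˣ) (i : (ZMod l)ˣ × Bool) :
    χ (kaX t ν i) = kaX (fun a => χ (t a)) (χ ν) i := by
  unfold kaX
  split_ifs <;> simp

/-- The rank one projectors. -/
def kaE (β : (ZMod l)ˣ → Mat d Ω) (i : Fin d) (c : (ZMod l)ˣ) : Mat d Ω :=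
  if kaP c then single i i 1 else (β (-c) * single i i 1 * (β (-c))⁻¹)ᵀ

/-- The family with given eigenvalues. -/
def kaD (β : (ZMod l)ˣ → Mat d Ω) (i : Fin d) (x : (ZMod l)ˣ × Bool → Ωˣ) (c : (ZMod l)ˣ) :
    Mat d Ω := (x (c, true) : Ω) • kaE β i c + (x (c, false) : Ω) • (1 - kaE β i c)

omit [CharZero Ω] [IsAlgClosed Ω] in
theorem kaD_sum (β : (ZMod l)ˣ → Mat d Ω) (i : Fin d) :
    ∃ π : (ZMod l)ˣ × Bool → Matrix (Fin d × (ZMod l)ˣ) (Fin d × (ZMod l)ˣ) Ω,
      ∀ x : (ZMod l)ˣ × Bool → Ωˣ, ∑ j, (x j : Ω) • π j = blockDiagonal (kaD β i x) := by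
  refine ⟨fun j => blockDiagonal (Pi.single j.1 (if j.2 then kaE β i j.1 else 1 - kaE β i j.1)),
    fun x => ?_⟩
  simp only [← blockDiagonal_smul]
  refine (map_sum (blockDiagonalAddMonoidHom (Fin d) (Fin d) (ZMod l)ˣ Ω) _ _).symm.trans
    (congrArg blockDiagonal (funext fun c => ?_))
  simp [Fintype.sum_prod_type, Pi.single_apply, kaD]

omit [CharZero Ω] [IsAlgClosed Ω] in
theorem kaD_spec {β : (ZMod l)ˣ → Mat d Ω} (hβ : ∀ a, (β a).det ≠ 0) (i : Fin d)
    (t : (ZMod l)ˣ → Ωˣ) (ν : Ωˣ) {a : (ZMod l)ˣ} (ha : kaP a) :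
    (kaD β i (kaX t ν) a).det = t a ∧
      (kaD β i (kaX t ν) (-a))ᵀ * β a * kaD β i (kaX t ν) a = (ν : Ω) • β a := by
  have e1 : kaD β i (kaX t ν) a = (t a : Ω) • single i i 1 + (1 - single i i 1) := by
    simp [kaD, kaX, kaE, ha]
  have e2 : (kaD β i (kaX t ν) (-a))ᵀ * β a =
      β a * ((ν / t a : Ω) • single i i 1 + (ν : Ω) • (1 - single i i 1)) := by
    simp [kaD, kaX, kaE, ha.neg, add_mul, sub_mul, mul_add, mul_sub,
      nonsing_inv_mul_cancel_right _ _ (hβ a).isUnit, -smul_single]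
  constructor
  · have e : kaD β i (kaX t ν) a = diagonal (Pi.mulSingle i (t a : Ω)) := by
      rw [e1]
      ext j k
      by_cases h1 : j = k
      · subst h1
        by_cases h2 : i = j <;> simp [h2]
      · simp [h1, show ¬ (i = j ∧ i = k) from fun e => h1 (e.1.symm.trans e.2)]
    rw [e, det_diagonal, Finset.prod_pi_mulSingle', if_pos (Finset.mem_univ _)]
  · rw [e2, e1, mul_assoc, ← mul_one (β a), ← mul_smul_comm, mul_one]
    congr 1
    have e : (single i i 1 : Mat d Ω) * single i i 1 = single i i 1 := by simp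
    generalize (single i i 1 : Mat d Ω) = E at e
    simp only [add_mul, mul_add, smul_mul_assoc, mul_smul_comm, sub_mul, mul_sub, e, one_mul,
      mul_one, sub_self, smul_zero, smul_smul, smul_add]
    rw [mul_div_cancel₀ _ (t a).ne_zero]
    module

theorem Core.ka_red (h : Core O l R pm nu) {β : (ZMod l)ˣ → Mat d Ω} (hβ : ∀ a, (β a).det ≠ 0)
    (hb : ∀ a γ, (R (-a) γ)ᵀ * β a * R a γ = nu γ • β a) {g k : (ZMod l)ˣ → Mat d Ω} {ν : Ω}
    (h0 : ν ≠ 0) (hg : ∀ a, kaP a → (g (-a))ᵀ * β a * g a = ν • β a)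
    (hk : ∀ a, kaP a → (k a).det = (g a).det ∧ (k (-a))ᵀ * β a * k a = ν • β a)
    (hP : Pt (SS R ⊤) (blockDiagonal k)) : Pt (SS R ⊤) (blockDiagonal g) := by
  have k0 : ∀ a, kaP a → (k (-a)).det ≠ 0 ∧ (k a).det ≠ 0 := fun a ha => by
    have e := congrArg det (hk a ha).2
    rw [det_mul, det_mul, det_transpose, det_smul] at e
    have e' := e ▸ mul_ne_zero (pow_ne_zero _ h0) (hβ a)
    exact ⟨left_ne_zero_of_mul (left_ne_zero_of_mul e'), right_ne_zero_of_mul e'⟩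
  have k1 : ∀ a, IsUnit (k a).det := fun a => by
    by_cases ha : kaP a
    · exact (k0 a ha).2.isUnit
    · simpa using (k0 _ (h.ka_neg ha)).1
  have e : g = fun a => g a * (k a)⁻¹ * k a :=
    funext fun a => (nonsing_inv_mul_cancel_right _ _ (k1 a)).symm
  rw [e, blockDiagonal_mul]
  refine Pt.mul (SS_mul ⊤) (h.su hβ hb fun a ha => ⟨?_, ?_⟩) hP
  · rw [det_mul, ← (hk a ha).1, ← det_mul, mul_nonsing_inv _ (k1 a), det_one]
  · rw [transpose_mul, mul_assoc, mul_assoc, ← mul_assoc (β a), ← mul_assoc (g (-a))ᵀ,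
      ← mul_assoc (g (-a))ᵀ, hg a ha, ← (hk a ha).2, mul_nonsing_inv_cancel_right _ _ (k1 a),
      ← mul_assoc, ← transpose_mul, mul_nonsing_inv _ (k1 _), transpose_one, one_mul]

theorem Core.gu (h : Core O l R pm nu) {β : (ZMod l)ˣ → Mat d Ω} (hβ : ∀ a, (β a).det ≠ 0)
    (hb : ∀ a γ, (R (-a) γ)ᵀ * β a * R a γ = nu γ • β a) {g : (ZMod l)ˣ → Mat d Ω}
    (hg : ∀ a, (g a).det ≠ 0) {ν : Ω} (hν : ∀ a, (g (-a))ᵀ * β a * g a = ν • β a) :
    Pt (SS R ⊤) (blockDiagonal g) := by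
  have hd := (h.rp 1).big.le
  have h0 : ν ≠ 0 := by
    rintro rfl
    have e := congrArg det (hν 1)
    rw [det_mul, det_mul, det_transpose, det_smul, Fintype.card_fin, zero_pow (by omega),
      zero_mul] at e
    exact mul_ne_zero (mul_ne_zero (hg _) (hβ _)) (hg _) e
  obtain ⟨φ, -, -, -, f1, f2⟩ := h.fr
  let t : (ZMod l)ˣ → Ωˣ := fun a => (detMonoidHom.comp (R a)).toHomUnits φ
  let n : Ωˣ := nu.toHomUnits φ
  have ht : ∀ a, (t a : Ω) = (R a φ).det := fun _ => rfl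
  have hn : (n : Ω) = nu φ := rfl
  let i : Fin d := ⟨0, by omega⟩
  obtain ⟨π, hπ⟩ := kaD_sum β i
  obtain ⟨χ, hχ⟩ := exists_char_ext (ι := Option {a : (ZMod l)ˣ // kaP a})
    (fun j => j.elim n fun a => t a) (fun m hm => by
      have e : (∏ a, (R a φ).det ^ (if ha : kaP a then m (some ⟨a, ha⟩) else 0)) *
          nu φ ^ m none = 1 := by
        have e := congrArg Units.val hm
        rw [Fintype.prod_option, mul_comm] at e
        rw [← Fintype.prod_subtype_mul_prod_subtype kaP,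
          Finset.prod_congr rfl fun a _ => by rw [dif_pos a.2],
          Finset.prod_eq_one (s := Finset.univ) (f := fun a : {a : (ZMod l)ˣ // ¬ kaP a} => _)
            fun a _ => by rw [dif_neg a.2, zpow_zero], mul_one]
        simpa [ht, hn] using e
      have m1 : ∀ a, m (some a) = 0 := fun a => by simpa [a.2, a.2.neg] using f1 _ _ e a
      funext j
      rcases j with _ | a
      · by_contra hc
        refine f2 (m none).natAbs (Int.natAbs_pos.2 hc) ?_
        simp only [m1, dite_eq_ite, ite_self, zpow_zero, Finset.prod_const_one, one_mul] at e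
        rw [← zpow_natCast]
        rcases Int.natAbs_eq (m none) with k | k
        · rw [← k, e]
        · rw [← inv_eq_one, ← _root_.zpow_neg, ← k, e]
      · exact m1 a)
    (fun j => j.elim (Units.mk0 ν h0) fun a => Units.mk0 _ (hg a))
  have key := pt_char (S := SS R ⊤) Finset.univ (kaX t n) π (fun N => by
    have e : ∀ j, (kaX t n j : Ω) ^ N = kaX (fun a => t a ^ N) (n ^ N) j := fun j =>
      congrArg Units.val (kaX_map (powMonoidHom N) t n j)
    simp only [e, hπ]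
    refine h.ka_red hβ hb (k := fun a => R a (φ ^ N)) (pow_ne_zero N n.ne_zero)
      (fun a ha => (kaD_spec hβ i _ (n ^ N) ha).2) (fun a ha => ⟨?_, ?_⟩)
      (pt_self ⟨_, trivial, rfl⟩)
    · rw [(kaD_spec hβ i _ _ ha).1, map_pow, det_pow, Units.val_pow_eq_pow_val, ht]
    · rw [hb, map_pow, hn]) χ
  simp only [kaX_map, hπ] at key
  refine h.ka_red hβ hb h0 (fun a _ => hν a) (fun a ha => ?_) key
  have e := kaD_spec hβ i (fun a => χ (t a)) (χ n) ha
  exact ⟨e.1.trans (congrArg Units.val (hχ (some ⟨a, ha⟩))),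
    e.2.trans (congrArg (fun u : Ωˣ => (u : Ω) • β a) (hχ none))⟩

end Pool.Agent.Lib.MP_d61fbb_ag.SQ
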