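import Pool.Agent.Lib.MP_d61fbb_ag.SQ.AD

/-! Generation of the special linear group. -/

set_option autoImplicit false

noncomputable section

namespace Pool.Agent.Lib.MP_d61fbb_ag.SQ

open Matrix

variable {K : Type} [Field K] {d : ℕ}

theorem z2_wh {i o : Fin d} (hio : i ≠ o) {t : K} (ht : t ≠ 0) :
    transvection i o (t - 1) * transvection o i 1 * transvection i o (t⁻¹ - 1) *
      transvection o i (-t) = diagonal fun k => if k = i then t else if k = o then t⁻¹ else 1 := by
  have hoi := hio.symm
  ext a b
  by_cases b1 : b = i
  · subst b1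
    rw [mul_transvection_apply_same, mul_transvection_apply_same,
      mul_transvection_apply_of_ne _ _ a b hio, mul_transvection_apply_same,
      mul_transvection_apply_of_ne _ _ a o hoi]
    by_cases a1 : a = b
    · subst a1
      simp only [transvection, Matrix.add_apply, one_apply_eq, one_apply_ne hio,
        single_apply_same, single_apply_of_col_ne _ _ hoi, diagonal_apply_eq, if_true]
      field_simp
      ring
    · by_cases a2 : a = o
      · subst a2
        simp [transvection, hio, hoi, ht]
      · simp [transvection, hoi, a1, a2, Ne.symm a1]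
  · rw [mul_transvection_apply_of_ne _ _ a b b1]
    by_cases b2 : b = o
    · subst b2
      rw [mul_transvection_apply_same, mul_transvection_apply_same,
        mul_transvection_apply_of_ne _ _ a b hoi]
      by_cases a1 : a = i
      · subst a1
        simp [transvection, hio, hoi]
        field_simp
        ring
      · by_cases a2 : a = b
        · subst a2
          simp [transvection, hio, hoi]
        · simp [transvection, hoi, a1, a2, Ne.symm a1]
    · rw [mul_transvection_apply_of_ne _ _ a b b2, mul_transvection_apply_of_ne _ _ a b b1]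
      by_cases a1 : a = b
      · subst a1
        simp [transvection, b1, b2, Ne.symm b1]
      · simp [transvection, a1, Ne.symm b2]

theorem sl_induction (Q : Mat d K → Prop) (h1 : Q 1) (hm : ∀ M N, Q M → Q N → Q (M * N))
    (ht : ∀ X : Mat d K, X * X = 0 → X.trace = 0 → Q (1 + X)) (M : Mat d K) (hM : M.det = 1) :
    Q M := by
  have hT : ∀ (i j : Fin d) (c : K), i ≠ j → Q (transvection i j c) := fun i j c hij =>
    ht _ (single_mul_single_of_ne c i j i hij.symm c) (trace_single_eq_of_ne i j c hij)
  refine diagonal_transvection_induction Q M (fun D hD => ?_) (fun t => hT t.i t.j t.c t.hij) hm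
  rw [hM, det_diagonal] at hD
  rcases Nat.eq_zero_or_pos d with rfl | hd
  · rwa [Subsingleton.elim (diagonal D) 1]
  have h0 : ∀ i, D i ≠ 0 := fun i h =>
    zero_ne_one ((Finset.prod_eq_zero (Finset.mem_univ i) h).symm.trans hD)
  let o : Fin d := ⟨0, hd⟩
  have key : ∀ s : Finset (Fin d), o ∉ s →
      Q (diagonal fun k => if k = o then (∏ j ∈ s, D j)⁻¹ else if k ∈ s then D k else 1) := by
    intro s
    induction s using Finset.induction_on with
    | empty => intro _; simpa using h1
    | insert i s hi ih =>
      intro ho
      rw [Finset.mem_insert, not_or] at ho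
      have hio : i ≠ o := fun h => ho.1 h.symm
      have h2 := hm _ _ (ih ho.2) (hm _ _ (hm _ _ (hm _ _ (hT i o (D i - 1) hio)
        (hT o i 1 hio.symm)) (hT i o ((D i)⁻¹ - 1) hio)) (hT o i (-D i) hio.symm))
      rw [z2_wh hio (h0 i), diagonal_mul_diagonal] at h2
      convert h2 using 2
      funext k
      by_cases a : k = o
      · subst a
        simp [Finset.prod_insert hi, hio.symm]
      · by_cases b : k = i
        · subst b
          simp [a, hi]
        · simp [a, b]
  convert key (Finset.univ.erase o) (Finset.notMem_erase _ _) using 2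
  funext k
  by_cases a : k = o
  · subst a
    rw [if_pos rfl]
    exact eq_inv_of_mul_eq_one_left
      ((Finset.mul_prod_erase Finset.univ D (Finset.mem_univ _)).trans hD)
  · simp [a]

theorem exists_trace_zero (hd : 2 ≤ d) {M : Mat d K} (hM : M.det ≠ 0) :
    ∃ h : Mat d K, h.det = 1 ∧ (M * h).trace = 0 := by
  have h0 : ∃ h : Mat d K, h.det = 1 ∧ ∃ i j, i ≠ j ∧ (M * h) j i ≠ 0 := by
    by_contra hc
    push Not at hc
    let i : Fin d := ⟨0, by omega⟩
    let j : Fin d := ⟨1, by omega⟩
    have hij : i ≠ j := by simp [i, j]
    have h1 := hc 1 det_one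
    simp only [Matrix.mul_one] at h1
    have h2 := hc _ (det_transvection_of_ne i j hij (1 : K)) j i hij.symm
    rw [mul_transvection_apply_same, h1 j i hij.symm, zero_add, one_mul] at h2
    refine hM (det_eq_zero_of_row_eq_zero i fun k => ?_)
    by_cases a : k = i
    · rw [a, h2]
    · exact h1 k i a
  obtain ⟨h, h1, i, j, hij, h2⟩ := h0
  refine ⟨h * transvection i j (-(M * h).trace / (M * h) j i), ?_, ?_⟩
  · rw [det_mul, h1, det_transvection_of_ne i j hij, one_mul]
  · rw [← Matrix.mul_assoc, transvection, Matrix.mul_add, Matrix.mul_one, trace_add,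
      trace_mul_single, op_smul_eq_mul]
    field_simp
    ring

theorem pt_FF {A : Type} [Fintype A] [DecidableEq A] {S : Set (Matrix (Fin d × A) (Fin d × A) K)}
    {φ h : Matrix (Fin d × A) (Fin d × A) K} (hh : Pt S h) (a b : A)
    (hS : ∀ s ∈ S, FF a b (φ * s) = 0) : FF a b (φ * h) = 0 := by
  let G : Matrix (Fin d × A) (Fin d × A) (MvPolynomial ((Fin d × A) × (Fin d × A)) K) :=
    φ.map MvPolynomial.C * Matrix.of fun i j => MvPolynomial.X (i, j)
  have key : ∀ s : Matrix (Fin d × A) (Fin d × A) K,
      MvPolynomial.eval (fun ij : (Fin d × A) × (Fin d × A) => s ij.1 ij.2)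
        ((G.blockDiag b).trace ^ d * (G.blockDiag a).det ^ (d - 1) -
          (G.blockDiag b).det * (G.blockDiag a).adjugate.trace ^ d) = FF a b (φ * s) := by
    intro s
    generalize hf : MvPolynomial.eval (fun ij : (Fin d × A) × (Fin d × A) => s ij.1 ij.2) = f
    have e : φ * s = G.map f := by
      ext i j
      simp [G, ← hf, mul_apply]
    rw [e, FF, blockDiag_map]
    simp only [map_sub, map_mul, map_pow, RingHom.map_det, AddMonoidHom.map_trace f]
    rw [← RingHom.mapMatrix_apply f (G.blockDiag a).adjugate, RingHom.map_adjugate]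
    rfl
  rw [← key h]
  exact hh _ fun s hs => (key s).trans (hS s hs)

end Pool.Agent.Lib.MP_d61fbb_ag.SQ
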