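import Pool.Agent.Lib.MP_d61fbb_ag.SQ.K1
import Pool.Agent.Lib.MP_d61fbb_ag.SQ.U1
import Pool.Agent.Lib.MP_d61fbb_ag.SQ.U2
import Pool.Agent.Lib.MP_d61fbb_ag.SQ.Z2

/-! The invariant pairing between opposite blocks. -/

set_option autoImplicit false

noncomputable section

namespace Pool.Agent.Lib.MP_d61fbb_ag.SQ

open Matrix Equiv IsLocalRing

variable {Ω : Type} [Field Ω] [CharZero Ω] [IsAlgClosed Ω] {O : ValuationSubring Ω} {l d : ℕ}
  [NeZero l] {Γ : Type} [Group Γ] {R : (ZMod l)ˣ → Γ →* Mat d Ω}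
  {pm : Γ →* Perm (Fin (d + 1))} {nu : Γ →* Ω}

theorem Core.link (h : Core O l R pm nu) (a c : (ZMod l)ˣ) :
    (∀ Y ∈ sl Ω d, ∃ X ∈ der (gg R pm.ker), X a = Y ∧ X c = 0) ∨
      Inner (R c) (R a) ∨ Dual (R c) (R a) := by
  refine (goursat (gg_br pm.ker).der (fun X hX b => der_gg_sl _ hX b) h.onto a c).imp_right ?_
  rintro ⟨θ, h1, h2⟩
  have he : ∀ γ, ∀ X ∈ sl Ω d, θ (R c γ * X * R c γ⁻¹) = R a γ * θ X * R a γ⁻¹ := fun γ X hX => by
    obtain ⟨Y, k, rfl⟩ := h.onto c X hX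
    rw [h2 Y k]
    exact h2 _ (der_gg_ad _ γ k)
  obtain ⟨S, k1, k2⟩ := h1.cases (h.rp a).big.le
  exact k2.imp (inner_of he k1) (dual_of he k1)

theorem Core.pair (h : Core O l R pm nu) (a : (ZMod l)ˣ) :
    ∀ Y ∈ sl Ω d, ∃ X ∈ der (gg R pm.ker), X a = Y ∧ ∀ c, c ≠ a → c ≠ -a → X c = 0 := by
  intro Y hY
  obtain ⟨X, h1, h2, h3⟩ := ribet (gg_br pm.ker).der a (h.onto a)
    (Finset.univ.filter fun c => c ≠ a ∧ c ≠ -a) (fun c hc => by
      obtain ⟨-, k1, k2⟩ := Finset.mem_filter.1 hc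
      exact (h.link a c).resolve_right fun k => k.elim (fun k => k1 (h.inner_eq k))
        fun k => k2 (by rw [h.dual_eq k, neg_neg])) Y hY
  exact ⟨X, h1, h2, fun c k1 k2 => h3 c (Finset.mem_filter.2 ⟨Finset.mem_univ _, k1, k2⟩)⟩

theorem kb_det (S : Γ →* Mat d Ω) (s : Γ) : (S s).det ≠ 0 :=
  (((Group.isUnit s).map S).map detMonoidHom).ne_zero

theorem kb_adj (S : Γ →* Mat d Ω) (s : Γ) :
    (S s).adjugate.trace = (S s).det * (S s⁻¹).trace := by
  have : (S s).adjugate = (S s).det • S s⁻¹ := by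
    rw [← mul_one (S s).adjugate, ← map_one S, ← mul_inv_cancel s, map_mul, ← mul_assoc,
      adjugate_mul, smul_mul, one_mul]
  rw [this, trace_smul, smul_eq_mul]

theorem kb_pt {b : (ZMod l)ˣ} (H : Subgroup Γ)
    (k : ∀ Y ∈ sl Ω d, ∃ X ∈ der (gg R H), X b = Y ∧ ∀ c ∈ Finset.univ.erase b, X c = 0)
    (M : Mat d Ω) (hM : M.det = 1) :
    Pt (SS R H) (blockDiagonal (Function.update 1 b M)) := by
  refine sl_induction (fun M => Pt (SS R H) (blockDiagonal (Function.update 1 b M))) ?_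
    (fun M N k1 k2 => ?_) (fun Y k1 k2 => ?_) M hM
  · rw [show Function.update (1 : (ZMod l)ˣ → Mat d Ω) b 1 = 1 from Function.update_eq_self b 1,
      blockDiagonal_one]
    exact pt_self (SS_one H)
  · have := k1.mul (SS_mul H) k2
    rw [← blockDiagonal_mul] at this
    refine (congrArg (fun u => Pt (SS R H) (blockDiagonal u)) (funext fun c => ?_)).mp this
    by_cases e : c = b <;> simp [e]
  · obtain ⟨X, x1, x2, x3⟩ := k Y k2
    have x4 : ∀ c, c ≠ b → X c = 0 := fun c e => x3 c (by simpa using e)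
    have := pt_one_add (SS_mul H) (SS_one H) (mem_gg.1 ((gg_br H).der_le x1)) (by
      rw [← blockDiagonal_mul, ← blockDiagonal_zero]
      refine congrArg _ (funext fun c => ?_)
      by_cases e : c = b
      · rw [e, x2, k1, Pi.zero_apply]
      · rw [x4 c e, mul_zero, Pi.zero_apply])
    rw [← blockDiagonal_one, ← blockDiagonal_add] at this
    refine (congrArg (fun u => Pt (SS R H) (blockDiagonal u)) (funext fun c => ?_)).mp this
    by_cases e : c = b
    · simp [e, x2]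
    · simp [e, x4 c e]

theorem Core.beta (h : Core O l R pm nu) (a : (ZMod l)ˣ) :
    ∃ β : Mat d Ω, β.det ≠ 0 ∧ ∀ γ, (R (-a) γ)ᵀ * β * R a γ = nu γ • β := by
  refine h.dual_nu (((h.link (-a) a).resolve_left fun k => ?_).resolve_left
    fun k => h.neg_ne a (h.inner_eq k).symm)
  have hd := (h.rp a).big.le
  obtain ⟨φ, ⟨g, -⟩, -⟩ := h.fr
  obtain ⟨M, m1, m2⟩ := exists_trace_zero (by omega) (kb_det (R (-a)) φ)
  have p := kb_pt pm.ker (ribet (gg_br pm.ker).der (-a) (h.onto _) (Finset.univ.erase (-a))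
    fun c hc => by
      by_cases e : c = a
      · exact e ▸ k
      exact (h.link (-a) c).resolve_right fun k => k.elim
        (fun k => Finset.ne_of_mem_erase hc (h.inner_eq k))
        fun k => e (neg_injective (h.dual_eq k)).symm) M m1
  have q := pt_FF (φ := blockDiagonal fun c => R c φ) p a (-a) (by
    rintro _ ⟨γ, hγ, rfl⟩
    obtain ⟨f1, f2⟩ := h.fe (φ * γ) (by rwa [map_mul, MonoidHom.mem_ker.1 hγ, mul_one]) a
    obtain ⟨e, rfl⟩ : ∃ e, d = e + 1 := ⟨d - 1, by omega⟩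
    simp only [← blockDiagonal_mul, FF, blockDiag_blockDiagonal, ← map_mul, kb_adj, f1,
      Nat.add_sub_cancel, mul_pow, ← f2]
    ring)
  simp only [← blockDiagonal_mul, FF, blockDiag_blockDiagonal, Function.update_self, m2,
    Function.update_of_ne (h.neg_ne a).symm, Pi.one_apply, mul_one, kb_adj, det_mul, m1] at q
  rw [zero_pow (by omega), zero_mul, zero_sub, neg_eq_zero] at q
  refine mul_ne_zero (kb_det _ φ) (pow_ne_zero _ (mul_ne_zero (kb_det _ φ) fun e => ?_)) q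
  exact h.trace_ne (-a) g (by rw [(h.fe φ g a).1, e, mul_zero])

end Pool.Agent.Lib.MP_d61fbb_ag.SQ
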