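import Pool.Agent.Lib.MP_d61fbb_ag.SQ.T3

/-! Invariant forms in block coordinates. -/

set_option autoImplicit false

noncomputable section

namespace Pool.Agent.Lib.MP_d61fbb_ag.SQ

open Matrix Equiv IsLocalRing Polynomial

variable {Ω : Type} [Field Ω] {l d : ℕ} [NeZero l] {ζ : Ω}

/-- The change of sign of the block index. -/
def t5s (l d : ℕ) : Perm (Fin d × (ZMod l)ˣ) := (Equiv.refl _).prodCongr (Equiv.neg _)

/-- The matrix with the blocks `β a` at the places `(-a, a)`. -/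
def t5a (β : (ZMod l)ˣ → Mat d Ω) : Matrix (Fin d × (ZMod l)ˣ) (Fin d × (ZMod l)ˣ) Ω :=
  (blockDiagonal β).submatrix (t5s l d) id

theorem t5a_apply (β : (ZMod l)ˣ → Mat d Ω) (i j : Fin d) (a b : (ZMod l)ˣ) :
    t5a β (i, a) (j, b) = if -a = b then β (-a) i j else 0 := rfl

theorem t5a_det {β : (ZMod l)ˣ → Mat d Ω} : (t5a β).det ≠ 0 ↔ ∀ a, (β a).det ≠ 0 := by
  rw [t5a, det_permute, det_blockDiagonal, mul_ne_zero_iff, Finset.prod_ne_zero_iff]
  refine ⟨fun h a => h.2 a (Finset.mem_univ a), fun h => ⟨?_, fun a _ => h a⟩⟩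
  rcases Int.units_eq_one_or (Perm.sign (t5s l d)) with e | e <;> simp [e]

theorem t5a_conj (β E : (ZMod l)ˣ → Mat d Ω) :
    (blockDiagonal E)ᵀ * t5a β * blockDiagonal E = t5a fun a => (E (-a))ᵀ * β a * E a := by
  have e : (blockDiagonal E)ᵀ =
      (blockDiagonal fun a => (E (-a))ᵀ).submatrix (t5s l d) (t5s l d) := by
    ext ⟨i, a⟩ ⟨j, b⟩
    change (if b = a then E b j i else 0) = if -a = -b then E (- -a) j i else 0
    by_cases h : b = a
    · simp [h]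
    · rw [if_neg h, if_neg fun k => h (neg_injective k).symm]
  rw [e, t5a, submatrix_mul_equiv, t5a, blockDiagonal_mul, blockDiagonal_mul,
    submatrix_mul _ (blockDiagonal E) _ id id Function.bijective_id, submatrix_id_id]

theorem t5a_eq {β β' : (ZMod l)ˣ → Mat d Ω} {ν : Ω} :
    t5a β' = ν • t5a β ↔ ∀ a, β' a = ν • β a := by
  constructor
  · intro h a
    ext i j
    simpa [t5a_apply] using congrFun (congrFun h (i, -a)) (j, a)
  · intro h
    ext ⟨i, a⟩ ⟨j, b⟩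
    simp [t5a_apply, h]

theorem t5_det {m n : Type} [Fintype m] [DecidableEq m] [Fintype n] [DecidableEq n]
    {U : Matrix m n Ω} {V : Matrix n m Ω} (h1 : U * V = 1) (h2 : V * U = 1) {X : Matrix m m Ω}
    (hX : X.det ≠ 0) : (Uᵀ * X * U).det ≠ 0 := by
  have e : Uᵀ * X * U * (V * X⁻¹ * Vᵀ) = 1 := by
    rw [Matrix.mul_assoc _ U, Matrix.mul_assoc V, ← Matrix.mul_assoc U, h1, Matrix.one_mul,
      Matrix.mul_assoc _ X, ← Matrix.mul_assoc X, mul_nonsing_inv _ hX.isUnit, Matrix.one_mul,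
      ← transpose_mul, h2, transpose_one]
  have e' := congrArg det e
  rw [det_mul, det_one] at e'
  exact left_ne_zero_of_mul_eq_one e'

theorem t5_cancel {m n : Type} [Fintype m] [DecidableEq m] [Fintype n]
    {U : Matrix m n Ω} {V : Matrix n m Ω} (h1 : U * V = 1) (X : Matrix m m Ω) :
    Vᵀ * (Uᵀ * X * U) * V = X := by
  rw [← Matrix.mul_assoc, ← Matrix.mul_assoc, ← transpose_mul, h1, transpose_one, Matrix.one_mul,
    Matrix.mul_assoc, h1, Matrix.mul_one]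

theorem t5_conj (hζ : IsPrimitiveRoot ζ l) (X : Matrix (Fin d × (ZMod l)ˣ) (Fin d × (ZMod l)ˣ) Ω)
    {g : Matrix (Ix l d) (Ix l d) Ω} (ν : Ω) (hg : g * Zm Ω l d = Zm Ω l d * g) :
    gᵀ * ((Tm ζ l d)ᵀ * X * Tm ζ l d) * g = ν • ((Tm ζ l d)ᵀ * X * Tm ζ l d) ↔
      (blockDiagonal fun a => blk ζ a g)ᵀ * X * (blockDiagonal fun a => blk ζ a g) = ν • X := by
  obtain ⟨T', h1, -⟩ := Tm_inv (d := d) hζ
  have e : gᵀ * ((Tm ζ l d)ᵀ * X * Tm ζ l d) * g = (Tm ζ l d)ᵀ *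
      ((blockDiagonal fun a => blk ζ a g)ᵀ * X * (blockDiagonal fun a => blk ζ a g)) *
        Tm ζ l d := by
    rw [← Matrix.mul_assoc, ← Matrix.mul_assoc, ← transpose_mul, Matrix.mul_assoc, Tm_comm hζ hg,
      transpose_mul]
    simp only [Matrix.mul_assoc]
  rw [e, ← Matrix.smul_mul, ← Matrix.mul_smul]
  exact ⟨fun h => by rw [← t5_cancel h1 (_ * X * _), h, t5_cancel h1], fun h => by rw [h]⟩

theorem t5_pow (hζ : IsPrimitiveRoot ζ l) (a b : (ZMod l)ˣ) :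
    ζ ^ (a : ZMod l).val * ζ ^ (b : ZMod l).val = 1 ↔ -a = b := by
  rw [← pow_add, hζ.pow_eq_one_iff_dvd, ← ZMod.natCast_eq_zero_iff, Nat.cast_add,
    ZMod.natCast_zmod_val, ZMod.natCast_zmod_val, ← neg_eq_iff_add_eq_zero, ← Units.val_neg,
    Units.val_inj]

theorem form_blocks (hζ : IsPrimitiveRoot ζ l) {B : Matrix (Ix l d) (Ix l d) Ω} (hB : B.det ≠ 0)
    (hZ : (Zm Ω l d)ᵀ * B * Zm Ω l d = B) :
    ∃ β : (ZMod l)ˣ → Mat d Ω, (∀ a, (β a).det ≠ 0) ∧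
      ∀ (g : Matrix (Ix l d) (Ix l d) Ω) (ν : Ω), g * Zm Ω l d = Zm Ω l d * g →
        (gᵀ * B * g = ν • B ↔ ∀ a, (blk ζ (-a) g)ᵀ * β a * blk ζ a g = ν • β a) := by
  obtain ⟨T', h1, h2⟩ := Tm_inv (d := d) hζ
  have h3 := t5_det h2 h1 hB
  have h4 := t5_cancel h2 B
  generalize T'ᵀ * B * T' = X at h3 h4
  subst h4
  have h5 := (t5_conj hζ X 1 rfl).1 (by rw [one_smul]; exact hZ)
  simp only [blk_Zm hζ, smul_one_eq_diagonal, blockDiagonal_diagonal, diagonal_transpose,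
    one_smul] at h5
  have h6 : X = t5a fun a => Matrix.of fun i j => X (i, -a) (j, a) := by
    ext ⟨i, a⟩ ⟨j, b⟩
    rw [t5a_apply]
    split_ifs with h
    · rw [of_apply, neg_neg, h]
    · have h7 := congrFun (congrFun h5 (i, a)) (j, b)
      rw [mul_diagonal, diagonal_mul] at h7
      have h8 : (ζ ^ (a : ZMod l).val * ζ ^ (b : ZMod l).val - 1) * X (i, a) (j, b) = 0 := by
        linear_combination h7
      exact (mul_eq_zero.1 h8).resolve_left fun k => h ((t5_pow hζ a b).1 (sub_eq_zero.1 k))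
  generalize (fun a => Matrix.of fun i j => X (i, -a) (j, a)) = β at h6
  subst h6
  exact ⟨β, t5a_det.1 h3, fun g ν hg => by rw [t5_conj hζ _ ν hg, t5a_conj, t5a_eq]⟩

theorem form_of_blocks (hζ : IsPrimitiveRoot ζ l) {β : (ZMod l)ˣ → Mat d Ω}
    (hβ : ∀ a, (β a).det ≠ 0) (ha : ∀ a, β (-a) = -(β a)ᵀ) :
    ∃ B : Matrix (Ix l d) (Ix l d) Ω, B.det ≠ 0 ∧ Bᵀ = -B ∧ (Zm Ω l d)ᵀ * B * Zm Ω l d = B ∧
      ∀ (g : Matrix (Ix l d) (Ix l d) Ω) (ν : Ω), g * Zm Ω l d = Zm Ω l d * g →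
        (∀ a, (blk ζ (-a) g)ᵀ * β a * blk ζ a g = ν • β a) → gᵀ * B * g = ν • B := by
  obtain ⟨T', h1, h2⟩ := Tm_inv (d := d) hζ
  have key : ∀ (g : Matrix (Ix l d) (Ix l d) Ω) (ν : Ω), g * Zm Ω l d = Zm Ω l d * g →
      (∀ a, (blk ζ (-a) g)ᵀ * β a * blk ζ a g = ν • β a) →
      gᵀ * ((Tm ζ l d)ᵀ * t5a β * Tm ζ l d) * g = ν • ((Tm ζ l d)ᵀ * t5a β * Tm ζ l d) :=
    fun g ν hg h => by rwa [t5_conj hζ _ ν hg, t5a_conj, t5a_eq]
  have h3 : (t5a β)ᵀ = -t5a β := by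
    ext ⟨i, a⟩ ⟨j, b⟩
    rw [transpose_apply, Matrix.neg_apply, t5a_apply, t5a_apply]
    by_cases h : -a = b
    · subst h
      simp [ha]
    · rw [if_neg h, if_neg fun k => h (by rw [← k, neg_neg]), neg_zero]
  refine ⟨_, t5_det h1 h2 (t5a_det.2 hβ), ?_, ?_, key⟩
  · rw [transpose_mul, transpose_mul, transpose_transpose, h3, Matrix.neg_mul, Matrix.mul_neg,
      Matrix.mul_assoc]
  · refine (key _ 1 rfl fun a => ?_).trans (one_smul _ _)
    rw [blk_Zm hζ, blk_Zm hζ, transpose_smul, transpose_one, smul_mul_assoc, smul_mul_assoc,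
      mul_smul_comm, one_mul, mul_one, smul_smul, (t5_pow hζ (-a) a).2 (neg_neg a)]

end Pool.Agent.Lib.MP_d61fbb_ag.SQ
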