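import Pool.Agent.Lib.MP_d61fbb_ag.SQ.S1
import Pool.Agent.Lib.MP_d61fbb_ag.SQ.C4

/-! Reduction of points and divisors. -/

set_option autoImplicit false
set_option linter.unusedSectionVars false

noncomputable section

namespace Pool.Agent.Lib.MP_d61fbb_ag.SQ

open Polynomial Function IsLocalRing

variable {k : Type} [Field k] {R : ValuationSubring k} {l : ℕ} {f : k[X]}
  {fb : (ResidueField R)[X]}

/-- The point `P` is integral and reduces to `Q`. -/
def Over (P : Pt l f) (Q : Pt l fb) : Prop :=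
  ∃ x y : R, P.x = x ∧ P.y = y ∧ Q.x = residue R x ∧ Q.y = residue R y

open Classical in
/-- The reduction of divisors; points which are not integral go to zero. -/
def redD (fb : (ResidueField R)[X]) : Dv l f →+ Dv l fb :=
  Finsupp.liftAddHom fun P => zmultiplesHom _
    (if h : ∃ Q : Pt l fb, Over P Q then Finsupp.single h.choose 1 else 0)

/-- The automorphism `a` reduces to `a'`. -/
structure Cpt (a : Au l f) (a' : Au l fb) : Prop where
  mem : ∀ x, a.σ x ∈ R ↔ x ∈ R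
  res : ∀ x y : R, a.σ x = y → a'.σ (residue R x) = residue R y
  w : ∃ w : R, a.w = w ∧ a'.w = residue R w

theorem Over.unique {P : Pt l f} {Q Q' : Pt l fb} (h : Over P Q) (h' : Over P Q') : Q = Q' := by
  obtain ⟨x, y, h1, h2, h3, h4⟩ := h
  obtain ⟨x', y', k1, k2, k3, k4⟩ := h'
  obtain rfl : x = x' := Subtype.ext (h1.symm.trans k1)
  obtain rfl : y = y' := Subtype.ext (h2.symm.trans k2)
  exact Pt.ext (h3.trans k3.symm) (h4.trans k4.symm)

theorem redD_over {P : Pt l f} {Q : Pt l fb} (h : Over P Q) (n : ℤ) :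
    redD fb (Finsupp.single P n) = Finsupp.single Q n := by
  have h1 : ∃ Q : Pt l fb, Over P Q := ⟨Q, h⟩
  rw [redD, Finsupp.liftAddHom_apply_single, zmultiplesHom_apply, dif_pos h1,
    h1.choose_spec.unique h, Finsupp.smul_single, smul_eq_mul, mul_one]

theorem s2_none {P : Pt l f} (h : ¬ ∃ Q : Pt l fb, Over P Q) (n : ℤ) :
    redD fb (Finsupp.single P n) = 0 := by
  rw [redD, Finsupp.liftAddHom_apply_single, zmultiplesHom_apply, dif_neg h, smul_zero]

theorem s2_sum (D : Dv l f) :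
    redD fb D = ∑ P ∈ D.support, redD fb (Finsupp.single P (D P)) := by
  rw [← map_sum]
  exact congrArg _ (Finsupp.sum_single D).symm

theorem redD_not {P : Pt l f} (h : P.x ∉ R) (n : ℤ) : redD fb (Finsupp.single P n) = 0 := by
  refine s2_none ?_ n
  rintro ⟨Q, x, y, h1, -⟩
  exact h (h1 ▸ x.2)

theorem redD_nonneg {D : Dv l f} (h : 0 ≤ D) : 0 ≤ redD fb D := by
  rw [s2_sum]
  refine Finset.sum_nonneg fun P _ => ?_
  by_cases h1 : ∃ Q : Pt l fb, Over P Q
  · obtain ⟨Q, h1⟩ := h1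
    rw [redD_over h1]
    exact Finsupp.single_nonneg.2 (h P)
  · rw [s2_none h1]

theorem redD_eq_zero {D : Dv l f} {Q : Pt l fb} (h : ∀ P, Over P Q → D P = 0) :
    redD fb D Q = 0 := by
  rw [s2_sum, Finsupp.finsetSum_apply]
  refine Finset.sum_eq_zero fun P _ => ?_
  by_cases h1 : ∃ Q : Pt l fb, Over P Q
  · obtain ⟨Q', h1⟩ := h1
    rw [redD_over h1]
    by_cases e : Q' = Q
    · subst e
      rw [Finsupp.single_eq_same, h P h1]
    · exact Finsupp.single_eq_of_ne' e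
  · rw [s2_none h1, Finsupp.zero_apply]

theorem le_redD {D : Dv l f} (h : 0 ≤ D) {P : Pt l f} {Q : Pt l fb} (h' : Over P Q) :
    D P ≤ redD fb D Q := by
  have h1 : 0 ≤ D.erase P := fun P' => by
    by_cases e : P' = P
    · rw [e, Finsupp.erase_same]
      exact le_rfl
    · rw [Finsupp.erase_ne e]
      exact h P'
  have h2 : 0 ≤ redD fb (D.erase P) Q := redD_nonneg h1 Q
  have h3 := congrArg (fun E => redD fb E Q) (Finsupp.single_add_erase P D)
  simp only [map_add, Finsupp.add_apply, redD_over h', Finsupp.single_eq_same] at h3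
  omega

theorem s2_eq (M : Mdl R l f fb) {P : Pt l f} {x y : R} (h1 : P.x = x) (h2 : P.y = y) :
    y ^ l = M.g.eval x := by
  refine Subtype.ext ?_
  have e := eval_map_apply (p := M.g) R.subtype x
  rw [M.h1] at e
  have e2 := P.eq
  rw [h1, h2] at e2
  exact e2.trans e

theorem s2_inv {F : Type} [Field F] {g : F[X]} [h : Sm l g] (a : Au l g) :
    a.w⁻¹ = a.w ^ (l - 1) :=
  inv_eq_of_mul_eq_one_left (by rw [← pow_succ, Nat.sub_add_cancel h.one_lt.le, a.hw])

variable [Sm l f] [Sm l fb] (M : Mdl R l f fb)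

include M in
theorem Mdl.exists_over {P : Pt l f} (h : P.x ∈ R) : ∃ Q : Pt l fb, Over P Q := by
  have hy : P.y ∈ R := by
    refine mem_of_pow_mem (Sm.ne0 (l := l) f) ?_
    have e := eval_map_apply (p := M.g) R.subtype ⟨P.x, h⟩
    rw [M.h1] at e
    rw [P.eq, show f.eval P.x = (M.g.eval ⟨P.x, h⟩ : R) from e]
    exact Subtype.property _
  have h1 := s2_eq M (P := P) (x := ⟨P.x, h⟩) (y := ⟨P.y, hy⟩) rfl rfl
  refine ⟨⟨residue R ⟨P.x, h⟩, residue R ⟨P.y, hy⟩, ?_⟩, ⟨P.x, h⟩, ⟨P.y, hy⟩, rfl, rfl, rfl, rfl⟩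
  rw [← map_pow, h1, ← eval_map_apply, M.h2]

theorem Mdl.ev_up {P : Pt l f} {Q : Pt l fb} {x y : R} (h1 : P.x = x) (h2 : P.y = y)
    (h3 : Q.x = residue R x) (h4 : Q.y = residue R y) : ∃ h : y ^ l = M.g.eval x, ∀ b,
      P.ev (M.up b) = (bev x y h b : R) ∧ Q.ev (M.dn b) = residue R (bev x y h b) :=
  ⟨s2_eq M h1 h2, fun b =>
    ⟨bev_bmap R.subtype 1 M.h1 (one_pow l) _ P.eq h1 ((one_mul _).trans h2) b,
      bev_bmap (residue R) 1 M.h2 (one_pow l) _ Q.eq h3 ((one_mul _).trans h4) b⟩⟩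

theorem Mdl.cpt_rt : Cpt (rt f M.z1) (rt fb M.z2) :=
  ⟨fun _ => Iff.rfl, fun _ _ h => congrArg (residue R) (Subtype.ext h), M.z, rfl, rfl⟩

theorem s2_au {a : Au l f} {a' : Au l fb} (h : Cpt a a') {P : Pt l f} {Q : Pt l fb}
    (h' : Over P Q) : Over (a.P P) (a'.P Q) := by
  obtain ⟨x, y, h1, h2, h3, h4⟩ := h'
  obtain ⟨w, w1, w2⟩ := h.w
  refine ⟨⟨a.σ x, (h.mem x).2 x.2⟩, w ^ (l - 1) * ⟨a.σ y, (h.mem y).2 y.2⟩, ?_, ?_, ?_, ?_⟩
  · rw [Au.P_x, h1]
  · rw [Au.P_y, h2, s2_inv, w1]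
    rfl
  · rw [Au.P_x, h3]
    exact h.res x _ rfl
  · rw [Au.P_y, h4, s2_inv, w2, map_mul, map_pow, h.res y ⟨a.σ y, (h.mem y).2 y.2⟩ rfl]

include M in
theorem Mdl.redD_au {a : Au l f} {a' : Au l fb} (h : Cpt a a') (D : Dv l f) :
    redD fb (a.D D) = a'.D (redD fb D) := by
  induction D using Finsupp.induction_linear with
  | zero => simp only [map_zero]
  | add D E h1 h2 => simp only [map_add, h1, h2]
  | single P n =>
    rw [Au.D_single]
    by_cases h1 : P.x ∈ R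
    · obtain ⟨Q, h2⟩ := M.exists_over h1
      rw [redD_over h2, redD_over (s2_au h h2), Au.D_single]
    · rw [redD_not h1, redD_not fun e => h1 ((h.mem _).1 e), map_zero]

theorem Mdl.redD_nmD (D : Dv l f) : redD fb (nmD M.z1 D) = nmD M.z2 (redD fb D) := by
  have h1 : ∀ j : ℕ, redD fb (((rt f M.z1).D ^ j) D) = ((rt fb M.z2).D ^ j) (redD fb D) := by
    intro j
    induction j with
    | zero => rfl
    | succ j ih =>
      rw [pow_succ', pow_succ']
      exact (M.redD_au M.cpt_rt _).trans (congrArg _ ih)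
  have h2 : nmD M.z1 D = ∑ j ∈ Finset.range l, ((rt f M.z1).D ^ j) D :=
    AddMonoidHom.finsetSum_apply _ _ _
  have h3 : nmD M.z2 (redD fb D) = ∑ j ∈ Finset.range l, ((rt fb M.z2).D ^ j) (redD fb D) :=
    AddMonoidHom.finsetSum_apply _ _ _
  rw [h2, h3, map_sum]
  exact Finset.sum_congr rfl fun j _ => h1 j

variable [IsAlgClosed k] [IsAlgClosed (ResidueField R)]

include M in
theorem Mdl.red_int (a : R) :
    redD fb (dv (pl l f (X - C (a : k)))) = dv (pl l fb (X - C (residue R a))) := by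
  obtain ⟨P, hP⟩ := exists_pt_x (l := l) (f := f) (a : k)
  obtain ⟨Q, hQ⟩ := M.exists_over (P := P) (hP ▸ a.2)
  have h1 : Q.x = residue R a := by
    obtain ⟨x, y, h1, -, h3, -⟩ := hQ
    rw [h3, show x = a from Subtype.ext (h1.symm.trans hP)]
  rw [← hP, ← h1, ← nmD_single M.z1, ← nmD_single M.z2, M.redD_nmD, redD_over hQ]

include M in
theorem Mdl.red_not {a : k} (ha : a ∉ R) : redD fb (dv (pl l f (X - C a))) = 0 := by
  obtain ⟨P, rfl⟩ := exists_pt_x (l := l) (f := f) a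
  rw [← nmD_single M.z1, M.redD_nmD, redD_not ha, map_zero]

end Pool.Agent.Lib.MP_d61fbb_ag.SQ
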