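import Pool.Agent.Lib.MP_d61fbb_ag.SQ.AD

/-! Definitions for the Tate coordinates and the final assembly. -/

set_option autoImplicit false

noncomputable section

namespace Pool.Agent.Lib.MP_d61fbb_ag.SQ

open Matrix Equiv IsLocalRing Polynomial

open scoped NNReal

/-- The index set of the Tate coordinates. -/
abbrev Ix (l d : ℕ) : Type := Fin d × Fin l.totient

/-- The first index. -/
def i0 (l : ℕ) [NeZero l] : Fin l.totient := ⟨0, Nat.totient_pos.2 (NeZero.pos l)⟩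

/-- The matrix of multiplication by the root of unity. -/
def Zm (R : Type) [CommRing R] (l d : ℕ) : Matrix (Ix l d) (Ix l d) R := fun x y =>
  if x.1 = y.1 then
    (if (y.2 : ℕ) + 1 < l.totient then (if (x.2 : ℕ) = y.2 + 1 then 1 else 0)
      else -(((cyclotomic l ℤ).coeff x.2 : ℤ) : R)) else 0

theorem Zm_map {R S : Type} [CommRing R] [CommRing S] (φ : R →+* S) (l d : ℕ) :
    (Zm R l d).map φ = Zm S l d := by
  ext x y
  simp [Zm, apply_ite φ]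

/-- The passage to the eigenspaces. -/
def Tm {Ω : Type} [Field Ω] (ζ : Ω) (l d : ℕ) : Matrix (Fin d × (ZMod l)ˣ) (Ix l d) Ω :=
  fun x y => if x.1 = y.1 then ζ ^ ((x.2 : ZMod l).val * y.2) else 0

/-- The block of a matrix on an eigenspace. -/
def blk {Ω : Type} [Field Ω] {l d : ℕ} [NeZero l] (ζ : Ω) (a : (ZMod l)ˣ) :
    Matrix (Ix l d) (Ix l d) Ω →ₗ[Ω] Mat d Ω where
  toFun M := Matrix.of fun i i' => ∑ j, M (i, j) (i', i0 l) * ζ ^ ((a : ZMod l).val * j)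
  map_add' M N := by
    ext i i'
    simp [add_mul, Finset.sum_add_distrib]
  map_smul' c M := by
    ext i i'
    simp [Finset.mul_sum, mul_assoc]

theorem blk_apply {Ω : Type} [Field Ω] {l d : ℕ} [NeZero l] (ζ : Ω) (a : (ZMod l)ˣ)
    (M : Matrix (Ix l d) (Ix l d) Ω) (i i' : Fin d) :
    blk ζ a M i i' = ∑ j, M (i, j) (i', i0 l) * ζ ^ ((a : ZMod l).val * j) := rfl

/-- The valuation ring of the algebraic closure of `Q_l`. -/
def OO (l : ℕ) [Fact l.Prime] : ValuationSubring (PadicAlgCl l) :=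
  (Valued.v : Valuation (PadicAlgCl l) ℝ≥0).valuationSubring

variable {Γ A : Type} [Group Γ] [AddCommGroup A]

/-- The abstract form of the geometric and arithmetic input. -/
structure Geo (l q d : ℕ) [Fact l.Prime] [NeZero q] (zt : AddMonoid.End A) (P : Fin (d + 1) → A)
    (act : Γ →* AddMonoid.End A) (pm : Γ →* Perm (Fin (d + 1))) (nu : Γ →* ℤ_[l]ˣ) : Prop where
  two_lt : 2 < q
  nd : ¬ l ∣ d + 1
  big : Big pm.range
  comm : ∀ γ, act γ * zt = zt * act γ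
  perm : ∀ γ i, act γ (P i) = P (pm γ i)
  frob : ∀ s, Good (pm s) → ∀ (F : Finset A) (k : ℕ), ∃ (φ : Γ) (b p : ℕ) (c : ℕ → ℤ[X]),
    Subgroup.zpowers (pm s) = Subgroup.zpowers (pm φ) ∧ (∀ x ∈ F, act (s⁻¹ * φ ^ b) x = x) ∧
    ‖(nu (s⁻¹ * φ ^ b) : ℤ_[l]) - 1‖ ≤ ((l : ℝ) ^ k)⁻¹ ∧ (nu φ : ℤ_[l]) = p ∧ 1 < p ∧
    (∀ ζ : PadicAlgCl l, IsPrimitiveRoot ζ q → AP q ζ d p c) ∧
    ∀ (x : A) (N : ℕ), ((1 - zt) ^ N) x = 0 →
      ((1 - zt) * ∑ i ∈ Finset.range (d + 1), aeval zt (c (d - i)) * act φ ^ i) x = 0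

/-- Tate coordinates adapted to the action of the root of unity. -/
structure Tat (l q d : ℕ) [Fact l.Prime] [NeZero q] (zt : AddMonoid.End A) (act : Γ →* AddMonoid.End A)
    (pm : Γ →* Perm (Fin (d + 1))) (nu : Γ →* ℤ_[l]ˣ) (e : (Ix q d → ℚ_[l]) →+ A)
    (ρ : Γ →* Matrix (Ix q d) (Ix q d) ℚ_[l]) (ζ : PadicAlgCl l)
    (R : (ZMod q)ˣ → Γ →* Mat d (PadicAlgCl l)) (nu' : Γ →* PadicAlgCl l) : Prop where
  tate : IsTate e
  rz : Rep e zt (Zm _ q d)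
  rep : ∀ γ, Rep e (act γ) (ρ γ)
  comm : ∀ γ, ρ γ * Zm _ q d = Zm _ q d * ρ γ
  prim : IsPrimitiveRoot ζ q
  hR : ∀ a γ, R a γ = blk ζ a ((ρ γ).map (algebraMap _ _))
  hnu : ∀ γ, nu' γ = algebraMap ℚ_[l] _ ((nu γ : ℤ_[l]) : ℚ_[l])
  lift : ∀ a γ, Lift (OO l) (R a γ) (Hm _ (pm γ))

end Pool.Agent.Lib.MP_d61fbb_ag.SQ
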